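import Pool.Agent.SFP.Fin3

/-!
# Fin4: vanishing of the class group; groups of type (FF)
-/

set_option linter.unusedSectionVars false

namespace Pool.Agent.SFP

open Pool.Agent.Hhelper49.Srr Pool.Agent.Hhelper49.Srf

/-- all finitely generated projective `ℤ[G]`-modules are stably free: the reduced projective class group of `ℤ[G]`
vanishes -/
def KVanish (G : Type) [Group G] : Prop :=
  ∀ (P : Type) [AddCommGroup P] [Module (MonoidAlgebra ℤ G) P],
    Module.Finite (MonoidAlgebra ℤ G) P → Module.Projective (MonoidAlgebra ℤ G) P → StFree G P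

theorem kVanish_retract {G K : Type} [Group G] [Group K] (κ : G →* K) (r : K →* G)
    (hr : ∀ g, r (κ g) = g) (h : KVanish K) : KVanish G := by
  intro P _ _ h1 h2
  have hκ : Function.Injective κ := by
    intro a b hab
    rw [← hr a, ← hr b, hab]
  obtain ⟨N, _, _, hN⟩ := exists_ind κ hκ P h1 h2
  obtain ⟨hN1, hN2⟩ := ind_proj hκ P N hN h1 h2
  have h3 := (ff_iff_stFree K N hN2).2 (h N hN1 hN2)
  exact (ff_iff_stFree G P h2).1 (desc_ret κ r hr P N h1 h2 hN h3)

theorem kVanish_of_prod (G : Type) [Group G] (h : KVanish (G × FreeGroup (Fin 1))) : KVanish G :=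
  kVanish_retract (MonoidHom.inl G _) (MonoidHom.fst G _) (fun _ => rfl) h

/-- the three forms of Serre's question -/
theorem serre_tfae : List.TFAE [∀ (G : Type) [Group G], TypeFP G → TypeFF G,
    ∀ (G : Type) [Group G], TypeFP G → KVanish G,
    ∀ (G : Type) [Group G], TypeFF G → KVanish G] := by
  tfae_have 1 ↔ 2 := serre_iff
  tfae_have 2 → 3 := by
    intro h G _ hG
    exact h G (typeFP_of_fp G (fp_of_ff (ff_of_typeFF G hG)))
  tfae_have 3 → 2 := by
    intro h G _ hG
    exact kVanish_of_prod G (h _ (typeFF_prod G hG))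
  tfae_finish

/-- the three forms of Serre's question for finitely presented groups -/
theorem serre_tfae_fpres : List.TFAE [
    ∀ (G : Type) [Group G], Group.IsFinitelyPresented G → TypeFP G → TypeFF G,
    ∀ (G : Type) [Group G], Group.IsFinitelyPresented G → TypeFP G → KVanish G,
    ∀ (G : Type) [Group G], Group.IsFinitelyPresented G → TypeFF G → KVanish G] := by
  tfae_have 1 ↔ 2 := serre_iff_fpres
  tfae_have 2 → 3 := by
    intro h G _ hGp hG
    exact h G hGp (typeFP_of_fp G (fp_of_ff (ff_of_typeFF G hG)))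
  tfae_have 3 → 2 := by
    intro h G _ hGp hG
    have : Group.IsFinitelyPresented (G × FreeGroup (Fin 1)) := prod_fpres _ _
    exact kVanish_of_prod G (h _ this (typeFF_prod G hG))
  tfae_finish

end Pool.Agent.SFP
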