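import Pool.Agent.SFP.Fin1
import Pool.Agent.Hhelper49.Srf.Prod

/-!
# Fin2: the pointwise theorem for groups of type (FP) and the equivalence
-/

set_option linter.unusedSectionVars false

namespace Pool.Agent.SFP

open Pool.Agent.Hhelper49.Srr Pool.Agent.Hhelper49.Srf

theorem exists_ind {H Γ : Type} [Group H] [Group Γ] (κ : H →* Γ) (hκ : Function.Injective κ)
    (P : Type) [AddCommGroup P] [Module (MonoidAlgebra ℤ H) P]
    (hP1 : Module.Finite (MonoidAlgebra ℤ H) P) (hP2 : Module.Projective (MonoidAlgebra ℤ H) P) :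
    ∃ (N : Type) (_ : AddCommGroup N) (_ : Module (MonoidAlgebra ℤ Γ) N), Induced κ P N := by
  obtain ⟨n, f, hf⟩ := Module.Finite.exists_fin' (MonoidAlgebra ℤ H) P
  obtain ⟨s, hs⟩ := Module.projective_lifting_property f LinearMap.id hf
  have hfs : ∀ p, f (s p) = p := fun p => LinearMap.congr_fun hs p
  obtain ⟨π, hπ⟩ := isInd_free κ hκ n
  let g : (Fin n → MonoidAlgebra ℤ H) →ₗ[MonoidAlgebra ℤ H] (Fin n → MonoidAlgebra ℤ H) :=
    LinearMap.id - s ∘ₗ f
  have hg : ∀ v, g v = v - s (f v) := fun v => rfl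
  obtain ⟨F, hF⟩ := isInd_lift hπ n g
  have h1 := isInd_ker hπ hπ g F hF
  let e : P →ₗ[MonoidAlgebra ℤ H] LinearMap.ker g :=
    LinearMap.codRestrict (LinearMap.ker g) s (by
      intro p
      rw [LinearMap.mem_ker, hg, hfs, sub_self])
  have he : Function.Bijective e := by
    constructor
    · intro a b hab
      have h2 : s a = s b := congrArg Subtype.val hab
      rw [← hfs a, ← hfs b, h2]
    · rintro ⟨v, hv⟩
      rw [LinearMap.mem_ker, hg, sub_eq_zero] at hv
      exact ⟨f v, Subtype.ext hv.symm⟩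
  exact ⟨LinearMap.ker F, inferInstance, inferInstance,
    ind_iso _ _ _ _ h1 (LinearEquiv.ofBijective e he).symm (LinearEquiv.refl _ _)⟩

theorem typeFF_prod (G : Type) [Group G] (hG : TypeFP G) : TypeFF (G × FreeGroup (Fin 1)) := by
  have h1 : FreeRes (1 * 0) G := by
    rw [mul_zero, freeRes_iff]
    exact ⟨0, inferInstance, inferInstance⟩
  have h2 := (prod_freeRes G hG 0 1).2 h1
  rw [freeRes_iff] at h2
  exact typeFF_of_ff _ (ff_iso (LinearEquiv.funUnique (Fin 1) (MonoidAlgebra ℤ _) (Triv _)) h2)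

/-- every finitely generated projective module over a group of type (FP) is a finiteness obstruction -/
theorem point_fp (G : Type) [Group G] (hG : TypeFP G) (P : Type) [AddCommGroup P]
    [Module (MonoidAlgebra ℤ G) P] (hP1 : Module.Finite (MonoidAlgebra ℤ G) P)
    (hP2 : Module.Projective (MonoidAlgebra ℤ G) P) :
    ∃ (R : Type) (_ : Group R) (i : G →* R) (r : R →* G), (∀ g, r (i g) = g) ∧ TypeFP R ∧
      ∀ m, FreeRes m R ↔ StFree G (Fin m → P) := by
  set κ : G →* G × FreeGroup (Fin 1) := MonoidHom.inl G _ with hκd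
  have hκ : Function.Injective κ := fun a b h => congrArg Prod.fst h
  obtain ⟨N, _, _, hN⟩ := exists_ind κ hκ P hP1 hP2
  obtain ⟨hN1, hN2⟩ := ind_proj hκ P N hN hP1 hP2
  obtain ⟨R, _, i, r, h1, h2, h3⟩ := point_ff _ (typeFF_prod G hG) N hN1 hN2
  refine ⟨R, inferInstance, i.comp κ, (MonoidHom.fst G (FreeGroup (Fin 1))).comp r, ?_, h2, ?_⟩
  · intro g
    change (r (i (κ g))).1 = g
    rw [h1]
    rfl
  · intro m
    have hPm : FP (MonoidAlgebra ℤ G) (Fin m → P) :=
      fp_pi (fun _ : Fin m => P) fun _ => ⟨0, hP1, hP2⟩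
    rw [h3 m]
    have h4 : FF (MonoidAlgebra ℤ (G × FreeGroup (Fin 1))) (Fin m → N) ↔
        FF (MonoidAlgebra ℤ G) (Fin m → P) := by
      constructor
      · intro h
        exact ind_reduce hκ (Fin m → P) _ (desc_ret κ (MonoidHom.fst G (FreeGroup (Fin 1)))
          (fun g => rfl)) hPm (ind_pi _ _ m hN) h
      · intro h
        exact ind_ff hκ _ _ (ind_pi _ _ m hN) h
    rw [h4]
    have hproj : Module.Projective (MonoidAlgebra ℤ G) (Fin m → P) := by
      obtain ⟨n, f, hf⟩ := Module.Finite.exists_fin' (MonoidAlgebra ℤ G) P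
      obtain ⟨s, hs⟩ := Module.projective_lifting_property f LinearMap.id hf
      have hfs : ∀ p, f (s p) = p := fun p => LinearMap.congr_fun hs p
      refine Module.Projective.of_split (P := Fin m → P) (M := Fin m → Fin n → MonoidAlgebra ℤ G)
        (s.compLeft (Fin m)) (f.compLeft (Fin m)) ?_
      apply LinearMap.ext
      intro v
      funext j
      exact hfs (v j)
    exact ff_iff_stFree G _ hproj

theorem stFree_one (G : Type) [Group G] (P : Type) [AddCommGroup P] [Module (MonoidAlgebra ℤ G) P] :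
    StFree G (Fin 1 → P) ↔ StFree G P := by
  have e : (Fin 1 → P) ≃ₗ[MonoidAlgebra ℤ G] P := LinearEquiv.funUnique (Fin 1) _ P
  constructor
  · rintro ⟨a, b, ⟨f⟩⟩
    exact ⟨a, b, ⟨(LinearEquiv.prodCongr e.symm (LinearEquiv.refl _ _)).trans f⟩⟩
  · rintro ⟨a, b, ⟨f⟩⟩
    exact ⟨a, b, ⟨(LinearEquiv.prodCongr e (LinearEquiv.refl _ _)).trans f⟩⟩

theorem typeFF_iff (G : Type) [Group G] : TypeFF G ↔ FreeRes 1 G := by
  constructor
  · exact freeRes_of_typeFF G
  · intro h
    rw [freeRes_iff] at h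
    exact typeFF_of_ff _ (ff_iso (LinearEquiv.funUnique (Fin 1) (MonoidAlgebra ℤ _) (Triv _)) h)

theorem ff_of_fp_of_k0 (G : Type) [Group G] (h : ∀ (P : Type) [AddCommGroup P]
    [Module (MonoidAlgebra ℤ G) P], Module.Finite (MonoidAlgebra ℤ G) P →
      Module.Projective (MonoidAlgebra ℤ G) P → StFree G P) (n : ℕ) :
    ∀ (M : Type) [AddCommGroup M] [Module (MonoidAlgebra ℤ G) M], FPl (MonoidAlgebra ℤ G) n M →
      FF (MonoidAlgebra ℤ G) M := by
  induction n with
  | zero =>
    intro M _ _ hM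
    exact (ff_iff_stFree G M hM.2).2 (h M hM.1 hM.2)
  | succ n ih =>
    intro M _ _ hM
    obtain ⟨k, f, hf, hk⟩ := hM
    exact ff_coker (LinearMap.ker f).subtype f (Submodule.injective_subtype _) hf
      (Submodule.range_subtype _) (ih _ hk) (ff_pow k)

/-- Serre's question is equivalent to the vanishing of the reduced projective class groups -/
theorem serre_iff :
    (∀ (G : Type) [Group G], TypeFP G → TypeFF G) ↔
      ∀ (G : Type) [Group G], TypeFP G → ∀ (P : Type) [AddCommGroup P]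
        [Module (MonoidAlgebra ℤ G) P], Module.Finite (MonoidAlgebra ℤ G) P →
          Module.Projective (MonoidAlgebra ℤ G) P → StFree G P := by
  constructor
  · intro h G _ hG P _ _ h1 h2
    obtain ⟨R, _, i, r, -, h3, h4⟩ := point_fp G hG P h1 h2
    rw [← stFree_one, ← h4 1, ← typeFF_iff]
    exact h R h3
  · intro h G _ hG
    obtain ⟨n, hn⟩ := fp_of_typeFP G hG
    exact typeFF_of_ff G (ff_of_fp_of_k0 G (h G hG) n _ hn)

end Pool.Agent.SFP
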