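import Pool.Agent.SFP.Ind

/-!
# Module BaseQ: `ℤ[H / Q]` is induced from the trivial module

`IsInd κ i π` (helper49's Srf/Base.lean) : see there.  `N = ℤ[H] ⧸ J`, `J` the left ideal generated by the `1 - q a`.
`i : Triv G →+ N`, `n ↦ n • [1]`; `π : N →+ Triv G` is induced by the additive map `ℤ[H] →+ ℤ`, `h ↦ 1` if `h ∈ q.range`, `0`
otherwise (it is invariant under `h ↦ h q a`, hence vanishes on `J`, whose elements are sums of `b (1 - q a)`).
`equi`: `act (kap g) [1] = [q (g, 1)] = [1]`.  `span`: `N` is additively generated by the `[h]`, and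
`[h] = [h q (1, ofAdd (-k))]`, where `ofAdd k = χ h`, and `h q (1, ofAdd (-k))` is in the kernel of `χ`.
`proj`: `π (act (kap g) (i m)) = m`.  `projz`: if `r ∈ χ.ker`, `r ∈ q.range`, `r = q (g, k)`, then `k = χ r = 1`, so
`r ∈ (kap q χ hχ).range`; so for `r ∉ (kap ..).range` `π (act r (i m)) = 0`.
-/

set_option linter.unusedSectionVars false

namespace Pool.Agent.SFP

open Pool.Agent.Hhelper49.Srr Pool.Agent.Hhelper49.Srf

theorem bq_single (b : ℤ) {H : Type} [Group H] (h : H) :
    (MonoidAlgebra.single h b : ZG H) = b • of' h := by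
  simp

/-- the indicator function of a subgroup, extended linearly -/
noncomputable def bqE {H : Type} [Group H] (K : Subgroup H) : ZG H →+ ℤ := by
  classical
  exact MonoidAlgebra.liftNC (AddMonoidHom.id ℤ) (fun h => if h ∈ K then (1 : ℤ) else 0)

theorem bqE_of {H : Type} [Group H] (K : Subgroup H) [DecidablePred (· ∈ K)] (h : H) :
    bqE K (of' h) = if h ∈ K then 1 else 0 := by
  classical
  unfold bqE
  rw [of', MonoidAlgebra.of_apply, MonoidAlgebra.liftNC_single]
  simp

theorem bqE_mul {H : Type} [Group H] (K : Subgroup H) {k : H} (hk : k ∈ K) (b : ZG H) :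
    bqE K (b * of' k) = bqE K b := by
  classical
  induction b using MonoidAlgebra.induction_linear with
  | zero => rw [zero_mul]
  | add x y hx hy => rw [add_mul, map_add, hx, hy, map_add]
  | single h n =>
    rw [bq_single, smul_mul_assoc, map_zsmul, map_zsmul, ← map_mul]
    congr 1
    rw [bqE_of, bqE_of]
    congr 1
    rw [Subgroup.mul_mem_cancel_right K hk]

theorem base_ind {G H : Type} [Group G] [Group H] (q : G × Multiplicative ℤ →* H)
    (χ : H →* Multiplicative ℤ) (hχ : ∀ a, χ (q a) = a.2) (J : Submodule (ZG H) (ZG H))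
    (hJ : J = Submodule.span (ZG H) {b | ∃ a, b = 1 - of' (q a)}) :
    Induced (kap q χ hχ) (Triv G) (Pull χ.ker.subtype (ZG H ⧸ J)) := by
  classical
  have hmem : ∀ (b : ZG H) a, b * (1 - of' (q a)) ∈ J := by
    intro b a
    rw [hJ]
    exact Submodule.smul_mem _ b (Submodule.subset_span ⟨a, rfl⟩)
  have hker : ∀ x ∈ J, bqE q.range x = 0 := by
    intro x hx
    have key : ∀ b : ZG H, bqE q.range (b * x) = 0 := by
      rw [hJ] at hx
      induction hx using Submodule.span_induction with
      | mem x hx =>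
        obtain ⟨a, rfl⟩ := hx
        intro b
        rw [mul_sub, mul_one, map_sub, bqE_mul q.range ⟨a, rfl⟩ b, sub_self]
      | zero =>
        intro b
        rw [mul_zero, map_zero]
      | add x y _ _ hx hy =>
        intro b
        rw [mul_add, map_add, hx, hy, add_zero]
      | smul c x _ hx =>
        intro b
        rw [smul_eq_mul, ← mul_assoc]
        exact hx (b * c)
    have h1 := key 1
    rwa [one_mul] at h1
  -- the projection
  obtain ⟨π0, hπ0⟩ : ∃ π0 : (ZG H ⧸ J) →+ ℤ, ∀ b, π0 (J.mkQ b) = bqE q.range b := by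
    refine ⟨QuotientAddGroup.lift J.toAddSubgroup (bqE q.range) (fun x hx => hker x hx), ?_⟩
    intro b
    rfl
  let i : Triv G →+ Pull χ.ker.subtype (ZG H ⧸ J) :=
    (zmultiplesHom (ZG H ⧸ J) (J.mkQ 1) : ℤ →+ ZG H ⧸ J)
  let π : Pull χ.ker.subtype (ZG H ⧸ J) →+ Triv G := π0
  have hi : ∀ m : Triv G, (i m).un = (show ℤ from m) • J.mkQ 1 := fun m => rfl
  have hact : ∀ (r : χ.ker) (m : Triv G), (act r (i m)).un = (show ℤ from m) • J.mkQ (of' (r : H)) := by
    intro r m
    rw [Pull.act_apply, hi, act, smul_comm]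
    congr 1
    change J.mkQ (of' (r : H) * 1) = _
    rw [mul_one]
  have hq : ∀ (u : H) a, J.mkQ (of' (u * q a)) = J.mkQ (of' u) := by
    intro u a
    have h1 := hmem (of' u) a
    rw [mul_sub, mul_one, ← map_mul] at h1
    have h2 : J.mkQ (of' u - of' (u * q a)) = 0 := (Submodule.Quotient.mk_eq_zero J).2 h1
    rw [map_sub, sub_eq_zero] at h2
    exact h2.symm
  have hone : J.mkQ (of' (1 : H)) = J.mkQ 1 := by rw [of', map_one]
  have hequi : ∀ (g : G) (m : Triv G), i (act g m) = act (kap q χ hχ g) (i m) := by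
    intro g m
    rw [act_triv]
    have h1 := hact (kap q χ hχ g) m
    rw [kap_coe] at h1
    have h2 := hq 1 (g, 1)
    rw [one_mul, hone] at h2
    rw [h2] at h1
    exact h1.symm
  have hπi : ∀ m : Triv G, π (i m) = m := by
    intro m
    have h1 : π0 ((show ℤ from m) • J.mkQ 1) = (show ℤ from m) := by
      rw [map_zsmul, ← hone, hπ0, bqE_of, if_pos (Subgroup.one_mem _), smul_eq_mul, mul_one]
    exact h1
  refine ⟨i, π, ⟨hequi, ?_, ?_, ?_⟩⟩
  · intro n
    obtain ⟨b, hb⟩ := Submodule.mkQ_surjective J n.un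
    have h1 : n = Pull.mk χ.ker.subtype (J.mkQ b) := hb.symm
    rw [h1]
    clear h1 hb
    induction b using MonoidAlgebra.induction_linear with
    | zero =>
      have h2 : Pull.mk χ.ker.subtype (J.mkQ 0) = 0 := by rw [map_zero]; rfl
      rw [h2]
      exact AddSubgroup.zero_mem _
    | add x y hx hy =>
      have h2 : Pull.mk χ.ker.subtype (J.mkQ (x + y)) =
          Pull.mk χ.ker.subtype (J.mkQ x) + Pull.mk χ.ker.subtype (J.mkQ y) := by
        rw [map_add]
        rfl
      rw [h2]
      exact AddSubgroup.add_mem _ hx hy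
    | single h k =>
      apply AddSubgroup.subset_closure
      have h3 : h * q (1, (χ h)⁻¹) ∈ χ.ker := by
        rw [MonoidHom.mem_ker, map_mul, hχ, mul_inv_cancel]
      refine ⟨⟨h * q (1, (χ h)⁻¹), h3⟩, (show Triv G from k), ?_⟩
      have h4 := hact ⟨h * q (1, (χ h)⁻¹), h3⟩ (show Triv G from k)
      simp only [hq] at h4
      have h5 : J.mkQ (MonoidAlgebra.single h k) = k • J.mkQ (of' h) := by
        rw [bq_single, map_zsmul]
      rw [h5]
      exact h4.symm
  · intro g m
    rw [← hequi, hπi]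
  · intro g m hg
    have h1 : π0 ((show ℤ from m) • J.mkQ (of' (g : H))) = 0 := by
      rw [map_zsmul, hπ0, bqE_of, if_neg, smul_zero]
      rintro ⟨⟨a, k⟩, ha⟩
      apply hg
      have h2 : χ (g : H) = 1 := g.2
      rw [← ha, hχ] at h2
      simp only at h2
      refine ⟨a, Subtype.ext ?_⟩
      rw [kap_coe, ← ha, h2]
    rw [← hact] at h1
    exact h1

end Pool.Agent.SFP
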