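import Pool.Agent.SFP.Defs

/-!
# Module EncT: vectors over a group ring as signed sums of at least two terms

Call a vector `a : Fin n → ZG Q` good if it is `∑_(i < k) ± x_i e_(g_i)` for some `k` and some terms.  `0` is good (`k = 0`), the sum
of two good vectors is good (concatenate, `Fin.append` or `finSumFinEquiv`), and `± of' x` at the coordinate `g` is good
(`k = 1`); so all vectors are good: `a = ∑_g Pi.single g (a g)`, and every element of `ZG Q` is a sum of elements `± of' x`
(`MonoidAlgebra` induction, `Int` induction).  (It may be easier to work with lists of triples and their sum, and to convert at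
the end with `List.get`.)
To get `2 ≤ k`: let `v` be a vector with `n ≥ 1`, `g : Fin n`: `v = v + (of' 1 e_g) + (- of' 1 e_g)`; if a good expression of `v` has `k` terms
then this has `k + 2` terms.  (`j` in the theorem is an element of `Fin n`, so `n ≥ 1`.)
-/

set_option linter.unusedSectionVars false

namespace Pool.Agent.SFP

open Pool.Agent.Hhelper49.Srr

namespace EncTAux

variable {Q : Type} [Group Q] {n : ℕ}

/-- a signed term at the coordinate `l` -/
noncomputable def term (l : Fin n) (t : Fin n × Q × Bool) : ZG Q :=
  if t.1 = l then ((if t.2.2 then -1 else 1 : ℤ) • of' t.2.1 : ZG Q) else 0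

lemma term_neg (l : Fin n) (t : Fin n × Q × Bool) : term l (t.1, t.2.1, !t.2.2) = -term l t := by
  obtain ⟨g, x, b⟩ := t
  by_cases h : g = l
  · cases b <;> simp [term, h]
  · simp [term, h]

/-- the signed sums of terms -/
def Good (n : ℕ) (Q : Type) [Group Q] : AddSubgroup (Fin n → ZG Q) where
  carrier := {v | ∃ L : List (Fin n × Q × Bool), ∀ l, v l = (L.map (term l)).sum}
  zero_mem' := ⟨[], fun l => by simp⟩
  add_mem' := by
    rintro v w ⟨L, hL⟩ ⟨L', hL'⟩
    refine ⟨L ++ L', fun l => ?_⟩
    rw [List.map_append, List.sum_append, Pi.add_apply, hL, hL']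
  neg_mem' := by
    rintro v ⟨L, hL⟩
    refine ⟨L.map fun t => (t.1, t.2.1, !t.2.2), fun l => ?_⟩
    rw [Pi.neg_apply, hL, List.map_map]
    clear hL
    have h1 : (term l ∘ fun t : Fin n × Q × Bool => (t.1, t.2.1, !t.2.2)) =
        fun t => -term l t := funext fun t => term_neg l t
    rw [h1]
    induction L with
    | nil => simp
    | cons a L ih => rw [List.map_cons, List.map_cons, List.sum_cons, List.sum_cons, neg_add, ih]

lemma single_mem (g : Fin n) (r : ZG Q) : (Pi.single g r : Fin n → ZG Q) ∈ Good n Q := by
  have h : r ∈ (Good n Q).comap (AddMonoidHom.single (fun _ : Fin n => ZG Q) g) := by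
    induction r using MonoidAlgebra.induction_on with
    | of x =>
      refine ⟨[(g, x, false)], fun l => ?_⟩
      by_cases hl : g = l
      · subst hl
        simp [term]
      · simp [term, hl, Ne.symm hl]
    | add a b ha hb => exact AddSubgroup.add_mem _ ha hb
    | smul z a ha => exact AddSubgroup.zsmul_mem _ ha z
  exact h

lemma all_good (v : Fin n → ZG Q) : ∃ L : List (Fin n × Q × Bool),
    ∀ l, v l = (L.map (term l)).sum := by
  have h : v ∈ Good n Q := by
    rw [← Finset.univ_sum_single v]
    exact sum_mem fun g _ => single_mem g (v g)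
  exact h

end EncTAux

open EncTAux

theorem exists_terms {Q : Type} [Group Q] {n : ℕ} (j : Fin n) (a : Fin n → ZG Q) :
    ∃ (k : ℕ) (tg : Fin k → Fin n) (tx : Fin k → Q) (ts : Fin k → Bool), 2 ≤ k ∧
      ∀ l, a l = ∑ i : Fin k, if tg i = l then ((if ts i then -1 else 1 : ℤ) • of' (tx i) : ZG Q) else 0 := by
  obtain ⟨L, hL⟩ := all_good a
  set L' : List (Fin n × Q × Bool) := (j, 1, false) :: (j, 1, true) :: L with hL'
  refine ⟨L'.length, fun i => (L'.get i).1, fun i => (L'.get i).2.1, fun i => (L'.get i).2.2,
    by simp [hL'], fun l => ?_⟩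
  have h1 : a l = (L'.map (term l)).sum := by
    rw [hL, hL', List.map_cons, List.map_cons, List.sum_cons, List.sum_cons]
    have h2 : term l (j, (1 : Q), true) = -term l (j, (1 : Q), false) :=
      term_neg l (j, (1 : Q), false)
    rw [h2, add_neg_cancel_left]
  have h3 : L'.map (term l) = List.ofFn fun i => term l (L'.get i) := by
    conv_lhs => rw [← List.ofFn_get L']
    rw [List.map_ofFn]
    rfl
  rw [h1, h3, List.sum_ofFn]
  rfl

end Pool.Agent.SFP
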