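import Pool.Agent.SFP.EncS
import Pool.Agent.SFP.EncT

/-!
# Enc: every matrix over `ℤ[Q]` is encoded by data
-/

set_option linter.unusedSectionVars false

namespace Pool.Agent.SFP

open Pool.Agent.Hhelper49.Srr

theorem enc {Q : Type} [Group Q] (n : ℕ) (A : Fin n → Fin n → ZG Q) :
    ∃ (Gm Rl Sl : Type) (_ : Fintype Gm) (_ : DecidableEq Gm) (_ : Fintype Rl) (_ : DecidableEq Rl)
      (_ : Fintype Sl) (_ : DecidableEq Sl) (D : Dat Q Gm Rl Sl),
      ∀ (B : Type) [Ring B] (φ : ZG Q →+* B),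
        (Function.Injective (mulA φ A) → Function.Injective (relM φ D)) ∧
        Nonempty (((Gm → B) ⧸ LinearMap.range (relM φ D)) ≃ₗ[B]
          ((Fin n → B) ⧸ LinearMap.range (mulA φ A))) := by
  have h := fun j => exists_terms j (A j)
  choose m tg tx ts hm hA using h
  let tg' : Tm m → Fin n := fun t => tg t.1 t.2
  let tx' : Tm m → Q := fun t => tx t.1 t.2
  let ts' : Tm m → Bool := fun t => ts t.1 t.2
  refine ⟨Fin n ⊕ Tm m, Fin n ⊕ Tm m, Tm m ⊕ (Tm m × Bool), inferInstance, inferInstance, inferInstance,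
    inferInstance, inferInstance, inferInstance, encD m tg' tx' ts' hm, ?_⟩
  intro B _ φ
  exact ⟨enc_inj m tg' tx' ts' hm A (fun j l => hA j l) B φ,
    enc_iso m tg' tx' ts' hm A (fun j l => hA j l) B φ⟩

end Pool.Agent.SFP
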