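import Pool.Agent.SFP.Alg
import Pool.Agent.Hhelper49.Srr.Cls
import Pool.Agent.Hhelper49.Srr.ClsP

/-!
# Module Restr: restriction to a subgroup

`Pull κ T` is the `ℤ[Γ]`-module `T` regarded as a `ℤ[H]`-module through `κ : H →* Γ` (helper49's Srf/Base.lean;
`Pull.act_apply`, `Pull.mk`, `Pull.un`); `mkLin`, `mkEquiv` (Srr/GMod.lean) make linear maps from additive equivariant maps.

(1) `cls23_ff`, `cls23_fp`: `ff_iso`, `ff_ext`, `ff_coker`, `ff_ker`, `fp_*` (Srr/Cls, Srr/ClsP); `zero`: `⟨0, _, _⟩`, a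
subsingleton module is finite and free.
(2) `cls23_pull`: a `ℤ[Γ]`-linear map `f : L → M` is also a `ℤ[H]`-linear map `Pull κ L → Pull κ M` (`mkLin`), injective,
surjective, with the same kernel and range; linear equivalences give linear equivalences.
(3) `cyc_restr`: `χ u = ofAdd 1`, `R = χ.ker`.  The map `ℤ[R] → ℤ[H] → ℤ[H] / (1 - u)`, `r ↦ [r]` is `ℤ[R]`-linear.  Surjective:
`[h] = [h u^(-k)]` for all `k ∈ ℤ` (`[h u] = [h]`), take `k = χ h`.  Injective: let `π : ℤ[H] →+ ℤ[R]` be the additive map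
`h ↦ h u^(-χ h)` (this element is in the kernel of `χ`); `π (h u) = π h`, so `π (b (1 - u)) = 0` for all `b`, and `π r = r` for
`r ∈ R`.
-/

set_option linter.unusedSectionVars false

namespace Pool.Agent.SFP

open Pool.Agent.Hhelper49.Srr Pool.Agent.Hhelper49.Srf

theorem cls23_ff (R : Type) [Ring R] : Cls23 R (fun M _ _ => FF R M) where
  zero _ _ _ _ := ⟨0, inferInstance, inferInstance⟩
  iso e h := ff_iso e h
  ext f g hf hg hfg h1 h2 := ff_ext f g hf hg hfg h1 h2
  coker f g hf hg hfg h1 h2 := ff_coker f g hf hg hfg h1 h2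
  ker f g hf hg hfg h1 h2 := ff_ker f g hf hg hfg h1 h2

theorem cls23_fp (R : Type) [Ring R] : Cls23 R (fun M _ _ => FP R M) where
  zero _ _ _ _ := ⟨0, inferInstance, inferInstance⟩
  iso e h := fp_iso e h
  ext f g hf hg hfg h1 h2 := fp_ext f g hf hg hfg h1 h2
  coker f g hf hg hfg h1 h2 := fp_coker f g hf hg hfg h1 h2
  ker f g hf hg hfg h1 h2 := fp_ker f g hf hg hfg h1 h2

section
variable {H Γ : Type} [Group H] [Group Γ] (κ : H →* Γ)

/-- a linear map over `ℤ[Γ]` as a linear map over `ℤ[H]` -/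
noncomputable def pullLin {L M : Type} [AddCommGroup L] [Module (ZG Γ) L] [AddCommGroup M]
    [Module (ZG Γ) M] (f : L →ₗ[ZG Γ] M) : Pull κ L →ₗ[ZG H] Pull κ M :=
  mkLin (A := Pull κ L) (B := Pull κ M) (show L →+ M from f.toAddMonoidHom) (by
    intro h a
    change f (act h a).un = (act h (Pull.mk κ (f a.un))).un
    rw [Pull.act_apply, Pull.act_apply, lin_act]
    rfl)

theorem pullLin_apply {L M : Type} [AddCommGroup L] [Module (ZG Γ) L] [AddCommGroup M]
    [Module (ZG Γ) M] (f : L →ₗ[ZG Γ] M) (a : Pull κ L) : pullLin κ f a = Pull.mk κ (f a.un) := rfl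

theorem pullLin_range {L M N : Type} [AddCommGroup L] [Module (ZG Γ) L] [AddCommGroup M]
    [Module (ZG Γ) M] [AddCommGroup N] [Module (ZG Γ) N] {f : L →ₗ[ZG Γ] M} {g : M →ₗ[ZG Γ] N}
    (h : LinearMap.range f = LinearMap.ker g) :
    LinearMap.range (pullLin κ f) = LinearMap.ker (pullLin κ g) := by
  ext x
  have h1 : x.un ∈ LinearMap.range f ↔ x.un ∈ LinearMap.ker g := by rw [h]
  exact h1

end

theorem cls23_pull {H Γ : Type} [Group H] [Group Γ] (κ : H →* Γ)
    {C : ∀ (M : Type) [AddCommGroup M] [Module (ZG H) M], Prop} (hC : Cls23 (ZG H) C) :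
    Cls23 (ZG Γ) (fun M _ _ => C (Pull κ M)) where
  zero M _ _ hM := hC.zero (Pull κ M) hM
  iso {M N} _ _ _ _ e h := hC.iso (M := Pull κ M) (N := Pull κ N)
    (LinearEquiv.ofBijective (pullLin κ e.toLinearMap) e.bijective) h
  ext f g hf hg hfg h1 h2 := hC.ext (pullLin κ f) (pullLin κ g) hf hg (pullLin_range κ hfg) h1 h2
  coker f g hf hg hfg h1 h2 :=
    hC.coker (pullLin κ f) (pullLin κ g) hf hg (pullLin_range κ hfg) h1 h2
  ker f g hf hg hfg h1 h2 := hC.ker (pullLin κ f) (pullLin κ g) hf hg (pullLin_range κ hfg) h1 h2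

section
variable {H : Type} [Group H] (χ : H →* Multiplicative ℤ) (u : H)
    (hu : χ u = Multiplicative.ofAdd 1)

include hu in
theorem chi_zpow (k : ℤ) : χ (u ^ k) = Multiplicative.ofAdd k := by
  rw [map_zpow, hu, ← ofAdd_zsmul, smul_eq_mul, mul_one]

/-- the retraction `h ↦ h u^(-χ h)` to the kernel -/
def krPr (h : H) : χ.ker := ⟨h * u ^ (-(Multiplicative.toAdd (χ h))), by
  rw [MonoidHom.mem_ker, map_mul, chi_zpow χ u hu, ofAdd_neg, ofAdd_toAdd, mul_inv_cancel]⟩

theorem krPr_mul (h : H) : krPr χ u hu (h * u) = krPr χ u hu h := by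
  apply Subtype.ext
  change h * u * u ^ (-(Multiplicative.toAdd (χ (h * u)))) = h * u ^ (-(Multiplicative.toAdd (χ h)))
  rw [map_mul, hu, toAdd_mul, toAdd_ofAdd, neg_add, mul_assoc]
  congr 1
  rw [← zpow_one_add]
  congr 1
  ring

theorem krPr_ker (r : χ.ker) : krPr χ u hu r = r := by
  apply Subtype.ext
  change (r : H) * u ^ (-(Multiplicative.toAdd (χ r))) = r
  have h1 : χ r = 1 := r.2
  rw [h1, toAdd_one, neg_zero, zpow_zero, mul_one]

/-- the additive extension of `krPr` -/
noncomputable def krP : ZG H →+ ZG χ.ker :=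
  MonoidAlgebra.liftNC (Int.castAddHom (ZG χ.ker)) (fun h => of' (krPr χ u hu h))

theorem krP_single (h : H) (n : ℤ) :
    krP χ u hu (MonoidAlgebra.single h n) = (n : ZG χ.ker) * of' (krPr χ u hu h) :=
  MonoidAlgebra.liftNC_single _ _ _ _

/-- the inclusion of the group rings -/
noncomputable def krE : ZG χ.ker →ₐ[ℤ] ZG H :=
  MonoidAlgebra.lift ℤ (ZG H) χ.ker ((MonoidAlgebra.of ℤ H).comp χ.ker.subtype)

theorem krE_single (r : χ.ker) (n : ℤ) :
    krE χ (MonoidAlgebra.single r n) = MonoidAlgebra.single (r : H) n := by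
  rw [krE, MonoidAlgebra.lift_single]
  simp

theorem krP_krE (r : ZG χ.ker) : krP χ u hu (krE χ r) = r := by
  induction r using MonoidAlgebra.induction_linear with
  | zero => rw [map_zero, map_zero]
  | add x y hx hy => rw [map_add, map_add, hx, hy]
  | single g n =>
    rw [krE_single, krP_single, krPr_ker, ← zsmul_eq_mul]
    simp [MonoidAlgebra.of_apply]

theorem krP_mul (b : ZG H) : krP χ u hu (b * (1 - of' u)) = 0 := by
  induction b using MonoidAlgebra.induction_linear with
  | zero => rw [zero_mul, map_zero]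
  | add x y hx hy => rw [add_mul, map_add, hx, hy, add_zero]
  | single h n =>
    have h1 : (MonoidAlgebra.single h n : ZG H) * (1 - of' u) =
        MonoidAlgebra.single h n - MonoidAlgebra.single (h * u) n := by
      rw [mul_sub, mul_one, of', MonoidAlgebra.of_apply, MonoidAlgebra.single_mul_single, mul_one]
    rw [h1, map_sub, krP_single, krP_single, krPr_mul, sub_self]

theorem mk_mul (h : H) : (Submodule.Quotient.mk (of' (h * u)) :
    ZG H ⧸ Submodule.span (ZG H) {1 - of' u}) = Submodule.Quotient.mk (of' h) := by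
  rw [Submodule.Quotient.eq]
  have h1 : (of' (h * u) - of' h : ZG H) = (-(of' h)) • (1 - of' u) := by
    rw [smul_eq_mul, of', map_mul]
    noncomm_ring
  rw [h1]
  exact Submodule.smul_mem _ _ (Submodule.mem_span_singleton_self _)

theorem mk_zpow (h : H) (k : ℤ) : (Submodule.Quotient.mk (of' (h * u ^ k)) :
    ZG H ⧸ Submodule.span (ZG H) {1 - of' u}) = Submodule.Quotient.mk (of' h) := by
  induction k using Int.induction_on generalizing h with
  | zero => rw [zpow_zero, mul_one]
  | succ k ih => rw [zpow_add_one, ← mul_assoc, mk_mul, ih]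
  | pred k ih => rw [← mk_mul u, mul_assoc, ← zpow_add_one, sub_add_cancel, ih]

end

theorem cyc_restr {H : Type} [Group H] (χ : H →* Multiplicative ℤ) (u : H)
    (hu : χ u = Multiplicative.ofAdd 1) :
    Nonempty (ZG χ.ker ≃ₗ[ZG χ.ker] Pull χ.ker.subtype (ZG H ⧸ Submodule.span (ZG H) {1 - of' u})) := by
  classical
  let T := ZG H ⧸ Submodule.span (ZG H) {1 - of' u}
  let one : Pull χ.ker.subtype T := Pull.mk χ.ker.subtype (Submodule.Quotient.mk 1)
  let Φ : ZG χ.ker →ₗ[ZG χ.ker] Pull χ.ker.subtype T := LinearMap.toSpanSingleton _ _ one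
  have hΦ : ∀ r : ZG χ.ker, (Φ r).un = Submodule.Quotient.mk (krE χ r) := by
    intro r
    induction r using MonoidAlgebra.induction_linear with
    | zero => rw [map_zero, map_zero]; rfl
    | add x y hx hy => rw [map_add, map_add, Pull.un_add, hx, hy, Submodule.Quotient.mk_add]
    | single g n =>
      have h1 : Φ (MonoidAlgebra.single g n) = (MonoidAlgebra.single g n : ZG χ.ker) • one := rfl
      have h2 : ∀ (m : ℤ) (t : Pull χ.ker.subtype T), (m • t).un = m • t.un := fun m t => rfl
      rw [h1, single_smul, h2, Pull.act_apply, krE_single]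
      change n • (act (g : H) (Submodule.Quotient.mk 1 : T)) = _
      rw [← single_smul, ← Submodule.Quotient.mk_smul, smul_eq_mul, mul_one]
  refine ⟨LinearEquiv.ofBijective Φ ⟨?_, ?_⟩⟩
  · rw [injective_iff_map_eq_zero]
    intro r hr
    have h1 : (Submodule.Quotient.mk (krE χ r) : T) = 0 := by
      rw [← hΦ, hr]
      rfl
    rw [Submodule.Quotient.mk_eq_zero, Submodule.mem_span_singleton] at h1
    obtain ⟨b, hb⟩ := h1
    rw [← krP_krE χ u hu r, ← hb, smul_eq_mul, krP_mul]
  · intro x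
    obtain ⟨b, hb⟩ := Submodule.Quotient.mk_surjective _ x.un
    have key : ∀ b : ZG H, ∃ r, (Φ r).un = Submodule.Quotient.mk b := by
      intro b
      induction b using MonoidAlgebra.induction_linear with
      | zero => exact ⟨0, by rw [map_zero]; rfl⟩
      | add x y hx hy =>
        obtain ⟨r, hr⟩ := hx
        obtain ⟨s, hs⟩ := hy
        exact ⟨r + s, by rw [map_add, Pull.un_add, hr, hs, Submodule.Quotient.mk_add]⟩
      | single h n =>
        refine ⟨MonoidAlgebra.single (krPr χ u hu h) n, ?_⟩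
        rw [hΦ, krE_single]
        have h3 : ∀ h' : H, (MonoidAlgebra.single h' n : ZG H) = n • of' h' := by
          intro h'
          simp [MonoidAlgebra.of_apply]
        rw [h3, h3, Submodule.Quotient.mk_smul, Submodule.Quotient.mk_smul]
        congr 1
        exact mk_zpow u h _
    obtain ⟨r, hr⟩ := key b
    exact ⟨r, hr.trans hb⟩

end Pool.Agent.SFP
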