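import Pool.Agent.SFP.Ind

/-!
# Module UInd: the module `U = ℤ[H]^n / ℤ[H]^n (t - e)` is induced from `P`

`φ = MonoidAlgebra.mapDomainRingHom ℤ q : ℤ[G × ℤ] →+* ℤ[H]`, `A = matA f s`, `f ∘ s = id`, `U = (Fin n → ℤ[H]) ⧸ range (mulA φ A)`,
`R = χ.ker`, `κ = kap q χ hχ : G →* R`, `U` is regarded as `ℤ[R]`-module (`Pull χ.ker.subtype U`); `IsInd` in helper49's
Srf/Base.lean.  Write `[e_l]` for the class of `Pi.single l 1`, `ι = φ ∘ inG : ℤ[G] → ℤ[H]`, `t = q (1, ofAdd 1)`.
In `U`: `t [e_j] = ∑_l ι (s (f e_j) l) [e_l]` (the image of `e_j` under `mulA φ A` is zero).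
(1) `i : P →+ U`, `i p = ∑_l ι (s p l) [e_l]`.  It is additive, `i (g p) = κ g • i p` (`s` is linear), and `t i p = i p`:
`t i p = ∑_l ι (s p l) t [e_l] = ∑_l ι (s p l) ∑_k ι (s (f e_l) k) [e_k] = ∑_k ι (s (f (s p)) k) [e_k] = i p`
(`t` commutes with `ι`; `s (f (s p)) = ∑_l (s p l) • s (f e_l)`).
Also `t [e_j] = i (f e_j)`, so `[e_j] = t⁻¹ i (f e_j) = i (f e_j)`.
(2) `π : U →+ P`: let `θ : ℤ[H] →+ ℤ[G]` be the additive map `h ↦ g` if `h = q (g, k)` (`q` is injective), `h ↦ 0` if `h ∉ q.range`.
Then `θ (b φ(x)) = θ b * pr x`, where `pr : ℤ[G × ℤ] → ℤ[G]` is induced by `MonoidHom.fst` (check on group elements), and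
`θ (q (g, 1) b) = g θ b`.  Define `π [b] = ∑_l θ (b l) • f e_l` (`f e_l = f (Pi.single l 1)`); well defined: for
`b = mulA φ A a`: `b l = ∑_j a j φ (A j l)`, `pr (A j l) = δ_(j l) - s (f e_j) l`, so
`π = ∑_j θ (a j) • (f e_j - f (s (f e_j))) = 0` (`∑_l (v l) • f e_l = f v`).
`π (i p) = ∑_l (s p l) • f e_l = f (s p) = p`; more generally `π (q (g, 1) i p) = g • p` (`proj`).
(3) `span`: `U` is additively generated by the `h [e_l] = h i (f e_l)`, and `h = r t^k` with `r ∈ R` (`ofAdd k = χ h`), so
`h [e_l] = r i (f e_l)`.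
(4) `projz`: let `r ∈ R`, `r ∉ κ.range`.  Then `r q a ∉ q.range` for all `a` (if `r = q (g, k)`, then `k = χ r = 1`), so `θ (r b) = 0` for
`b` in the range of `φ`, so `π (r i p) = 0`.
-/

set_option linter.unusedSectionVars false

namespace Pool.Agent.SFP

open Pool.Agent.Hhelper49.Srr Pool.Agent.Hhelper49.Srf

section
variable {G H : Type} [Group G] [Group H] (q : G × Multiplicative ℤ →* H)

/-- the ring homomorphism induced by `q` -/
noncomputable abbrev ui_phi : ZG (G × Multiplicative ℤ) →+* ZG H := MonoidAlgebra.mapDomainRingHom ℤ q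

theorem ui_phi_of (a : G × Multiplicative ℤ) : ui_phi q (of' a) = of' (q a) := by
  change MonoidAlgebra.mapDomain q (MonoidAlgebra.single a 1) = MonoidAlgebra.single (q a) 1
  exact MonoidAlgebra.mapDomain_single

/-- the projection of `ℤ[G × ℤ]` to `ℤ[G]` -/
noncomputable def ui_pr (G : Type) [Group G] : ZG (G × Multiplicative ℤ) →+* ZG G :=
  MonoidAlgebra.mapDomainRingHom ℤ (MonoidHom.fst G (Multiplicative ℤ))

theorem ui_pr_of (a : G × Multiplicative ℤ) : ui_pr G (of' a) = of' a.1 := by
  change MonoidAlgebra.mapDomain (MonoidHom.fst G (Multiplicative ℤ)) (MonoidAlgebra.single a 1) =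
    MonoidAlgebra.single a.1 1
  exact MonoidAlgebra.mapDomain_single

theorem ui_pr_inG (x : ZG G) : ui_pr G (inG G x) = x := by
  refine eb_hom_ext ((ui_pr G).toAddMonoidHom.comp (inG G).toAddMonoidHom) (AddMonoidHom.id _)
    (fun g => ?_) x
  change ui_pr G (inG G (of' g)) = of' g
  rw [inG_of, ui_pr_of]

/-- `q (g, k) ↦ g`, the other elements go to `0` -/
theorem ui_theta (hq : Function.Injective q) : ∃ θ : ZG H →+ ZG G,
    (∀ a, θ (of' (q a)) = of' a.1) ∧ (∀ h, h ∉ q.range → θ (of' h) = 0) := by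
  classical
  obtain ⟨θ, hθ⟩ := eb_ext (fun h : H => if hh : ∃ a, q a = h then (of' hh.choose.1 : ZG G) else 0)
  refine ⟨θ, fun a => ?_, fun h hh => ?_⟩
  · have h1 : ∃ b, q b = q a := ⟨a, rfl⟩
    rw [hθ, dif_pos h1, hq h1.choose_spec]
  · rw [hθ, dif_neg (fun h1 => hh (by obtain ⟨a, ha⟩ := h1; exact ⟨a, ha⟩))]

theorem ui_theta_mul {θ : ZG H →+ ZG G} (h1 : ∀ a, θ (of' (q a)) = of' a.1)
    (h2 : ∀ h, h ∉ q.range → θ (of' h) = 0) (b : ZG H) (x : ZG (G × Multiplicative ℤ)) :
    θ (b * ui_phi q x) = θ b * ui_pr G x := by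
  refine eb_hom_ext (θ.comp (AddMonoidHom.mulRight (ui_phi q x)))
    ((AddMonoidHom.mulRight (ui_pr G x)).comp θ) (fun h => ?_) b
  change θ (of' h * ui_phi q x) = θ (of' h) * ui_pr G x
  refine eb_hom_ext (θ.comp ((AddMonoidHom.mulLeft (of' h)).comp (ui_phi q).toAddMonoidHom))
    ((AddMonoidHom.mulLeft (θ (of' h))).comp (ui_pr G).toAddMonoidHom) (fun a => ?_) x
  change θ (of' h * ui_phi q (of' a)) = θ (of' h) * ui_pr G (of' a)
  rw [ui_phi_of, ui_pr_of, ← map_mul]
  by_cases hh : h ∈ q.range
  · obtain ⟨c, rfl⟩ := hh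
    rw [← map_mul, h1, h1, ← map_mul]
    rfl
  · rw [h2 h hh, zero_mul]
    apply h2
    rintro ⟨c, hc⟩
    apply hh
    refine ⟨c * a⁻¹, ?_⟩
    rw [map_mul, hc, map_inv, mul_inv_cancel_right]

theorem ui_theta_left {θ : ZG H →+ ZG G} (h1 : ∀ a, θ (of' (q a)) = of' a.1)
    (h2 : ∀ h, h ∉ q.range → θ (of' h) = 0) (g : G) (b : ZG H) :
    θ (of' (q (g, 1)) * b) = of' g * θ b := by
  refine eb_hom_ext (θ.comp (AddMonoidHom.mulLeft (of' (q (g, 1)))))
    ((AddMonoidHom.mulLeft (of' g)).comp θ) (fun h => ?_) b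
  change θ (of' (q (g, 1)) * of' h) = of' g * θ (of' h)
  rw [← map_mul]
  by_cases hh : h ∈ q.range
  · obtain ⟨c, rfl⟩ := hh
    rw [← map_mul, h1, h1, ← map_mul]
    rfl
  · rw [h2 h hh, mul_zero]
    apply h2
    rintro ⟨c, hc⟩
    apply hh
    refine ⟨(g, 1)⁻¹ * c, ?_⟩
    rw [map_mul, hc, map_inv, inv_mul_cancel_left]

theorem ui_sum {n : ℕ} {P : Type} [AddCommGroup P] [Module (ZG G) P]
    (f : (Fin n → ZG G) →ₗ[ZG G] P) (v : Fin n → ZG G) :
    ∑ l, v l • f (Pi.single l 1) = f v := by
  have h1 : v = ∑ l, v l • (Pi.single l (1 : ZG G) : Fin n → ZG G) := by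
    funext k
    rw [Finset.sum_apply, Finset.sum_eq_single k]
    · simp
    · intro l _ hl
      simp [Pi.single_eq_of_ne hl.symm]
    · simp
  conv_rhs => rw [h1]
  rw [map_sum]
  exact Finset.sum_congr rfl (fun l _ => (map_smul f _ _).symm)

end

theorem u_ind {G H : Type} [Group G] [Group H] (q : G × Multiplicative ℤ →* H)
    (hq : Function.Injective q) (χ : H →* Multiplicative ℤ) (hχ : ∀ a, χ (q a) = a.2)
    {n : ℕ} {P : Type} [AddCommGroup P] [Module (ZG G) P]
    (f : (Fin n → ZG G) →ₗ[ZG G] P) (s : P →ₗ[ZG G] (Fin n → ZG G)) (hfs : ∀ p, f (s p) = p) :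
    Induced (kap q χ hχ) P (Pull χ.ker.subtype ((Fin n → ZG H) ⧸ LinearMap.range
      (mulA (MonoidAlgebra.mapDomainRingHom ℤ q : ZG (G × Multiplicative ℤ) →+* ZG H) (matA f s)))) := by
  classical
  set A := matA f s with hA
  set φ := ui_phi q with hφ
  change Induced (kap q χ hχ) P (Pull χ.ker.subtype ((Fin n → ZG H) ⧸ LinearMap.range (mulA φ A)))
  obtain ⟨θ, hθ1, hθ2⟩ := ui_theta q hq
  set ι : ZG G →+* ZG H := φ.comp (inG G) with hι
  have hιof : ∀ g, ι (of' g) = of' (q (g, 1)) := fun g => by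
    change φ (inG G (of' g)) = _
    rw [inG_of, ui_phi_of]
  set mk := (LinearMap.range (mulA φ A)).mkQ with hmk
  let E : (Fin n → ZG G) →+ (Fin n → ZG H) :=
    { toFun := fun v l => ι (v l)
      map_zero' := by funext l; exact map_zero ι
      map_add' := by intro v w; funext l; exact map_add ι _ _ }
  have hE : ∀ v l, E v l = ι (v l) := fun _ _ => rfl
  -- the element t
  set t : H := q (1, Multiplicative.ofAdd 1) with ht
  have htι : ∀ x : ZG G, of' t * ι x = ι x * of' t := by
    intro x
    refine eb_hom_ext ((AddMonoidHom.mulLeft (of' t)).comp ι.toAddMonoidHom)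
      ((AddMonoidHom.mulRight (of' t)).comp ι.toAddMonoidHom) (fun g => ?_) x
    change of' t * ι (of' g) = ι (of' g) * of' t
    rw [hιof, ← map_mul, ← map_mul, ht, ← map_mul, ← map_mul]
    congr 2
    ext <;> simp
  have hmul : ∀ v, mulA φ A (E v) = act t (E v) - E (s (f v)) := by
    intro v
    funext l
    change ∑ j, ι (v j) * φ (A j l) = of' t * ι (v l) - ι (s (f v) l)
    have h1 : ∀ j, φ (A j l) = (if j = l then of' t else 0) - ι (s (f (Pi.single j 1)) l) := by
      intro j
      rw [hA, matA, map_sub]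
      congr 1
      split_ifs
      · exact ui_phi_of q _
      · exact map_zero _
    have h2 : s (f v) l = ∑ j, v j * s (f (Pi.single j 1)) l := by
      rw [← ui_sum f v, map_sum, Finset.sum_apply]
      exact Finset.sum_congr rfl (fun j _ => by rw [map_smul]; rfl)
    rw [h2, map_sum, htι]
    simp only [h1, mul_sub, Finset.sum_sub_distrib, mul_ite, mul_zero, Finset.sum_ite_eq',
      Finset.mem_univ, if_true, map_mul]
  have hmk0 : ∀ a, mk (mulA φ A a) = 0 := fun a => by
    rw [hmk, Submodule.mkQ_apply, Submodule.Quotient.mk_eq_zero]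
    exact ⟨a, rfl⟩
  have htE : ∀ v, act t (mk (E v)) = mk (E (s (f v))) := by
    intro v
    have h1 := hmk0 (E v)
    rw [hmul, map_sub, sub_eq_zero] at h1
    rw [← h1]
    exact (map_smul mk _ _).symm
  have htfix : ∀ p, act t (mk (E (s p))) = mk (E (s p)) := fun p => by rw [htE, hfs]
  have hEs : ∀ v, mk (E v) = mk (E (s (f v))) := by
    intro v
    have h1 : act t (mk (E v)) = act t (mk (E (s (f v)))) := by rw [htE, htfix]
    have h2 := congrArg (act t⁻¹) h1
    rwa [act_inv_act, act_inv_act] at h2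
  have hqfix : ∀ (k : Multiplicative ℤ) (p : P), act (q (1, k)) (mk (E (s p))) = mk (E (s p)) := by
    intro k p
    let S : Subgroup H :=
      { carrier := {h | act h (mk (E (s p))) = mk (E (s p))}
        one_mem' := act_one _
        mul_mem' := by
          intro a b ha hb
          change act (a * b) _ = _
          rw [act_mul, hb, ha]
        inv_mem' := by
          intro a ha
          change act a⁻¹ _ = _
          have h1 := congrArg (act a⁻¹) ha
          rw [act_inv_act] at h1
          exact h1.symm }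
    have h1 : t ∈ S := htfix p
    have h2 : q (1, k) = t ^ (Multiplicative.toAdd k) := by
      rw [ht, ← map_zpow]
      congr 1
      ext
      · simp
      · simp
    rw [h2]
    exact S.zpow_mem h1 _
  -- the inclusion
  let i : P →+ Pull χ.ker.subtype ((Fin n → ZG H) ⧸ LinearMap.range (mulA φ A)) :=
    { toFun := fun p => Pull.mk χ.ker.subtype (mk (E (s p)))
      map_zero' := by
        change mk (E (s 0)) = 0
        rw [map_zero, map_zero, map_zero]
      map_add' := by
        intro a b
        change mk (E (s (a + b))) = mk (E (s a)) + mk (E (s b))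
        rw [map_add, map_add, map_add] }
  have hi : ∀ p, (i p).un = mk (E (s p)) := fun _ => rfl
  -- the projection
  let π₀ : (Fin n → ZG H) →+ P :=
    { toFun := fun b => ∑ l, θ (b l) • f (Pi.single l 1)
      map_zero' := by simp
      map_add' := by
        intro a b
        simp only [Pi.add_apply, map_add, add_smul, Finset.sum_add_distrib] }
  have hπ₀ : ∀ b, π₀ b = ∑ l, θ (b l) • f (Pi.single l 1) := fun _ => rfl
  have hprA : ∀ j l, ui_pr G (A j l) = (if j = l then 1 else 0) - s (f (Pi.single j 1)) l := by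
    intro j l
    rw [hA, matA, map_sub, ui_pr_inG]
    congr 1
    split_ifs
    · rw [ui_pr_of]; exact map_one _
    · exact map_zero _
  have hπz : ∀ a, π₀ (mulA φ A a) = 0 := by
    intro a
    rw [hπ₀]
    have h1 : ∀ l, θ (mulA φ A a l) = ∑ j, θ (a j) * ui_pr G (A j l) := by
      intro l
      change θ (∑ j, a j * φ (A j l)) = _
      rw [map_sum]
      exact Finset.sum_congr rfl (fun j _ => ui_theta_mul q hθ1 hθ2 _ _)
    simp only [h1, Finset.sum_smul, mul_smul]
    rw [Finset.sum_comm]
    refine Finset.sum_eq_zero (fun j _ => ?_)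
    rw [← Finset.smul_sum]
    have h2 : ∑ l, ui_pr G (A j l) • f (Pi.single l 1) = 0 := by
      simp only [hprA, sub_smul, Finset.sum_sub_distrib, ite_smul, one_smul, zero_smul,
        Finset.sum_ite_eq, Finset.mem_univ, if_true]
      rw [ui_sum f, hfs, sub_self]
    rw [h2, smul_zero]
  have hker : ∀ x ∈ (LinearMap.range (mulA φ A)).toAddSubgroup, π₀ x = 0 := by
    rintro x ⟨a, rfl⟩
    exact hπz a
  let π₁ : ((Fin n → ZG H) ⧸ LinearMap.range (mulA φ A)) →+ P :=
    QuotientAddGroup.lift (LinearMap.range (mulA φ A)).toAddSubgroup π₀ hker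
  have hπ₁ : ∀ b, π₁ (mk b) = π₀ b := fun _ => rfl
  let π : Pull χ.ker.subtype ((Fin n → ZG H) ⧸ LinearMap.range (mulA φ A)) →+ P :=
    { toFun := fun u => π₁ u.un
      map_zero' := map_zero π₁
      map_add' := fun a b => map_add π₁ a.un b.un }
  have hπ : ∀ u, π u = π₁ u.un := fun _ => rfl
  have hπi : ∀ (h : H) (p : P), π₁ (act h (mk (E (s p)))) =
      ∑ l, θ (of' h * ι (s p l)) • f (Pi.single l 1) := by
    intro h p
    have h1 : act h (mk (E (s p))) = mk (act h (E (s p))) := (map_smul mk _ _).symm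
    rw [h1, hπ₁, hπ₀]
    rfl
  refine ⟨i, π, ?_, ?_, ?_, ?_⟩
  · intro g p
    change mk (E (s (act g p))) = (act (kap q χ hχ g) (i p)).un
    rw [Pull.act_apply, hi]
    change mk (E (s (act g p))) = act (q (g, 1)) (mk (E (s p)))
    have h1 : E (s (act g p)) = act (q (g, 1)) (E (s p)) := by
      funext l
      rw [hE, act, map_smul]
      change ι (of' g * s p l) = of' (q (g, 1)) * ι (s p l)
      rw [map_mul, hιof]
    rw [h1]
    exact map_smul mk _ _
  · intro u
    set C := AddSubgroup.closure {x : Pull χ.ker.subtype ((Fin n → ZG H) ⧸ LinearMap.range (mulA φ A)) |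
      ∃ (g : χ.ker) (m : P), x = act g (i m)} with hC
    obtain ⟨b, hb⟩ : ∃ b, mk b = u.un := Submodule.mkQ_surjective _ _
    have key : ∀ (l : Fin n) (x : ZG H),
        (Pull.mk χ.ker.subtype (mk (Pi.single l x)) : Pull χ.ker.subtype _) ∈ C := by
      intro l x
      induction x using MonoidAlgebra.induction_linear with
      | zero =>
        have h0 : (Pull.mk χ.ker.subtype (mk (Pi.single l 0)) : Pull χ.ker.subtype _) = 0 := by
          change mk (Pi.single l 0) = 0
          rw [Pi.single_zero, map_zero]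
        rw [h0]
        exact C.zero_mem
      | add x y hx hy =>
        have h0 : (Pull.mk χ.ker.subtype (mk (Pi.single l (x + y))) : Pull χ.ker.subtype _) =
            Pull.mk χ.ker.subtype (mk (Pi.single l x)) + Pull.mk χ.ker.subtype (mk (Pi.single l y)) := by
          change mk (Pi.single l (x + y)) = mk (Pi.single l x) + mk (Pi.single l y)
          rw [Pi.single_add, map_add]
        rw [h0]
        exact C.add_mem hx hy
      | single h z =>
        let r : χ.ker := ⟨h * (q (1, χ h))⁻¹, by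
          rw [MonoidHom.mem_ker, map_mul, map_inv, hχ, mul_inv_cancel]⟩
        have h1 : (Pull.mk χ.ker.subtype (mk (Pi.single l (MonoidAlgebra.single h z))) : Pull χ.ker.subtype _) =
            z • act r (i (f (Pi.single l 1))) := by
          change mk (Pi.single l (MonoidAlgebra.single h z)) =
            (z • act r (i (f (Pi.single l 1)))).un
          have h2 : (z • act r (i (f (Pi.single l 1)))).un =
              z • (act r (i (f (Pi.single l 1)))).un := rfl
          rw [h2, Pull.act_apply, hi]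
          have h3 : E (Pi.single l 1) = Pi.single l 1 := by
            funext k
            rw [hE]
            by_cases hk : k = l
            · subst hk; simp
            · simp [Pi.single_eq_of_ne hk]
          rw [← hEs, h3]
          have h4 : act (χ.ker.subtype r) (mk (Pi.single l 1)) = act h (mk (Pi.single l 1)) := by
            have h5 : mk (Pi.single l 1) = mk (E (s (f (Pi.single l 1)))) := by rw [← hEs, h3]
            rw [h5]
            conv_rhs => rw [show h = (χ.ker.subtype r) * q (1, χ h) from (inv_mul_cancel_right _ _).symm]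
            rw [act_mul, hqfix]
          rw [h4, act, ← map_smul, ← map_zsmul]
          congr 1
          funext k
          by_cases hk : k = l
          · subst hk
            simp
          · simp [Pi.single_eq_of_ne hk]
        rw [h1]
        exact C.zsmul_mem (AddSubgroup.subset_closure ⟨r, _, rfl⟩) z
    have hsum : u = ∑ l, (Pull.mk χ.ker.subtype (mk (Pi.single l (b l))) : Pull χ.ker.subtype _) := by
      have h1 : b = ∑ l, Pi.single l (b l) := (Finset.univ_sum_single b).symm
      have h2 : u.un = ∑ l, mk (Pi.single l (b l)) := by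
        rw [← hb, ← map_sum, ← h1]
      exact h2
    rw [hsum]
    exact C.sum_mem (fun l _ => key l (b l))
  · intro g p
    rw [hπ, Pull.act_apply, hi]
    change π₁ (act (q (g, 1)) (mk (E (s p)))) = act g p
    rw [hπi]
    have h1 : ∀ l, θ (of' (q (g, 1)) * ι (s p l)) = of' g * s p l := by
      intro l
      rw [ui_theta_left q hθ1 hθ2]
      have h2 : θ (ι (s p l)) = s p l := by
        have h3 := ui_theta_mul q hθ1 hθ2 1 (inG G (s p l))
        rw [one_mul, ui_pr_inG] at h3
        have h4 : θ 1 = 1 := by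
          have h5 := hθ1 1
          have h6 : (of' (q 1) : ZG H) = 1 := by rw [map_one]; exact map_one _
          have h7 : (of' (1 : G × Multiplicative ℤ).1 : ZG G) = 1 := map_one _
          rw [h6, h7] at h5
          exact h5
        rw [h4, one_mul] at h3
        exact h3
      rw [h2]
    simp only [h1, mul_smul]
    rw [← Finset.smul_sum, ui_sum f, hfs]
  · intro g p hg
    rw [hπ, Pull.act_apply, hi, hπi]
    have h0 : (χ.ker.subtype g) ∉ q.range := by
      rintro ⟨⟨a, k⟩, ha⟩
      apply hg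
      have h1 : k = 1 := by
        have h2 := hχ (a, k)
        rw [ha] at h2
        rw [← show (a, k).2 = k from rfl, ← h2]
        exact g.2
      refine ⟨a, Subtype.ext ?_⟩
      rw [kap_coe, ← h1, ha]
      rfl
    refine Finset.sum_eq_zero (fun l _ => ?_)
    have h1 := ui_theta_mul q hθ1 hθ2 (of' (χ.ker.subtype g)) (inG G (s p l))
    rw [hθ2 _ h0, zero_mul] at h1
    change θ (of' (χ.ker.subtype g) * ui_phi q (inG G (s p l))) • _ = _
    rw [h1, zero_smul]

end Pool.Agent.SFP
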