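import Pool.Agent.SFP.Ind

/-!
# Module UInj: multiplication by `t - e` is injective

`φ = MonoidAlgebra.mapDomainRingHom ℤ q : ℤ[G × ℤ] →+* ℤ[H]`, `A = matA f s`, `f ∘ s = id`.  Write `e j l = φ (inG (s (f e_j) l))`,
`t = φ (of' (1, ofAdd 1)) = of' (q (1, ofAdd 1))`.  Then `t` commutes with all `e j l` (entries in the image of `ℤ[G]`,
`MonoidAlgebra` induction) and `e` is idempotent: `∑_k e j k * e k l = e j l` (because `s ∘ f` is an idempotent linear
endomorphism of `ℤ[G]^n`: `s (f (s (f e_j))) = s (f e_j)` and `s (f v) = ∑_k v k • s (f e_k)`).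
If `mulA φ A b = 0`, then `b t = b e` (row vectors), so `b t = b e = b e e = b t e = b e t = b t t`, hence `b = b t`
(`t` is a unit), so `b l (1 - t) = 0` for all `l` and `b = 0` by `one_sub_inj`.
-/

set_option linter.unusedSectionVars false

namespace Pool.Agent.SFP

open Pool.Agent.Hhelper49.Srr Pool.Agent.Hhelper49.Srf

theorem t_comm_inG {G : Type} [Group G] (x : ZG G) :
    inG G x * of' ((1, Multiplicative.ofAdd 1) : G × Multiplicative ℤ) =
      of' ((1, Multiplicative.ofAdd 1) : G × Multiplicative ℤ) * inG G x := by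
  induction x using MonoidAlgebra.induction_on with
  | of g =>
    change inG G (of' g) * _ = _ * inG G (of' g)
    rw [inG_of, ← map_mul, ← map_mul]
    congr 1
    ext <;> simp
  | add a b ha hb => rw [map_add, add_mul, mul_add, ha, hb]
  | smul r a ha =>
    rw [map_zsmul, smul_mul_assoc, mul_smul_comm, ha]

theorem mulA_inj {G H : Type} [Group G] [Group H] (q : G × Multiplicative ℤ →* H)
    (χ : H →* Multiplicative ℤ) (hχ : ∀ a, χ (q a) = a.2)
    {n : ℕ} {P : Type} [AddCommGroup P] [Module (ZG G) P]
    (f : (Fin n → ZG G) →ₗ[ZG G] P) (s : P →ₗ[ZG G] (Fin n → ZG G)) (hfs : ∀ p, f (s p) = p) :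
    Function.Injective (mulA (MonoidAlgebra.mapDomainRingHom ℤ q : ZG (G × Multiplicative ℤ) →+* ZG H)
      (matA f s)) := by
  set φ : ZG (G × Multiplicative ℤ) →+* ZG H := MonoidAlgebra.mapDomainRingHom ℤ q with hφ
  have hφo : ∀ a : G × Multiplicative ℤ, φ (of' a) = of' (q a) := by
    intro a
    change MonoidAlgebra.mapDomain q (MonoidAlgebra.single a 1) = MonoidAlgebra.single (q a) 1
    exact MonoidAlgebra.mapDomain_single
  set t : ZG H := φ (of' ((1, Multiplicative.ofAdd 1) : G × Multiplicative ℤ)) with ht
  set e : Fin n → Fin n → ZG H := fun j l => φ (inG G (s (f (Pi.single j 1)) l)) with he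
  have hcomm : ∀ j l, e j l * t = t * e j l := by
    intro j l
    rw [he, ht]
    change φ _ * φ _ = φ _ * φ _
    rw [← map_mul, ← map_mul, t_comm_inG]
  have hidem : ∀ j l, ∑ k, e j k * e k l = e j l := by
    intro j l
    have h1 : s (f (s (f (Pi.single j 1)))) = s (f (Pi.single j 1)) := by rw [hfs]
    have h2 : ∀ v : Fin n → ZG G, s (f v) = ∑ k, v k • s (f (Pi.single k 1)) := by
      intro v
      have h3 : v = ∑ k, v k • (Pi.single k 1 : Fin n → ZG G) := by
        funext l
        rw [Finset.sum_apply, Finset.sum_eq_single l]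
        · simp
        · intro k _ hk
          simp [Ne.symm hk]
        · intro h
          exact absurd (Finset.mem_univ l) h
      conv_lhs => rw [h3]
      rw [map_sum, map_sum]
      refine Finset.sum_congr rfl fun k _ => ?_
      rw [map_smul, map_smul]
    have h4 := congrFun ((h2 (s (f (Pi.single j 1)))).symm.trans h1) l
    rw [Finset.sum_apply] at h4
    rw [he]
    change ∑ k, φ (inG G _) * φ (inG G _) = φ (inG G _)
    rw [← h4, map_sum, map_sum]
    refine Finset.sum_congr rfl fun k _ => ?_
    rw [Pi.smul_apply, smul_eq_mul, map_mul, map_mul]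
  have hkey : ∀ b : Fin n → ZG H, mulA φ (matA f s) b = 0 → b = 0 := by
    intro b hb
    have h1 : ∀ l, ∑ j, b j * e j l = b l * t := by
      intro l
      have h2 := congrFun hb l
      change ∑ j, b j * φ (matA f s j l) = 0 at h2
      have h3 : ∀ j, b j * φ (matA f s j l) = (if j = l then b j * t else 0) - b j * e j l := by
        intro j
        rw [matA, map_sub, mul_sub]
        congr 1
        split_ifs
        · rfl
        · rw [map_zero, mul_zero]
      rw [Finset.sum_congr rfl fun j _ => h3 j, Finset.sum_sub_distrib,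
        Finset.sum_ite_eq' Finset.univ l (fun j => b j * t), if_pos (Finset.mem_univ l)] at h2
      exact (sub_eq_zero.1 h2).symm
    have h5 : ∀ l, b l * t * t = b l * t := by
      intro l
      have h6 : ∑ k, (b k * t) * e k l = b l * t * t := by
        rw [← h1 l, Finset.sum_mul]
        refine Finset.sum_congr rfl fun k _ => ?_
        rw [mul_assoc, ← hcomm, ← mul_assoc]
      rw [← h6]
      have h7 : ∑ k, (b k * t) * e k l = ∑ j, b j * ∑ k, e j k * e k l := by
        have : ∀ k, (b k * t) * e k l = ∑ j, b j * (e j k * e k l) := by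
          intro k
          rw [← h1 k, Finset.sum_mul]
          exact Finset.sum_congr rfl fun j _ => mul_assoc _ _ _
        rw [Finset.sum_congr rfl fun k _ => this k, Finset.sum_comm]
        exact Finset.sum_congr rfl fun j _ => (Finset.mul_sum _ _ _).symm
      rw [h7, ← h1 l]
      exact Finset.sum_congr rfl fun j _ => by rw [hidem]
    have ht' : t = of' (q (1, Multiplicative.ofAdd 1)) := hφo _
    have htu : t * of' (q (1, Multiplicative.ofAdd 1))⁻¹ = 1 := by
      rw [ht', ← map_mul, mul_inv_cancel, map_one]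
    funext l
    refine one_sub_inj χ (q (1, Multiplicative.ofAdd 1)) (hχ _) (b l) ?_
    rw [← ht', mul_sub, mul_one, sub_eq_zero]
    have h8 := congrArg (fun z => z * of' (q (1, Multiplicative.ofAdd 1))⁻¹) (h5 l)
    simp only [mul_assoc] at h8
    rw [htu, mul_one, mul_one] at h8
    exact h8.symm
  intro a b hab
  have := hkey (a - b) (by rw [map_sub, hab, sub_self])
  exact sub_eq_zero.1 this

end Pool.Agent.SFP
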