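import Pool.Agent.SFP.Main1
import Pool.Agent.SFP.Restr
import Pool.Agent.SFP.BaseQ
import Pool.Agent.SFP.UInj
import Pool.Agent.SFP.UInd
import Pool.Agent.SFP.Enc
import Pool.Agent.Hhelper49.Srf.Ret
import Pool.Agent.Hhelper49.Srf.Back

/-!
# Fin1: the pointwise theorem for groups of type (FF)
-/

set_option linter.unusedSectionVars false

namespace Pool.Agent.SFP

open Pool.Agent.Hhelper49.Srr Pool.Agent.Hhelper49.Srf

/-- `P` is stably free -/
def StFree (G : Type) [Group G] (P : Type) [AddCommGroup P] [Module (MonoidAlgebra ℤ G) P] : Prop :=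
  ∃ a b : ℕ, Nonempty ((P × (Fin a → MonoidAlgebra ℤ G)) ≃ₗ[MonoidAlgebra ℤ G]
    (Fin b → MonoidAlgebra ℤ G))

theorem ff_iff_stFree (G : Type) [Group G] (P : Type) [AddCommGroup P] [Module (MonoidAlgebra ℤ G) P]
    (hP : Module.Projective (MonoidAlgebra ℤ G) P) : FF (MonoidAlgebra ℤ G) P ↔ StFree G P := by
  constructor
  · intro h
    exact stablyFree_of_ff P hP h
  · rintro ⟨a, b, ⟨e⟩⟩
    have h1 : FF (MonoidAlgebra ℤ G) (P × (Fin a → MonoidAlgebra ℤ G)) :=
      ff_iso e.symm ⟨0, inferInstance, inferInstance⟩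
    exact ff_coker (LinearMap.inr _ P (Fin a → MonoidAlgebra ℤ G))
      (LinearMap.fst _ P (Fin a → MonoidAlgebra ℤ G)) LinearMap.inr_injective
      LinearMap.fst_surjective (LinearMap.range_inr _ _ _) ⟨0, inferInstance, inferInstance⟩ h1

/-- restriction of the trivial module -/
noncomputable def trivPull {H Γ : Type} [Group H] [Group Γ] (κ : H →* Γ) :
    Pull κ (Triv Γ) ≃ₗ[ZG H] Triv H :=
  mkEquiv (A := Pull κ (Triv Γ)) (B := Triv H) (AddEquiv.refl ℤ) (by
    intro h t
    have h1 := Pull.act_apply (κ := κ) h t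
    rw [act_triv] at h1
    rw [act_triv]
    exact h1)

section
variable {G : Type} [Group G] {Gm Rl Sl : Type} [Fintype Gm] [DecidableEq Gm] [Fintype Rl]
  [DecidableEq Rl] [Fintype Sl] [DecidableEq Sl] (D : Dat (G × Multiplicative ℤ) Gm Rl Sl)

/-- the character of `G × ℤ` -/
abbrev sndG (G : Type) [Group G] : G × Multiplicative ℤ →* Multiplicative ℤ :=
  MonoidHom.snd G (Multiplicative ℤ)

theorem chi_hq (a : G × Multiplicative ℤ) : chi D (sndG G) (hq D a) = a.2 :=
  lift_hq D _ a

theorem hq_inj : Function.Injective (hq D) := by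
  intro a b h
  have h1 := congrArg (retQ D) h
  rwa [retQ_hq, retQ_hq] at h1

/-- the kernel -/
abbrev RR : Type := (chi D (sndG G)).ker

/-- the inclusion of `G` -/
def inc : G →* RR D := kap (hq D) (chi D (sndG G)) (chi_hq D)

/-- the retraction to `G` -/
def ret : RR D →* G :=
  (MonoidHom.fst G (Multiplicative ℤ)).comp ((retQ D).comp (chi D (sndG G)).ker.subtype)

theorem ret_inc (g : G) : ret D (inc D g) = g := by
  change (retQ D (hq D (g, 1))).1 = g
  rw [retQ_hq]

theorem inc_inj : Function.Injective (inc D) := by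
  intro a b h
  have h1 := congrArg (ret D) h
  rwa [ret_inc, ret_inc] at h1

theorem main2 {C : ∀ (M : Type) [AddCommGroup M] [Module (ZG (RR D)) M], Prop}
    (hC : Cls23 (ZG (RR D)) C) (hR : C (ZG (RR D)))
    (h0 : C (Pull (chi D (sndG G)).ker.subtype (ZG (HH D) ⧸ JL D ∅)))
    (hinj : Function.Injective (relM (phi D) D)) :
    C (Triv (RR D)) ↔
      C (Pull (chi D (sndG G)).ker.subtype ((Gm → ZG (HH D)) ⧸ LinearMap.range (relM (phi D) D))) := by
  have h1 := main1 D (Good := fun M _ _ => C (Pull (chi D (sndG G)).ker.subtype M)) (sndG G)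
    (cls23_pull _ hC) (fun u hu => by
      obtain ⟨e⟩ := cyc_restr (chi D (sndG G)) u hu
      exact hC.iso e hR) h0 hinj
  rw [← h1]
  exact ⟨fun h => hC.iso (trivPull (chi D (sndG G)).ker.subtype).symm h,
    fun h => hC.iso (trivPull (chi D (sndG G)).ker.subtype) h⟩

end

theorem cls23_pow {B : Type} [Ring B] {C : ∀ (M : Type) [AddCommGroup M] [Module B M], Prop}
    (hC : Cls23 B C) (m : ℕ) : Cls23 B (fun M _ _ => C (Fin m → M)) := by
  have key : ∀ {L M N : Type} [AddCommGroup L] [Module B L] [AddCommGroup M] [Module B M]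
      [AddCommGroup N] [Module B N] (f : L →ₗ[B] M) (g : M →ₗ[B] N), Function.Injective f →
      Function.Surjective g → LinearMap.range f = LinearMap.ker g →
      Function.Injective (f.compLeft (Fin m)) ∧ Function.Surjective (g.compLeft (Fin m)) ∧
      LinearMap.range (f.compLeft (Fin m)) = LinearMap.ker (g.compLeft (Fin m)) := by
    intro L M N _ _ _ _ _ _ f g hf hg hfg
    refine ⟨?_, ?_, ?_⟩
    · intro a b h
      funext i
      exact hf (congrFun h i)
    · intro b
      choose a ha using fun i => hg (b i)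
      exact ⟨a, funext ha⟩
    · ext b
      rw [LinearMap.mem_ker]
      constructor
      · rintro ⟨a, rfl⟩
        funext i
        have h1 : f (a i) ∈ LinearMap.ker g := by
          rw [← hfg]
          exact ⟨_, rfl⟩
        exact h1
      · intro h
        have h1 : ∀ i, ∃ a, f a = b i := by
          intro i
          have h2 : b i ∈ LinearMap.ker g := congrFun h i
          rw [← hfg] at h2
          exact h2
        choose a ha using h1
        exact ⟨a, funext ha⟩
  refine ⟨?_, ?_, ?_, ?_, ?_⟩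
  · intro M _ _ h
    exact hC.zero _ inferInstance
  · intro M N _ _ _ _ e h
    exact hC.iso (LinearEquiv.piCongrRight fun _ => e) h
  · intro L M N _ _ _ _ _ _ f g hf hg hfg hL hN
    obtain ⟨h1, h2, h3⟩ := key f g hf hg hfg
    exact hC.ext _ _ h1 h2 h3 hL hN
  · intro L M N _ _ _ _ _ _ f g hf hg hfg hL hN
    obtain ⟨h1, h2, h3⟩ := key f g hf hg hfg
    exact hC.coker _ _ h1 h2 h3 hL hN
  · intro L M N _ _ _ _ _ _ f g hf hg hfg hL hN
    obtain ⟨h1, h2, h3⟩ := key f g hf hg hfg
    exact hC.ker _ _ h1 h2 h3 hL hN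

/-- the pointwise theorem for groups of type (FF) -/
theorem point_ff (G : Type) [Group G] (hG : TypeFF G) (P : Type) [AddCommGroup P]
    [Module (MonoidAlgebra ℤ G) P] (hP1 : Module.Finite (MonoidAlgebra ℤ G) P)
    (hP2 : Module.Projective (MonoidAlgebra ℤ G) P) :
    ∃ (R : Type) (_ : Group R) (i : G →* R) (r : R →* G), (∀ g, r (i g) = g) ∧ TypeFP R ∧
      ∀ m, FreeRes m R ↔ FF (MonoidAlgebra ℤ G) (Fin m → P) := by
  obtain ⟨n, f, hf⟩ := Module.Finite.exists_fin' (MonoidAlgebra ℤ G) P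
  obtain ⟨s, hs⟩ := Module.projective_lifting_property f LinearMap.id hf
  have hfs : ∀ p, f (s p) = p := fun p => LinearMap.congr_fun hs p
  obtain ⟨Gm, Rl, Sl, _, _, _, _, _, _, D, hD⟩ := enc n (matA f s)
  obtain ⟨hD1, ⟨e⟩⟩ := hD (ZG (HH D)) (phi D)
  have hinj : Function.Injective (relM (phi D) D) :=
    hD1 (mulA_inj (hq D) (chi D (sndG G)) (chi_hq D) f s hfs)
  have hbase : Induced (inc D) (Triv G)
      (Pull (chi D (sndG G)).ker.subtype (ZG (HH D) ⧸ JL D ∅)) := by
    refine base_ind (hq D) (chi D (sndG G)) (chi_hq D) (JL D ∅) ?_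
    rw [JL]
    congr 1
    ext b
    simp
  have hU : Induced (inc D) P (Pull (chi D (sndG G)).ker.subtype ((Fin n → ZG (HH D)) ⧸
      LinearMap.range (mulA (phi D) (matA f s)))) :=
    u_ind (hq D) (hq_inj D) (chi D (sndG G)) (chi_hq D) f s hfs
  have hGF := ff_of_typeFF G hG
  have hFP := main2 D (cls23_fp _) (fp_of_ff ⟨0, inferInstance, inferInstance⟩)
    (ind_fp (inc_inj D) _ _ hbase (fp_of_ff hGF)) hinj
  have eP := (cls23_pull (chi D (sndG G)).ker.subtype (cls23_fp (ZG (RR D))))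
  refine ⟨RR D, inferInstance, inc D, ret D, ret_inc D, ?_, ?_⟩
  · apply typeFP_of_fp
    rw [hFP]
    exact eP.iso e.symm (ind_fp (inc_inj D) _ _ hU ⟨0, hP1, hP2⟩)
  · intro m
    have hFF := main2 D (cls23_pow (cls23_ff _) m) (ff_pow m)
      (ff_pi (fun _ : Fin m => _) fun _ => ind_ff (inc_inj D) _ _ hbase hGF) hinj
    have eF := (cls23_pull (chi D (sndG G)).ker.subtype (cls23_pow (cls23_ff (ZG (RR D))) m))
    rw [freeRes_iff, hFF]
    constructor
    · intro h
      have h2 := eF.iso e h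
      exact ind_reduce (inc_inj D) (Fin m → P) _ (desc_ret (inc D) (ret D) (ret_inc D))
        (fp_pi (fun _ : Fin m => P) fun _ => ⟨0, hP1, hP2⟩) (ind_pi _ _ m hU) h2
    · intro h
      exact eF.iso e.symm (ind_ff (inc_inj D) _ _ (ind_pi _ _ m hU) h)

end Pool.Agent.SFP
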