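import Mathlib

/-!
# Module FPres1: direct products of finitely presented groups

`Group.IsFinitelyPresented` is in Mathlib/GroupTheory/FinitelyPresentedGroup.lean (`of_surjective`, `Monoid.Coprod` instance).
`f : Monoid.Coprod G K →* G × K`, `inl g ↦ (g, 1)`, `inr k ↦ (1, k)` (`Monoid.Coprod.lift`), is surjective.  Let `X`, `Y` be finite
generating sets of `G`, `K` (a finitely presented group is finitely generated) and `N` the normal closure of the finite set of the
commutators of `inl x`, `inr y`, `x ∈ X`, `y ∈ Y`.  `N ≤ f.ker` is clear.  In `Δ = Coprod / N` the images of `inl x` and `inr y` commute for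
`x ∈ X`, `y ∈ Y`, hence for all `x ∈ G`, `y ∈ K` (centralizers are subgroups).  So there is a homomorphism `G × K →* Δ`
(`MonoidHom.noncommCoprod`), which composed with the map `Δ → G × K` is the identity on `Δ` (check on the generators); so `f.ker ≤ N`.
-/

namespace Pool.Agent.SFP

open scoped commutatorElement

/-- a finitely presented group has a finite generating set -/
theorem fpres_gen (G : Type) [Group G] [h : Group.IsFinitelyPresented G] :
    ∃ X : Set G, X.Finite ∧ Subgroup.closure X = ⊤ := by
  obtain ⟨n, φ, hφ, -⟩ := h.out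
  refine ⟨Set.range (fun i => φ (FreeGroup.of i)), Set.finite_range _, ?_⟩
  have h1 : Set.range (fun i => φ (FreeGroup.of i)) = φ '' (Set.range FreeGroup.of) := by
    rw [← Set.range_comp]
    rfl
  rw [h1, ← MonoidHom.map_closure, FreeGroup.closure_range_of, ← MonoidHom.range_eq_map,
    MonoidHom.range_eq_top.2 hφ]

theorem prod_fpres (G K : Type) [Group G] [Group K] [Group.IsFinitelyPresented G]
    [Group.IsFinitelyPresented K] : Group.IsFinitelyPresented (G × K) := by
  obtain ⟨X, hX, hXG⟩ := fpres_gen G
  obtain ⟨Y, hY, hYK⟩ := fpres_gen K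
  let f : Monoid.Coprod G K →* G × K :=
    Monoid.Coprod.lift (MonoidHom.inl G K) (MonoidHom.inr G K)
  have hfl : ∀ g, f (Monoid.Coprod.inl g) = (g, 1) := fun g => Monoid.Coprod.lift_apply_inl _ _ _
  have hfr : ∀ k, f (Monoid.Coprod.inr k) = (1, k) := fun k => Monoid.Coprod.lift_apply_inr _ _ _
  have hf : Function.Surjective f := by
    rintro ⟨g, k⟩
    refine ⟨Monoid.Coprod.inl g * Monoid.Coprod.inr k, ?_⟩
    rw [map_mul, hfl, hfr]
    simp
  refine Group.IsFinitelyPresented.of_surjective f hf ?_
  let S : Set (Monoid.Coprod G K) :=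
    (fun p : G × K => ⁅(Monoid.Coprod.inl p.1 : Monoid.Coprod G K), Monoid.Coprod.inr p.2⁆) '' (X ×ˢ Y)
  refine ⟨S, (hX.prod hY).image _, ?_⟩
  apply le_antisymm
  · apply Subgroup.normalClosure_le_normal
    rintro _ ⟨⟨x, y⟩, -, rfl⟩
    change f ⁅(Monoid.Coprod.inl x : Monoid.Coprod G K), Monoid.Coprod.inr y⁆ = 1
    rw [map_commutatorElement, hfl, hfr, commutatorElement_def]
    ext <;> simp
  · let N := Subgroup.normalClosure S
    let u : G →* Monoid.Coprod G K ⧸ N := (QuotientGroup.mk' N).comp Monoid.Coprod.inl
    let v : K →* Monoid.Coprod G K ⧸ N := (QuotientGroup.mk' N).comp Monoid.Coprod.inr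
    have hXY : ∀ x ∈ X, ∀ y ∈ Y, Commute (u x) (v y) := by
      intro x hx y hy
      rw [← commutatorElement_eq_one_iff_commute]
      change ⁅QuotientGroup.mk' N (Monoid.Coprod.inl x), QuotientGroup.mk' N (Monoid.Coprod.inr y)⁆ = 1
      rw [← map_commutatorElement]
      rw [← MonoidHom.mem_ker, QuotientGroup.ker_mk']
      exact Subgroup.subset_normalClosure ⟨(x, y), ⟨hx, hy⟩, rfl⟩
    have hXk : ∀ x ∈ X, ∀ k, Commute (u x) (v k) := by
      intro x hx k
      have h1 : Subgroup.closure Y ≤ (Subgroup.centralizer {u x}).comap v := by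
        rw [Subgroup.closure_le]
        intro y hy
        change v y ∈ Subgroup.centralizer {u x}
        rw [Subgroup.mem_centralizer_singleton_iff]
        exact (hXY x hx y hy).symm.eq
      have h2 : k ∈ (Subgroup.centralizer {u x}).comap v := h1 (hYK ▸ Subgroup.mem_top k)
      rw [Subgroup.mem_comap, Subgroup.mem_centralizer_singleton_iff] at h2
      exact h2.symm
    have hall : ∀ g k, Commute (u g) (v k) := by
      intro g k
      have h1 : Subgroup.closure X ≤ (Subgroup.centralizer {v k}).comap u := by
        rw [Subgroup.closure_le]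
        intro x hx
        change u x ∈ Subgroup.centralizer {v k}
        rw [Subgroup.mem_centralizer_singleton_iff]
        exact (hXk x hx k).eq
      have h2 : g ∈ (Subgroup.centralizer {v k}).comap u := h1 (hXG ▸ Subgroup.mem_top g)
      rw [Subgroup.mem_comap, Subgroup.mem_centralizer_singleton_iff] at h2
      exact h2
    let w : G × K →* Monoid.Coprod G K ⧸ N := MonoidHom.noncommCoprod u v hall
    have hw : w.comp f = QuotientGroup.mk' N := by
      apply Monoid.Coprod.hom_ext
      · ext g
        change w (f (Monoid.Coprod.inl g)) = u g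
        rw [hfl]
        simp [w]
      · ext k
        change w (f (Monoid.Coprod.inr k)) = v k
        rw [hfr]
        simp [w]
    intro x hx
    rw [MonoidHom.mem_ker] at hx
    change x ∈ N
    rw [← QuotientGroup.ker_mk' N, MonoidHom.mem_ker, ← hw, MonoidHom.comp_apply, hx, map_one]

end Pool.Agent.SFP
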