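import Pool.Agent.SFP.Defs

/-!
# Module Alg: the algebraic comparison lemma

`Good` is a class of modules with two-out-of-three for short exact sequences (`Cls23`).

`alg_main`: let `0 → E₂ → E₁ → E₀ → I → 0` be exact (maps `e2`, `e1`, `ε`), `F₂ → F₁ → F₀` a complex (maps `g2`, `g1`) with `g2`
injective, `g1` surjective, and `f : E → F` an injective chain map with good cokernels `F_i / f_i E_i`.  Let `ψ : W → F₁` be
linear with `g1 ψ = 0`, `ker g1 ≤ range ψ + range g2` and let `N = ψ⁻¹ (range g2)`.  Then `I` is good iff `W / N` is good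
(`W / N` is the homology of `F` at `F₁`).

Proof.  Let `K = ker ε = range e1`, `Z = ker g1`.
(a) `T = F₀ / f₀ K`.  `0 → E₀ / K → F₀ / f₀ K → F₀ / f₀ E₀ → 0` is exact (`f₀` injective) and `E₀ / K ≃ I`.  So `I` good iff `T`
good (`ext` and `ker`).
(b) `f₀ K = range (f₀ e1) = range (g1 f₁)`.  As `g1` is surjective, `g1` induces a surjection `F₁ / f₁ E₁ → F₀ / f₀ K` whose kernel
is the image of `Z`; and `Z ∩ f₁ E₁ = f₁ (ker (g1 f₁)) = f₁ (ker (f₀ e1)) = f₁ (ker e1) = f₁ (range e2) = range (g2 f₂)`.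
So `0 → Z / range (g2 f₂) → F₁ / f₁ E₁ → T → 0` is exact: with `X = Z / range (g2 f₂)`, `T` good iff `X` good (`coker` and `ker`).
(c) `0 → F₂ / f₂ E₂ → Z / range (g2 f₂) → Z / range g2 → 0` is exact, the first map is induced by `g2` (injective because
`g2` is).  And `ψ` induces an isomorphism `W / N ≃ Z / range g2`.  So `X` good iff `W / N` good.
It may be convenient to work with the quotients `F₁ ⧸ range f1` etc. and submodules of `F₁` (`Submodule.comap Z.subtype _`),
or to realise `X` as a submodule of `F₁ ⧸ range f1` (the kernel of the surjection to `T`) and the map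
`F₂ → X`, `y ↦ [g2 y]`, whose kernel is `range f2` (`g2 y = f1 x` implies `f₀ e1 x = g1 g2 y = 0`, `e1 x = 0`, `x = e2 x'`,
`g2 y = f1 e2 x' = g2 f2 x'`, `y = f2 x'`), and whose cokernel is `Z / range g2`
(`range f1 ∩ Z = range (g2 f2) ≤ range g2`).
-/

set_option linter.unusedSectionVars false

namespace Pool.Agent.SFP

/-- a class of modules with two-out-of-three -/
structure Cls23 (B : Type) [Ring B] (Good : ∀ (M : Type) [AddCommGroup M] [Module B M], Prop) :
    Prop where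
  zero : ∀ (M : Type) [AddCommGroup M] [Module B M], Subsingleton M → Good M
  iso : ∀ {M N : Type} [AddCommGroup M] [Module B M] [AddCommGroup N] [Module B N],
    (M ≃ₗ[B] N) → Good M → Good N
  ext : ∀ {L M N : Type} [AddCommGroup L] [Module B L] [AddCommGroup M] [Module B M]
    [AddCommGroup N] [Module B N] (f : L →ₗ[B] M) (g : M →ₗ[B] N), Function.Injective f →
    Function.Surjective g → LinearMap.range f = LinearMap.ker g → Good L → Good N → Good M
  coker : ∀ {L M N : Type} [AddCommGroup L] [Module B L] [AddCommGroup M] [Module B M]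
    [AddCommGroup N] [Module B N] (f : L →ₗ[B] M) (g : M →ₗ[B] N), Function.Injective f →
    Function.Surjective g → LinearMap.range f = LinearMap.ker g → Good L → Good M → Good N
  ker : ∀ {L M N : Type} [AddCommGroup L] [Module B L] [AddCommGroup M] [Module B M]
    [AddCommGroup N] [Module B N] (f : L →ₗ[B] M) (g : M →ₗ[B] N), Function.Injective f →
    Function.Surjective g → LinearMap.range f = LinearMap.ker g → Good M → Good N → Good L

theorem alg_main {B : Type} [Ring B] {Good : ∀ (M : Type) [AddCommGroup M] [Module B M], Prop}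
    (hG : Cls23 B Good)
    {E0 E1 E2 F0 F1 F2 I W : Type} [AddCommGroup E0] [Module B E0] [AddCommGroup E1] [Module B E1]
    [AddCommGroup E2] [Module B E2] [AddCommGroup F0] [Module B F0] [AddCommGroup F1] [Module B F1]
    [AddCommGroup F2] [Module B F2] [AddCommGroup I] [Module B I] [AddCommGroup W] [Module B W]
    (e1 : E1 →ₗ[B] E0) (e2 : E2 →ₗ[B] E1) (ε : E0 →ₗ[B] I) (hε : Function.Surjective ε)
    (he0 : LinearMap.range e1 = LinearMap.ker ε) (he1 : LinearMap.range e2 = LinearMap.ker e1)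
    (he2 : Function.Injective e2)
    (g1 : F1 →ₗ[B] F0) (g2 : F2 →ₗ[B] F1) (hg1 : Function.Surjective g1)
    (hg2 : Function.Injective g2) (hg : ∀ y, g1 (g2 y) = 0)
    (f0 : E0 →ₗ[B] F0) (f1 : E1 →ₗ[B] F1) (f2 : E2 →ₗ[B] F2) (hf0 : Function.Injective f0)
    (hf1 : Function.Injective f1) (hf2 : Function.Injective f2)
    (hc1 : ∀ x, g1 (f1 x) = f0 (e1 x)) (hc2 : ∀ x, g2 (f2 x) = f1 (e2 x))
    (k0 : Good (F0 ⧸ LinearMap.range f0)) (k1 : Good (F1 ⧸ LinearMap.range f1))
    (k2 : Good (F2 ⧸ LinearMap.range f2))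
    (ψ : W →ₗ[B] F1) (hψ1 : ∀ w, g1 (ψ w) = 0)
    (hψ2 : ∀ z, g1 z = 0 → ∃ w, z - ψ w ∈ LinearMap.range g2)
    (N : Submodule B W) (hN : ∀ w, w ∈ N ↔ ψ w ∈ LinearMap.range g2) :
    Good I ↔ Good (W ⧸ N) := by
  -- the target `T`
  let P : Submodule B F0 := LinearMap.range (f0 ∘ₗ e1)
  have hP : ∀ y, y ∈ P ↔ ∃ x, f0 (e1 x) = y := fun y => Iff.rfl
  have hPle : P ≤ LinearMap.range f0 := by
    intro y hy
    obtain ⟨x, hx⟩ := (hP y).1 hy
    exact ⟨e1 x, hx⟩
  have hKmem : ∀ x, ε x = 0 ↔ ∃ y, e1 y = x := by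
    intro x
    rw [← LinearMap.mem_ker, ← he0]
    exact Iff.rfl
  have hK1 : ∀ x, e1 x = 0 ↔ ∃ y, e2 y = x := by
    intro x
    rw [← LinearMap.mem_ker, ← he1]
    exact Iff.rfl
  -- (a)
  have ha1 : LinearMap.ker ε ≤ P.comap f0 := by
    intro x hx
    obtain ⟨y, hy⟩ := (hKmem x).1 hx
    exact (hP _).2 ⟨y, by rw [hy]⟩
  let α : (E0 ⧸ LinearMap.ker ε) →ₗ[B] F0 ⧸ P := Submodule.mapQ (LinearMap.ker ε) P f0 ha1
  let β : (F0 ⧸ P) →ₗ[B] F0 ⧸ LinearMap.range f0 :=
    Submodule.mapQ P (LinearMap.range f0) LinearMap.id hPle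
  have hα : ∀ x, α (Submodule.Quotient.mk x) = Submodule.Quotient.mk (f0 x) := fun x => rfl
  have hβ : ∀ y, β (Submodule.Quotient.mk y) = Submodule.Quotient.mk y := fun y => rfl
  have hαi : Function.Injective α := by
    rw [injective_iff_map_eq_zero]
    intro a
    obtain ⟨x, rfl⟩ := Submodule.Quotient.mk_surjective _ a
    intro h
    rw [hα, Submodule.Quotient.mk_eq_zero] at h
    obtain ⟨y, hy⟩ := (hP _).1 h
    rw [Submodule.Quotient.mk_eq_zero, LinearMap.mem_ker]
    exact (hKmem x).2 ⟨y, hf0 hy⟩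
  have hβs : Function.Surjective β := by
    intro b
    obtain ⟨y, rfl⟩ := Submodule.Quotient.mk_surjective _ b
    exact ⟨Submodule.Quotient.mk y, hβ y⟩
  have hαβ : LinearMap.range α = LinearMap.ker β := by
    ext b
    obtain ⟨y, rfl⟩ := Submodule.Quotient.mk_surjective _ b
    rw [LinearMap.mem_ker, hβ, Submodule.Quotient.mk_eq_zero, LinearMap.mem_range]
    constructor
    · rintro ⟨a, ha⟩
      obtain ⟨x, rfl⟩ := Submodule.Quotient.mk_surjective _ a
      rw [hα, Submodule.Quotient.eq] at ha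
      have h2 := (LinearMap.range f0).sub_mem (LinearMap.mem_range_self f0 x) (hPle ha)
      rwa [sub_sub_cancel] at h2
    · rintro ⟨x, hx⟩
      exact ⟨Submodule.Quotient.mk x, by rw [hα, hx]⟩
  have hIT : Good I ↔ Good (F0 ⧸ P) := by
    have hI : Good I ↔ Good (E0 ⧸ LinearMap.ker ε) :=
      ⟨fun h => hG.iso (LinearMap.quotKerEquivOfSurjective ε hε).symm h,
        fun h => hG.iso (LinearMap.quotKerEquivOfSurjective ε hε) h⟩
    rw [hI]
    exact ⟨fun h => hG.ext α β hαi hβs hαβ h k0, fun h => hG.ker α β hαi hβs hαβ h k0⟩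
  -- (b)
  have hb1 : LinearMap.range f1 ≤ P.comap g1 := by
    rintro _ ⟨x, rfl⟩
    exact (hP _).2 ⟨x, (hc1 x).symm⟩
  let γ : (F1 ⧸ LinearMap.range f1) →ₗ[B] F0 ⧸ P := Submodule.mapQ (LinearMap.range f1) P g1 hb1
  have hγ : ∀ x, γ (Submodule.Quotient.mk x) = Submodule.Quotient.mk (g1 x) := fun x => rfl
  have hγs : Function.Surjective γ := by
    intro b
    obtain ⟨y, rfl⟩ := Submodule.Quotient.mk_surjective _ b
    obtain ⟨z, rfl⟩ := hg1 y
    exact ⟨Submodule.Quotient.mk z, hγ z⟩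
  have hTX : Good (F0 ⧸ P) ↔ Good (LinearMap.ker γ) := by
    have hi : Function.Injective (LinearMap.ker γ).subtype := Subtype.val_injective
    have hr : LinearMap.range (LinearMap.ker γ).subtype = LinearMap.ker γ :=
      Submodule.range_subtype _
    exact ⟨fun h => hG.ker (LinearMap.ker γ).subtype γ hi hγs hr k1 h,
      fun h => hG.coker (LinearMap.ker γ).subtype γ hi hγs hr h k1⟩
  -- (c)
  have hd1 : LinearMap.range f2 ≤ (LinearMap.range f1).comap g2 := by
    rintro _ ⟨x, rfl⟩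
    exact ⟨e2 x, (hc2 x).symm⟩
  let δ0 : (F2 ⧸ LinearMap.range f2) →ₗ[B] F1 ⧸ LinearMap.range f1 :=
    Submodule.mapQ (LinearMap.range f2) (LinearMap.range f1) g2 hd1
  have hδ0 : ∀ x, δ0 (Submodule.Quotient.mk x) = Submodule.Quotient.mk (g2 x) := fun x => rfl
  have hδ1 : ∀ c, δ0 c ∈ LinearMap.ker γ := by
    intro c
    obtain ⟨y, rfl⟩ := Submodule.Quotient.mk_surjective _ c
    rw [LinearMap.mem_ker, hδ0, hγ, hg, Submodule.Quotient.mk_zero]
  let δ : (F2 ⧸ LinearMap.range f2) →ₗ[B] LinearMap.ker γ := δ0.codRestrict _ hδ1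
  have hδ : ∀ c, ((δ c : LinearMap.ker γ) : F1 ⧸ LinearMap.range f1) = δ0 c := fun c => rfl
  -- key: `g1 (f1 x) = 0` implies `f1 x` is in the range of `g2 f2`
  have hkey : ∀ x, g1 (f1 x) = 0 → ∃ x', f1 x = g2 (f2 x') := by
    intro x hx
    rw [hc1] at hx
    have h2 : e1 x = 0 := hf0 (by rw [hx, map_zero])
    obtain ⟨x', rfl⟩ := (hK1 x).1 h2
    exact ⟨x', (hc2 x').symm⟩
  have hδi : Function.Injective δ := by
    rw [injective_iff_map_eq_zero]
    intro c hc
    have hc' : δ0 c = 0 := by rw [← hδ, hc]; rfl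
    obtain ⟨y, rfl⟩ := Submodule.Quotient.mk_surjective _ c
    rw [hδ0, Submodule.Quotient.mk_eq_zero] at hc'
    obtain ⟨x, hx⟩ := hc'
    obtain ⟨x', hx'⟩ := hkey x (by rw [hx, hg])
    rw [Submodule.Quotient.mk_eq_zero]
    exact ⟨x', hg2 (by rw [← hx', hx])⟩
  let θ0 : W →ₗ[B] F1 ⧸ LinearMap.range f1 := (LinearMap.range f1).mkQ ∘ₗ ψ
  have hθ0 : ∀ w, θ0 w = Submodule.Quotient.mk (ψ w) := fun w => rfl
  have hθ1 : ∀ w, θ0 w ∈ LinearMap.ker γ := by
    intro w
    rw [LinearMap.mem_ker, hθ0, hγ, hψ1, Submodule.Quotient.mk_zero]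
  let θ : W →ₗ[B] (LinearMap.ker γ) ⧸ (LinearMap.range δ) :=
    (LinearMap.range δ).mkQ ∘ₗ (θ0.codRestrict _ hθ1)
  have hθ : ∀ w, θ w = Submodule.Quotient.mk (⟨θ0 w, hθ1 w⟩ : LinearMap.ker γ) := fun w => rfl
  have hθs : Function.Surjective θ := by
    intro b
    obtain ⟨⟨x, hx⟩, rfl⟩ := Submodule.Quotient.mk_surjective _ b
    obtain ⟨z, rfl⟩ := Submodule.Quotient.mk_surjective _ x
    have hx' := hx
    rw [LinearMap.mem_ker, hγ, Submodule.Quotient.mk_eq_zero] at hx'
    obtain ⟨x', hx'⟩ := (hP _).1 hx'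
    have h1 : g1 (z - f1 x') = 0 := by rw [map_sub, hc1, hx', sub_self]
    obtain ⟨w, y, hy⟩ := hψ2 _ h1
    refine ⟨w, ?_⟩
    rw [hθ, Submodule.Quotient.eq]
    refine ⟨Submodule.Quotient.mk (-y), ?_⟩
    apply Subtype.ext
    rw [hδ, hδ0]
    change _ = (Submodule.Quotient.mk (ψ w) : F1 ⧸ LinearMap.range f1) - Submodule.Quotient.mk z
    rw [← Submodule.Quotient.mk_sub, Submodule.Quotient.eq]
    refine ⟨x', ?_⟩
    rw [map_neg, hy]
    abel
  have hθk : LinearMap.ker θ = N := by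
    ext w
    rw [LinearMap.mem_ker, hθ, Submodule.Quotient.mk_eq_zero, hN, LinearMap.mem_range]
    constructor
    · rintro ⟨c, hc⟩
      obtain ⟨y, rfl⟩ := Submodule.Quotient.mk_surjective _ c
      have hc' : (Submodule.Quotient.mk (g2 y) : F1 ⧸ LinearMap.range f1) =
          Submodule.Quotient.mk (ψ w) := congrArg Subtype.val hc
      rw [Submodule.Quotient.eq] at hc'
      obtain ⟨x, hx⟩ := hc'
      obtain ⟨x', hx'⟩ := hkey x (by rw [hx, map_sub, hg, hψ1, sub_zero])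
      refine ⟨y - f2 x', ?_⟩
      rw [map_sub, ← hx', hx, sub_sub_cancel]
    · rintro ⟨y, hy⟩
      refine ⟨Submodule.Quotient.mk y, ?_⟩
      apply Subtype.ext
      rw [hδ, hδ0, hy]
      rfl
  have hXW : Good (LinearMap.ker γ) ↔ Good (W ⧸ N) := by
    have hW : Good ((LinearMap.ker γ) ⧸ (LinearMap.range δ)) ↔ Good (W ⧸ N) := by
      have e : (W ⧸ N) ≃ₗ[B] ((LinearMap.ker γ) ⧸ (LinearMap.range δ)) :=
        (Submodule.quotEquivOfEq N (LinearMap.ker θ) hθk.symm).trans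
          (LinearMap.quotKerEquivOfSurjective θ hθs)
      exact ⟨fun h => hG.iso e.symm h, fun h => hG.iso e h⟩
    rw [← hW]
    have hr : LinearMap.range δ = LinearMap.ker (LinearMap.range δ).mkQ :=
      (Submodule.ker_mkQ _).symm
    have hs : Function.Surjective (LinearMap.range δ).mkQ := Submodule.mkQ_surjective _
    exact ⟨fun h => hG.coker δ (LinearMap.range δ).mkQ hδi hs hr k2 h,
      fun h => hG.ext δ (LinearMap.range δ).mkQ hδi hs hr k2 h⟩
  rw [hIT, hTX, hXW]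

end Pool.Agent.SFP
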