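import Pool.Agent.SFP.Cx

/-!
# Module Chain: chain identities

Both complexes and the chain map are given by explicit formulas in file Cx.lean.

(1) `qq D a` commutes with `wE (c g j)` (`hcq`); `wE (c g j)`, `wE (y g)` commute (`hyc`); the `wE (lv v)`, `wE (lv (lnx v))` commute
(`lv_comm`); `wE (hz (rel v.1))` commutes with `wE (lv v)` (`lv_z`).  And
`wE (hw s) * qq (x s) = qq (x s) * wE (hy (gen s))` since `hw s = x y x⁻¹`.
(2) `dd_zero` for `w = wE` and `w = wF`.  Coordinate `inr r`: `∑_(rel v.1 = r) (bd ζ) v * w (lv v) =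
∑_(rel v.1 = r) ζ (lnx⁻¹ v) w (lv (lnx⁻¹ v)) w (lv v) - ζ v w (lv (lnx v)) w (lv v)`, reindex the first sum by `lnx`
(`Equiv.sum_comp`, `rel_lnx`) and use that `w (lv v)`, `w (lv (lnx v))` commute.  Coordinate `inl g`:
`∑_j (∑_(gen s = g, sg s = j) ζ (s, 0) w(z) x_s - ∑_(gen s = g, !sg s = j) ζ (s, 1) w(z) x_s) w (c g j)
 - ∑_(gen s = g) (ζ (s, 0) w (ha s) - ζ (s, 1) w (hb s)) w(z) x_s`, and `w(z) x_s w (ha s) = w (ha s) w(z) x_s`.
(3) `chain1` (`d1 wF (mulW w1 a) = mulW w0 (d1 wE a)`): coordinate `inr r`: `wE (lv v) * wE (hz r)` on both sides.  Coordinate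
`inl g`: `wE (c g j) wE (y g)` on both sides; and `wE (hw s) wE (hz (rel s)) x_s = wE (hz (rel s)) x_s wE (hy (gen s))`.
(4) `chain2` (`d2 wF (mulW w2 ζ) = mulW w1 (d2 wE ζ)`): coordinate `inr v`: the edge `lnx⁻¹ v`: `w2 (lnx⁻¹ v) =
wE (lv (lnx⁻¹ v)) wE (lv v) wE (hz)`; the edge `v`: `w2 v = wE (lv v) wE (lv (lnx v)) wE (hz) = wE (lv (lnx v)) (wE (lv v) wE (hz))`.
Coordinate `inl (g, j)`: for `gen s = g`, `sg s = j`: `w2 (s, 0) x_s = wE (ha s) wE (hw s) wE (hz) x_s =
wE (hz) x_s wE (ha s) wE (hy g)`, and `ha s = c g j`; for `gen s = g`, `!sg s = j`: `w2 (s, 1) x_s =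
wE (hw s) wE (hb s) wE (hz) x_s = wE (hz) x_s wE (hb s) wE (hy g)`.
It suffices to prove commutation facts once (`wE_comm` : `Commute u v → Commute (wE u) (wE v)`).
-/

set_option linter.unusedSectionVars false

namespace Pool.Agent.SFP

open Pool.Agent.Hhelper49.Srr

variable {Q Gm Rl Sl : Type} [Group Q] (D : Dat Q Gm Rl Sl)
variable [Fintype Gm] [DecidableEq Gm] [Fintype Rl] [DecidableEq Rl] [Fintype Sl] [DecidableEq Sl]

omit [Fintype Gm] [DecidableEq Gm] [Fintype Rl] [DecidableEq Rl] [Fintype Sl] [DecidableEq Sl]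

theorem of_commute {u v : HH D} (h : Commute u v) : Commute (of' u : ZG (HH D)) (of' v) :=
  h.map (MonoidAlgebra.of ℤ (HH D))

theorem wE_of {u v : HH D} (h : Commute u v) : Commute (wE D u) (of' v) :=
  (Commute.one_left _).sub_left (of_commute D h)

theorem wE_comm {u v : HH D} (h : Commute u v) : Commute (wE D u) (wE D v) :=
  (Commute.one_right _).sub_right (wE_of D h)

theorem wE_qq {u : HH D} (a : Q) (h : Commute u (hq D a)) : Commute (wE D u) (qq D a) :=
  wE_of D h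

theorem wE_hw (s : Sl) : wE D (hw D s) * qq D (D.x s) = qq D (D.x s) * wE D (hy D (D.gen s)) := by
  rw [wE, wE, qq, sub_mul, mul_sub, one_mul, mul_one, ← map_mul, ← map_mul]
  congr 2
  rw [hw]
  group

/-- the general hypothesis on the coefficients -/
structure Good (w : HH D → ZG (HH D)) : Prop where
  comm : ∀ u v, Commute u v → Commute (w u) (w v)
  cq : ∀ u a, Commute u (hq D a) → Commute (w u) (qq D a)

theorem good_wE : Good D (wE D) := ⟨fun _ _ h => wE_comm D h, fun _ a h => wE_qq D a h⟩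

theorem good_wF : Good D (wF D) := ⟨fun _ _ _ => Commute.one_left _, fun _ _ _ => Commute.one_left _⟩

theorem good_key {w : HH D → ZG (HH D)} (hw' : Good D w) (s : Sl) (j : Bool) :
    w (hz D (D.rel s)) * qq D (D.x s) * w (hc D (D.gen s) j) =
      w (hc D (D.gen s) j) * (w (hz D (D.rel s)) * qq D (D.x s)) := by
  have h1 : Commute (w (hz D (D.rel s))) (w (hc D (D.gen s) j)) := hw'.comm _ _ (hzc D s j)
  have h2 : Commute (w (hc D (D.gen s) j)) (qq D (D.x s)) := hw'.cq _ _ (hcq D _ _ _)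
  exact (h1.mul_left h2.symm).eq

variable [Fintype Gm] [DecidableEq Gm] [Fintype Rl] [DecidableEq Rl] [Fintype Sl] [DecidableEq Sl]

theorem sum_bool_term (w : HH D → ZG (HH D)) (g : Gm) (ζ : Sl × Fin 3 → ZG (HH D)) :
    (∑ j : Bool, d2 D w ζ (Sum.inl (g, j)) * w (hc D g j)) =
      ∑ s : Sl, if D.gen s = g then ζ (s, 0) * (w (hz D (D.rel s)) * qq D (D.x s) * w (ha D s)) -
        ζ (s, 1) * (w (hz D (D.rel s)) * qq D (D.x s) * w (hb D s)) else 0 := by
  change (∑ j : Bool, ((∑ s : Sl, if D.gen s = g ∧ D.sg s = j then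
      ζ (s, 0) * (w (hz D (D.rel s)) * qq D (D.x s)) else 0) -
        ∑ s : Sl, if D.gen s = g ∧ (!D.sg s) = j then
          ζ (s, 1) * (w (hz D (D.rel s)) * qq D (D.x s)) else 0) * w (hc D g j)) = _
  simp only [sub_mul, Finset.sum_mul, ite_mul, zero_mul]
  rw [Fintype.sum_bool, ← Finset.sum_sub_distrib, ← Finset.sum_sub_distrib, ← Finset.sum_add_distrib]
  refine Finset.sum_congr rfl fun s _ => ?_
  by_cases h : D.gen s = g
  · subst h
    cases hs : D.sg s <;> simp [ha, hb, hs, mul_assoc] <;> abel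
  · simp [h]

theorem dd_zero {w : HH D → ZG (HH D)} (hw' : Good D w) (ζ : Sl × Fin 3 → ZG (HH D)) :
    d1 D w (d2 D w ζ) = 0 := by
  funext i
  cases i with
  | inl g =>
    change (∑ j : Bool, d2 D w ζ (Sum.inl (g, j)) * w (hc D g j)) -
        (∑ s : Sl, if D.gen s = g then bd D w ζ (s, 1) * (w (hz D (D.rel s)) * qq D (D.x s)) else 0) = 0
    rw [sum_bool_term, ← Finset.sum_sub_distrib]
    refine Finset.sum_eq_zero fun s _ => ?_
    by_cases h : D.gen s = g
    · rw [if_pos h, if_pos h]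
      change _ - (ζ (s, 0) * w (ha D s) - ζ (s, 1) * w (hb D s)) * _ = 0
      rw [ha, hb, good_key D hw', good_key D hw']
      simp only [sub_mul, mul_assoc]
      exact sub_self _
    · rw [if_neg h, if_neg h, sub_zero]
  | inr r =>
    change (∑ v : Sl × Fin 3, if D.rel v.1 = r then (ζ ((lnx D).symm v) * w (lv D ((lnx D).symm v)) -
      ζ v * w (lv D (lnx D v))) * w (lv D v) else 0) = 0
    have h1 : ∀ v : Sl × Fin 3, (if D.rel v.1 = r then (ζ ((lnx D).symm v) * w (lv D ((lnx D).symm v)) -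
        ζ v * w (lv D (lnx D v))) * w (lv D v) else 0) =
        (if D.rel v.1 = r then ζ ((lnx D).symm v) * w (lv D ((lnx D).symm v)) * w (lv D v) else 0) -
        (if D.rel v.1 = r then ζ v * w (lv D (lnx D v)) * w (lv D v) else 0) := by
      intro v
      split_ifs
      · rw [sub_mul]
      · rw [sub_zero]
    rw [Finset.sum_congr rfl (fun v _ => h1 v), Finset.sum_sub_distrib, sub_eq_zero,
      ← Equiv.sum_comp (lnx D)]
    refine Finset.sum_congr rfl fun v _ => ?_
    rw [rel_lnx, (lnx D).symm_apply_apply]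
    split_ifs
    · rw [mul_assoc, mul_assoc, (hw'.comm _ _ (lv_comm D v)).eq]
    · rfl

theorem dd_zero_E (ζ : Sl × Fin 3 → ZG (HH D)) : d1 D (wE D) (d2 D (wE D) ζ) = 0 :=
  dd_zero D (good_wE D) ζ

theorem dd_zero_F (ζ : Sl × Fin 3 → ZG (HH D)) : d1 D (wF D) (d2 D (wF D) ζ) = 0 :=
  dd_zero D (good_wF D) ζ

omit [Fintype Gm] [DecidableEq Gm] [Fintype Rl] [DecidableEq Rl] [Fintype Sl] [DecidableEq Sl] in
theorem key1 (s : Sl) : wE D (hw D s) * wE D (hz D (D.rel s)) * qq D (D.x s) =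
    wE D (hz D (D.rel s)) * qq D (D.x s) * wE D (hy D (D.gen s)) := by
  rw [← (wE_comm D (hzw D s)).eq, mul_assoc, wE_hw, ← mul_assoc]

omit [Fintype Gm] [DecidableEq Gm] [Fintype Rl] [DecidableEq Rl] [Fintype Sl] [DecidableEq Sl] in
theorem key2 (s : Sl) (j : Bool) :
    wE D (hc D (D.gen s) j) * wE D (hw D s) * wE D (hz D (D.rel s)) * qq D (D.x s) =
      wE D (hz D (D.rel s)) * qq D (D.x s) * (wE D (hc D (D.gen s) j) * wE D (hy D (D.gen s))) := by
  rw [mul_assoc (wE D (hc D (D.gen s) j)), mul_assoc (wE D (hc D (D.gen s) j)), key1, ← mul_assoc,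
    ← good_key D (good_wE D) s j, mul_assoc]

theorem chain1 (a : (Gm × Bool) ⊕ (Sl × Fin 3) → ZG (HH D)) :
    d1 D (wF D) (mulW (w1 D) a) = mulW (w0 D) (d1 D (wE D) a) := by
  funext i
  cases i with
  | inl g =>
    change (∑ j : Bool, (a (Sum.inl (g, j)) * (wE D (hc D g j) * wE D (hy D g))) * 1) -
        (∑ s : Sl, if D.gen s = g then (a (Sum.inr (s, 1)) * (wE D (hw D s) * wE D (hz D (D.rel s)))) *
          (1 * qq D (D.x s)) else 0) =
      ((∑ j : Bool, a (Sum.inl (g, j)) * wE D (hc D g j)) -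
        ∑ s : Sl, if D.gen s = g then a (Sum.inr (s, 1)) * (wE D (hz D (D.rel s)) * qq D (D.x s)) else 0) *
        wE D (hy D g)
    rw [sub_mul, Finset.sum_mul, Finset.sum_mul]
    congr 1
    · refine Finset.sum_congr rfl fun j _ => ?_
      rw [mul_one, mul_assoc]
    · refine Finset.sum_congr rfl fun s _ => ?_
      by_cases h : D.gen s = g
      · rw [if_pos h, if_pos h, one_mul, mul_assoc, key1, h, ← mul_assoc]
      · rw [if_neg h, if_neg h, zero_mul]
  | inr r =>
    change (∑ v : Sl × Fin 3, if D.rel v.1 = r then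
        (a (Sum.inr v) * (wE D (lv D v) * wE D (hz D (D.rel v.1)))) * 1 else 0) =
      (∑ v : Sl × Fin 3, if D.rel v.1 = r then a (Sum.inr v) * wE D (lv D v) else 0) * wE D (hz D r)
    rw [Finset.sum_mul]
    refine Finset.sum_congr rfl fun v _ => ?_
    by_cases h : D.rel v.1 = r
    · rw [if_pos h, if_pos h, mul_one, h, mul_assoc]
    · rw [if_neg h, if_neg h, zero_mul]

theorem chain2 (ζ : Sl × Fin 3 → ZG (HH D)) :
    d2 D (wF D) (mulW (w2 D) ζ) = mulW (w1 D) (d2 D (wE D) ζ) := by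
  funext i
  rcases i with ⟨g, j⟩ | v
  · change (∑ s : Sl, if D.gen s = g ∧ D.sg s = j then (ζ (s, 0) * (wE D (ha D s) * wE D (hw D s) *
          wE D (hz D (D.rel s)))) * (1 * qq D (D.x s)) else 0) -
        (∑ s : Sl, if D.gen s = g ∧ (!D.sg s) = j then (ζ (s, 1) * (wE D (hw D s) * wE D (hb D s) *
          wE D (hz D (D.rel s)))) * (1 * qq D (D.x s)) else 0) =
        ((∑ s : Sl, if D.gen s = g ∧ D.sg s = j then ζ (s, 0) * (wE D (hz D (D.rel s)) * qq D (D.x s)) else 0) -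
        ∑ s : Sl, if D.gen s = g ∧ (!D.sg s) = j then
          ζ (s, 1) * (wE D (hz D (D.rel s)) * qq D (D.x s)) else 0) * (wE D (hc D g j) * wE D (hy D g))
    rw [sub_mul, Finset.sum_mul, Finset.sum_mul]
    congr 1
    · refine Finset.sum_congr rfl fun s _ => ?_
      by_cases h : D.gen s = g ∧ D.sg s = j
      · rw [if_pos h, if_pos h]
        obtain ⟨rfl, rfl⟩ := h
        rw [one_mul, mul_assoc (ζ (s, 0)), mul_assoc (ζ (s, 0)), ha, key2]
      · rw [if_neg h, if_neg h, zero_mul]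
    · refine Finset.sum_congr rfl fun s _ => ?_
      by_cases h : D.gen s = g ∧ (!D.sg s) = j
      · rw [if_pos h, if_pos h]
        obtain ⟨rfl, rfl⟩ := h
        rw [one_mul, mul_assoc (ζ (s, 1)), mul_assoc (ζ (s, 1)), hb,
          ← (wE_comm D (hcw D s (!D.sg s))).eq, key2]
      · rw [if_neg h, if_neg h, zero_mul]
  · change (ζ ((lnx D).symm v) * (wE D (lv D ((lnx D).symm v)) * wE D (lv D (lnx D ((lnx D).symm v))) *
          wE D (hz D (D.rel ((lnx D).symm v).1)))) * 1 -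
        (ζ v * (wE D (lv D v) * wE D (lv D (lnx D v)) * wE D (hz D (D.rel v.1)))) * 1 =
        (ζ ((lnx D).symm v) * wE D (lv D ((lnx D).symm v)) - ζ v * wE D (lv D (lnx D v))) *
          (wE D (lv D v) * wE D (hz D (D.rel v.1)))
    rw [(lnx D).apply_symm_apply, rel_lnx_symm, mul_one, mul_one, sub_mul,
      (wE_comm D (lv_comm D v)).eq]
    simp only [mul_assoc]

end Pool.Agent.SFP
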