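import Pool.Agent.SFP.Fib

/-!
# Module CoefProd: the module `P` over `G × F₂`

`F = FreeGroup (Fin 2)`, `Γ = G × F`, `κ = MonoidHom.inl G F`, `r = MonoidHom.fst G F`; `T = Pull r P` (`(g, x)` acts on `P` by `g`).
For a `ℤ[G]`-module `P` and a `ℤ[F]`-module `A` let `TP P A = P ⊗[ℤ] A`, with `(g, x) (p ⊗ a) = g p ⊗ x a`.
(1) `W = TP P ℤ[F]` is induced from `P` (`i p = p ⊗ 1`, `π` = coefficient at `1`; `(g, x) ∈ κ.range` iff `x = 1`).
(2) There is an exact sequence of `ℤ[Γ]`-modules `0 → (Fin 2 → W) → W → T → 0`: tensor the sequence of `free_exact` (split over `ℤ`)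
with `P`.
(3) `coef_fp`: `W` is (FP) by `ind_fp`, so `T` is (FP) by `fp_coker`.
(4) `coef_ff`: by `Sim_ext` for the `m`-th power of the sequence (as in `prod_freeRes` with `k = 1`): there is `C` with
`W^m × C` (FF) and `W^(2m) × T^m × C = (W^m × C) × (W^m × T^m)` (FF), so `W^m × T^m` is (FF) by `ff_right`; hence `T^m` is (FF) iff
`W^m` is (FF).  And `W^m` is (FF) iff `P^m` is (FF) over `ℤ[G]`: `←` by `ind_ff`, `ind_pi`; `→` by `ind_reduce` with `desc_ret`
(`P^m` is (FP) by `fp_pi`).
-/

set_option linter.unusedSectionVars false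

namespace Pool.Agent.SFP

open Pool.Agent.Hhelper49.Srr Pool.Agent.Hhelper49.Srf
open scoped TensorProduct

/-- the tensor product over `ℤ` of a `ℤ[G]`-module and a `ℤ[F]`-module -/
def TP (_ _ : Type) (P A : Type) [AddCommGroup P] [AddCommGroup A] : Type := P ⊗[ℤ] A

section
variable (G F : Type) [Group G] [Group F] (P A : Type) [AddCommGroup P] [AddCommGroup A]

noncomputable instance : AddCommGroup (TP G F P A) := inferInstanceAs (AddCommGroup (P ⊗[ℤ] A))

variable {P A} in
/-- pure tensors -/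
noncomputable def TP.mk (p : P) (a : A) : TP G F P A := p ⊗ₜ[ℤ] a

variable [Module (MonoidAlgebra ℤ G) P] [Module (MonoidAlgebra ℤ F) A]

/-- the action on the tensor product -/
noncomputable def tpHom : G × F →* Module.End ℤ (P ⊗[ℤ] A) where
  toFun g := TensorProduct.map (pullHom (MonoidHom.id G) P g.1) (pullHom (MonoidHom.id F) A g.2)
  map_one' := by
    rw [Prod.fst_one, Prod.snd_one, map_one, map_one]
    exact TensorProduct.map_one
  map_mul' g h := by
    rw [Prod.fst_mul, Prod.snd_mul, map_mul, map_mul]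
    exact TensorProduct.map_mul _ _ _ _

noncomputable instance : Module (MonoidAlgebra ℤ (G × F)) (TP G F P A) :=
  modOf (A := P ⊗[ℤ] A) (tpHom G F P A)

variable {P A} in
theorem TP.act_mk (g : G × F) (p : P) (a : A) :
    act g (TP.mk G F p a) = TP.mk G F (act g.1 p) (act g.2 a) := by
  have h := modOf_act (A := P ⊗[ℤ] A) (tpHom G F P A) g (p ⊗ₜ[ℤ] a)
  exact h

variable {P A} in
theorem TP.induction {p : TP G F P A → Prop} (z : TP G F P A) (h0 : p 0)
    (hadd : ∀ a b, p a → p b → p (a + b)) (hs : ∀ x a, p (TP.mk G F x a)) : p z :=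
  TensorProduct.induction_on (z : P ⊗[ℤ] A) h0 hs (fun a b => hadd a b)

end

section
variable {G F : Type} [Group G] [Group F] {P : Type} [AddCommGroup P] [Module (MonoidAlgebra ℤ G) P]
variable {A B C : Type} [AddCommGroup A] [Module (MonoidAlgebra ℤ F) A] [AddCommGroup B]
  [Module (MonoidAlgebra ℤ F) B] [AddCommGroup C] [Module (MonoidAlgebra ℤ F) C]

/-- equivariance can be checked on pure tensors -/
theorem tp_equi {N : Type} [AddCommGroup N] [Module (MonoidAlgebra ℤ (G × F)) N]
    (φ : TP G F P A →+ N)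
    (h : ∀ (g : G × F) (p : P) (a : A), φ (TP.mk G F (act g.1 p) (act g.2 a)) = act g (φ (TP.mk G F p a)))
    (g : G × F) (z : TP G F P A) : φ (act g z) = act g (φ z) := by
  induction z using TP.induction with
  | h0 => simp only [act, smul_zero, map_zero]
  | hadd a b ha hb =>
    rw [act, smul_add, map_add, map_add, act, smul_add]
    exact congrArg₂ _ ha hb
  | hs p a =>
    rw [TP.act_mk]
    exact h g p a

/-- functoriality, additive map -/
noncomputable def tpMapA (f : A →ₗ[MonoidAlgebra ℤ F] B) : TP G F P A →+ TP G F P B :=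
  ((f.toAddMonoidHom.toIntLinearMap).lTensor P).toAddMonoidHom

theorem tpMapA_mk (f : A →ₗ[MonoidAlgebra ℤ F] B) (p : P) (a : A) :
    tpMapA f (TP.mk G F p a) = TP.mk G F p (f a) := rfl

/-- functoriality -/
noncomputable def tpMap (f : A →ₗ[MonoidAlgebra ℤ F] B) :
    TP G F P A →ₗ[MonoidAlgebra ℤ (G × F)] TP G F P B :=
  mkLin (tpMapA f) (tp_equi (tpMapA f) (by
    intro g p a
    rw [tpMapA_mk, tpMapA_mk, TP.act_mk, lin_act]))

theorem tp_exact (f : A →ₗ[MonoidAlgebra ℤ F] B) (g : B →ₗ[MonoidAlgebra ℤ F] C)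
    (hf : Function.Injective f) (hg : Function.Surjective g)
    (hfg : LinearMap.range f = LinearMap.ker g) (hC : Module.Projective ℤ C) :
    Function.Injective (tpMap (G := G) (P := P) f) ∧ Function.Surjective (tpMap (G := G) (P := P) g) ∧
      LinearMap.range (tpMap (G := G) (P := P) f) = LinearMap.ker (tpMap (G := G) (P := P) g) := by
  let f' : A →ₗ[ℤ] B := f.toAddMonoidHom.toIntLinearMap
  let g' : B →ₗ[ℤ] C := g.toAddMonoidHom.toIntLinearMap
  have hf' : Function.Injective f' := hf
  have hg' : Function.Surjective g' := hg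
  have hex : Function.Exact f' g' := by
    intro y
    have h1 : y ∈ LinearMap.range f ↔ y ∈ LinearMap.ker g := by rw [hfg]
    exact h1.symm
  have hs : ∃ s : C →ₗ[ℤ] B, g' ∘ₗ s = LinearMap.id :=
    Module.projective_lifting_property g' LinearMap.id hg'
  obtain ⟨l, hl⟩ : ∃ l : B →ₗ[ℤ] A, l ∘ₗ f' = LinearMap.id :=
    ((hex.split_tfae hf' hg').out 0 1).1 hs
  refine ⟨?_, ?_, ?_⟩
  · have h1 : ∀ z : P ⊗[ℤ] A, (l.lTensor P) ((f'.lTensor P) z) = z := by
      intro z
      rw [← LinearMap.comp_apply, ← LinearMap.lTensor_comp, hl, LinearMap.lTensor_id]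
      rfl
    exact Function.LeftInverse.injective (f := (f'.lTensor P)) h1
  · exact LinearMap.lTensor_surjective P hg'
  · have h1 := lTensor_exact P hex hg'
    ext z
    exact (h1 z).symm

/-- compatibility with powers, additive -/
noncomputable def tpPiA (n : ℕ) : TP G F P (Fin n → A) ≃+ (Fin n → TP G F P A) :=
  (TensorProduct.piRight ℤ ℤ P (fun _ : Fin n => A)).toAddEquiv

theorem tpPiA_mk (n : ℕ) (p : P) (a : Fin n → A) :
    tpPiA n (TP.mk G F p a) = fun j => TP.mk G F p (a j) := rfl

/-- compatibility with powers -/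
noncomputable def tpPi (n : ℕ) : TP G F P (Fin n → A) ≃ₗ[MonoidAlgebra ℤ (G × F)] (Fin n → TP G F P A) :=
  mkEquiv (tpPiA n) (tp_equi (tpPiA n).toAddMonoidHom (by
      intro g p a
      change tpPiA n (TP.mk G F (act g.1 p) (act g.2 a)) = act g (tpPiA n (TP.mk G F p a))
      rw [tpPiA_mk, tpPiA_mk]
      funext j
      exact (TP.act_mk G F g p (a j)).symm))

/-- tensor product with the trivial module, additive -/
noncomputable def tpTrivA : TP G F P (Triv F) ≃+ Pull (MonoidHom.fst G F) P :=
  (TensorProduct.rid ℤ P).toAddEquiv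

theorem tpTrivA_mk (p : P) (a : ℤ) :
    tpTrivA (TP.mk G F p (a : Triv F)) = Pull.mk (MonoidHom.fst G F) (a • p) :=
  TensorProduct.rid_tmul _ _

/-- tensor product with the trivial module -/
noncomputable def tpTriv : TP G F P (Triv F) ≃ₗ[MonoidAlgebra ℤ (G × F)] Pull (MonoidHom.fst G F) P :=
  mkEquiv tpTrivA (tp_equi (A := Triv F) tpTrivA.toAddMonoidHom (by
      intro g p a
      change tpTrivA (TP.mk G F (act g.1 p) (act g.2 a)) = act g (tpTrivA (TP.mk G F p a))
      rw [act_triv, tpTrivA_mk, tpTrivA_mk]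
      generalize hn : (show ℤ from a) = n
      have h2 := Pull.act_apply (κ := MonoidHom.fst G F) g (Pull.mk (MonoidHom.fst G F) (n • p))
      have h3 : act ((MonoidHom.fst G F) g) (n • p) = n • act g.1 p := smul_comm _ _ _
      rw [Pull.un_mk, h3] at h2
      subst hn
      exact h2.symm))

end

/-- the inclusion -/
noncomputable def tpI (G F : Type) [Group G] [Group F] (P : Type) [AddCommGroup P] :
    P →+ TP G F P (MonoidAlgebra ℤ F) where
  toFun p := TP.mk G F p (1 : MonoidAlgebra ℤ F)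
  map_zero' := TensorProduct.zero_tmul _ _
  map_add' _ _ := TensorProduct.add_tmul _ _ _

/-- the projection -/
noncomputable def tpQ (G F : Type) [Group G] [Group F] (P : Type) [AddCommGroup P] :
    TP G F P (MonoidAlgebra ℤ F) →+ P :=
  ((TensorProduct.rid ℤ P).toLinearMap.comp
      ((coeffOne F).toIntLinearMap.lTensor P)).toAddMonoidHom

theorem tpQ_mk (G F : Type) [Group G] [Group F] (P : Type) [AddCommGroup P] (p : P)
    (a : MonoidAlgebra ℤ F) : tpQ G F P (TP.mk G F p a) = coeffOne F a • p := by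
  change (TensorProduct.rid ℤ P) (((coeffOne F).toIntLinearMap.lTensor P) (p ⊗ₜ[ℤ] a)) = _
  rw [LinearMap.lTensor_tmul, TensorProduct.rid_tmul]
  rfl

theorem tp_ind (G F : Type) [Group G] [Group F] (P : Type) [AddCommGroup P]
    [Module (MonoidAlgebra ℤ G) P] :
    Induced (MonoidHom.inl G F) P (TP G F P (MonoidAlgebra ℤ F)) := by
  classical
  have hact : ∀ (g : G × F) (m : P), act g (tpI G F P m) = TP.mk G F (act g.1 m)
      (MonoidAlgebra.single g.2 (1 : ℤ)) := by
    intro g m
    refine (TP.act_mk G F g m (1 : MonoidAlgebra ℤ F)).trans ?_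
    congr 1
    rw [act, MonoidAlgebra.of_apply, smul_eq_mul, mul_one]
  have hπ : ∀ (a : F) (m : P), tpQ G F P (TP.mk G F m (MonoidAlgebra.single a (1 : ℤ))) =
      if a = 1 then m else 0 := by
    intro a m
    rw [tpQ_mk, coeffOne_single]
    split_ifs
    · rw [one_smul]
    · rw [zero_smul]
  refine ⟨tpI G F P, tpQ G F P, ?_, ?_, ?_, ?_⟩
  · intro h m
    rw [hact]
    rfl
  · intro z
    induction z using TP.induction with
    | h0 => exact AddSubgroup.zero_mem _
    | hadd a b ha hb => exact AddSubgroup.add_mem _ ha hb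
    | hs p a =>
      induction a using MonoidAlgebra.induction_linear with
      | zero =>
        have h1 : TP.mk G F p (0 : MonoidAlgebra ℤ F) = 0 := TensorProduct.tmul_zero _ _
        rw [h1]
        exact AddSubgroup.zero_mem _
      | add a b ha hb =>
        have h1 : TP.mk G F p (a + b) = TP.mk G F p a + TP.mk G F p b := TensorProduct.tmul_add _ _ _
        rw [h1]
        exact AddSubgroup.add_mem _ ha hb
      | single a r =>
        apply AddSubgroup.subset_closure
        refine ⟨(1, a), r • p, ?_⟩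
        rw [hact, act_one]
        have h1 : MonoidAlgebra.single a r = r • MonoidAlgebra.single a (1 : ℤ) := by
          rw [MonoidAlgebra.smul_single, smul_eq_mul, mul_one]
        have h2 : TP.mk G F p (r • MonoidAlgebra.single a (1 : ℤ)) =
            TP.mk G F (r • p) (MonoidAlgebra.single a (1 : ℤ)) := (TensorProduct.smul_tmul _ _ _).symm
        rw [h1, h2]
  · intro h m
    rw [hact]
    change tpQ G F P (TP.mk G F (act h m) (MonoidAlgebra.single (1 : F) (1 : ℤ))) = _
    rw [hπ, if_pos rfl]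
  · intro g m hg
    rw [hact, hπ]
    apply if_neg
    intro h1
    apply hg
    exact ⟨g.1, Prod.ext rfl h1.symm⟩

theorem coef_exact (G : Type) [Group G] (P : Type) [AddCommGroup P] [Module (MonoidAlgebra ℤ G) P] :
    ∃ (f : (Fin 2 → TP G F2 P (MonoidAlgebra ℤ F2)) →ₗ[MonoidAlgebra ℤ (G × F2)]
        TP G F2 P (MonoidAlgebra ℤ F2))
      (g : TP G F2 P (MonoidAlgebra ℤ F2) →ₗ[MonoidAlgebra ℤ (G × F2)]
        Pull (MonoidHom.fst G F2) P),
      Function.Injective f ∧ Function.Surjective g ∧ LinearMap.range f = LinearMap.ker g := by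
  obtain ⟨f, g, hf, hg, hfg⟩ := free_exact 2
  have hT : Module.Projective ℤ (Triv (FreeGroup (Fin 2))) := by
    change Module.Projective ℤ ℤ
    infer_instance
  obtain ⟨h1, h2, h3⟩ := tp_exact (G := G) (P := P) f g hf hg hfg hT
  refine ⟨(tpMap (G := G) (P := P) f).comp
      (tpPi (G := G) (F := F2) (P := P) (A := MonoidAlgebra ℤ F2) 2).symm.toLinearMap,
    (tpTriv (G := G) (F := F2) (P := P)).toLinearMap.comp (tpMap (G := G) (P := P) g), ?_, ?_, ?_⟩
  · exact h1.comp (tpPi (G := G) (F := F2) (P := P) (A := MonoidAlgebra ℤ F2) 2).symm.injective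
  · exact (tpTriv (G := G) (F := F2) (P := P)).surjective.comp h2
  · have h4 := LinearEquiv.range (tpPi (G := G) (F := F2) (P := P) (A := MonoidAlgebra ℤ F2) 2).symm
    have h5 := LinearEquiv.ker (tpTriv (G := G) (F := F2) (P := P))
    refine (LinearMap.range_comp_of_range_eq_top _ h4).trans ?_
    rw [h3]
    exact (LinearMap.ker_comp_of_ker_eq_bot _ h5).symm

theorem coef_fp (G : Type) [Group G] (P : Type) [AddCommGroup P] [Module (MonoidAlgebra ℤ G) P]
    (hP : FP (MonoidAlgebra ℤ G) P) :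
    FP (MonoidAlgebra ℤ (G × F2)) (Pull (MonoidHom.fst G F2) P) := by
  obtain ⟨f, g, hf, hg, hfg⟩ := coef_exact G P
  have hinj : Function.Injective (MonoidHom.inl G F2) := by
    intro x y h
    exact congrArg Prod.fst h
  have hN := ind_fp hinj _ _ (tp_ind G F2 P) hP
  exact fp_coker f g hf hg hfg
    (fp_pi (fun _ : Fin 2 => TP G F2 P (MonoidAlgebra ℤ F2)) fun _ => hN) hN

theorem coef_ff (G : Type) [Group G] (P : Type) [AddCommGroup P] [Module (MonoidAlgebra ℤ G) P]
    (hP : FP (MonoidAlgebra ℤ G) P) (m : ℕ) :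
    FF (MonoidAlgebra ℤ (G × F2)) (Fin m → Pull (MonoidHom.fst G F2) P) ↔
      FF (MonoidAlgebra ℤ G) (Fin m → P) := by
  obtain ⟨f, g, hf, hg, hfg⟩ := coef_exact G P
  have hinj : Function.Injective (MonoidHom.inl G F2) := by
    intro x y h
    exact congrArg Prod.fst h
  let R := MonoidAlgebra ℤ (G × F2)
  let N := TP G F2 P (MonoidAlgebra ℤ F2)
  let T := Fin m → Pull (MonoidHom.fst G F2) P
  have hN : FP R N := ind_fp hinj _ _ (tp_ind G F2 P) hP
  have hNk : FP R (Fin 2 → N) := fp_pi (fun _ : Fin 2 => N) fun _ => hN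
  have hTr : FP R (Pull (MonoidHom.fst G F2) P) := fp_coker f g hf hg hfg hNk hN
  have hsim : Sim R (Fin m → N) ((Fin m → Fin 2 → N) × T) :=
    Sim_ext (f.compLeft (Fin m)) (g.compLeft (Fin m)) (compLeft_inj m f hf)
      (compLeft_surj m g hg) (compLeft_exact m f g hfg)
      (fp_pi (fun _ : Fin m => Fin 2 → N) fun _ => hNk)
      (fp_pi (fun _ : Fin m => Pull (MonoidHom.fst G F2) P) fun _ => hTr)
  let e1 : (Fin m → Fin 2 → N) ≃ₗ[R] (Fin m → N) × (Fin m → N) :=
    { toFun := fun p => (fun j => p j 0, fun j => p j 1)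
      map_add' := fun _ _ => rfl
      map_smul' := fun _ _ => rfl
      invFun := fun p => fun j => ![p.1 j, p.2 j]
      left_inv := fun p => by
        funext j i
        fin_cases i
        · rfl
        · rfl
      right_inv := fun _ => rfl }
  obtain ⟨C, i1, i2, h1, h2, h3⟩ := hsim
  let e2 : ((((Fin m → N) × (Fin m → N)) × T) × C) ≃ₗ[R]
      (((Fin m → N) × C) × ((Fin m → N) × T)) :=
    { toFun := fun p => ((p.1.1.1, p.2), (p.1.1.2, p.1.2))
      map_add' := fun _ _ => rfl
      map_smul' := fun _ _ => rfl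
      invFun := fun p => (((p.1.1, p.2.1), p.2.2), p.1.2)
      left_inv := fun _ => rfl
      right_inv := fun _ => rfl }
  let e3 : (((Fin m → Fin 2 → N) × T) × C) ≃ₗ[R]
      ((((Fin m → N) × (Fin m → N)) × T) × C) :=
    LinearEquiv.prodCongr (LinearEquiv.prodCongr e1 (LinearEquiv.refl R T)) (LinearEquiv.refl R C)
  have h4 : FF R (((Fin m → N) × C) × ((Fin m → N) × T)) := ff_iso (e3.trans e2) h3
  have h5 : FF R ((Fin m → N) × T) := ff_right h4 h2
  have hi : Induced (MonoidHom.inl G F2) (Fin m → P) (Fin m → N) := ind_pi _ _ m (tp_ind G F2 P)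
  constructor
  · intro h6
    have h7 : FF R (Fin m → N) := ff_left h5 h6
    exact ind_reduce hinj _ _ (desc_ret (MonoidHom.inl G F2) (MonoidHom.fst G F2) fun _ => rfl)
      (fp_pi (fun _ : Fin m => P) fun _ => hP) hi h7
  · intro h6
    have h7 : FF R (Fin m → N) := ind_ff hinj _ _ hi h6
    exact ff_right h5 h7

end Pool.Agent.SFP
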