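import Pool.Agent.SFP.ExtB

/-!
# Module ExtC: consequences of the extension lemma (use `ext_lemma` from ExtB)

(1) `free_pair`: `ext_lemma` with `V = Bool`, `adj = fun _ _ => False`, `M = ℤ[H] × ℤ[H]`, `m true = (1, 0)`, `m false = (0, 1)`,
`X = ∅`, `ρ` = `f` followed by `FreeGroup.lift (RG.of _) : FreeGroup Bool →* RG Bool _`.  Then
`0 = Ψ (a (1 - u) + b (1 - v)) = - a m true - b m false = (-a, -b)`.
(2) `one_sub_inj`: the same with `V = Unit`, `M = ℤ[H]`, `m = 1`, `ρ h = (RG.of _ ()) ^ (toAdd (χ h))` (`zpowersHom`).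
(3) `raag_ker`: exactness of the beginning of the resolution of a graph group.  `M = (V → ℤ[H]) ⧸ S` where `S` is the
submodule in the statement (the span of the `(1 - u v) e_w - (1 - u w) e_v`, `adj v w`), `m v = [e_v]`, `X = ∅`.  The condition
`hm` holds since `m v - act (u w) (m v) = [(1 - u w) e_v]`.  Then `0 = Ψ (∑ a_v (1 - u v)) = - ∑ a_v m v = - [a]`, so `a ∈ S`.
-/

set_option linter.unusedSectionVars false

namespace Pool.Agent.SFP

open Pool.Agent.Hhelper49.Srr

/-- the common part of the three statements -/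
theorem extc_sum {H : Type} [Group H] {V : Type} [Fintype V] (adj : V → V → Prop) (u : V → H)
    (hu : ∀ v w, adj v w → Commute (u v) (u w))
    (ρ : H →* RG V adj) (hρ : ∀ v, ρ (u v) = RG.of adj v)
    (M : Type) [AddCommGroup M] [Module (ZG H) M] (m : V → M)
    (hm : ∀ v w, adj v w → m v - act (u w) (m v) = m w - act (u v) (m w)) (a : V → ZG H)
    (ha : ∑ v, a v * (1 - of' (u v)) = 0) : ∑ v, a v • m v = 0 := by
  obtain ⟨Ψ, h1, _⟩ := ext_lemma adj u hu ρ hρ M m hm ∅ (fun x hx => absurd hx (Set.notMem_empty x))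
    (fun x hx => absurd hx (Set.notMem_empty x)) (fun x hx => absurd hx (Set.notMem_empty x))
  have h2 := congrArg Ψ ha
  rw [map_sum, map_zero] at h2
  have h3 : ∀ v, Ψ (a v * (1 - of' (u v))) = -(a v • m v) := by
    intro v
    rw [mul_sub, mul_one, map_sub, h1]
    abel
  rw [Finset.sum_congr rfl fun v _ => h3 v, Finset.sum_neg_distrib, neg_eq_zero] at h2
  exact h2

theorem free_pair {H : Type} [Group H] (f : H →* FreeGroup Bool) (u v : H)
    (hu : f u = FreeGroup.of true) (hv : f v = FreeGroup.of false) (a b : ZG H)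
    (h : a * (1 - of' u) + b * (1 - of' v) = 0) : a = 0 ∧ b = 0 := by
  have h1 := extc_sum (V := Bool) (fun _ _ => False) (fun t => if t then u else v)
    (fun _ _ hh => hh.elim)
    ((FreeGroup.lift (RG.of (fun _ _ : Bool => False))).comp f)
    (fun t => by
      cases t with
      | true => simp [hu]
      | false => simp [hv])
    (ZG H × ZG H) (fun t => if t then (1, 0) else (0, 1)) (fun _ _ hh => hh.elim)
    (fun t => if t then a else b) (by
      rw [Fintype.sum_bool]
      simpa using h)
  rw [Fintype.sum_bool] at h1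
  simpa using h1

theorem one_sub_inj {H : Type} [Group H] (χ : H →* Multiplicative ℤ) (u : H)
    (hu : χ u = Multiplicative.ofAdd 1) (a : ZG H) (h : a * (1 - of' u) = 0) : a = 0 := by
  have h1 := extc_sum (V := Unit) (fun _ _ => False) (fun _ => u)
    (fun _ _ hh => hh.elim)
    ((zpowersHom _ (RG.of (fun _ _ : Unit => False) ())).comp χ)
    (fun t => by
      simp [hu, zpowersHom_apply])
    (ZG H) (fun _ => 1) (fun _ _ hh => hh.elim)
    (fun _ => a) (by simpa using h)
  simpa using h1

theorem raag_ker {H : Type} [Group H] {V : Type} [Fintype V] [DecidableEq V] (adj : V → V → Prop) (u : V → H)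
    (hu : ∀ v w, adj v w → Commute (u v) (u w))
    (ρ : H →* RG V adj) (hρ : ∀ v, ρ (u v) = RG.of adj v) (a : V → ZG H)
    (ha : ∑ v, a v * (1 - of' (u v)) = 0) :
    a ∈ Submodule.span (ZG H) {b : V → ZG H | ∃ v w, adj v w ∧
      b = Pi.single w (1 - of' (u v)) - Pi.single v (1 - of' (u w))} := by
  set S : Submodule (ZG H) (V → ZG H) := Submodule.span (ZG H) {b : V → ZG H | ∃ v w, adj v w ∧
      b = Pi.single w (1 - of' (u v)) - Pi.single v (1 - of' (u w))} with hS
  have h1 := extc_sum adj u hu ρ hρ ((V → ZG H) ⧸ S)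
    (fun v => S.mkQ (Pi.single v 1)) (fun v w hvw => by
      have h2 : ∀ (g : H) (k : V), S.mkQ (Pi.single k 1) - act g (S.mkQ (Pi.single k 1)) =
          S.mkQ (Pi.single k (1 - of' g)) := by
        intro g k
        rw [act, ← map_smul, ← map_sub]
        congr 1
        rw [← Pi.single_smul, smul_eq_mul, mul_one, ← Pi.single_sub]
      rw [h2, h2, ← sub_eq_zero, ← map_sub, Submodule.mkQ_apply, Submodule.Quotient.mk_eq_zero]
      have h3 : (Pi.single w (1 - of' (u v)) - Pi.single v (1 - of' (u w)) : V → ZG H) ∈ S :=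
        Submodule.subset_span ⟨v, w, hvw, rfl⟩
      have h4 := S.neg_mem h3
      rwa [neg_sub] at h4) a ha
  have h5 : ∑ v, a v • S.mkQ (Pi.single v 1) = S.mkQ a := by
    have h6 : a = ∑ v, a v • (Pi.single v 1 : V → ZG H) := by
      have h7 := (Finset.univ_sum_single a).symm
      refine h7.trans (Finset.sum_congr rfl fun v _ => ?_)
      rw [← Pi.single_smul, smul_eq_mul, mul_one]
    conv_rhs => rw [h6, map_sum]
    exact Finset.sum_congr rfl fun v _ => (map_smul _ _ _).symm
  rw [h5, Submodule.mkQ_apply, Submodule.Quotient.mk_eq_zero] at h1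
  exact h1

end Pool.Agent.SFP
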