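import Pool.Agent.SFP.Coker
import Pool.Agent.SFP.ExtC

/-!
# Module CokE: the chain map is injective with good cokernels

`χ : Q →* Multiplicative ℤ` is any character of `Q`, `chi D χ` its extension to `HH D`; it takes the value `ofAdd 1` on all
`hc D g j`, `hy D g`, `hz D r`, hence also on `ha`, `hb` and on `hw s = x y x⁻¹` (abelian target), so on all `lv D v`.
By `one_sub_inj`, `a * wE D u = 0 → a = 0` for all `u` with `chi D χ u = ofAdd 1`; so the same holds for products of such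
elements `wE D u` and `mulW` of weights which are such products is injective: `mulW_inj0`, `mulW_inj1`, `mulW_inj2`
(for these take `χ = 1`).
`cok0`, `cok1`, `cok2`: `good_pi` and `good_mul`.
-/

set_option linter.unusedSectionVars false

namespace Pool.Agent.SFP

open Pool.Agent.Hhelper49.Srr

variable {Q Gm Rl Sl : Type} [Group Q] (D : Dat Q Gm Rl Sl)
variable [Fintype Gm] [DecidableEq Gm] [Fintype Rl] [DecidableEq Rl] [Fintype Sl] [DecidableEq Sl]

omit [Fintype Gm] [DecidableEq Gm] [Fintype Rl] [DecidableEq Rl] [Fintype Sl] [DecidableEq Sl] in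
theorem coke_hc (χ : Q →* Multiplicative ℤ) (g : Gm) (j : Bool) :
    chi D χ (hc D g j) = Multiplicative.ofAdd 1 := lift_hc D _ g j

omit [Fintype Gm] [DecidableEq Gm] [Fintype Rl] [DecidableEq Rl] [Fintype Sl] [DecidableEq Sl] in
theorem coke_hy (χ : Q →* Multiplicative ℤ) (g : Gm) :
    chi D χ (hy D g) = Multiplicative.ofAdd 1 := lift_hy D _ g

omit [Fintype Gm] [DecidableEq Gm] [Fintype Rl] [DecidableEq Rl] [Fintype Sl] [DecidableEq Sl] in
theorem coke_hz (χ : Q →* Multiplicative ℤ) (r : Rl) :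
    chi D χ (hz D r) = Multiplicative.ofAdd 1 := lift_hz D _ r

omit [Fintype Gm] [DecidableEq Gm] [Fintype Rl] [DecidableEq Rl] [Fintype Sl] [DecidableEq Sl] in
theorem coke_lv (χ : Q →* Multiplicative ℤ) (v : Sl × Fin 3) :
    chi D χ (lv D v) = Multiplicative.ofAdd 1 := by
  obtain ⟨s, k⟩ := v
  fin_cases k
  · exact coke_hc D χ _ _
  · change chi D χ (hw D s) = _
    rw [hw, map_mul, map_mul, map_inv, mul_comm (chi D χ (hq D (D.x s))), mul_inv_cancel_right]
    exact coke_hy D χ _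
  · exact coke_hc D χ _ _

omit [Fintype Gm] [DecidableEq Gm] [Fintype Rl] [DecidableEq Rl] [Fintype Sl] [DecidableEq Sl] in
theorem coke_inj (χ : Q →* Multiplicative ℤ) {u : HH D} (hu : chi D χ u = Multiplicative.ofAdd 1)
    (x : ZG (HH D)) (h : x * wE D u = 0) : x = 0 := one_sub_inj (chi D χ) u hu x h

theorem coke_mulW {B ι : Type} [Ring B] {w : ι → B} (h : ∀ i x, x * w i = 0 → x = 0) :
    Function.Injective (mulW w) := by
  rw [injective_iff_map_eq_zero]
  intro a ha
  funext i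
  exact h i (a i) (congrFun ha i)

theorem coke_mul {B : Type} [Ring B] {a b : B} (ha : ∀ x, x * a = 0 → x = 0)
    (hb : ∀ x, x * b = 0 → x = 0) (x : B) (h : x * (a * b) = 0) : x = 0 := by
  rw [← mul_assoc] at h
  exact ha x (hb _ h)

theorem mulW_inj0 : Function.Injective (mulW (w0 D)) := by
  refine coke_mulW fun i x h => ?_
  cases i with
  | inl g => exact coke_inj D 1 (coke_hy D 1 g) x h
  | inr r => exact coke_inj D 1 (coke_hz D 1 r) x h

theorem mulW_inj1 : Function.Injective (mulW (w1 D)) := by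
  refine coke_mulW fun i x h => ?_
  rcases i with ⟨g, j⟩ | v
  · exact coke_mul (coke_inj D 1 (coke_hc D 1 g j)) (coke_inj D 1 (coke_hy D 1 g)) x h
  · exact coke_mul (coke_inj D 1 (coke_lv D 1 v)) (coke_inj D 1 (coke_hz D 1 _)) x h

theorem mulW_inj2 : Function.Injective (mulW (w2 D)) := by
  refine coke_mulW fun v x h => ?_
  exact coke_mul (coke_mul (coke_inj D 1 (coke_lv D 1 v)) (coke_inj D 1 (coke_lv D 1 _)))
    (coke_inj D 1 (coke_hz D 1 _)) x h

variable {Good : ∀ (M : Type) [AddCommGroup M] [Module (ZG (HH D)) M], Prop}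

theorem cok0 (χ : Q →* Multiplicative ℤ) (hG : Cls23 (ZG (HH D)) Good)
    (hu : ∀ u, chi D χ u = Multiplicative.ofAdd 1 →
      Good (ZG (HH D) ⧸ Submodule.span (ZG (HH D)) {1 - of' u})) :
    Good ((Gm ⊕ Rl → ZG (HH D)) ⧸ LinearMap.range (mulW (w0 D))) := by
  refine good_pi hG _ fun i => ?_
  cases i with
  | inl g => exact hu _ (coke_hy D χ g)
  | inr r => exact hu _ (coke_hz D χ r)

theorem cok1 (χ : Q →* Multiplicative ℤ) (hG : Cls23 (ZG (HH D)) Good)
    (hu : ∀ u, chi D χ u = Multiplicative.ofAdd 1 →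
      Good (ZG (HH D) ⧸ Submodule.span (ZG (HH D)) {1 - of' u})) :
    Good (((Gm × Bool) ⊕ (Sl × Fin 3) → ZG (HH D)) ⧸ LinearMap.range (mulW (w1 D))) := by
  refine good_pi hG _ fun i => ?_
  rcases i with ⟨g, j⟩ | v
  · exact good_mul hG _ _ (coke_inj D χ (coke_hy D χ g)) (hu _ (coke_hc D χ g j))
      (hu _ (coke_hy D χ g))
  · exact good_mul hG _ _ (coke_inj D χ (coke_hz D χ _)) (hu _ (coke_lv D χ v))
      (hu _ (coke_hz D χ _))

theorem cok2 (χ : Q →* Multiplicative ℤ) (hG : Cls23 (ZG (HH D)) Good)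
    (hu : ∀ u, chi D χ u = Multiplicative.ofAdd 1 →
      Good (ZG (HH D) ⧸ Submodule.span (ZG (HH D)) {1 - of' u})) :
    Good ((Sl × Fin 3 → ZG (HH D)) ⧸ LinearMap.range (mulW (w2 D))) := by
  refine good_pi hG _ fun v => ?_
  exact good_mul hG _ _ (coke_inj D χ (coke_hz D χ _))
    (good_mul hG _ _ (coke_inj D χ (coke_lv D χ _)) (hu _ (coke_lv D χ v)) (hu _ (coke_lv D χ _)))
    (hu _ (coke_hz D χ _))

end Pool.Agent.SFP
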