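import Pool.Agent.SFP.Defs

/-!
# Cx: the complexes `E` and `F` and the chain map (definitions)

`B = ZG (HH D)`.  Vertices of the links: `Sl × Fin 3`: `lv (s, 0) = ha s` (start label), `lv (s, 1) = hw s` (conjugated
generator), `lv (s, 2) = hb s` (end label); `lnx` is the cyclic order `(s, 0) → (s, 1) → (s, 2) → (nx s, 0)`; consecutive
vertices commute, and all commute with `hz (rel s)`.

For a function `w : HH D → B` (`wE u = 1 - u`, `wF u = 1`) the complex
`(I2 → B) → (I1 → B) → (I0 → B) with maps d2 w and d1 w`, `I0 = Gm ⊕ Rl`, `I1 = (Gm × Bool) ⊕ (Sl × Fin 3)`, `I2 = Sl × Fin 3`, is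
 * `d1 (e_(g,j)) = w(c g j) e_g`; `d1 (e_v) = w(lv v) e_(rel v)` and for `v = (s, 1)` in addition
   `- w(hz (rel s)) x_s e_(gen s)`;
 * `d2 (e_v) = w(lv v) e_(lnx v) - w(lv (lnx v)) e_v`, and in addition `+ w(hz (rel s)) x_s e_(gen s, sg s)` for `v = (s, 0)` and
   `- w(hz (rel s)) x_s e_(gen s, !sg s)` for `v = (s, 1)`.
The chain map from `E` to `F` multiplies the coordinate `i` on the right by `w0 i`, `w1 i`, `w2 i`.
-/

set_option linter.unusedSectionVars false

namespace Pool.Agent.SFP

open Pool.Agent.Hhelper49.Srr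

section
variable {Q Gm Rl Sl : Type} [Group Q] (D : Dat Q Gm Rl Sl)

/-- vertices of the links -/
def lv (v : Sl × Fin 3) : HH D :=
  match v with
  | (s, 0) => ha D s
  | (s, 1) => hw D s
  | (s, 2) => hb D s

/-- the cyclic order on the vertices of the links -/
def lnx : Equiv.Perm (Sl × Fin 3) where
  toFun v :=
    match v with
    | (s, 0) => (s, 1)
    | (s, 1) => (s, 2)
    | (s, 2) => (D.nx s, 0)
  invFun v :=
    match v with
    | (s, 0) => (D.nx.symm s, 2)
    | (s, 1) => (s, 0)
    | (s, 2) => (s, 1)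
  left_inv := by
    rintro ⟨s, k⟩
    fin_cases k
    · rfl
    · rfl
    · exact Prod.ext (D.nx.symm_apply_apply s) rfl
  right_inv := by
    rintro ⟨s, k⟩
    fin_cases k
    · exact Prod.ext (D.nx.apply_symm_apply s) rfl
    · rfl
    · rfl

@[simp] theorem lv_zero (s : Sl) : lv D (s, 0) = ha D s := rfl
@[simp] theorem lv_one (s : Sl) : lv D (s, 1) = hw D s := rfl
@[simp] theorem lv_two (s : Sl) : lv D (s, 2) = hb D s := rfl
@[simp] theorem lnx_zero (s : Sl) : lnx D (s, 0) = (s, 1) := rfl
@[simp] theorem lnx_one (s : Sl) : lnx D (s, 1) = (s, 2) := rfl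
@[simp] theorem lnx_two (s : Sl) : lnx D (s, 2) = (D.nx s, 0) := rfl
@[simp] theorem lnx_symm_zero (s : Sl) : (lnx D).symm (s, 0) = (D.nx.symm s, 2) := rfl
@[simp] theorem lnx_symm_one (s : Sl) : (lnx D).symm (s, 1) = (s, 0) := rfl
@[simp] theorem lnx_symm_two (s : Sl) : (lnx D).symm (s, 2) = (s, 1) := rfl

theorem rel_lnx (v : Sl × Fin 3) : D.rel (lnx D v).1 = D.rel v.1 := by
  obtain ⟨s, k⟩ := v
  fin_cases k
  · rfl
  · rfl
  · exact D.rel_nx s

theorem rel_nx_symm (s : Sl) : D.rel (D.nx.symm s) = D.rel s := by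
  have h := D.rel_nx (D.nx.symm s)
  rw [D.nx.apply_symm_apply] at h
  exact h.symm

theorem rel_lnx_symm (v : Sl × Fin 3) : D.rel ((lnx D).symm v).1 = D.rel v.1 := by
  have h := rel_lnx D ((lnx D).symm v)
  rw [(lnx D).apply_symm_apply] at h
  exact h.symm

theorem hcw (s : Sl) (j : Bool) : Commute (hc D (D.gen s) j) (hw D s) := by
  have h1 := hcq D (D.gen s) j (D.x s)
  exact (h1.mul_right (hyc D (D.gen s) j).symm).mul_right h1.inv_right

theorem lv_comm (v : Sl × Fin 3) : Commute (lv D v) (lv D (lnx D v)) := by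
  obtain ⟨s, k⟩ := v
  fin_cases k
  · exact hcw D s _
  · exact (hcw D s _).symm
  · exact hcc D s

theorem lv_z (v : Sl × Fin 3) : Commute (hz D (D.rel v.1)) (lv D v) := by
  obtain ⟨s, k⟩ := v
  fin_cases k
  · exact hzc D s _
  · exact hzw D s
  · exact hzc D s _

/-- coefficient in `E` -/
noncomputable def wE (u : HH D) : ZG (HH D) := 1 - of' u

/-- coefficient in `F` -/
noncomputable def wF (_ : HH D) : ZG (HH D) := 1

/-- `Q` in the group ring -/
noncomputable def qq (a : Q) : ZG (HH D) := of' (hq D a)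

variable [Fintype Gm] [DecidableEq Gm] [Fintype Rl] [DecidableEq Rl] [Fintype Sl] [DecidableEq Sl]

/-- the link part of the second differential -/
noncomputable def bd (w : HH D → ZG (HH D)) (ζ : Sl × Fin 3 → ZG (HH D)) : Sl × Fin 3 → ZG (HH D) :=
  fun v => ζ ((lnx D).symm v) * w (lv D ((lnx D).symm v)) - ζ v * w (lv D (lnx D v))

/-- first differential -/
noncomputable def d1 (w : HH D → ZG (HH D)) :
    ((Gm × Bool) ⊕ (Sl × Fin 3) → ZG (HH D)) →ₗ[ZG (HH D)] (Gm ⊕ Rl → ZG (HH D)) where
  toFun a i :=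
    match i with
    | Sum.inl g => (∑ j : Bool, a (Sum.inl (g, j)) * w (hc D g j)) -
        ∑ s : Sl, if D.gen s = g then a (Sum.inr (s, 1)) * (w (hz D (D.rel s)) * qq D (D.x s)) else 0
    | Sum.inr r => ∑ v : Sl × Fin 3, if D.rel v.1 = r then a (Sum.inr v) * w (lv D v) else 0
  map_add' a b := by
    funext i
    cases i with
    | inl g =>
      simp only [Pi.add_apply, add_mul, Finset.sum_add_distrib]
      have h : (∑ s : Sl, if D.gen s = g then a (Sum.inr (s, 1)) * (w (hz D (D.rel s)) * qq D (D.x s)) +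
          b (Sum.inr (s, 1)) * (w (hz D (D.rel s)) * qq D (D.x s)) else 0) =
          (∑ s : Sl, if D.gen s = g then a (Sum.inr (s, 1)) * (w (hz D (D.rel s)) * qq D (D.x s)) else 0) +
          ∑ s : Sl, if D.gen s = g then b (Sum.inr (s, 1)) * (w (hz D (D.rel s)) * qq D (D.x s)) else 0 := by
        rw [← Finset.sum_add_distrib]
        refine Finset.sum_congr rfl fun s _ => ?_
        split_ifs
        · rfl
        · rw [add_zero]
      rw [h]
      abel
    | inr r =>
      simp only [Pi.add_apply, add_mul]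
      rw [← Finset.sum_add_distrib]
      refine Finset.sum_congr rfl fun s _ => ?_
      split_ifs
      · rfl
      · rw [add_zero]
  map_smul' c a := by
    funext i
    cases i with
    | inl g =>
      simp only [Pi.smul_apply, smul_eq_mul, RingHom.id_apply, mul_sub, Finset.mul_sum, mul_assoc]
      congr 1
      refine Finset.sum_congr rfl fun s _ => ?_
      split_ifs
      · rfl
      · rw [mul_zero]
    | inr r =>
      simp only [Pi.smul_apply, smul_eq_mul, RingHom.id_apply, Finset.mul_sum, mul_assoc]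
      refine Finset.sum_congr rfl fun s _ => ?_
      split_ifs
      · rfl
      · rw [mul_zero]

/-- second differential -/
noncomputable def d2 (w : HH D → ZG (HH D)) :
    (Sl × Fin 3 → ZG (HH D)) →ₗ[ZG (HH D)] ((Gm × Bool) ⊕ (Sl × Fin 3) → ZG (HH D)) where
  toFun ζ i :=
    match i with
    | Sum.inl (g, j) =>
        (∑ s : Sl, if D.gen s = g ∧ D.sg s = j then ζ (s, 0) * (w (hz D (D.rel s)) * qq D (D.x s)) else 0) -
        ∑ s : Sl, if D.gen s = g ∧ (!D.sg s) = j then ζ (s, 1) * (w (hz D (D.rel s)) * qq D (D.x s)) else 0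
    | Sum.inr v => bd D w ζ v
  map_add' a b := by
    funext i
    rcases i with ⟨g, j⟩ | v
    · simp only [Pi.add_apply, add_mul]
      have h : ∀ (p : Sl → Prop) [DecidablePred p] (f f' : Sl → ZG (HH D)),
          (∑ s : Sl, if p s then f s + f' s else 0) =
          (∑ s : Sl, if p s then f s else 0) + ∑ s : Sl, if p s then f' s else 0 := by
        intro p _ f f'
        rw [← Finset.sum_add_distrib]
        refine Finset.sum_congr rfl fun s _ => ?_
        split_ifs
        · rfl
        · rw [add_zero]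
      rw [h, h]
      abel
    · simp only [bd, Pi.add_apply, add_mul]
      abel
  map_smul' c a := by
    funext i
    rcases i with ⟨g, j⟩ | v
    · simp only [Pi.smul_apply, smul_eq_mul, RingHom.id_apply, mul_sub, Finset.mul_sum, mul_assoc]
      congr 1
      · refine Finset.sum_congr rfl fun s _ => ?_
        split_ifs
        · rfl
        · rw [mul_zero]
      · refine Finset.sum_congr rfl fun s _ => ?_
        split_ifs
        · rfl
        · rw [mul_zero]
    · simp only [bd, Pi.smul_apply, smul_eq_mul, RingHom.id_apply, mul_sub, mul_assoc]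

/-- right multiplication coordinate by coordinate -/
noncomputable def mulW {B ι : Type} [Ring B] (w : ι → B) : (ι → B) →ₗ[B] (ι → B) where
  toFun a i := a i * w i
  map_add' a b := by
    funext i
    exact add_mul _ _ _
  map_smul' c a := by
    funext i
    exact mul_assoc _ _ _

/-- weights in degree 0 -/
noncomputable def w0 : Gm ⊕ Rl → ZG (HH D)
  | Sum.inl g => wE D (hy D g)
  | Sum.inr r => wE D (hz D r)

/-- weights in degree 1 -/
noncomputable def w1 : (Gm × Bool) ⊕ (Sl × Fin 3) → ZG (HH D)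
  | Sum.inl (g, j) => wE D (hc D g j) * wE D (hy D g)
  | Sum.inr v => wE D (lv D v) * wE D (hz D (D.rel v.1))

/-- weights in degree 2 -/
noncomputable def w2 (v : Sl × Fin 3) : ZG (HH D) :=
  wE D (lv D v) * wE D (lv D (lnx D v)) * wE D (hz D (D.rel v.1))

/-- the left ideal generated by the `1 - q a` and the `1 - c g j`, `(g, j) ∈ T`; `ZG (HH D) ⧸ JL D T` is the permutation
module of the subgroup generated by `Q` and the labels in `T` -/
noncomputable def JL (T : Set (Gm × Bool)) : Submodule (ZG (HH D)) (ZG (HH D)) :=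
  Submodule.span (ZG (HH D)) ({b | ∃ a, b = 1 - of' (hq D a)} ∪ {b | ∃ l ∈ T, b = 1 - of' (hc D l.1 l.2)})

/-- adjacent labels -/
def cadj (l l' : Gm × Bool) : Prop :=
  ∃ s, l = (D.gen s, !D.sg s) ∧ l' = (D.gen (D.nx s), D.sg (D.nx s))

end

/-! ### the module defined by the data over any ring -/

section
variable {Q Gm Rl Sl B : Type} [Group Q] [Ring B] (φ : ZG Q →+* B) (D : Dat Q Gm Rl Sl)
variable [Fintype Gm] [DecidableEq Gm] [Fintype Rl] [DecidableEq Rl] [Fintype Sl] [DecidableEq Sl]

/-- the relation map `e_ρ ↦ ∑_(rel s = ρ) ± x_s e_(gen s)` -/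
noncomputable def relM : (Rl → B) →ₗ[B] (Gm → B) where
  toFun a g := ∑ s : Sl, if D.gen s = g then a (D.rel s) * φ (D.eps s • of' (D.x s)) else 0
  map_add' a b := by
    funext g
    simp only [Pi.add_apply, add_mul]
    rw [← Finset.sum_add_distrib]
    refine Finset.sum_congr rfl fun s _ => ?_
    split_ifs
    · rfl
    · rw [add_zero]
  map_smul' c a := by
    funext g
    simp only [Pi.smul_apply, smul_eq_mul, RingHom.id_apply, Finset.mul_sum, mul_assoc]
    refine Finset.sum_congr rfl fun s _ => ?_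
    split_ifs
    · rfl
    · rw [mul_zero]

/-- right multiplication of row vectors by a matrix with entries in `ℤ[Q]` -/
noncomputable def mulA {n : ℕ} (A : Fin n → Fin n → ZG Q) : (Fin n → B) →ₗ[B] (Fin n → B) where
  toFun a l := ∑ j, a j * φ (A j l)
  map_add' a b := by
    funext g
    simp only [Pi.add_apply, add_mul]
    rw [← Finset.sum_add_distrib]
  map_smul' c a := by
    funext g
    simp only [Pi.smul_apply, smul_eq_mul, RingHom.id_apply, Finset.mul_sum, mul_assoc]

end

/-! ### the map `ψ` to the complex `F`, augmentations -/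

section
variable {Q Gm Rl Sl : Type} [Group Q] (D : Dat Q Gm Rl Sl)

/-- the map from the free module on the generators to `F₁`: `e_g ↦ e_(g, true) - e_(g, false)` -/
noncomputable def psi : (Gm → ZG (HH D)) →ₗ[ZG (HH D)] ((Gm × Bool) ⊕ (Sl × Fin 3) → ZG (HH D)) where
  toFun u i :=
    match i with
    | Sum.inl (g, j) => if j then u g else - u g
    | Sum.inr _ => 0
  map_add' a b := by
    funext i
    rcases i with ⟨g, _ | _⟩ | v
    · exact neg_add _ _
    · rfl
    · exact (add_zero _).symm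
  map_smul' c a := by
    funext i
    rcases i with ⟨g, _ | _⟩ | v
    · exact (mul_neg _ _).symm
    · rfl
    · exact (mul_zero _).symm

/-- the generators `y`, `z` -/
def vtx : Gm ⊕ Rl → HH D
  | Sum.inl g => hy D g
  | Sum.inr r => hz D r

/-- the augmentation `ℤ[H] → ℤ` -/
noncomputable def aug (H : Type) [Group H] : ZG H →ₗ[ZG H] Triv H :=
  LinearMap.toSpanSingleton (ZG H) (Triv H) (1 : ℤ)

theorem aug_of {H : Type} [Group H] (h : H) : aug H (of' h) = (1 : ℤ) := by
  rw [aug, LinearMap.toSpanSingleton_apply]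
  exact act_triv H h _

theorem aug_one_sub {H : Type} [Group H] (h : H) : aug H (1 - of' h) = 0 := by
  have h1 : (1 : ZG H) = of' 1 := (map_one _).symm
  rw [map_sub, h1, aug_of, aug_of, sub_self]

theorem JL_le_aug (T : Set (Gm × Bool)) : JL D T ≤ LinearMap.ker (aug (HH D)) := by
  rw [JL, Submodule.span_le]
  rintro b (⟨a, rfl⟩ | ⟨l, _, rfl⟩)
  · exact aug_one_sub _
  · exact aug_one_sub _

/-- the augmentation of the permutation module of the subgroup generated by `Q` and all labels -/
noncomputable def augS : (ZG (HH D) ⧸ JL D Set.univ) →ₗ[ZG (HH D)] Triv (HH D) :=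
  (JL D Set.univ).liftQ (aug (HH D)) (JL_le_aug D _)

theorem augS_mk (b : ZG (HH D)) : augS D ((JL D Set.univ).mkQ b) = aug (HH D) b := rfl

theorem aug_int {H : Type} [Group H] (n : ℤ) : aug H (n • (1 : ZG H)) = n := by
  have h1 : (1 : ZG H) = of' 1 := (map_one _).symm
  rw [map_zsmul, h1, aug_of]
  exact (smul_eq_mul (n : ℤ) (1 : ℤ)).trans (mul_one (n : ℤ))

theorem augS_surj : Function.Surjective (augS D) := by
  intro n
  let k : ℤ := n
  exact ⟨(JL D Set.univ).mkQ (k • (1 : ZG (HH D))), by rw [augS_mk, aug_int]⟩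

variable [Fintype Gm] [Fintype Rl]

/-- the map `e_i ↦ [1 - of' (vtx i)]` from `E₀` to the kernel of `augS` -/
noncomputable def eps0 : (Gm ⊕ Rl → ZG (HH D)) →ₗ[ZG (HH D)] LinearMap.ker (augS D) :=
  Fintype.linearCombination (ZG (HH D)) (fun i => (⟨(JL D Set.univ).mkQ (1 - of' (vtx D i)), by
    rw [LinearMap.mem_ker, augS_mk, aug_one_sub]⟩ : LinearMap.ker (augS D)))

end

/-- `ℤ[Q] → ℤ[HH D]` -/
noncomputable def phi {Q Gm Rl Sl : Type} [Group Q] (D : Dat Q Gm Rl Sl) : ZG Q →+* ZG (HH D) :=
  MonoidAlgebra.mapDomainRingHom ℤ (hq D)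

theorem phi_of {Q Gm Rl Sl : Type} [Group Q] (D : Dat Q Gm Rl Sl) (a : Q) :
    phi D (of' a) = qq D a := by
  change MonoidAlgebra.mapDomain (hq D) (MonoidAlgebra.single a 1) = MonoidAlgebra.single (hq D a) 1
  exact MonoidAlgebra.mapDomain_single

end Pool.Agent.SFP
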