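import Pool.Agent.SFP.Alg
import Pool.Agent.SFP.Cx

/-!
# Module Coker: cokernels of right multiplications

`mulW w : (ι → B) → (ι → B)`, `a ↦ (i ↦ a i * w i)` (file Cx.lean).
(1) `good_mul`: `0 → B / B a → B / B a b → B / B b → 0`, the first map is `x ↦ x b` (well defined; injective: `x b = y a b` implies
`x = y a` by `hb`), the second the projection (`B a b ≤ B b`), its kernel is `B b / B a b`, the range of the first map.
(`Submodule.mem_span_singleton`: `x ∈ span {a}` iff `∃ y, y • a = x`.)  Use `ext`.
(2) `good_pi2`: for a finite family of good modules `M i` (`i : Fin n`, then `ι`) the product is good: induction on `n` with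
`Fin (n+1) → ` (`Fin.consLinearEquiv` or `Fin.insertNthLinearEquiv`, or the exact sequence
`0 → M 0 → (∀ i, M i) → (∀ i, M (succ i)) → 0`), `zero` for `n = 0`; transport along `Fintype.equivFin ι`
(`LinearEquiv.piCongrLeft`).
(3) `good_pi`: `(ι → B) ⧸ range (mulW w) ≃ ∀ i, B ⧸ span {w i}` (the map `a ↦ (i ↦ [a i])` is surjective with kernel
`range (mulW w)`; `LinearMap.quotKerEquivOfSurjective`).
-/

set_option linter.unusedSectionVars false

namespace Pool.Agent.SFP

variable {B : Type} [Ring B] {Good : ∀ (M : Type) [AddCommGroup M] [Module B M], Prop}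

theorem good_mul (hG : Cls23 B Good) (a b : B) (hb : ∀ x, x * b = 0 → x = 0)
    (h1 : Good (B ⧸ Submodule.span B {a})) (h2 : Good (B ⧸ Submodule.span B {b})) :
    Good (B ⧸ Submodule.span B {a * b}) := by
  have hle1 : Submodule.span B {a} ≤
      (Submodule.span B {a * b}).comap (LinearMap.toSpanSingleton B B b) := by
    rw [Submodule.span_le, Set.singleton_subset_iff]
    show LinearMap.toSpanSingleton B B b a ∈ Submodule.span B {a * b}
    rw [LinearMap.toSpanSingleton_apply, smul_eq_mul]
    exact Submodule.mem_span_singleton_self _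
  have hle2 : Submodule.span B {a * b} ≤ (Submodule.span B {b}).comap LinearMap.id := by
    rw [Submodule.span_le, Set.singleton_subset_iff]
    show a * b ∈ Submodule.span B {b}
    exact Submodule.mem_span_singleton.mpr ⟨a, rfl⟩
  refine hG.ext ((Submodule.span B {a}).mapQ (Submodule.span B {a * b})
    (LinearMap.toSpanSingleton B B b) hle1)
    ((Submodule.span B {a * b}).mapQ (Submodule.span B {b}) LinearMap.id hle2) ?_ ?_ ?_ h1 h2
  · rw [← LinearMap.ker_eq_bot, LinearMap.ker_eq_bot']
    intro x hx
    obtain ⟨x, rfl⟩ := Submodule.Quotient.mk_surjective _ x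
    rw [Submodule.mapQ_apply, LinearMap.toSpanSingleton_apply, Submodule.Quotient.mk_eq_zero,
      Submodule.mem_span_singleton] at hx
    obtain ⟨y, hy⟩ := hx
    rw [Submodule.Quotient.mk_eq_zero, Submodule.mem_span_singleton]
    refine ⟨y, ?_⟩
    have h3 : (x - y * a) * b = 0 := by
      rw [sub_mul, mul_assoc]
      rw [smul_eq_mul, smul_eq_mul] at hy
      rw [hy, sub_self]
    exact (sub_eq_zero.mp (hb _ h3)).symm
  · intro x
    obtain ⟨x, rfl⟩ := Submodule.Quotient.mk_surjective _ x
    exact ⟨Submodule.Quotient.mk x, rfl⟩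
  · ext x
    obtain ⟨x, rfl⟩ := Submodule.Quotient.mk_surjective _ x
    rw [LinearMap.mem_range, LinearMap.mem_ker, Submodule.mapQ_apply, LinearMap.id_apply,
      Submodule.Quotient.mk_eq_zero, Submodule.mem_span_singleton]
    constructor
    · rintro ⟨y, hy⟩
      obtain ⟨y, rfl⟩ := Submodule.Quotient.mk_surjective _ y
      rw [Submodule.mapQ_apply, LinearMap.toSpanSingleton_apply, Submodule.Quotient.eq,
        Submodule.mem_span_singleton] at hy
      obtain ⟨z, hz⟩ := hy
      refine ⟨y - z * a, ?_⟩
      rw [smul_eq_mul, sub_mul, mul_assoc]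
      rw [smul_eq_mul, smul_eq_mul] at hz
      rw [hz]
      abel
    · rintro ⟨y, rfl⟩
      exact ⟨Submodule.Quotient.mk y, rfl⟩

/-- finite products of good modules are good -/
theorem coker_pi2 (hG : Cls23 B Good) (ι : Type) [Fintype ι] :
    ∀ (M : ι → Type) [∀ i, AddCommGroup (M i)] [∀ i, Module B (M i)], (∀ i, Good (M i)) →
      Good (∀ i, M i) := by
  classical
  refine Fintype.induction_empty_option (P := fun (α : Type) [Fintype α] =>
    ∀ (M : α → Type) [∀ i, AddCommGroup (M i)] [∀ i, Module B (M i)], (∀ i, Good (M i)) →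
      Good (∀ i, M i)) ?_ ?_ ?_ ι
  · intro α β _ e h M _ _ hM
    exact hG.iso (LinearEquiv.piCongrLeft B M e) (h (fun a => M (e a)) fun a => hM (e a))
  · intro M _ _ _
    exact hG.zero _ inferInstance
  · intro α _ h M _ _ hM
    refine hG.ext (LinearMap.single B M none)
      (LinearMap.pi fun a : α => LinearMap.proj (R := B) (φ := M) (some a)) ?_ ?_ ?_
      (hM none) (h (fun a => M (some a)) fun a => hM (some a))
    · intro x y hxy
      have := congrFun hxy none
      simpa using this
    · intro y
      refine ⟨fun i => match i with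
        | none => 0
        | some a => y a, ?_⟩
      rfl
    · ext x
      rw [LinearMap.mem_range, LinearMap.mem_ker]
      constructor
      · rintro ⟨y, rfl⟩
        funext a
        simp
      · intro hx
        refine ⟨x none, ?_⟩
        funext i
        cases i with
        | none => simp
        | some a =>
          have h1 : x (some a) = 0 := congrFun hx a
          rw [h1]
          simp

theorem good_pi (hG : Cls23 B Good) {ι : Type} [Fintype ι] (w : ι → B)
    (h : ∀ i, Good (B ⧸ Submodule.span B {w i})) :
    Good ((ι → B) ⧸ LinearMap.range (mulW w)) := by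
  classical
  let T : (ι → B) →ₗ[B] (∀ i, B ⧸ Submodule.span B {w i}) :=
    LinearMap.pi fun i => (Submodule.span B {w i}).mkQ ∘ₗ LinearMap.proj i
  have hT : Function.Surjective T := by
    intro y
    choose x hx using fun i => Submodule.Quotient.mk_surjective (Submodule.span B {w i}) (y i)
    exact ⟨x, funext hx⟩
  have hk : LinearMap.range (mulW w) = LinearMap.ker T := by
    ext a
    rw [LinearMap.mem_range, LinearMap.mem_ker]
    constructor
    · rintro ⟨c, rfl⟩
      funext i
      show (Submodule.span B {w i}).mkQ (c i * w i) = 0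
      rw [Submodule.mkQ_apply, Submodule.Quotient.mk_eq_zero]
      exact Submodule.mem_span_singleton.mpr ⟨c i, rfl⟩
    · intro ha
      have h1 : ∀ i, ∃ c : B, c • w i = a i := by
        intro i
        have h2 : (Submodule.span B {w i}).mkQ (a i) = 0 := congrFun ha i
        rw [Submodule.mkQ_apply, Submodule.Quotient.mk_eq_zero] at h2
        exact Submodule.mem_span_singleton.mp h2
      choose c hc using h1
      exact ⟨c, funext hc⟩
  rw [hk]
  exact hG.iso (T.quotKerEquivOfSurjective hT).symm (coker_pi2 hG ι _ h)

end Pool.Agent.SFP
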