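import Pool.Agent.Hhelper49.Srf.Base

/-!
# SFP: Serre's question FP => FF and projective class groups.  Basic definitions

`Q` is a group (in the application `Q = G × ℤ`).  A `Dat Q Gm Rl Sl` encodes finitely many relations `ρ : Rl`
between generators `γ : Gm` of a module: the slots (occurrences) `σ : Sl` carry a relation `rel σ`, a generator
`gen σ`, a coefficient `x σ ∈ Q` and a sign `sg σ` (`true` = minus); the relation `ρ` is
`∑_(rel σ = ρ) ± x σ e_(gen σ) = 0`; `nx` is a cyclic order on the slots of each relation.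

`HH D` is the group with generators `q a` (`a ∈ Q`), `c γ j` (`j = false, true`, labels), `y γ`, `z ρ` and relations
 * `q a * q b = q (a * b)`; `c γ j` commutes with `q a`;
 * `c (gen σ) (!sg σ)` (the end label of `σ`) commutes with `c (gen (nx σ)) (sg (nx σ))` (the start label of `nx σ`);
 * `y γ` commutes with `c γ j`;
 * `z (rel σ)` commutes with the start label and the end label of `σ` and with `q (x σ) * y (gen σ) * (q (x σ))⁻¹`.
-/

set_option linter.unusedSectionVars false

namespace Pool.Agent.SFP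

open Pool.Agent.Hhelper49.Srr
open scoped commutatorElement

/-- the group ring -/
abbrev ZG (G : Type) [Group G] : Type := MonoidAlgebra ℤ G

/-- a group element in the group ring -/
noncomputable abbrev of' {G : Type} [Group G] (g : G) : ZG G := MonoidAlgebra.of ℤ G g

/-- combinatorial data -/
structure Dat (Q Gm Rl Sl : Type) where
  /-- relation of a slot -/
  rel : Sl → Rl
  /-- generator of a slot -/
  gen : Sl → Gm
  /-- coefficient of a slot -/
  x : Sl → Q
  /-- sign of a slot: `true` is minus, `false` is plus -/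
  sg : Sl → Bool
  /-- the next slot -/
  nx : Equiv.Perm Sl
  rel_nx : ∀ s, rel (nx s) = rel s
  nx_ne : ∀ s, nx s ≠ s
  trans : ∀ s s', rel s = rel s' → ∃ k : ℕ, (nx ^ k) s = s'
  surj : Function.Surjective rel
  inj : ∀ s s', rel s = rel s' → gen s = gen s' → s = s'
  lin : ∀ s₁ s₂ s₁' s₂', rel s₁ = rel s₂ → rel s₁' = rel s₂' → gen s₁ = gen s₁' →
    gen s₂ = gen s₂' → gen s₁ ≠ gen s₂ → rel s₁ = rel s₁'

namespace Dat

variable {Q Gm Rl Sl : Type} (D : Dat Q Gm Rl Sl)

/-- sign as an integer -/
def eps (s : Sl) : ℤ := if D.sg s then -1 else 1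

end Dat

/-- generators -/
inductive Gn (Q Gm Rl : Type) : Type
  | q (a : Q)
  | c (g : Gm) (j : Bool)
  | y (g : Gm)
  | z (r : Rl)

section
variable {Q Gm Rl Sl : Type} [Group Q] (D : Dat Q Gm Rl Sl)

/-- a generator in the free group -/
def fg (g : Gn Q Gm Rl) : FreeGroup (Gn Q Gm Rl) := FreeGroup.of g

/-- relators -/
inductive Rels : FreeGroup (Gn Q Gm Rl) → Prop
  | qq (a b : Q) : Rels (fg (Gn.q a) * fg (Gn.q b) * (fg (Gn.q (a * b)))⁻¹)
  | cq (g : Gm) (j : Bool) (a : Q) : Rels ⁅(fg (Gn.c g j) : FreeGroup (Gn Q Gm Rl)), fg (Gn.q a)⁆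
  | cc (s : Sl) : Rels ⁅(fg (Gn.c (D.gen s) (!D.sg s)) : FreeGroup (Gn Q Gm Rl)),
      fg (Gn.c (D.gen (D.nx s)) (D.sg (D.nx s)))⁆
  | yc (g : Gm) (j : Bool) : Rels ⁅(fg (Gn.y g) : FreeGroup (Gn Q Gm Rl)), fg (Gn.c g j)⁆
  | zc (s : Sl) (j : Bool) : Rels ⁅(fg (Gn.z (D.rel s)) : FreeGroup (Gn Q Gm Rl)), fg (Gn.c (D.gen s) j)⁆
  | zy (s : Sl) : Rels ⁅(fg (Gn.z (D.rel s)) : FreeGroup (Gn Q Gm Rl)),
      fg (Gn.q (D.x s)) * fg (Gn.y (D.gen s)) * (fg (Gn.q (D.x s)))⁻¹⁆

/-- the group -/
def HH : Type := PresentedGroup {r | Rels D r}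

instance : Group (HH D) := inferInstanceAs (Group (PresentedGroup {r | Rels D r}))

/-- data of a homomorphism `HH D →* K` -/
structure Lift (K : Type) [Group K] where
  q : Q →* K
  c : Gm → Bool → K
  y : Gm → K
  z : Rl → K
  cq : ∀ g j a, Commute (c g j) (q a)
  cc : ∀ s, Commute (c (D.gen s) (!D.sg s)) (c (D.gen (D.nx s)) (D.sg (D.nx s)))
  yc : ∀ g j, Commute (y g) (c g j)
  zc : ∀ s j, Commute (z (D.rel s)) (c (D.gen s) j)
  zy : ∀ s, Commute (z (D.rel s)) (q (D.x s) * y (D.gen s) * (q (D.x s))⁻¹)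

/-- images of the generators -/
def Lift.fn {D : Dat Q Gm Rl Sl} {K : Type} [Group K] (L : Lift D K) : Gn Q Gm Rl → K
  | Gn.q a => L.q a
  | Gn.c g j => L.c g j
  | Gn.y g => L.y g
  | Gn.z r => L.z r

/-- universal property -/
def lift {K : Type} [Group K] (L : Lift D K) : HH D →* K :=
  PresentedGroup.toGroup (rels := {r | Rels D r}) (f := L.fn) (by
    rintro r hr
    change Rels D r at hr
    have hl : ∀ g : Gn Q Gm Rl, FreeGroup.lift L.fn (fg g) = L.fn g := fun g => FreeGroup.lift_apply_of
    cases hr with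
    | qq a b =>
      rw [map_mul, map_mul, map_inv, hl, hl, hl]
      change L.q a * L.q b * (L.q (a * b))⁻¹ = 1
      rw [map_mul, mul_inv_cancel]
    | cq g j a =>
      rw [map_commutatorElement, hl, hl, commutatorElement_eq_one_iff_commute]
      exact L.cq g j a
    | cc s =>
      rw [map_commutatorElement, hl, hl, commutatorElement_eq_one_iff_commute]
      exact L.cc s
    | yc g j =>
      rw [map_commutatorElement, hl, hl, commutatorElement_eq_one_iff_commute]
      exact L.yc g j
    | zc s j =>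
      rw [map_commutatorElement, hl, hl, commutatorElement_eq_one_iff_commute]
      exact L.zc s j
    | zy s =>
      rw [map_commutatorElement, map_mul, map_mul, map_inv, hl, hl, hl,
        commutatorElement_eq_one_iff_commute]
      exact L.zy s)

/-- the image of a generator -/
def gn (g : Gn Q Gm Rl) : HH D := PresentedGroup.of (rels := {r | Rels D r}) g

theorem lift_gn {K : Type} [Group K] (L : Lift D K) (g : Gn Q Gm Rl) : lift D L (gn D g) = L.fn g :=
  PresentedGroup.toGroup.of _

theorem mk_of (g : Gn Q Gm Rl) :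
    PresentedGroup.mk {r | Rels D r} (fg g) = gn D g := rfl

theorem mk_rel {r : FreeGroup (Gn Q Gm Rl)} (h : Rels D r) :
    (PresentedGroup.mk {r | Rels D r} r : HH D) = 1 :=
  (PresentedGroup.mk_eq_one_iff).2 (Subgroup.subset_normalClosure h)

/-- `Q → HH D` -/
def hq : Q →* HH D := MonoidHom.mk' (fun a => gn D (Gn.q a)) (by
  intro a b
  have h := mk_rel D (Rels.qq a b)
  rw [map_mul, map_mul, map_inv] at h
  exact (mul_inv_eq_one.1 h).symm)

/-- labels -/
def hc (g : Gm) (j : Bool) : HH D := gn D (Gn.c g j)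

/-- generators of the module part -/
def hy (g : Gm) : HH D := gn D (Gn.y g)

/-- generators of the relation part -/
def hz (r : Rl) : HH D := gn D (Gn.z r)

theorem hcq (g : Gm) (j : Bool) (a : Q) : Commute (hc D g j) (hq D a) := by
  have h := mk_rel D (Rels.cq g j a)
  rw [map_commutatorElement] at h
  exact commutatorElement_eq_one_iff_commute.1 h

theorem hcc (s : Sl) : Commute (hc D (D.gen s) (!D.sg s)) (hc D (D.gen (D.nx s)) (D.sg (D.nx s))) := by
  have h := mk_rel D (Rels.cc s)
  rw [map_commutatorElement] at h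
  exact commutatorElement_eq_one_iff_commute.1 h

theorem hyc (g : Gm) (j : Bool) : Commute (hy D g) (hc D g j) := by
  have h := mk_rel D (Rels.yc g j)
  rw [map_commutatorElement] at h
  exact commutatorElement_eq_one_iff_commute.1 h

theorem hzc (s : Sl) (j : Bool) : Commute (hz D (D.rel s)) (hc D (D.gen s) j) := by
  have h := mk_rel D (Rels.zc s j)
  rw [map_commutatorElement] at h
  exact commutatorElement_eq_one_iff_commute.1 h

/-- the conjugated generator `x y x⁻¹` of a slot -/
def hw (s : Sl) : HH D := hq D (D.x s) * hy D (D.gen s) * (hq D (D.x s))⁻¹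

theorem hzw (s : Sl) : Commute (hz D (D.rel s)) (hw D s) := by
  have h := mk_rel D (Rels.zy s)
  rw [map_commutatorElement, map_mul, map_mul, map_inv] at h
  exact commutatorElement_eq_one_iff_commute.1 h

/-- start label of a slot -/
def ha (s : Sl) : HH D := hc D (D.gen s) (D.sg s)

/-- end label of a slot -/
def hb (s : Sl) : HH D := hc D (D.gen s) (!D.sg s)

@[simp] theorem lift_hq {K : Type} [Group K] (L : Lift D K) (a : Q) : lift D L (hq D a) = L.q a :=
  lift_gn D L _

@[simp] theorem lift_hc {K : Type} [Group K] (L : Lift D K) (g : Gm) (j : Bool) :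
    lift D L (hc D g j) = L.c g j :=
  lift_gn D L _

@[simp] theorem lift_hy {K : Type} [Group K] (L : Lift D K) (g : Gm) : lift D L (hy D g) = L.y g :=
  lift_gn D L _

@[simp] theorem lift_hz {K : Type} [Group K] (L : Lift D K) (r : Rl) : lift D L (hz D r) = L.z r :=
  lift_gn D L _

/-- induction: a subgroup containing the generators is everything -/
theorem hh_closure (S : Subgroup (HH D)) (h1 : ∀ a, hq D a ∈ S) (h2 : ∀ g j, hc D g j ∈ S)
    (h3 : ∀ g, hy D g ∈ S) (h4 : ∀ r, hz D r ∈ S) (h : HH D) : h ∈ S := by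
  refine PresentedGroup.generated_by {r | Rels D r} (S : Subgroup (PresentedGroup {r | Rels D r})) ?_ h
  intro g
  cases g with
  | q a => exact h1 a
  | c g j => exact h2 g j
  | y g => exact h3 g
  | z r => exact h4 r

/-- two homomorphisms which agree on the generators are equal -/
theorem hh_ext {K : Type} [Group K] (f f' : HH D →* K) (h1 : ∀ a, f (hq D a) = f' (hq D a))
    (h2 : ∀ g j, f (hc D g j) = f' (hc D g j)) (h3 : ∀ g, f (hy D g) = f' (hy D g))
    (h4 : ∀ r, f (hz D r) = f' (hz D r)) : f = f' := by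
  ext h
  exact hh_closure D (f.eqLocus f') h1 h2 h3 h4 h

/-- the extension of a character of `Q`: `c`, `y`, `z` go to `1` -/
def chi (χ : Q →* Multiplicative ℤ) : HH D →* Multiplicative ℤ :=
  lift D
    { q := χ
      c := fun _ _ => Multiplicative.ofAdd 1
      y := fun _ => Multiplicative.ofAdd 1
      z := fun _ => Multiplicative.ofAdd 1
      cq := fun _ _ _ => Commute.all _ _
      cc := fun _ => Commute.all _ _
      yc := fun _ _ => Commute.all _ _
      zc := fun _ _ => Commute.all _ _
      zy := fun _ => Commute.all _ _ }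

/-- the retraction to `Q` -/
def retQ : HH D →* Q :=
  lift D
    { q := MonoidHom.id Q
      c := fun _ _ => 1
      y := fun _ => 1
      z := fun _ => 1
      cq := fun _ _ _ => Commute.one_left _
      cc := fun _ => Commute.one_left _
      yc := fun _ _ => Commute.one_left _
      zc := fun _ _ => Commute.one_left _
      zy := fun _ => Commute.one_left _ }

theorem retQ_hq (a : Q) : retQ D (hq D a) = a := lift_hq D _ a

end

/-! ### graph groups -/

/-- the right-angled Artin group of a graph -/
def RG (V : Type) (adj : V → V → Prop) : Type :=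
  PresentedGroup {r : FreeGroup V | ∃ v w, adj v w ∧ r = ⁅FreeGroup.of v, FreeGroup.of w⁆}

instance (V : Type) (adj : V → V → Prop) : Group (RG V adj) :=
  inferInstanceAs (Group (PresentedGroup _))

/-- the generators of the graph group -/
def RG.of {V : Type} (adj : V → V → Prop) (v : V) : RG V adj :=
  PresentedGroup.of (rels := {r : FreeGroup V | ∃ v w, adj v w ∧ r = ⁅FreeGroup.of v, FreeGroup.of w⁆}) v

theorem RG.comm {V : Type} (adj : V → V → Prop) {v w : V} (h : adj v w) :
    Commute (RG.of adj v) (RG.of adj w) := by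
  have h1 : (PresentedGroup.mk {r : FreeGroup V | ∃ v w, adj v w ∧ r = ⁅FreeGroup.of v, FreeGroup.of w⁆}
      ⁅FreeGroup.of v, FreeGroup.of w⁆) = 1 :=
    (PresentedGroup.mk_eq_one_iff).2 (Subgroup.subset_normalClosure ⟨v, w, h, rfl⟩)
  rw [map_commutatorElement] at h1
  exact commutatorElement_eq_one_iff_commute.1 h1

/-- universal property of the graph group -/
def RG.lift {V : Type} (adj : V → V → Prop) {K : Type} [Group K] (u : V → K)
    (hu : ∀ v w, adj v w → Commute (u v) (u w)) : RG V adj →* K :=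
  PresentedGroup.toGroup (rels := {r : FreeGroup V | ∃ v w, adj v w ∧ r = ⁅FreeGroup.of v, FreeGroup.of w⁆})
    (f := u) (by
    rintro r ⟨v, w, h, rfl⟩
    rw [map_commutatorElement, FreeGroup.lift_apply_of, FreeGroup.lift_apply_of,
      commutatorElement_eq_one_iff_commute]
    exact hu v w h)

@[simp] theorem RG.lift_of {V : Type} (adj : V → V → Prop) {K : Type} [Group K] (u : V → K)
    (hu : ∀ v w, adj v w → Commute (u v) (u w)) (v : V) : RG.lift adj u hu (RG.of adj v) = u v :=
  PresentedGroup.toGroup.of _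

theorem RG.closure {V : Type} (adj : V → V → Prop) (S : Subgroup (RG V adj))
    (h : ∀ v, RG.of adj v ∈ S) (g : RG V adj) : g ∈ S := by
  refine PresentedGroup.generated_by
    {r : FreeGroup V | ∃ v w, adj v w ∧ r = ⁅FreeGroup.of v, FreeGroup.of w⁆}
    (S : Subgroup (PresentedGroup
        {r : FreeGroup V | ∃ v w, adj v w ∧ r = ⁅FreeGroup.of v, FreeGroup.of w⁆})) ?_ g
  intro v
  exact h v

theorem RG.hom_ext {V : Type} (adj : V → V → Prop) {K : Type} [Group K] (f f' : RG V adj →* K)
    (h : ∀ v, f (RG.of adj v) = f' (RG.of adj v)) : f = f' := by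
  ext g
  exact RG.closure adj (f.eqLocus f') h g

end Pool.Agent.SFP
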