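import Pool.Agent.SFP.Cx

/-!
# EncD: encoding a matrix over `ℤ[Q]` by data

`m j` terms in row `j`; the term `t = ⟨j, i⟩` is `± (tx t) e_(tg t)` (`ts t = true`: minus).
-/

set_option linter.unusedSectionVars false

namespace Pool.Agent.SFP

open Pool.Agent.Hhelper49.Srr

section
variable {Q : Type} {n : ℕ} (m : Fin n → ℕ)

/-- terms -/
abbrev Tm : Type := Σ j : Fin n, Fin (m j)

theorem rot_ne {k : ℕ} (hk : 2 ≤ k) (i : Fin k) : finRotate k i ≠ i := by
  obtain ⟨k, rfl⟩ : ∃ k', k = k' + 2 := ⟨k - 2, by omega⟩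
  intro h
  by_cases hi : i = Fin.last (k + 1)
  · subst hi
    rw [finRotate_last] at h
    have := congrArg Fin.val h
    simp at this
  · have h1 := coe_finRotate_of_ne_last hi
    rw [h] at h1
    omega

theorem rot_pow {k : ℕ} (i i' : Fin k) : ∃ e : ℕ, (finRotate k ^ e) i = i' := by
  obtain ⟨k, rfl⟩ : ∃ k', k = k' + 1 := ⟨k - 1, by have := i.2; omega⟩
  -- from zero
  have h0 : ∀ e : ℕ, ∀ he : e < k + 1, (finRotate (k + 1) ^ e) 0 = ⟨e, he⟩ := by
    intro e
    induction e with
    | zero =>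
      intro _
      rfl
    | succ e ih =>
      intro he
      rw [pow_succ', Equiv.Perm.mul_apply, ih (by omega)]
      apply Fin.ext
      rw [coe_finRotate_of_ne_last]
      intro h
      have := congrArg Fin.val h
      simp at this
      omega
  -- back to zero
  have h1 : (finRotate (k + 1) ^ (k + 1)) 0 = 0 := by
    rw [pow_succ', Equiv.Perm.mul_apply, h0 k (by omega)]
    exact finRotate_last
  have h2 : (finRotate (k + 1) ^ (k + 1 - (i : ℕ))) i = 0 := by
    have h3 : (finRotate (k + 1) ^ (k + 1 - (i : ℕ))) ((finRotate (k + 1) ^ (i : ℕ)) 0) = 0 := by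
      rw [← Equiv.Perm.mul_apply, ← pow_add, show k + 1 - (i : ℕ) + (i : ℕ) = k + 1 by have := i.2; omega]
      exact h1
    rw [h0 i i.2] at h3
    exact h3
  refine ⟨(i' : ℕ) + (k + 1 - (i : ℕ)), ?_⟩
  rw [pow_add, Equiv.Perm.mul_apply, h2, h0 i' i'.2]

variable [Group Q] (tg : Tm m → Fin n) (tx : Tm m → Q) (ts : Tm m → Bool)

/-- the cyclic order on the slots -/
def encNx : Equiv.Perm (Tm m ⊕ (Tm m × Bool)) :=
  Equiv.sumCongr (Equiv.sigmaCongrRight fun j => finRotate (m j))
    (Equiv.prodCongr (Equiv.refl _) Equiv.boolNot)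

theorem encNx_inl (j : Fin n) (i : Fin (m j)) :
    encNx m (Sum.inl ⟨j, i⟩) = Sum.inl ⟨j, finRotate (m j) i⟩ := rfl

theorem encNx_inr (t : Tm m) (b : Bool) : encNx m (Sum.inr (t, b)) = Sum.inr (t, !b) := rfl

theorem encNx_pow (j : Fin n) (i : Fin (m j)) (e : ℕ) :
    (encNx m ^ e) (Sum.inl ⟨j, i⟩) = Sum.inl ⟨j, (finRotate (m j) ^ e) i⟩ := by
  induction e with
  | zero => rfl
  | succ e ih =>
    rw [pow_succ', Equiv.Perm.mul_apply, ih, encNx_inl, pow_succ', Equiv.Perm.mul_apply]

/-- relation of a slot -/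
def encRel : Tm m ⊕ (Tm m × Bool) → Fin n ⊕ Tm m
  | Sum.inl t => Sum.inl t.1
  | Sum.inr (t, _) => Sum.inr t

/-- generator of a slot -/
def encGen : Tm m ⊕ (Tm m × Bool) → Fin n ⊕ Tm m
  | Sum.inl t => Sum.inr t
  | Sum.inr (t, false) => Sum.inr t
  | Sum.inr (t, true) => Sum.inl (tg t)

/-- coefficient of a slot -/
def encX : Tm m ⊕ (Tm m × Bool) → Q
  | Sum.inl _ => 1
  | Sum.inr (_, false) => 1
  | Sum.inr (t, true) => tx t

/-- sign of a slot -/
def encSg : Tm m ⊕ (Tm m × Bool) → Bool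
  | Sum.inl _ => false
  | Sum.inr (_, false) => false
  | Sum.inr (t, true) => !ts t

/-- the data: main relations `∑_i e_(inr ⟨j, i⟩) = 0`, copy relations `e_(inr t) = ± (tx t) e_(inl (tg t))` -/
def encD (hm : ∀ j, 2 ≤ m j) : Dat Q (Fin n ⊕ Tm m) (Fin n ⊕ Tm m) (Tm m ⊕ (Tm m × Bool)) where
  rel := encRel m
  gen := encGen m tg
  x := encX m tx
  sg := encSg m ts
  nx := encNx m
  rel_nx := by
    rintro (⟨j, i⟩ | ⟨t, b⟩)
    · rfl
    · rfl
  nx_ne := by
    rintro (⟨j, i⟩ | ⟨t, b⟩) h
    · rw [encNx_inl] at h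
      have h1 := Sum.inl_injective h
      rw [Sigma.mk.injEq] at h1
      exact rot_ne (hm j) i (eq_of_heq h1.2)
    · rw [encNx_inr] at h
      have h1 := congrArg Prod.snd (Sum.inr_injective h)
      change (!b) = b at h1
      cases b <;> simp at h1
  trans := by
    rintro (⟨j, i⟩ | ⟨t, b⟩) (⟨j', i'⟩ | ⟨t', b'⟩) h
    · have h1 : j = j' := Sum.inl_injective h
      subst h1
      obtain ⟨e, he⟩ := rot_pow i i'
      exact ⟨e, by rw [encNx_pow, he]⟩
    · exact absurd h (by simp [encRel])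
    · exact absurd h (by simp [encRel])
    · have h1 : t = t' := Sum.inr_injective h
      subst h1
      by_cases hb : b = b'
      · exact ⟨0, by rw [hb]; rfl⟩
      · refine ⟨1, ?_⟩
        rw [pow_one, encNx_inr]
        cases b <;> cases b' <;> simp_all
  surj := by
    rintro (j | t)
    · exact ⟨Sum.inl ⟨j, ⟨0, by have := hm j; omega⟩⟩, rfl⟩
    · exact ⟨Sum.inr (t, false), rfl⟩
  inj := by
    rintro (t | ⟨t, b⟩) (t' | ⟨t', b'⟩) h h'
    · have h1 : t = t' := Sum.inr_injective h'
      rw [h1]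
    · exact absurd h (by simp [encRel])
    · exact absurd h (by simp [encRel])
    · have h1 : t = t' := Sum.inr_injective h
      subst h1
      cases b <;> cases b'
      · rfl
      · exact absurd h' (by simp [encGen])
      · exact absurd h' (by simp [encGen])
      · rfl
  lin := by
    rintro (t₁ | ⟨t₁, b₁⟩) (t₂ | ⟨t₂, b₂⟩) (t₁' | ⟨t₁', b₁'⟩) (t₂' | ⟨t₂', b₂'⟩) h h' g₁ g₂ hne
    all_goals first
      | (exfalso; revert h; simp [encRel]; done)
      | (exfalso; revert h'; simp [encRel]; done)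
      | skip
    · -- main, main
      have h1 : t₁ = t₁' := Sum.inr_injective g₁
      rw [h1]
    · -- main, copy
      have e1 : t₁' = t₂' := Sum.inr_injective h'
      subst e1
      cases b₁' <;> cases b₂'
      · exact absurd (g₁.trans g₂.symm) hne
      · exact absurd g₂ (by simp [encGen])
      · exact absurd g₁ (by simp [encGen])
      · exact absurd g₁ (by simp [encGen])
    · -- copy, main
      have e1 : t₁ = t₂ := Sum.inr_injective h
      subst e1
      cases b₁ <;> cases b₂
      · exact absurd rfl hne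
      · exact absurd g₂ (by simp [encGen])
      · exact absurd g₁ (by simp [encGen])
      · exact absurd g₁ (by simp [encGen])
    · -- copy, copy
      have e1 : t₁ = t₂ := Sum.inr_injective h
      subst e1
      have e2 : t₁' = t₂' := Sum.inr_injective h'
      subst e2
      cases b₁ <;> cases b₂ <;> cases b₁' <;> cases b₂' <;>
        simp_all [encGen, encRel]

end

end Pool.Agent.SFP
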