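import Pool.Agent.SFP.EncD

/-!
# Module EncS: the module of the encoding data

Write `c t = φ (sgn t • of' (tx t)) ∈ B`, `sgn t = if ts t then -1 else 1`; `hA`: `A j l = ∑_(t.1 = j, tg t = l) sgn t • of' (tx t)`, so
`φ (A j l) = ∑_(t.1 = j, tg t = l) c t` (`map_sum`).  The slots of `encD`: `inl t` (relation `inl t.1`, generator `inr t`,
coefficient `1`, plus), `inr (t, false)` (relation `inr t`, generator `inr t`, coefficient `1`, plus), `inr (t, true)` (relation
`inr t`, generator `inl (tg t)`, coefficient `tx t`, sign opposite to `sgn t`, i.e. `eps = - sgn t`).  Hence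
 (0) `relM φ D a (inr t) = a (inl t.1) + a (inr t)`, `relM φ D a (inl l) = - ∑_(tg t = l) a (inr t) * c t`
(`Fintype.sum_sum_type`, `Fintype.sum_prod_type`, `Fintype.sum_bool`, simp with `encGen` etc.).
(1) `enc_inj`: if `relM φ D a = 0` then `a (inr t) = - a (inl t.1)`, so `0 = ∑_(tg t = l) a (inl t.1) * c t =
∑_j a (inl j) * φ (A j l)`, i.e. `mulA φ A (a ∘ inl) = 0`, so `a ∘ inl = 0` and `a = 0`.
(2) `enc_iso`: `F : (Gm → B) → (Fin n → B)`, `F u l = u (inl l) + ∑_(tg t = l) u (inr t) * c t` is linear and surjective.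
`F (relM φ D a) l = ∑_(tg t = l) a (inl t.1) * c t = mulA φ A (a ∘ inl) l`.  So `F` followed by the projection to
`(Fin n → B) ⧸ range (mulA φ A)` is surjective and its kernel contains `range (relM φ D)`.  Conversely let `F u = mulA φ A b`.  Put
`a (inl j) = b j`, `a (inr t) = u (inr t) - b t.1`.  Then `relM φ D a (inr t) = u (inr t)` and `relM φ D a (inl l) =
- ∑_(tg t = l) (u (inr t) - b t.1) * c t = - ∑_(tg t = l) u (inr t) * c t + mulA φ A b l = u (inl l)`.
So the kernel is `range (relM φ D)`; `Submodule.quotEquivOfEq` and `LinearMap.quotKerEquivOfSurjective`.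
-/

set_option linter.unusedSectionVars false

namespace Pool.Agent.SFP

open Pool.Agent.Hhelper49.Srr

variable {Q : Type} {n : ℕ} (m : Fin n → ℕ) [Group Q] (tg : Tm m → Fin n) (tx : Tm m → Q) (ts : Tm m → Bool)
  (hm : ∀ j, 2 ≤ m j) (A : Fin n → Fin n → ZG Q)
  (hA : ∀ j l, A j l = ∑ i : Fin (m j), if tg ⟨j, i⟩ = l then
    ((if ts ⟨j, i⟩ then -1 else 1 : ℤ) • of' (tx ⟨j, i⟩) : ZG Q) else 0)
  (B : Type) [Ring B] (φ : ZG Q →+* B)

/-- the coefficient of a term -/
noncomputable def cf (t : Tm m) : B := φ ((if ts t then -1 else 1 : ℤ) • of' (tx t))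

theorem relM_inr (a : Fin n ⊕ Tm m → B) (t : Tm m) :
    relM φ (encD m tg tx ts hm) a (Sum.inr t) = a (Sum.inl t.1) + a (Sum.inr t) := by
  classical
  change (∑ s : Tm m ⊕ (Tm m × Bool), if (encD m tg tx ts hm).gen s = Sum.inr t then
    a ((encD m tg tx ts hm).rel s) * φ ((encD m tg tx ts hm).eps s • of' ((encD m tg tx ts hm).x s))
    else 0) = _
  rw [Fintype.sum_sum_type, Fintype.sum_prod_type]
  simp only [Fintype.sum_bool]
  have h1 : ∀ t' : Tm m, (if (encD m tg tx ts hm).gen (Sum.inl t') = Sum.inr t then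
      a ((encD m tg tx ts hm).rel (Sum.inl t')) * φ ((encD m tg tx ts hm).eps (Sum.inl t') •
        of' ((encD m tg tx ts hm).x (Sum.inl t'))) else 0) =
      if t' = t then a (Sum.inl t'.1) else 0 := by
    intro t'
    simp [encD, encGen, encRel, encX, encSg, Dat.eps, of', ← MonoidAlgebra.one_def]
  have h2 : ∀ t' : Tm m, (if (encD m tg tx ts hm).gen (Sum.inr (t', false)) = Sum.inr t then
      a ((encD m tg tx ts hm).rel (Sum.inr (t', false))) *
        φ ((encD m tg tx ts hm).eps (Sum.inr (t', false)) •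
        of' ((encD m tg tx ts hm).x (Sum.inr (t', false)))) else 0) =
      if t' = t then a (Sum.inr t') else 0 := by
    intro t'
    simp [encD, encGen, encRel, encX, encSg, Dat.eps, of', ← MonoidAlgebra.one_def]
  have h3 : ∀ t' : Tm m, (if (encD m tg tx ts hm).gen (Sum.inr (t', true)) = Sum.inr t then
      a ((encD m tg tx ts hm).rel (Sum.inr (t', true))) *
        φ ((encD m tg tx ts hm).eps (Sum.inr (t', true)) •
        of' ((encD m tg tx ts hm).x (Sum.inr (t', true)))) else 0) = 0 := by
    intro t'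
    rw [if_neg]
    simp [encD, encGen]
  simp only [h1, h2, h3, zero_add]
  rw [Finset.sum_ite_eq' Finset.univ, if_pos (Finset.mem_univ _),
    Finset.sum_ite_eq' Finset.univ, if_pos (Finset.mem_univ _)]

theorem relM_inl (a : Fin n ⊕ Tm m → B) (l : Fin n) :
    relM φ (encD m tg tx ts hm) a (Sum.inl l) =
      - ∑ t : Tm m, if tg t = l then a (Sum.inr t) * cf m tx ts B φ t else 0 := by
  classical
  change (∑ s : Tm m ⊕ (Tm m × Bool), if (encD m tg tx ts hm).gen s = Sum.inl l then
    a ((encD m tg tx ts hm).rel s) * φ ((encD m tg tx ts hm).eps s • of' ((encD m tg tx ts hm).x s))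
    else 0) = _
  rw [Fintype.sum_sum_type, Fintype.sum_prod_type]
  simp only [Fintype.sum_bool]
  have h1 : ∀ t' : Tm m, (if (encD m tg tx ts hm).gen (Sum.inl t') = Sum.inl l then
      a ((encD m tg tx ts hm).rel (Sum.inl t')) * φ ((encD m tg tx ts hm).eps (Sum.inl t') •
        of' ((encD m tg tx ts hm).x (Sum.inl t'))) else 0) = 0 := by
    intro t'
    rw [if_neg]
    simp [encD, encGen]
  have h2 : ∀ t' : Tm m, (if (encD m tg tx ts hm).gen (Sum.inr (t', false)) = Sum.inl l then
      a ((encD m tg tx ts hm).rel (Sum.inr (t', false))) *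
        φ ((encD m tg tx ts hm).eps (Sum.inr (t', false)) •
        of' ((encD m tg tx ts hm).x (Sum.inr (t', false)))) else 0) = 0 := by
    intro t'
    rw [if_neg]
    simp [encD, encGen]
  have h3 : ∀ t' : Tm m, (if (encD m tg tx ts hm).gen (Sum.inr (t', true)) = Sum.inl l then
      a ((encD m tg tx ts hm).rel (Sum.inr (t', true))) *
        φ ((encD m tg tx ts hm).eps (Sum.inr (t', true)) •
        of' ((encD m tg tx ts hm).x (Sum.inr (t', true)))) else 0) =
      - if tg t' = l then a (Sum.inr t') * cf m tx ts B φ t' else 0 := by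
    intro t'
    by_cases hl : tg t' = l
    · rw [if_pos hl, if_pos (by simp [encD, encGen, hl])]
      by_cases hs : ts t' = true
      · simp [encD, encRel, encX, encSg, Dat.eps, cf, hs]
      · simp [encD, encRel, encX, encSg, Dat.eps, cf, hs]
    · rw [if_neg hl, if_neg (by simp [encD, encGen, hl]), neg_zero]
  simp only [h1, h2, h3, add_zero, Finset.sum_const_zero, zero_add, Finset.sum_neg_distrib]

include hA

theorem mulA_eq (b : Fin n → B) (l : Fin n) :
    mulA φ A b l = ∑ t : Tm m, if tg t = l then b t.1 * cf m tx ts B φ t else 0 := by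
  change (∑ j, b j * φ (A j l)) = _
  rw [Fintype.sum_sigma]
  refine Finset.sum_congr rfl fun j _ => ?_
  rw [hA, map_sum, Finset.mul_sum]
  refine Finset.sum_congr rfl fun i _ => ?_
  by_cases h : tg ⟨j, i⟩ = l
  · rw [if_pos h, if_pos h]
    rfl
  · rw [if_neg h, if_neg h, map_zero, mul_zero]

theorem enc_inj (h : Function.Injective (mulA φ A)) :
    Function.Injective (relM φ (encD m tg tx ts hm)) := by
  rw [injective_iff_map_eq_zero] at h ⊢
  intro a ha
  have h1 : ∀ t : Tm m, a (Sum.inr t) = - a (Sum.inl t.1) := by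
    intro t
    have h2 := congrFun ha (Sum.inr t)
    rw [relM_inr] at h2
    exact (neg_eq_of_add_eq_zero_right h2).symm
  have h2 : mulA φ A (fun j => a (Sum.inl j)) = 0 := by
    funext l
    rw [mulA_eq m tg tx ts A hA B φ]
    have h3 := congrFun ha (Sum.inl l)
    rw [relM_inl, Pi.zero_apply, neg_eq_zero] at h3
    have h4 : (∑ t : Tm m, if tg t = l then (fun j => a (Sum.inl j)) t.1 * cf m tx ts B φ t else 0) =
        - ∑ t : Tm m, if tg t = l then a (Sum.inr t) * cf m tx ts B φ t else 0 := by
      rw [← Finset.sum_neg_distrib]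
      refine Finset.sum_congr rfl fun t _ => ?_
      by_cases hl : tg t = l
      · rw [if_pos hl, if_pos hl, h1, neg_mul, neg_neg]
      · rw [if_neg hl, if_neg hl, neg_zero]
    rw [h4, h3, neg_zero]
    rfl
  have h3 := h _ h2
  funext i
  rcases i with j | t
  · exact congrFun h3 j
  · rw [h1, show a (Sum.inl t.1) = 0 from congrFun h3 t.1, neg_zero]
    rfl

omit hA in
/-- elimination of the generators `inr t` -/
noncomputable def elim : (Fin n ⊕ Tm m → B) →ₗ[B] (Fin n → B) where
  toFun u l := u (Sum.inl l) + ∑ t : Tm m, if tg t = l then u (Sum.inr t) * cf m tx ts B φ t else 0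
  map_add' u v := by
    funext l
    simp only [Pi.add_apply, add_mul]
    rw [add_add_add_comm, ← Finset.sum_add_distrib]
    congr 1
    refine Finset.sum_congr rfl fun t _ => ?_
    split_ifs
    · rfl
    · rw [add_zero]
  map_smul' c u := by
    funext l
    simp only [Pi.smul_apply, smul_eq_mul, RingHom.id_apply, mul_add, Finset.mul_sum, mul_assoc]
    congr 1
    refine Finset.sum_congr rfl fun t _ => ?_
    split_ifs
    · rfl
    · rw [mul_zero]

omit hA in
theorem elim_apply (u : Fin n ⊕ Tm m → B) (l : Fin n) : elim m tg tx ts B φ u l =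
    u (Sum.inl l) + ∑ t : Tm m, if tg t = l then u (Sum.inr t) * cf m tx ts B φ t else 0 := rfl

theorem elim_relM (a : Fin n ⊕ Tm m → B) :
    elim m tg tx ts B φ (relM φ (encD m tg tx ts hm) a) = mulA φ A (fun j => a (Sum.inl j)) := by
  funext l
  rw [elim_apply, mulA_eq m tg tx ts A hA B φ, relM_inl, ← Finset.sum_neg_distrib,
    ← Finset.sum_add_distrib]
  refine Finset.sum_congr rfl fun t _ => ?_
  by_cases hl : tg t = l
  · rw [if_pos hl, if_pos hl, if_pos hl, relM_inr, add_mul]
    abel
  · rw [if_neg hl, if_neg hl, if_neg hl, neg_zero, add_zero]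

theorem enc_iso : Nonempty (((Fin n ⊕ Tm m → B) ⧸ LinearMap.range (relM φ (encD m tg tx ts hm)))
    ≃ₗ[B] ((Fin n → B) ⧸ LinearMap.range (mulA φ A))) := by
  classical
  let G : (Fin n ⊕ Tm m → B) →ₗ[B] ((Fin n → B) ⧸ LinearMap.range (mulA φ A)) :=
    (LinearMap.range (mulA φ A)).mkQ ∘ₗ elim m tg tx ts B φ
  have hsurj : Function.Surjective G := by
    intro y
    obtain ⟨v, rfl⟩ := Submodule.mkQ_surjective _ y
    refine ⟨fun i => Sum.elim v (fun _ => 0) i, ?_⟩
    change (LinearMap.range (mulA φ A)).mkQ _ = _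
    congr 1
    funext l
    rw [elim_apply]
    simp
  have hker : LinearMap.ker G = LinearMap.range (relM φ (encD m tg tx ts hm)) := by
    apply le_antisymm
    · intro u hu
      have h1 : elim m tg tx ts B φ u ∈ LinearMap.range (mulA φ A) := by
        have h2 : (LinearMap.range (mulA φ A)).mkQ (elim m tg tx ts B φ u) = 0 :=
          LinearMap.mem_ker.mp hu
        rwa [Submodule.mkQ_apply, Submodule.Quotient.mk_eq_zero] at h2
      obtain ⟨b, hb⟩ := h1
      refine ⟨fun i => Sum.elim b (fun t => u (Sum.inr t) - b t.1) i, ?_⟩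
      funext i
      rcases i with l | t
      · rw [relM_inl]
        have h2 := congrFun hb l
        rw [mulA_eq m tg tx ts A hA B φ, elim_apply] at h2
        have key : (∑ t : Tm m, if tg t = l then (u (Sum.inr t) - b t.1) * cf m tx ts B φ t else 0) =
            (∑ t : Tm m, if tg t = l then u (Sum.inr t) * cf m tx ts B φ t else 0) -
            ∑ t : Tm m, if tg t = l then b t.1 * cf m tx ts B φ t else 0 := by
          rw [← Finset.sum_sub_distrib]
          refine Finset.sum_congr rfl fun t _ => ?_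
          by_cases hl : tg t = l
          · rw [if_pos hl, if_pos hl, if_pos hl, sub_mul]
          · rw [if_neg hl, if_neg hl, if_neg hl, sub_zero]
        change (-∑ t : Tm m, if tg t = l then (u (Sum.inr t) - b t.1) * cf m tx ts B φ t else 0) =
          u (Sum.inl l)
        rw [key, h2]
        abel
      · rw [relM_inr]
        change b t.1 + (u (Sum.inr t) - b t.1) = u (Sum.inr t)
        abel
    · rintro _ ⟨a, rfl⟩
      rw [LinearMap.mem_ker]
      change (LinearMap.range (mulA φ A)).mkQ _ = 0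
      rw [elim_relM m tg tx ts hm A hA B φ, Submodule.mkQ_apply, Submodule.Quotient.mk_eq_zero]
      exact ⟨_, rfl⟩
  exact ⟨(Submodule.quotEquivOfEq _ _ hker.symm).trans (G.quotKerEquivOfSurjective hsurj)⟩

end Pool.Agent.SFP
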