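import Pool.Agent.SFP.Link
import Pool.Agent.SFP.Chain

/-!
# Module ExE: exactness of `E` in degrees 1 and 2

(1) `d2E_inj`: let `d2 wE ζ = 0`.  Coordinate `inr (s, 0)` (`bd`): `ζ (nx⁻¹ s, 2) (1 - hb (nx⁻¹ s)) - ζ (s, 0) (1 - hw s) = 0`.
With `g = gen s`, `g' = gen (nx⁻¹ s)`, `g ≠ g'` (`D.inj`, `D.rel_nx`, `D.nx_ne`), `hom_yc` gives `f` with `f (hw s) = f (x y x⁻¹) =
of true`, `f (hb (nx⁻¹ s)) = of false`; so by `free_pair` (with `a = - ζ (s, 0)`, `b = ζ (nx⁻¹ s, 2)`) `ζ (s, 0) = 0` and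
`ζ (nx⁻¹ s, 2) = 0`, for all `s`.  Coordinate `inr (s, 1)`: `ζ (s, 0) (1 - ha s) - ζ (s, 1) (1 - hb s) = 0`, so
`ζ (s, 1) (1 - hb s) = 0` and `ζ (s, 1) = 0` by `one_sub_inj` (with the character `chi D 1`).
(2) `exact_E1`: let `d1 wE a = 0`.  The coordinates `inr r` are the hypothesis of `link_exact` for `b v = a (inr v)`, so there is `ζ`
with `bd ζ = b`.  Then `a' = a - d2 wE ζ` vanishes on `inr`, and `d1 wE a' = 0` (`dd_zero_E`); the coordinate `inl g` is
`a' (g, true) (1 - c g true) + a' (g, false) (1 - c g false) = 0`, so `a' = 0` by `hom_cc` and `free_pair`.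
-/

set_option linter.unusedSectionVars false

namespace Pool.Agent.SFP

open Pool.Agent.Hhelper49.Srr

variable {Q Gm Rl Sl : Type} [Group Q] (D : Dat Q Gm Rl Sl)
variable [Fintype Gm] [DecidableEq Gm] [Fintype Rl] [DecidableEq Rl] [Fintype Sl] [DecidableEq Sl]

theorem bd_zero_coord (w : HH D → ZG (HH D)) (ζ : Sl × Fin 3 → ZG (HH D)) (s : Sl) :
    bd D w ζ (s, 0) = ζ (D.nx.symm s, 2) * w (hb D (D.nx.symm s)) - ζ (s, 0) * w (hw D s) := rfl

theorem bd_one_coord (w : HH D → ZG (HH D)) (ζ : Sl × Fin 3 → ZG (HH D)) (s : Sl) :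
    bd D w ζ (s, 1) = ζ (s, 0) * w (ha D s) - ζ (s, 1) * w (hb D s) := rfl

theorem gen_ne_symm (s : Sl) : D.gen s ≠ D.gen (D.nx.symm s) := by
  intro h
  have h1 := D.inj s (D.nx.symm s) (rel_nx_symm D s).symm h
  have h2 : D.nx s = s := by
    have h3 := congrArg D.nx h1
    rw [D.nx.apply_symm_apply] at h3
    exact h3
  exact D.nx_ne s h2

theorem chi_hb (s : Sl) : chi D 1 (hb D s) = Multiplicative.ofAdd 1 := by
  unfold chi hb
  rw [lift_hc]

theorem bd_inj (ζ : Sl × Fin 3 → ZG (HH D)) (h : bd D (wE D) ζ = 0) : ζ = 0 := by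
  have h0 : ∀ s, ζ (s, 0) = 0 ∧ ζ (D.nx.symm s, 2) = 0 := by
    intro s
    obtain ⟨f, hf1, hf2, hf3⟩ := hom_yc D (D.gen s) (D.gen (D.nx.symm s))
      (!D.sg (D.nx.symm s)) (gen_ne_symm D s)
    have hu : f (hw D s) = FreeGroup.of true := by
      unfold hw
      rw [map_mul, map_mul, map_inv, hf1, hf2]
      simp
    have hv : f (hb D (D.nx.symm s)) = FreeGroup.of false := hf3
    have h1 := congrFun h (s, 0)
    rw [bd_zero_coord] at h1
    have h2 : (-ζ (s, 0)) * (1 - of' (hw D s)) +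
        ζ (D.nx.symm s, 2) * (1 - of' (hb D (D.nx.symm s))) = 0 := by
      rw [neg_mul, neg_add_eq_sub]
      exact h1
    obtain ⟨h3, h4⟩ := free_pair f _ _ hu hv _ _ h2
    exact ⟨neg_eq_zero.1 h3, h4⟩
  have h1 : ∀ s, ζ (s, 1) = 0 := by
    intro s
    have h2 := congrFun h (s, 1)
    rw [bd_one_coord, (h0 s).1, zero_mul, zero_sub] at h2
    have h3 : ζ (s, 1) * (1 - of' (hb D s)) = 0 := neg_eq_zero.1 h2
    exact one_sub_inj (chi D 1) (hb D s) (chi_hb D s) _ h3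
  funext v
  obtain ⟨s, k⟩ := v
  fin_cases k
  · exact (h0 s).1
  · exact h1 s
  · have h2 := (h0 (D.nx s)).2
    rw [D.nx.symm_apply_apply] at h2
    exact h2

theorem d2E_inj : Function.Injective (d2 D (wE D)) := by
  rw [injective_iff_map_eq_zero]
  intro ζ hζ
  refine bd_inj D ζ ?_
  funext v
  exact congrFun hζ (Sum.inr v)

theorem exact_E1 : LinearMap.range (d2 D (wE D)) = LinearMap.ker (d1 D (wE D)) := by
  refine le_antisymm ?_ ?_
  · rintro a ⟨ζ, rfl⟩
    rw [LinearMap.mem_ker]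
    exact dd_zero_E D ζ
  · intro a ha
    rw [LinearMap.mem_ker] at ha
    obtain ⟨ζ, hζ⟩ := link_exact D (fun v => a (Sum.inr v)) (fun r => congrFun ha (Sum.inr r))
    have hr : ∀ v, (a - d2 D (wE D) ζ) (Sum.inr v) = 0 := by
      intro v
      have h1 := congrFun hζ v
      rw [Pi.sub_apply]
      exact sub_eq_zero.2 h1.symm
    have hd : d1 D (wE D) (a - d2 D (wE D) ζ) = 0 := by
      rw [map_sub, ha, dd_zero_E, sub_zero]
    have hl : ∀ g, (a - d2 D (wE D) ζ) (Sum.inl (g, true)) = 0 ∧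
        (a - d2 D (wE D) ζ) (Sum.inl (g, false)) = 0 := by
      intro g
      obtain ⟨f, hf1, hf2⟩ := hom_cc D g
      refine free_pair f _ _ hf1 hf2 _ _ ?_
      have h1 : (∑ j : Bool, (a - d2 D (wE D) ζ) (Sum.inl (g, j)) * wE D (hc D g j)) -
        (∑ s : Sl, if D.gen s = g then (a - d2 D (wE D) ζ) (Sum.inr (s, 1)) *
          (wE D (hz D (D.rel s)) * qq D (D.x s)) else 0) = 0 := congrFun hd (Sum.inl g)
      have h2 : (∑ s : Sl, if D.gen s = g then (a - d2 D (wE D) ζ) (Sum.inr (s, 1)) *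
          (wE D (hz D (D.rel s)) * qq D (D.x s)) else 0) = 0 := by
        refine Finset.sum_eq_zero (fun s _ => ?_)
        rw [hr]
        split_ifs
        · exact zero_mul _
        · rfl
      rw [h2, sub_zero, Fintype.sum_bool] at h1
      exact h1
    have h0 : a - d2 D (wE D) ζ = 0 := by
      funext i
      rcases i with ⟨g, _ | _⟩ | v
      · exact (hl g).2
      · exact (hl g).1
      · exact hr v
    exact ⟨ζ, (sub_eq_zero.1 h0).symm⟩

end Pool.Agent.SFP
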