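import Pool.Agent.SFP.Cx

/-!
# Module ExE0: `eps0 : E₀ → ker augS` is surjective

`JL D Set.univ` is the left ideal generated by the `1 - q a`, `1 - c g j`; `vtx` are the other generators of `HH D`;
`eps0 a = ∑_i a i • [1 - of' (vtx i)]` (file Cx.lean).
The kernel of `augS` is spanned (over `ZG (HH D)`) by the `[1 - of' h]`, `h ∈ HH D`: if `augS [b] = 0` then `aug b = 0`, i.e. the
sum of the coefficients of `b` is `0` (`aug_of`), and `b = ∑_h b_h h = - ∑_h b_h (1 - h)`.  (E.g. prove by `MonoidAlgebra`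
induction that `[b] - (aug b) • [1]` is in the additive subgroup of the `[b']` in the range.)
The set of the `h` with `[1 - of' h] ∈ range` of the linear map `a ↦ ∑ a i • [1 - of' (vtx i)]` is a subgroup
(`1 - g h = (1 - g) + g (1 - h)`, `1 - g⁻¹ = - g⁻¹ (1 - g)`) which contains the generators (`[1 - q a] = [1 - c g j] = 0`), so it is
everything (`hh_closure`).
-/

set_option linter.unusedSectionVars false

namespace Pool.Agent.SFP

open Pool.Agent.Hhelper49.Srr

variable {Q Gm Rl Sl : Type} [Group Q] (D : Dat Q Gm Rl Sl)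
variable [Fintype Gm] [DecidableEq Gm] [Fintype Rl] [DecidableEq Rl] [Fintype Sl] [DecidableEq Sl]

/-- the linear map `a ↦ ∑ a i • [1 - of' (vtx i)]` -/
noncomputable def ee0L : (Gm ⊕ Rl → ZG (HH D)) →ₗ[ZG (HH D)] (ZG (HH D) ⧸ JL D Set.univ) :=
  (LinearMap.ker (augS D)).subtype ∘ₗ eps0 D

theorem ee0_single (i : Gm ⊕ Rl) (b : ZG (HH D)) :
    ee0L D (Pi.single i b) = b • (JL D Set.univ).mkQ (1 - of' (vtx D i)) := by
  rw [ee0L, LinearMap.comp_apply, eps0, Fintype.linearCombination_apply_single]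
  rfl

/-- the elements `h` with `[1 - h]` in the range -/
def ee0S : Subgroup (HH D) where
  carrier := {h | (JL D Set.univ).mkQ (1 - of' h) ∈ LinearMap.range (ee0L D)}
  one_mem' := by
    change (JL D Set.univ).mkQ (1 - of' 1) ∈ LinearMap.range (ee0L D)
    have h1 : (of' (1 : HH D) : ZG (HH D)) = 1 := map_one _
    rw [h1, sub_self, map_zero]
    exact Submodule.zero_mem _
  mul_mem' := by
    intro g h hg hh
    change (JL D Set.univ).mkQ (1 - of' g) ∈ LinearMap.range (ee0L D) at hg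
    change (JL D Set.univ).mkQ (1 - of' h) ∈ LinearMap.range (ee0L D) at hh
    change (JL D Set.univ).mkQ (1 - of' (g * h)) ∈ LinearMap.range (ee0L D)
    have h1 : (1 - of' (g * h) : ZG (HH D)) = (1 - of' g) + of' g • (1 - of' h) := by
      rw [smul_eq_mul, mul_sub, mul_one]
      have h2 : (of' (g * h) : ZG (HH D)) = of' g * of' h := map_mul _ _ _
      rw [h2]
      abel
    rw [h1, map_add, map_smul]
    exact Submodule.add_mem _ hg (Submodule.smul_mem _ _ hh)
  inv_mem' := by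
    intro g hg
    change (JL D Set.univ).mkQ (1 - of' g) ∈ LinearMap.range (ee0L D) at hg
    change (JL D Set.univ).mkQ (1 - of' g⁻¹) ∈ LinearMap.range (ee0L D)
    have h1 : (1 - of' g⁻¹ : ZG (HH D)) = -(of' g⁻¹ • (1 - of' g)) := by
      rw [smul_eq_mul, mul_sub, mul_one]
      have h2 : (of' g⁻¹ * of' g : ZG (HH D)) = of' (g⁻¹ * g) := (map_mul _ _ _).symm
      have h3 : (of' (1 : HH D) : ZG (HH D)) = 1 := map_one _
      rw [h2, inv_mul_cancel, h3]
      abel
    rw [h1, map_neg, map_smul]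
    exact Submodule.neg_mem _ (Submodule.smul_mem _ _ hg)

theorem ee0_mem (h : HH D) : (JL D Set.univ).mkQ (1 - of' h) ∈ LinearMap.range (ee0L D) := by
  refine hh_closure D (ee0S D) ?_ ?_ ?_ ?_ h
  · intro a
    change (JL D Set.univ).mkQ (1 - of' (hq D a)) ∈ LinearMap.range (ee0L D)
    have h1 : (JL D Set.univ).mkQ (1 - of' (hq D a)) = 0 := by
      rw [Submodule.mkQ_apply, Submodule.Quotient.mk_eq_zero]
      exact Submodule.subset_span (Or.inl ⟨a, rfl⟩)
    rw [h1]
    exact Submodule.zero_mem _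
  · intro g j
    change (JL D Set.univ).mkQ (1 - of' (hc D g j)) ∈ LinearMap.range (ee0L D)
    have h1 : (JL D Set.univ).mkQ (1 - of' (hc D g j)) = 0 := by
      rw [Submodule.mkQ_apply, Submodule.Quotient.mk_eq_zero]
      exact Submodule.subset_span (Or.inr ⟨(g, j), Set.mem_univ _, rfl⟩)
    rw [h1]
    exact Submodule.zero_mem _
  · intro g
    exact ⟨Pi.single (Sum.inl g) 1, by rw [ee0_single, one_smul]; rfl⟩
  · intro r
    exact ⟨Pi.single (Sum.inr r) 1, by rw [ee0_single, one_smul]; rfl⟩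

theorem ee0_red (b : ZG (HH D)) : ∃ n : ℤ, aug (HH D) b = n ∧
    (JL D Set.univ).mkQ (b - n • (1 : ZG (HH D))) ∈ LinearMap.range (ee0L D) := by
  refine MonoidAlgebra.induction_on
    (motive := fun b => ∃ n : ℤ, aug (HH D) b = n ∧
      (JL D Set.univ).mkQ (b - n • (1 : ZG (HH D))) ∈ LinearMap.range (ee0L D)) b ?_ ?_ ?_
  · intro h
    refine ⟨1, aug_of h, ?_⟩
    have h1 : (of' h - (1 : ℤ) • (1 : ZG (HH D))) = -(1 - of' h) := by
      rw [one_smul]
      abel
    have h2 := Submodule.neg_mem _ (ee0_mem D h)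
    rw [← map_neg, ← h1] at h2
    exact h2
  · rintro b c ⟨n, h1, h2⟩ ⟨m, h3, h4⟩
    refine ⟨n + m, ?_, ?_⟩
    · rw [map_add, h1, h3]
      rfl
    · have h5 : (b + c - (n + m) • (1 : ZG (HH D))) = (b - n • (1 : ZG (HH D))) + (c - m • (1 : ZG (HH D))) := by
        rw [add_smul]
        abel
      rw [h5, map_add]
      exact Submodule.add_mem _ h2 h4
  · rintro r b ⟨n, h1, h2⟩
    refine ⟨r * n, ?_, ?_⟩
    · have h3 : aug (HH D) (r • b) = r • aug (HH D) b := map_zsmul (aug (HH D)) r b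
      rw [h3, h1]
      exact smul_eq_mul (r : ℤ) (n : ℤ)
    · have h5 : (r • b - (r * n) • (1 : ZG (HH D))) = r • (b - n • (1 : ZG (HH D))) := by
        rw [smul_sub, mul_smul]
      rw [h5, map_zsmul]
      exact AddSubgroup.zsmul_mem (LinearMap.range (ee0L D)).toAddSubgroup h2 r

theorem eps0_surj : Function.Surjective (eps0 D) := by
  rintro ⟨x, hx⟩
  obtain ⟨b, rfl⟩ := Submodule.mkQ_surjective _ x
  obtain ⟨n, h1, h2⟩ := ee0_red D b
  have h3 : aug (HH D) b = 0 := by
    have h4 := LinearMap.mem_ker.1 hx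
    rwa [augS_mk] at h4
  have h4 : n = 0 := h1.symm.trans h3
  rw [h4, zero_smul, sub_zero] at h2
  obtain ⟨a, ha⟩ := h2
  exact ⟨a, Subtype.ext ha⟩

end Pool.Agent.SFP
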