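import Pool.Agent.SFP.ExtA
import Pool.Agent.SFP.Cx

/-!
# Module ExE1: the kernel of `eps0` is the range of `d1 wE`

`JL D Set.univ` is the left ideal generated by the `1 - q a`, `1 - c g j`; `vtx` are the other generators of `HH D`;
`eps0 a = ∑_i a i • [1 - of' (vtx i)]` (file Cx.lean).  Helpful: formulas for `d1 w (Pi.single i b)`.
(1) `range (d1 wE) ≤ ker`: for the basis: `eps0 (d1 wE e_(g,j)) = [(1 - c g j)(1 - y g)] = [(1 - y g)(1 - c g j)] = 0`;
`eps0 (d1 wE e_v) = [(1 - lv v)(1 - z)] = [(1 - z)(1 - lv v)]`, zero if `lv v` is a label, and for `v = (s, 1)`: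
`[(1 - z)(1 - x y x⁻¹) - (1 - z) x (1 - y)] = [(1 - z) (1 - x + x y (1 - x⁻¹))] = 0`
(`1 - x`, `1 - x⁻¹` are in `JL`; `(1 - x y x⁻¹) - x (1 - y) = (1 - x) + x y (1 - x⁻¹)`).
(2) `ker ≤ range (d1 wE)`: let `M = (Gm ⊕ Rl → ZG (HH D)) ⧸ range (d1 wE)` and `δ : HH D → M` the derivation of `der_hh` with
`my g = [e_(inl g)]`, `mz r = [e_(inr r)]`: the conditions say that `(1 - c g j) e_g`, `(1 - c (gen s) j) e_(rel s)` and
`(1 - hw s) e_(rel s) - (1 - hz (rel s)) x_s e_(gen s)` are in `range (d1 wE)` (they are the images of the basis vectors; a label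
`c (gen s) j` is `ha s` or `hb s`).  Extend `δ` additively to `Ψ : ZG (HH D) →+ M`; `Ψ (b * of' h) = Ψ b + b • δ h` (by
additivity in `b`, from `δ (g h) = δ g + g δ h`) so `Ψ (b (1 - of' h)) = - b • δ h`; hence `Ψ` vanishes on `JL D Set.univ`
(span induction: the elements are sums of `b (1 - of' h)` with `δ h = 0`).  If `eps0 a = 0`, then
`∑_i a i (1 - of' (vtx i)) ∈ JL`, so `0 = ∑_i - a i • [e_i] = - [a]` in `M`, i.e. `a ∈ range (d1 wE)`.
-/

set_option linter.unusedSectionVars false

namespace Pool.Agent.SFP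

open Pool.Agent.Hhelper49.Srr

variable {Q Gm Rl Sl : Type} [Group Q] (D : Dat Q Gm Rl Sl)
variable [Fintype Gm] [DecidableEq Gm] [Fintype Rl] [DecidableEq Rl] [Fintype Sl] [DecidableEq Sl]

/-- a derivation extends additively to the group ring -/
theorem exists_Psi {H M : Type} [Group H] [AddCommGroup M] [Module (ZG H) M] (δ : H → M)
    (hδ : ∀ g h, δ (g * h) = δ g + act g (δ h)) :
    ∃ Ψ : ZG H →+ M, ∀ (b : ZG H) (h : H), Ψ (b * of' h) = Ψ b + b • δ h := by
  let Ψ : ZG H →+ M := (Finsupp.linearCombination ℤ δ).toAddMonoidHom.comp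
    (MonoidAlgebra.coeffAddEquiv (R := ℤ) (M := H)).toAddMonoidHom
  have hs : ∀ (h : H) (n : ℤ), Ψ (MonoidAlgebra.single h n) = n • δ h := by
    intro h n
    change Finsupp.linearCombination ℤ δ (Finsupp.single h n) = _
    rw [Finsupp.linearCombination_single]
  refine ⟨Ψ, fun b h => ?_⟩
  induction b using MonoidAlgebra.induction_linear with
  | zero => rw [zero_mul, map_zero, zero_smul, add_zero]
  | add a b ha hb =>
    rw [add_mul, map_add, map_add, ha, hb, add_smul]
    abel
  | single g n =>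
    have h1 : (MonoidAlgebra.single g n : ZG H) * of' h = MonoidAlgebra.single (g * h) n := by
      change (MonoidAlgebra.single g n : ZG H) * MonoidAlgebra.single h 1 = MonoidAlgebra.single (g * h) n
      rw [MonoidAlgebra.single_mul_single, mul_one]
    rw [h1, hs, hs, single_smul, hδ, smul_add]

/-- the first differential on the basis, link part -/
theorem d1_single_inl (w : HH D → ZG (HH D)) (g : Gm) (j : Bool) (b : ZG (HH D)) :
    d1 D w (Pi.single (Sum.inl (g, j)) b) = Pi.single (Sum.inl g) (b * w (hc D g j)) := by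
  funext i
  cases i with
  | inl g' =>
    change (∑ j' : Bool, (Pi.single (Sum.inl (g, j)) b : (Gm × Bool) ⊕ (Sl × Fin 3) → ZG (HH D))
        (Sum.inl (g', j')) * w (hc D g' j')) -
        (∑ s : Sl, if D.gen s = g' then (Pi.single (Sum.inl (g, j)) b :
          (Gm × Bool) ⊕ (Sl × Fin 3) → ZG (HH D)) (Sum.inr (s, 1)) *
          (w (hz D (D.rel s)) * qq D (D.x s)) else 0) = _
    have h1 : (∑ s : Sl, if D.gen s = g' then (Pi.single (Sum.inl (g, j)) b :
          (Gm × Bool) ⊕ (Sl × Fin 3) → ZG (HH D)) (Sum.inr (s, 1)) *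
          (w (hz D (D.rel s)) * qq D (D.x s)) else 0) = 0 := by
      refine Finset.sum_eq_zero fun s _ => ?_
      rw [Pi.single_eq_of_ne (by simp), zero_mul, ite_self]
    rw [h1, sub_zero]
    by_cases hg : g' = g
    · subst hg
      rw [Pi.single_eq_same, Finset.sum_eq_single j]
      · rw [Pi.single_eq_same]
      · intro j' _ hj'
        rw [Pi.single_eq_of_ne (by simpa using hj'), zero_mul]
      · intro h
        exact absurd (Finset.mem_univ _) h
    · rw [Pi.single_eq_of_ne (by simpa using hg)]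
      refine Finset.sum_eq_zero fun j' _ => ?_
      rw [Pi.single_eq_of_ne (by simp [hg]), zero_mul]
  | inr r =>
    change (∑ v : Sl × Fin 3, if D.rel v.1 = r then (Pi.single (Sum.inl (g, j)) b :
          (Gm × Bool) ⊕ (Sl × Fin 3) → ZG (HH D)) (Sum.inr v) * w (lv D v) else 0) = _
    rw [Pi.single_eq_of_ne (by simp)]
    refine Finset.sum_eq_zero fun v _ => ?_
    rw [Pi.single_eq_of_ne (by simp), zero_mul, ite_self]

/-- the correction term of the first differential -/
noncomputable def corr (w : HH D → ZG (HH D)) (v : Sl × Fin 3) (b : ZG (HH D)) : Gm ⊕ Rl → ZG (HH D) :=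
  if v.2 = 1 then Pi.single (Sum.inl (D.gen v.1)) (b * (w (hz D (D.rel v.1)) * qq D (D.x v.1))) else 0

theorem corr_zero (w : HH D → ZG (HH D)) (s : Sl) (b : ZG (HH D)) : corr D w (s, 0) b = 0 := by
  rw [corr, if_neg (by simp)]

theorem corr_two (w : HH D → ZG (HH D)) (s : Sl) (b : ZG (HH D)) : corr D w (s, 2) b = 0 := by
  rw [corr, if_neg (by simp)]

theorem corr_one (w : HH D → ZG (HH D)) (s : Sl) (b : ZG (HH D)) :
    corr D w (s, 1) b = Pi.single (Sum.inl (D.gen s)) (b * (w (hz D (D.rel s)) * qq D (D.x s))) := by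
  rw [corr, if_pos rfl]

theorem d1_single_inr (w : HH D → ZG (HH D)) (v : Sl × Fin 3) (b : ZG (HH D)) :
    d1 D w (Pi.single (Sum.inr v) b) = Pi.single (Sum.inr (D.rel v.1)) (b * w (lv D v)) - corr D w v b := by
  funext i
  rw [Pi.sub_apply]
  cases i with
  | inl g' =>
    change (∑ j' : Bool, (Pi.single (Sum.inr v) b : (Gm × Bool) ⊕ (Sl × Fin 3) → ZG (HH D))
        (Sum.inl (g', j')) * w (hc D g' j')) -
        (∑ s : Sl, if D.gen s = g' then (Pi.single (Sum.inr v) b :
          (Gm × Bool) ⊕ (Sl × Fin 3) → ZG (HH D)) (Sum.inr (s, 1)) *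
          (w (hz D (D.rel s)) * qq D (D.x s)) else 0) = _
    have h1 : (∑ j' : Bool, (Pi.single (Sum.inr v) b : (Gm × Bool) ⊕ (Sl × Fin 3) → ZG (HH D))
        (Sum.inl (g', j')) * w (hc D g' j')) = 0 := by
      refine Finset.sum_eq_zero fun j' _ => ?_
      rw [Pi.single_eq_of_ne (by simp), zero_mul]
    rw [h1, Pi.single_eq_of_ne (by simp)]
    congr 1
    obtain ⟨s, k⟩ := v
    rw [corr]
    by_cases hk : k = 1
    · subst hk
      rw [if_pos rfl]
      by_cases hg : g' = D.gen s
      · subst hg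
        rw [Pi.single_eq_same, Finset.sum_eq_single s]
        · rw [if_pos rfl, Pi.single_eq_same]
        · intro s' _ hs'
          rw [Pi.single_eq_of_ne (by simpa using hs'), zero_mul, ite_self]
        · intro h
          exact absurd (Finset.mem_univ _) h
      · rw [Pi.single_eq_of_ne (by simpa using hg)]
        refine Finset.sum_eq_zero fun s' _ => ?_
        by_cases hs' : s' = s
        · subst hs'
          rw [if_neg (fun h => hg h.symm)]
        · rw [Pi.single_eq_of_ne (by simpa using hs'), zero_mul, ite_self]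
    · rw [if_neg hk]
      refine Finset.sum_eq_zero fun s' _ => ?_
      rw [Pi.single_eq_of_ne (by
        intro h
        have h2 := Sum.inr.inj h
        exact hk (congrArg Prod.snd h2).symm), zero_mul, ite_self]
  | inr r =>
    change (∑ v' : Sl × Fin 3, if D.rel v'.1 = r then (Pi.single (Sum.inr v) b :
          (Gm × Bool) ⊕ (Sl × Fin 3) → ZG (HH D)) (Sum.inr v') * w (lv D v') else 0) = _
    have h2 : corr D w v b (Sum.inr r) = 0 := by
      rw [corr]
      split_ifs
      · rw [Pi.single_eq_of_ne (by simp)]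
      · rfl
    rw [h2, sub_zero]
    by_cases hr : r = D.rel v.1
    · subst hr
      rw [Pi.single_eq_same, Finset.sum_eq_single v]
      · rw [if_pos rfl, Pi.single_eq_same]
      · intro v' _ hv'
        rw [Pi.single_eq_of_ne (by simpa using hv'), zero_mul, ite_self]
      · intro h
        exact absurd (Finset.mem_univ _) h
    · rw [Pi.single_eq_of_ne (by simpa using hr)]
      refine Finset.sum_eq_zero fun v' _ => ?_
      by_cases hv' : v' = v
      · subst hv'
        rw [if_neg (fun h => hr h.symm)]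
      · rw [Pi.single_eq_of_ne (by simpa using hv'), zero_mul, ite_self]

/-- the sum `∑ a i (1 - vtx i)` -/
noncomputable def sv : (Gm ⊕ Rl → ZG (HH D)) →ₗ[ZG (HH D)] ZG (HH D) :=
  Fintype.linearCombination (ZG (HH D)) (fun i => 1 - of' (vtx D i))

theorem sv_apply (a : Gm ⊕ Rl → ZG (HH D)) : sv D a = ∑ i, a i * (1 - of' (vtx D i)) := by
  rw [sv, Fintype.linearCombination_apply]
  rfl

theorem sv_single (i : Gm ⊕ Rl) (b : ZG (HH D)) : sv D (Pi.single i b) = b * (1 - of' (vtx D i)) := by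
  rw [sv_apply, Finset.sum_eq_single i]
  · rw [Pi.single_eq_same]
  · intro k _ hk
    rw [Pi.single_eq_of_ne hk, zero_mul]
  · intro h
    exact absurd (Finset.mem_univ _) h

theorem eps0_val (a : Gm ⊕ Rl → ZG (HH D)) : (eps0 D a).1 = (JL D Set.univ).mkQ (sv D a) := by
  rw [sv_apply, eps0, Fintype.linearCombination_apply, map_sum]
  rw [AddSubmonoidClass.coe_finsetSum]
  refine Finset.sum_congr rfl fun i _ => ?_
  rw [← smul_eq_mul, map_smul]
  rfl

theorem eps0_eq_zero (a : Gm ⊕ Rl → ZG (HH D)) : eps0 D a = 0 ↔ sv D a ∈ JL D Set.univ := by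
  rw [← Submodule.coe_eq_zero, eps0_val, Submodule.mkQ_apply, Submodule.Quotient.mk_eq_zero]

theorem JL_q (b : ZG (HH D)) (a : Q) : b * (1 - of' (hq D a)) ∈ JL D Set.univ := by
  rw [← smul_eq_mul]
  exact Submodule.smul_mem _ _ (Submodule.subset_span (Or.inl ⟨a, rfl⟩))

theorem JL_c (b : ZG (HH D)) (g : Gm) (j : Bool) : b * (1 - of' (hc D g j)) ∈ JL D Set.univ := by
  rw [← smul_eq_mul]
  exact Submodule.smul_mem _ _ (Submodule.subset_span (Or.inr ⟨(g, j), Set.mem_univ _, rfl⟩))

theorem one_sub_comm {H : Type} [Group H] {u v : H} (h : Commute u v) :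
    (1 - of' u) * (1 - of' v) = (1 - of' v) * (1 - of' u) := by
  have h1 : of' u * of' v = of' v * of' u := by
    rw [← map_mul, ← map_mul, h.eq]
  have h2 : (1 - of' u) * (1 - of' v) = 1 - of' u - of' v + of' u * of' v := by noncomm_ring
  have h3 : (1 - of' v) * (1 - of' u) = 1 - of' u - of' v + of' v * of' u := by noncomm_ring
  rw [h2, h3, h1]

/-- the identity behind the third case -/
theorem zx_identity {H : Type} [Group H] (z x y : H) (h : Commute z (x * y * x⁻¹)) (b : ZG H) :
    b * (1 - of' (x * y * x⁻¹)) * (1 - of' z) - b * ((1 - of' z) * of' x) * (1 - of' y) =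
      (b * (1 - of' z)) * (1 - of' x) + (b * (1 - of' z) * of' x * of' y) * (1 - of' x⁻¹) := by
  have h1 : b * (1 - of' (x * y * x⁻¹)) * (1 - of' z) = b * (1 - of' z) * (1 - of' (x * y * x⁻¹)) := by
    rw [mul_assoc, one_sub_comm h.symm, ← mul_assoc]
  have h2 : of' (x * y * x⁻¹) = of' x * of' y * of' x⁻¹ :=
    (map_mul (MonoidAlgebra.of ℤ H) _ _).trans
      (congrArg (fun t => t * of' x⁻¹) (map_mul (MonoidAlgebra.of ℤ H) _ _))
  have h3 : b * ((1 - of' z) * of' x) = b * (1 - of' z) * of' x := (mul_assoc _ _ _).symm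
  rw [h1, h2, h3]
  generalize b * (1 - of' z) = c
  generalize of' x⁻¹ = X
  noncomm_ring

theorem ker_inl (g : Gm) (j : Bool) (b : ZG (HH D)) :
    eps0 D (Pi.single (Sum.inl g) (b * wE D (hc D g j))) = 0 := by
  rw [eps0_eq_zero, sv_single]
  have h1 : b * wE D (hc D g j) * (1 - of' (vtx D (Sum.inl g))) =
      (b * (1 - of' (hy D g))) * (1 - of' (hc D g j)) := by
    rw [wE, vtx, mul_assoc, one_sub_comm (hyc D g j).symm, ← mul_assoc]
  rw [h1]
  exact JL_c D _ _ _

theorem ker_inr (s : Sl) (j : Bool) (b : ZG (HH D)) :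
    eps0 D (Pi.single (Sum.inr (D.rel s)) (b * wE D (hc D (D.gen s) j))) = 0 := by
  rw [eps0_eq_zero, sv_single]
  have h1 : b * wE D (hc D (D.gen s) j) * (1 - of' (vtx D (Sum.inr (D.rel s)))) =
      (b * (1 - of' (hz D (D.rel s)))) * (1 - of' (hc D (D.gen s) j)) := by
    rw [wE, vtx, mul_assoc, one_sub_comm (hzc D s j).symm, ← mul_assoc]
  rw [h1]
  exact JL_c D _ _ _

theorem ker_mid (s : Sl) (b : ZG (HH D)) :
    eps0 D (Pi.single (Sum.inr (D.rel s)) (b * wE D (hw D s)) -
      Pi.single (Sum.inl (D.gen s)) (b * (wE D (hz D (D.rel s)) * qq D (D.x s)))) = 0 := by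
  rw [eps0_eq_zero, map_sub, sv_single, sv_single, vtx, vtx, wE, wE, qq, hw,
    zx_identity _ _ _ (hzw D s), ← map_inv]
  exact Submodule.add_mem _ (JL_q D _ _) (JL_q D _ _)

theorem range_le_E0 : LinearMap.range (d1 D (wE D)) ≤ LinearMap.ker (eps0 D) := by
  have key : ∀ i b, eps0 D (d1 D (wE D) (Pi.single i b)) = 0 := by
    intro i b
    rcases i with ⟨g, j⟩ | ⟨s, k⟩
    · rw [d1_single_inl]
      exact ker_inl D g j b
    · have h3 : k = 0 ∨ k = 1 ∨ k = 2 := by
        fin_cases k
        · exact Or.inl rfl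
        · exact Or.inr (Or.inl rfl)
        · exact Or.inr (Or.inr rfl)
      rcases h3 with rfl | rfl | rfl
      · rw [d1_single_inr, corr_zero, sub_zero, lv_zero]
        exact ker_inr D s _ b
      · rw [d1_single_inr, corr_one, lv_one]
        exact ker_mid D s b
      · rw [d1_single_inr, corr_two, sub_zero, lv_two]
        exact ker_inr D s _ b
  have key2 : (eps0 D).comp (d1 D (wE D)) = 0 := LinearMap.pi_ext key
  rintro _ ⟨a, rfl⟩
  exact LinearMap.congr_fun key2 a

theorem ker_le_E0 : LinearMap.ker (eps0 D) ≤ LinearMap.range (d1 D (wE D)) := by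
  set R := LinearMap.range (d1 D (wE D)) with hR
  have hmk : ∀ u v : Gm ⊕ Rl → ZG (HH D), v - u ∈ R → R.mkQ u = R.mkQ v := by
    intro u v h
    rw [Submodule.mkQ_apply, Submodule.mkQ_apply, eq_comm]
    exact (Submodule.Quotient.eq R).2 h
  have hact : ∀ (h : HH D) (u : Gm ⊕ Rl → ZG (HH D)), act h (R.mkQ u) = R.mkQ (of' h • u) := by
    intro h u
    rw [act, map_smul]
  have hsm' : ∀ (i : Gm ⊕ Rl) (c : ZG (HH D)) (b : ZG (HH D)),
      (c • (Pi.single i b : Gm ⊕ Rl → ZG (HH D))) = Pi.single i (c * b) := by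
    intro i c b
    funext k
    rw [Pi.smul_apply]
    by_cases hk : k = i
    · subst hk
      rw [Pi.single_eq_same, Pi.single_eq_same, smul_eq_mul]
    · rw [Pi.single_eq_of_ne hk, Pi.single_eq_of_ne hk, smul_zero]
  have hsm : ∀ (i : Gm ⊕ Rl) (h : HH D) (b : ZG (HH D)),
      (of' h • (Pi.single i b : Gm ⊕ Rl → ZG (HH D))) = Pi.single i (of' h * b) :=
    fun i h b => hsm' i _ b
  obtain ⟨δ, hδ, hq0, hc0, hy0, hz0⟩ := der_hh D ((Gm ⊕ Rl → ZG (HH D)) ⧸ R)
    (fun g => R.mkQ (Pi.single (Sum.inl g) 1)) (fun r => R.mkQ (Pi.single (Sum.inr r) 1))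
    (by
      intro g j
      rw [hact, hsm]
      apply hmk
      rw [mul_one, ← Pi.single_sub]
      refine ⟨Pi.single (Sum.inl (g, j)) 1, ?_⟩
      rw [d1_single_inl, one_mul, wE])
    (by
      intro s j
      rw [hact, hsm]
      apply hmk
      rw [mul_one, ← Pi.single_sub]
      by_cases hj : j = D.sg s
      · refine ⟨Pi.single (Sum.inr (s, 0)) 1, ?_⟩
        rw [d1_single_inr, corr_zero, sub_zero, one_mul, wE, lv_zero, ha, hj]
      · have hj2 : j = !D.sg s := by
          cases j <;> cases h : D.sg s <;> simp_all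
        refine ⟨Pi.single (Sum.inr (s, 2)) 1, ?_⟩
        rw [d1_single_inr, corr_two, sub_zero, one_mul, wE, lv_two, hb, hj2])
    (by
      intro s
      rw [hact, hact, hact, hsm, hsm, hsm, ← map_sub, ← map_sub, ← Pi.single_sub, ← Pi.single_sub]
      symm
      apply hmk
      refine ⟨Pi.single (Sum.inr (s, 1)) 1, ?_⟩
      rw [d1_single_inr, corr_one, lv_one, one_mul, one_mul, wE, wE, mul_one, mul_one, qq, sub_mul, one_mul])
  obtain ⟨Ψ, hΨ⟩ := exists_Psi δ hδ
  have hΨ2 : ∀ b h, Ψ (b * (1 - of' h)) = - (b • δ h) := by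
    intro b h
    rw [mul_sub, mul_one, map_sub, hΨ]
    abel
  have hJ : ∀ b ∈ JL D Set.univ, Ψ b = 0 := by
    have h1 : ∀ x ∈ ({b | ∃ a, b = 1 - of' (hq D a)} ∪
        {b | ∃ l ∈ (Set.univ : Set (Gm × Bool)), b = 1 - of' (hc D l.1 l.2)} : Set (ZG (HH D))),
        ∀ c, Ψ (c * x) = 0 := by
      rintro x (⟨a, rfl⟩ | ⟨l, _, rfl⟩) c
      · rw [hΨ2, hq0, smul_zero, neg_zero]
      · rw [hΨ2, hc0, smul_zero, neg_zero]
    intro b hb
    rw [JL] at hb
    have h2 : ∀ c, Ψ (c * b) = 0 := by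
      induction hb using Submodule.span_induction with
      | mem x hx => exact h1 x hx
      | zero => intro c; rw [mul_zero, map_zero]
      | add x y _ _ hx hy => intro c; rw [mul_add, map_add, hx, hy, add_zero]
      | smul a x _ hx => intro c; rw [smul_eq_mul, ← mul_assoc]; exact hx _
    have h3 := h2 1
    rwa [one_mul] at h3
  intro a ha
  rw [LinearMap.mem_ker, eps0_eq_zero, sv_apply] at ha
  have h4 := hJ _ ha
  rw [map_sum] at h4
  have h5 : ∀ i, Ψ (a i * (1 - of' (vtx D i))) = - R.mkQ (Pi.single i (a i)) := by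
    intro i
    rw [hΨ2]
    have h6 : δ (vtx D i) = R.mkQ (Pi.single i 1) := by
      cases i with
      | inl g => exact hy0 g
      | inr r => exact hz0 r
    rw [h6, ← map_smul, hsm', mul_one]
  rw [Finset.sum_congr rfl (fun i _ => h5 i), Finset.sum_neg_distrib, neg_eq_zero, ← map_sum,
    Finset.univ_sum_single] at h4
  rw [Submodule.mkQ_apply, Submodule.Quotient.mk_eq_zero] at h4
  exact h4

theorem exact_E0 : LinearMap.range (d1 D (wE D)) = LinearMap.ker (eps0 D) :=
  le_antisymm (range_le_E0 D) (ker_le_E0 D)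

end Pool.Agent.SFP
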