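import Pool.Agent.SFP.Cx

/-!
# Module ExF: the complex `F`, part 1

`w = wF` is the constant function `1`, so
 `d1 a (inl g) = a (g, false) + a (g, true) - ∑_(gen s = g) a (s, 1) x_s`, `d1 a (inr r) = ∑_(rel v.1 = r) a v`,
 `d2 ζ (inr v) = ζ (lnx⁻¹ v) - ζ v`, `d2 ζ (inl (g, j)) = ∑_(gen s = g, sg s = j) ζ (s, 0) x_s - ∑_(gen s = g, !sg s = j) ζ (s, 1) x_s`.

(1) `d1F_surj`: given `b`, choose a slot `s_r` with `rel s_r = r` (`D.surj`), put `a (inr (s_r, 0)) = b (inr r)`, all other
`a (inr v) = 0`, `a (inl (g, true)) = b (inl g)`, `a (inl (g, false)) = 0`.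
(2) `key`: if `d2 ζ (inr v) = 0` for all `v`, then `ζ v = ζ (lnx v)` for all `v`, so `ζ` is constant on the slots of each relation
(`D.trans`): there is `b : Rl → ZG (HH D)` with `ζ v = b (rel v.1)` (`D.surj`), and
`d2 ζ (inl (g, false)) = relM (phi D) D b g`, `d2 ζ (inl (g, true)) = - relM (phi D) D b g`: a slot `s` with `gen s = g` and
`sg s = false` (`eps = 1`) contributes `+ b x_s` to `(g, false)` (`sg s = j`) and `- b x_s` to `(g, true)` (`!sg s = j`); if
`sg s = true` (`eps = -1`), `+ b x_s` to `(g, true)` and `- b x_s` to `(g, false)`.  (`phi_of`: `phi D (of' a) = qq D a`.)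
(3) `d2F_inj`: by (2) and the injectivity of `relM`.
(4) `psiF1`: clear.
(5) `psiF3`: if `psi u = d2 ζ`, then by (2) `u g = - relM b g`; conversely `d2 (fun v => - b (rel v.1)) = psi (relM b)`.
-/

set_option linter.unusedSectionVars false

namespace Pool.Agent.SFP

open Pool.Agent.Hhelper49.Srr

variable {Q Gm Rl Sl : Type} [Group Q] (D : Dat Q Gm Rl Sl)
variable [Fintype Gm] [DecidableEq Gm] [Fintype Rl] [DecidableEq Rl] [Fintype Sl] [DecidableEq Sl]

theorem d1F_surj : Function.Surjective (d1 D (wF D)) := by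
  classical
  intro b
  obtain ⟨σ, hσ⟩ : ∃ σ : Rl → Sl, ∀ r, D.rel (σ r) = r :=
    ⟨Function.surjInv D.surj, Function.surjInv_eq D.surj⟩
  refine ⟨fun i => match i with
    | Sum.inl (g, j) => if j then b (Sum.inl g) else 0
    | Sum.inr v => if v = (σ (D.rel v.1), 0) then b (Sum.inr (D.rel v.1)) else 0, ?_⟩
  funext i
  rcases i with g | r
  · change (∑ j : Bool, (if j then b (Sum.inl g) else 0) * (1 : ZG (HH D))) -
        (∑ s : Sl, if D.gen s = g then (if (s, (1 : Fin 3)) = (σ (D.rel s), 0) then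
          b (Sum.inr (D.rel s)) else 0) * ((1 : ZG (HH D)) * qq D (D.x s)) else 0) = b (Sum.inl g)
    have h1 : (∑ s : Sl, if D.gen s = g then (if (s, (1 : Fin 3)) = (σ (D.rel s), 0) then
          b (Sum.inr (D.rel s)) else 0) * ((1 : ZG (HH D)) * qq D (D.x s)) else 0) = 0 := by
      apply Finset.sum_eq_zero
      intro s _
      have h2 : ¬ ((s, (1 : Fin 3)) = (σ (D.rel s), 0)) := by
        intro h
        have h3 := congrArg Prod.snd h
        simp at h3
      rw [if_neg h2, zero_mul, ite_self]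
    rw [h1, Fintype.sum_bool]
    simp
  · change (∑ v : Sl × Fin 3, if D.rel v.1 = r then (if v = (σ (D.rel v.1), 0) then
          b (Sum.inr (D.rel v.1)) else 0) * (1 : ZG (HH D)) else 0) = b (Sum.inr r)
    rw [Finset.sum_eq_single (σ r, 0)]
    · simp [hσ]
    · intro v _ hv
      by_cases h : D.rel v.1 = r
      · rw [if_pos h, h, if_neg hv, zero_mul]
      · rw [if_neg h]
    · intro h
      exact absurd (Finset.mem_univ _) h

theorem xf_key (ζ : Sl × Fin 3 → ZG (HH D)) (h : ∀ v, d2 D (wF D) ζ (Sum.inr v) = 0) :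
    ∃ b : Rl → ZG (HH D), ζ = fun v => b (D.rel v.1) := by
  have h1 : ∀ v, ζ (lnx D v) = ζ v := by
    intro v
    have h2 : ζ ((lnx D).symm (lnx D v)) * (1 : ZG (HH D)) - ζ (lnx D v) * (1 : ZG (HH D)) = 0 :=
      h (lnx D v)
    rw [(lnx D).symm_apply_apply, mul_one, mul_one, sub_eq_zero] at h2
    exact h2.symm
  have h2 : ∀ s, ζ (s, 1) = ζ (s, 0) := fun s => h1 (s, 0)
  have h3 : ∀ s, ζ (s, 2) = ζ (s, 0) := fun s => (h1 (s, 1)).trans (h2 s)
  have h4 : ∀ s, ζ (D.nx s, 0) = ζ (s, 0) := fun s => (h1 (s, 2)).trans (h3 s)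
  have h5 : ∀ (k : ℕ) s, ζ ((D.nx ^ k) s, 0) = ζ (s, 0) := by
    intro k
    induction k with
    | zero =>
      intro s
      rfl
    | succ k ih =>
      intro s
      rw [pow_succ', Equiv.Perm.mul_apply, h4]
      exact ih s
  refine ⟨fun r => ζ (Function.surjInv D.surj r, 0), ?_⟩
  funext v
  obtain ⟨k, hk⟩ := D.trans (Function.surjInv D.surj (D.rel v.1)) v.1
    (Function.surjInv_eq D.surj (D.rel v.1))
  have h6 : ζ (Function.surjInv D.surj (D.rel v.1), 0) = ζ (v.1, 0) := by
    rw [← h5 k, hk]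
  simp only [h6]
  obtain ⟨s, j⟩ := v
  fin_cases j
  · rfl
  · exact h2 s
  · exact h3 s

theorem xf_const (b : Rl → ZG (HH D)) :
    d2 D (wF D) (fun v => b (D.rel v.1)) = - psi D (relM (phi D) D b) := by
  have hphi : ∀ s, phi D (D.eps s • of' (D.x s)) = D.eps s • qq D (D.x s) := by
    intro s
    rw [map_zsmul, phi_of]
  have hrel : ∀ g, relM (phi D) D b g = ∑ s : Sl, if D.gen s = g then
      b (D.rel s) * (D.eps s • qq D (D.x s)) else 0 := by
    intro g
    refine Finset.sum_congr rfl fun s _ => ?_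
    rw [hphi]
  funext i
  rcases i with ⟨g, j⟩ | v
  · change (∑ s : Sl, if D.gen s = g ∧ D.sg s = j then b (D.rel s) * ((1 : ZG (HH D)) * qq D (D.x s)) else 0) -
        (∑ s : Sl, if D.gen s = g ∧ (!D.sg s) = j then b (D.rel s) * ((1 : ZG (HH D)) * qq D (D.x s)) else 0) =
        -(if j then relM (phi D) D b g else - relM (phi D) D b g)
    rw [← Finset.sum_sub_distrib]
    have h1 : (if j then relM (phi D) D b g else - relM (phi D) D b g) =
        ∑ s : Sl, if D.gen s = g then (if j then b (D.rel s) * (D.eps s • qq D (D.x s)) else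
          - (b (D.rel s) * (D.eps s • qq D (D.x s)))) else 0 := by
      rw [hrel]
      cases j
      · simp only [Bool.false_eq_true, if_false]
        rw [← Finset.sum_neg_distrib]
        refine Finset.sum_congr rfl fun s _ => ?_
        split_ifs
        · rfl
        · exact neg_zero
      · simp only [if_true]
    rw [h1, ← Finset.sum_neg_distrib]
    refine Finset.sum_congr rfl fun s _ => ?_
    by_cases hg : D.gen s = g
    · have e : D.eps s = if D.sg s then -1 else 1 := rfl
      rw [e]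
      cases hs : D.sg s <;> cases j <;> simp [hg]
    · simp [hg]
  · change b (D.rel ((lnx D).symm v).1) * (1 : ZG (HH D)) - b (D.rel v.1) * (1 : ZG (HH D)) = -0
    rw [rel_lnx_symm, sub_self, neg_zero]

theorem xf_psi_inj : Function.Injective (psi D) := by
  intro u u' h
  funext g
  exact congrFun h (Sum.inl (g, true))

theorem d2F_inj (h : Function.Injective (relM (phi D) D)) : Function.Injective (d2 D (wF D)) := by
  rw [injective_iff_map_eq_zero]
  intro ζ hζ
  obtain ⟨b, hb⟩ := xf_key D ζ (fun v => by rw [hζ]; rfl)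
  rw [hb, xf_const, neg_eq_zero] at hζ
  have h1 : relM (phi D) D b = 0 := xf_psi_inj D (hζ.trans (map_zero _).symm)
  have h2 : b = 0 := h (h1.trans (map_zero _).symm)
  rw [hb, h2]
  rfl

theorem psiF1 (u : Gm → ZG (HH D)) : d1 D (wF D) (psi D u) = 0 := by
  funext i
  rcases i with g | r
  · change (∑ j : Bool, (if j then u g else - u g) * (1 : ZG (HH D))) -
        (∑ s : Sl, if D.gen s = g then (0 : ZG (HH D)) * ((1 : ZG (HH D)) * qq D (D.x s)) else 0) = 0
    have h1 : (∑ s : Sl, if D.gen s = g then (0 : ZG (HH D)) * ((1 : ZG (HH D)) * qq D (D.x s)) else 0) = 0 := by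
      apply Finset.sum_eq_zero
      intro s _
      rw [zero_mul, ite_self]
    rw [h1, Fintype.sum_bool]
    simp
  · change (∑ v : Sl × Fin 3, if D.rel v.1 = r then (0 : ZG (HH D)) * (1 : ZG (HH D)) else 0) = 0
    apply Finset.sum_eq_zero
    intro s _
    rw [zero_mul, ite_self]

theorem psiF3 (u : Gm → ZG (HH D)) :
    u ∈ LinearMap.range (relM (phi D) D) ↔ psi D u ∈ LinearMap.range (d2 D (wF D)) := by
  constructor
  · rintro ⟨b, rfl⟩
    refine ⟨fun v => (-b) (D.rel v.1), ?_⟩
    rw [xf_const, map_neg, map_neg, neg_neg]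
  · rintro ⟨ζ, hζ⟩
    obtain ⟨b, hb⟩ := xf_key D ζ (fun v => by rw [hζ]; rfl)
    rw [hb, xf_const] at hζ
    refine ⟨-b, ?_⟩
    apply xf_psi_inj D
    rw [map_neg, map_neg]
    exact hζ

end Pool.Agent.SFP
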