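import Pool.Agent.SFP.Chain

/-!
# Module ExF2: the complex `F`, part 2

`w = wF` is the constant function `1`, so
 `d1 a (inl g) = a (g, false) + a (g, true) - ∑_(gen s = g) a (s, 1) x_s`, `d1 a (inr r) = ∑_(rel v.1 = r) a v`,
 `d2 ζ (inr v) = ζ (lnx⁻¹ v) - ζ v`.
(1) `bd_solve`: every family `t : Sl × Fin 3 → ZG (HH D)` with `∑_(rel v.1 = r) t v = 0` for all `r` is of the form
`t v = ζ (lnx⁻¹ v) - ζ v`, because the `v` with `rel v.1 = r` form one cycle of `lnx` (`D.trans`).
Proof: the set `S` of the `t` of this form is an additive subgroup.  For every `v` and `b`,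
`single (lnx v) b - single v b ∈ S` (`ζ = single v b`); so `single v' b - single v b ∈ S` if `v' = lnx^k v` (induction on `k`),
hence whenever `rel v'.1 = rel v.1` (from `D.trans`; `lnx^3 (s, 0) = (nx s, 0)`, and `(s, k)` is `lnx^k (s, 0)`).  Choose a base slot
`s_r` for each `r` (`D.surj`); then
`t = ∑_v single v (t v) = ∑_v (single v (t v) - single (s_(rel v.1), 0) (t v)) + ∑_r single (s_r, 0) (∑_(rel v.1 = r) t v)`.
(2) `psiF2`: let `d1 z = 0`.  By (1) there is `ζ` with `bd ζ v = z (inr v)` for all `v`.  Now `z' = z - d2 ζ` vanishes on `inr` and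
`d1 z' = 0` (`dd_zero_F`), so `z' (g, false) + z' (g, true) = 0`: `z' = psi u` with `u g = z' (g, true)`.
-/

set_option linter.unusedSectionVars false

namespace Pool.Agent.SFP

open Pool.Agent.Hhelper49.Srr

variable {Q Gm Rl Sl : Type} [Group Q] (D : Dat Q Gm Rl Sl)
variable [Fintype Gm] [DecidableEq Gm] [Fintype Rl] [DecidableEq Rl] [Fintype Sl] [DecidableEq Sl]

/-- the coboundary as an additive homomorphism -/
noncomputable def cobd (D : Dat Q Gm Rl Sl) :
    (Sl × Fin 3 → ZG (HH D)) →+ (Sl × Fin 3 → ZG (HH D)) where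
  toFun ζ := fun v => ζ ((lnx D).symm v) - ζ v
  map_zero' := by
    funext v
    simp
  map_add' a b := by
    funext v
    simp only [Pi.add_apply]
    abel

/-- `v` and `v'` are connected -/
def Conn (D : Dat Q Gm Rl Sl) (v v' : Sl × Fin 3) : Prop :=
  ∀ b : ZG (HH D), (Pi.single v' b - Pi.single v b : Sl × Fin 3 → ZG (HH D)) ∈ (cobd D).range

theorem conn_refl (v : Sl × Fin 3) : Conn D v v := by
  intro b
  rw [sub_self]
  exact zero_mem _

theorem conn_symm {v v' : Sl × Fin 3} (h : Conn D v v') : Conn D v' v := by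
  intro b
  have h1 := neg_mem (h b)
  rwa [neg_sub] at h1

theorem conn_trans {v v' v'' : Sl × Fin 3} (h : Conn D v v') (h' : Conn D v' v'') :
    Conn D v v'' := by
  intro b
  have h1 := add_mem (h' b) (h b)
  rwa [sub_add_sub_cancel] at h1

theorem conn_lnx (v : Sl × Fin 3) : Conn D v (lnx D v) := by
  intro b
  refine ⟨Pi.single v b, ?_⟩
  funext w
  change (Pi.single v b : Sl × Fin 3 → ZG (HH D)) ((lnx D).symm w) -
    (Pi.single v b : Sl × Fin 3 → ZG (HH D)) w = _
  rw [Pi.sub_apply]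
  congr 1
  by_cases hw : w = lnx D v
  · rw [hw, Equiv.symm_apply_apply, Pi.single_eq_same, Pi.single_eq_same]
  · rw [Pi.single_eq_of_ne hw, Pi.single_eq_of_ne]
    intro h
    apply hw
    rw [← h, Equiv.apply_symm_apply]

theorem conn_zero (s : Sl) (k : Fin 3) : Conn D (s, 0) (s, k) := by
  have h1 : Conn D (s, 0) (s, 1) := conn_lnx D (s, 0)
  have h2 : Conn D (s, 1) (s, 2) := conn_lnx D (s, 1)
  fin_cases k
  · exact conn_refl D _
  · exact h1
  · exact conn_trans D h1 h2

theorem conn_nx (s : Sl) (n : ℕ) : Conn D (s, 0) ((D.nx ^ n) s, 0) := by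
  induction n with
  | zero => exact conn_refl D _
  | succ n ih =>
    have h1 : Conn D ((D.nx ^ n) s, 0) ((D.nx ^ n) s, 2) := conn_zero D _ _
    have h2 : Conn D ((D.nx ^ n) s, 2) (D.nx ((D.nx ^ n) s), 0) := conn_lnx D _
    have h3 : (D.nx ^ (n + 1)) s = D.nx ((D.nx ^ n) s) := by
      rw [pow_succ']
      rfl
    rw [h3]
    exact conn_trans D ih (conn_trans D h1 h2)

theorem conn_of_rel {v v' : Sl × Fin 3} (h : D.rel v.1 = D.rel v'.1) : Conn D v v' := by
  obtain ⟨s, k⟩ := v
  obtain ⟨s', k'⟩ := v'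
  obtain ⟨n, hn⟩ := D.trans s s' h
  have h1 := conn_nx D s n
  rw [hn] at h1
  exact conn_trans D (conn_symm D (conn_zero D s k)) (conn_trans D h1 (conn_zero D s' k'))

theorem bd_solve (t : Sl × Fin 3 → ZG (HH D))
    (h : ∀ r, (∑ v : Sl × Fin 3, if D.rel v.1 = r then t v else 0) = 0) :
    ∃ ζ : Sl × Fin 3 → ZG (HH D), ∀ v, t v = ζ ((lnx D).symm v) - ζ v := by
  choose sr hsr using D.surj
  have key : t ∈ (cobd D).range := by
    have h1 : t = (∑ v, (Pi.single v (t v) - Pi.single (sr (D.rel v.1), 0) (t v) :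
        Sl × Fin 3 → ZG (HH D))) +
        ∑ v : Sl × Fin 3, (Pi.single (sr (D.rel v.1), 0) (t v) : Sl × Fin 3 → ZG (HH D)) := by
      rw [← Finset.sum_add_distrib]
      simp only [sub_add_cancel]
      exact (Finset.univ_sum_single t).symm
    have h2 : (∑ v : Sl × Fin 3, (Pi.single (sr (D.rel v.1), 0) (t v) :
        Sl × Fin 3 → ZG (HH D))) = 0 := by
      have h3 : ∀ v : Sl × Fin 3, (Pi.single (sr (D.rel v.1), 0) (t v) :
          Sl × Fin 3 → ZG (HH D)) =
          ∑ r : Rl, (Pi.single (sr r, 0) (if D.rel v.1 = r then t v else 0) :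
            Sl × Fin 3 → ZG (HH D)) := by
        intro v
        rw [Finset.sum_eq_single (D.rel v.1)]
        · rw [if_pos rfl]
        · intro r _ hr
          rw [if_neg (Ne.symm hr), Pi.single_zero]
        · intro hh
          exact absurd (Finset.mem_univ _) hh
      rw [Finset.sum_congr rfl (fun v _ => h3 v), Finset.sum_comm]
      apply Finset.sum_eq_zero
      intro r _
      have h4 := map_sum (AddMonoidHom.single (fun _ : Sl × Fin 3 => ZG (HH D)) (sr r, 0))
        (fun v : Sl × Fin 3 => if D.rel v.1 = r then t v else 0) Finset.univ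
      rw [h r, map_zero] at h4
      exact h4.symm
    rw [h1, h2, add_zero]
    apply sum_mem
    intro v _
    exact conn_of_rel D (by exact hsr (D.rel v.1)) (t v)
  obtain ⟨ζ, hζ⟩ := key
  exact ⟨ζ, fun v => (congrFun hζ v).symm⟩

theorem psiF2 (z : (Gm × Bool) ⊕ (Sl × Fin 3) → ZG (HH D)) (hz : d1 D (wF D) z = 0) :
    ∃ u, z - psi D u ∈ LinearMap.range (d2 D (wF D)) := by
  have h1 : ∀ r, (∑ v : Sl × Fin 3, if D.rel v.1 = r then z (Sum.inr v) else 0) = 0 := by
    intro r
    have h2 : (∑ v : Sl × Fin 3, if D.rel v.1 = r then z (Sum.inr v) * wF D (lv D v) else 0) = 0 :=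
      congrFun hz (Sum.inr r)
    simpa only [wF, mul_one] using h2
  obtain ⟨ζ, hζ⟩ := bd_solve D (fun v => z (Sum.inr v)) h1
  have hinr : ∀ v, (z - d2 D (wF D) ζ) (Sum.inr v) = 0 := by
    intro v
    change z (Sum.inr v) - (ζ ((lnx D).symm v) * wF D (lv D ((lnx D).symm v)) -
      ζ v * wF D (lv D (lnx D v))) = 0
    rw [wF, wF, mul_one, mul_one]
    exact sub_eq_zero.2 (hζ v)
  have hd : d1 D (wF D) (z - d2 D (wF D) ζ) = 0 := by
    rw [map_sub, hz, dd_zero_F, sub_zero]
  have hinl : ∀ g, (z - d2 D (wF D) ζ) (Sum.inl (g, false)) =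
      - (z - d2 D (wF D) ζ) (Sum.inl (g, true)) := by
    intro g
    have h3 : (∑ j : Bool, (z - d2 D (wF D) ζ) (Sum.inl (g, j)) * wF D (hc D g j)) -
        (∑ s : Sl, if D.gen s = g then (z - d2 D (wF D) ζ) (Sum.inr (s, 1)) *
          (wF D (Pool.Agent.SFP.hz D (D.rel s)) * qq D (D.x s)) else 0) = 0 := congrFun hd (Sum.inl g)
    have h4 : (∑ s : Sl, if D.gen s = g then (z - d2 D (wF D) ζ) (Sum.inr (s, 1)) *
          (wF D (Pool.Agent.SFP.hz D (D.rel s)) * qq D (D.x s)) else 0) = 0 := by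
      apply Finset.sum_eq_zero
      intro s _
      rw [hinr, zero_mul, ite_self]
    rw [h4, sub_zero, Fintype.sum_bool, wF, wF, mul_one, mul_one] at h3
    exact eq_neg_of_add_eq_zero_right h3
  refine ⟨fun g => (z - d2 D (wF D) ζ) (Sum.inl (g, true)), ζ, ?_⟩
  have h5 : psi D (fun g => (z - d2 D (wF D) ζ) (Sum.inl (g, true))) = z - d2 D (wF D) ζ := by
    funext i
    rcases i with ⟨g, _ | _⟩ | v
    · exact (hinl g).symm
    · rfl
    · exact (hinr v).symm
  rw [h5, sub_sub_cancel]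

end Pool.Agent.SFP
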