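import Pool.Agent.SFP.MG

/-!
# Module ExtA: derivations of `HH D`

`MG H M` (file MG.lean) is the group of pairs `(m, h)`, `(m, h) (m', h') = (m + h m', h h')`.  Use `lift D` with values in
`MG (HH D) M`: `q a ↦ (0, hq D a)`, `c g j ↦ (0, hc D g j)`, `y g ↦ (my g, hy D g)`, `z r ↦ (mz r, hz D r)`; the commutation
conditions are checked by `MG.commute` (and `hcq`, `hcc`, `hyc`, `hzc`, `hzw`).  The product `q (x s) y q (x s)⁻¹` in
`MG` has `m`-part `act (hq D (x s)) (my (gen s))` and `h`-part `hw D s`.  The composite of this homomorphism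
`F : HH D →* MG (HH D) M` with `MG.pr` is the identity by `hh_ext`, so `δ h = (F h).m` satisfies `δ (g h) = δ g + act g (δ h)`.
-/

set_option linter.unusedSectionVars false

namespace Pool.Agent.SFP

open Pool.Agent.Hhelper49.Srr

theorem act_zero'' {G A : Type} [Group G] [AddCommGroup A] [Module (ZG G) A] (g : G) :
    act g (0 : A) = 0 := by
  rw [act, smul_zero]

/-- the homomorphism to the group of pairs with zero module part -/
noncomputable def qMG {Q Gm Rl Sl : Type} [Group Q] (D : Dat Q Gm Rl Sl) (M : Type) [AddCommGroup M]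
    [Module (ZG (HH D)) M] : Q →* MG (HH D) M where
  toFun a := ⟨0, hq D a⟩
  map_one' := by
    apply MG.ext
    · rfl
    · exact map_one _
  map_mul' a b := by
    apply MG.ext
    · rw [MG.mul_m]
      change (0 : M) = 0 + act (hq D a) (0 : M)
      rw [act_zero'', add_zero]
    · rw [MG.mul_h]
      exact map_mul _ _ _

/-- a derivation of `HH D` which vanishes on the `q`'s and `c`'s -/
theorem der_hh {Q Gm Rl Sl : Type} [Group Q] (D : Dat Q Gm Rl Sl) (M : Type) [AddCommGroup M]
    [Module (ZG (HH D)) M] (my : Gm → M) (mz : Rl → M)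
    (h1 : ∀ g j, act (hc D g j) (my g) = my g)
    (h2 : ∀ s j, act (hc D (D.gen s) j) (mz (D.rel s)) = mz (D.rel s))
    (h3 : ∀ s, mz (D.rel s) - act (hw D s) (mz (D.rel s)) =
      act (hq D (D.x s)) (my (D.gen s)) - act (hz D (D.rel s)) (act (hq D (D.x s)) (my (D.gen s)))) :
    ∃ δ : HH D → M, (∀ g h, δ (g * h) = δ g + act g (δ h)) ∧ (∀ a, δ (hq D a) = 0) ∧
      (∀ g j, δ (hc D g j) = 0) ∧ (∀ g, δ (hy D g) = my g) ∧ (∀ r, δ (hz D r) = mz r) := by
  have hqm : ∀ a, (qMG D M a).m = 0 := fun a => rfl
  have hqh : ∀ a, (qMG D M a).h = hq D a := fun a => rfl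
  let L : Lift D (MG (HH D) M) :=
    { q := qMG D M
      c := fun g j => ⟨0, hc D g j⟩
      y := fun g => ⟨my g, hy D g⟩
      z := fun r => ⟨mz r, hz D r⟩
      cq := by
        intro g j a
        apply MG.commute
        · exact hcq D g j a
        · rw [hqm]
          change (0 : M) - act _ (0 : M) = 0 - act _ (0 : M)
          rw [act_zero'', act_zero'']
      cc := by
        intro s
        apply MG.commute
        · exact hcc D s
        · change (0 : M) - act _ (0 : M) = 0 - act _ (0 : M)
          rw [act_zero'', act_zero'']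
      yc := by
        intro g j
        apply MG.commute
        · exact hyc D g j
        · change my g - act (hc D g j) (my g) = 0 - act _ (0 : M)
          rw [act_zero'', h1, sub_self, sub_zero]
      zc := by
        intro s j
        apply MG.commute
        · exact hzc D s j
        · change mz (D.rel s) - act (hc D (D.gen s) j) (mz (D.rel s)) = 0 - act _ (0 : M)
          rw [act_zero'', h2, sub_self, sub_zero]
      zy := by
        intro s
        have e1 : (qMG D M (D.x s) * ⟨my (D.gen s), hy D (D.gen s)⟩ * (qMG D M (D.x s))⁻¹).m =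
            act (hq D (D.x s)) (my (D.gen s)) := by
          rw [MG.mul_m, MG.mul_m, MG.inv_m, hqm, hqh, act_zero'', neg_zero, act_zero'', zero_add,
            add_zero]
        have e2 : (qMG D M (D.x s) * ⟨my (D.gen s), hy D (D.gen s)⟩ * (qMG D M (D.x s))⁻¹).h =
            hw D s := by
          rw [MG.mul_h, MG.mul_h, MG.inv_h, hqh]
          rfl
        apply MG.commute
        · rw [e2]
          exact hzw D s
        · rw [e1, e2]
          exact h3 s }
  have hF : (MG.pr (HH D) M).comp (lift D L) = MonoidHom.id (HH D) := by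
    apply hh_ext
    · intro a
      rw [MonoidHom.comp_apply, lift_hq]
      rfl
    · intro g j
      rw [MonoidHom.comp_apply, lift_hc]
      rfl
    · intro g
      rw [MonoidHom.comp_apply, lift_hy]
      rfl
    · intro r
      rw [MonoidHom.comp_apply, lift_hz]
      rfl
  have hF' : ∀ g, (lift D L g).h = g := fun g => DFunLike.congr_fun hF g
  refine ⟨fun h => (lift D L h).m, ?_, ?_, ?_, ?_, ?_⟩
  · intro g h
    change (lift D L (g * h)).m = (lift D L g).m + act g (lift D L h).m
    rw [map_mul, MG.mul_m, hF']
  · intro a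
    change (lift D L (hq D a)).m = 0
    rw [lift_hq]
    rfl
  · intro g j
    change (lift D L (hc D g j)).m = 0
    rw [lift_hc]
  · intro g
    change (lift D L (hy D g)).m = my g
    rw [lift_hy]
  · intro r
    change (lift D L (hz D r)).m = mz r
    rw [lift_hz]

end Pool.Agent.SFP
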