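import Pool.Agent.SFP.MG

/-!
# Module ExtB: the extension lemma

`MG H M` (file MG.lean) is the group of pairs `(m, h)`, `(m, h) (m', h') = (m + h m', h h')`.
Let `A = RG V adj`, `ι = RG.lift adj u hu : A →* H`; `ρ ∘ ι = id` by `RG.hom_ext`.  By `RG.lift` with values in `MG H M`
(`v ↦ (m v, u v)`; `hm` and `MG.commute` say that adjacent vertices commute) there is `δ : A → M` with
`δ (a a') = δ a + ι a δ a'`, `δ (of v) = m v` (the `h`-part of the homomorphism is `ι` by `RG.hom_ext`).  For `x ∈ X`: `x`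
commutes with `ι a` and `x δ a = δ a` for all `a ∈ A` (`RG.closure`: the set of `a` with both properties is a subgroup; note
`δ a⁻¹ = - (ι a)⁻¹ δ a`).
Put `Ψ h = (h (ι (ρ h))⁻¹) δ (ρ h)` for `h ∈ H`, extended additively to `ℤ[H]` (e.g. `Finsupp.liftAddHom` or
`MonoidAlgebra.liftNC`, or `Finsupp.sum`).  Then
`Ψ (h ι a) = h ι a (ι (ρ h) ι a)⁻¹ δ (ρ h a) = h ι (ρ h)⁻¹ (δ (ρ h) + ι (ρ h) δ a) = Ψ h + h δ a`, and
`Ψ (h x) = h x ι (ρ h)⁻¹ δ (ρ h) = h ι (ρ h)⁻¹ x δ (ρ h) = Ψ h`.  Both identities extend additively to `b ∈ ℤ[H]`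
(`MonoidAlgebra.induction_linear`).
-/

set_option linter.unusedSectionVars false

namespace Pool.Agent.SFP

open Pool.Agent.Hhelper49.Srr

/-- additive extension of a function on the group to the group ring -/
theorem eb_ext {H M : Type} [Group H] [AddCommGroup M] (ψ : H → M) :
    ∃ Ψ : ZG H →+ M, ∀ h, Ψ (of' h) = ψ h := by
  refine ⟨(Finsupp.liftAddHom (fun h => (zmultiplesHom M (ψ h) : ℤ →+ M))).comp
    (MonoidAlgebra.coeffAddEquiv (R := ℤ) (M := H)).toAddMonoidHom, fun h => ?_⟩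
  change Finsupp.liftAddHom (fun h => (zmultiplesHom M (ψ h) : ℤ →+ M))
    (Finsupp.single h (1 : ℤ)) = ψ h
  rw [Finsupp.liftAddHom_apply_single, zmultiplesHom_apply, one_smul]

/-- additive maps on the group ring which agree on the group elements are equal -/
theorem eb_hom_ext {H M : Type} [Group H] [AddCommGroup M] (f g : ZG H →+ M)
    (h : ∀ x, f (of' x) = g (of' x)) (b : ZG H) : f b = g b := by
  induction b using MonoidAlgebra.induction_linear with
  | zero => rw [map_zero, map_zero]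
  | add x y hx hy => rw [map_add, map_add, hx, hy]
  | single x r =>
    have h1 : (MonoidAlgebra.single x r : ZG H) = r • of' x := by simp [of']
    rw [h1, map_zsmul, map_zsmul, h]

/-- the extension lemma -/
theorem ext_lemma {H : Type} [Group H] {V : Type} (adj : V → V → Prop) (u : V → H)
    (hu : ∀ v w, adj v w → Commute (u v) (u w))
    (ρ : H →* RG V adj) (hρ : ∀ v, ρ (u v) = RG.of adj v)
    (M : Type) [AddCommGroup M] [Module (ZG H) M] (m : V → M)
    (hm : ∀ v w, adj v w → m v - act (u w) (m v) = m w - act (u v) (m w))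
    (X : Set H) (hX1 : ∀ x ∈ X, ρ x = 1) (hX2 : ∀ x ∈ X, ∀ v, Commute x (u v))
    (hX3 : ∀ x ∈ X, ∀ v, act x (m v) = m v) :
    ∃ Ψ : ZG H →+ M, (∀ b v, Ψ (b * of' (u v)) = Ψ b + b • m v) ∧
      (∀ b, ∀ x ∈ X, Ψ (b * of' x) = Ψ b) := by
  classical
  obtain ⟨ι, hι⟩ : ∃ ι : RG V adj →* H, ∀ v, ι (RG.of adj v) = u v :=
    ⟨RG.lift adj u hu, fun v => RG.lift_of adj u hu v⟩
  have hρι : ∀ a, ρ (ι a) = a := by
    have h1 : ρ.comp ι = MonoidHom.id _ :=
      RG.hom_ext adj _ _ (fun v => by rw [MonoidHom.comp_apply, hι, hρ]; rfl)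
    exact fun a => DFunLike.congr_fun h1 a
  obtain ⟨F, hF⟩ : ∃ F : RG V adj →* MG H M, ∀ v, F (RG.of adj v) = ⟨m v, u v⟩ :=
    ⟨RG.lift adj (fun v => (⟨m v, u v⟩ : MG H M)) (fun v w h => MG.commute _ _ (hu v w h) (hm v w h)),
      fun v => RG.lift_of adj _ _ v⟩
  have hFh : ∀ a, (F a).h = ι a := by
    have h1 : (MG.pr H M).comp F = ι :=
      RG.hom_ext adj _ _ (fun v => by rw [MonoidHom.comp_apply, hι, hF]; rfl)
    exact fun a => DFunLike.congr_fun h1 a
  have hδ : ∀ a b, (F (a * b)).m = (F a).m + act (ι a) (F b).m := by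
    intro a b
    rw [map_mul, MG.mul_m, hFh]
  have hX : ∀ x ∈ X, ∀ a, Commute x (ι a) ∧ act x (F a).m = (F a).m := by
    intro x hx a
    let S : Subgroup (RG V adj) :=
      { carrier := {a | Commute x (ι a) ∧ act x (F a).m = (F a).m}
        one_mem' := by
          refine ⟨?_, ?_⟩
          · rw [map_one]; exact Commute.one_right x
          · rw [map_one, MG.one_m, act, smul_zero]
        mul_mem' := by
          rintro a b ⟨ha1, ha2⟩ ⟨hb1, hb2⟩
          refine ⟨?_, ?_⟩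
          · rw [map_mul]; exact ha1.mul_right hb1
          · rw [hδ, act, smul_add]
            change act x (F a).m + act x (act (ι a) (F b).m) = _
            rw [ha2, ← act_mul, ha1.eq, act_mul, hb2]
        inv_mem' := by
          rintro a ⟨ha1, ha2⟩
          refine ⟨?_, ?_⟩
          · rw [map_inv]; exact ha1.inv_right
          · rw [map_inv, MG.inv_m, hFh, act, smul_neg]
            change -(act x (act (ι a)⁻¹ (F a).m)) = _
            rw [← act_mul, (ha1.inv_right).eq, act_mul, ha2] }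
    refine RG.closure adj S (fun v => ?_) a
    refine ⟨?_, ?_⟩
    · rw [hι]; exact hX2 x hx v
    · rw [hF]; exact hX3 x hx v
  obtain ⟨Ψ, hΨ⟩ := eb_ext (fun h : H => act (h * (ι (ρ h))⁻¹) (F (ρ h)).m)
  refine ⟨Ψ, fun b v => ?_, fun b x hx => ?_⟩
  · refine eb_hom_ext (Ψ.comp (AddMonoidHom.mulRight (of' (u v))))
      (Ψ + (AddMonoidHom.flip (smulAddHom (ZG H) M)) (m v)) (fun h => ?_) b
    change Ψ (of' h * of' (u v)) = Ψ (of' h) + of' h • m v
    rw [← map_mul, hΨ, hΨ, map_mul, hρ, map_mul, hι, hδ, hF]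
    have h1 : h * u v * (ι (ρ h) * u v)⁻¹ = h * (ι (ρ h))⁻¹ := by group
    rw [h1, act, smul_add]
    change act (h * (ι (ρ h))⁻¹) (F (ρ h)).m + act (h * (ι (ρ h))⁻¹) (act (ι (ρ h)) (m v)) =
      act (h * (ι (ρ h))⁻¹) (F (ρ h)).m + act h (m v)
    rw [← act_mul, inv_mul_cancel_right]
  · refine eb_hom_ext (Ψ.comp (AddMonoidHom.mulRight (of' x))) Ψ (fun h => ?_) b
    change Ψ (of' h * of' x) = Ψ (of' h)
    rw [← map_mul, hΨ, hΨ, map_mul, hX1 x hx, mul_one]
    obtain ⟨h1, h2⟩ := hX x hx (ρ h)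
    have h3 : h * x * (ι (ρ h))⁻¹ = h * (ι (ρ h))⁻¹ * x := by
      rw [mul_assoc, (h1.inv_right).eq, ← mul_assoc]
    rw [h3, act_mul, h2]

end Pool.Agent.SFP
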