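import Pool.Agent.SFP.Defs

/-!
# Module FPres2: `HH D` is finitely presented if `Q` is

Let `X` be a finite generating set of `Q`, `L = (Gm × Bool) ⊕ (Gm ⊕ Rl)` (finite), `F = FreeGroup L`, and
`f : Monoid.Coprod Q F →* HH D`, `inl a ↦ hq D a`, the generators of `F` to `hc`, `hy`, `hz`.  It is surjective (`hh_closure`).  Let `N` be the
normal closure of the finite set consisting of the commutators `[c g j, x]` (`x ∈ X`), `[c (gen s) (!sg s), c (gen (nx s)) (sg (nx s))]`,
`[y g, c g j]`, `[z (rel s), c (gen s) j]`, `[z (rel s), x_s y (gen s) x_s⁻¹]` (in `Coprod Q F`).  `N ≤ f.ker`: `hcq`, `hcc`, `hyc`, `hzc`, `hzw`.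
Conversely in `Δ = Coprod Q F ⧸ N` the image of `c g j` commutes with the images of all `a ∈ Q` (a centralizer is a subgroup and contains
`X`), so the images of the generators satisfy the conditions of `Lift D Δ` and `lift D` gives `HH D →* Δ`; the composition
`Δ → HH D → Δ` is the identity (check on generators), so `f.ker ≤ N`.  Hence `f.ker = N` is the normal closure of a finite set and
`Group.IsFinitelyPresented.of_surjective` applies (`Monoid.Coprod Q F` is finitely presented by the Mathlib instances).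
-/

set_option linter.unusedSectionVars false

namespace Pool.Agent.SFP

open scoped commutatorElement

namespace FP2

variable {Q Gm Rl Sl : Type} [Group Q]

/-- letters of the free factor -/
abbrev Lt (Gm Rl : Type) : Type := (Gm × Bool) ⊕ (Gm ⊕ Rl)

/-- the free product -/
abbrev Cp (Q Gm Rl : Type) [Group Q] : Type := Monoid.Coprod Q (FreeGroup (Lt Gm Rl))

/-- the elements of `Q` -/
def eq (a : Q) : Cp Q Gm Rl := Monoid.Coprod.inl a

/-- the labels -/
def ec (g : Gm) (j : Bool) : Cp Q Gm Rl := Monoid.Coprod.inr (FreeGroup.of (Sum.inl (g, j)))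

/-- the module generators -/
def ey (g : Gm) : Cp Q Gm Rl := Monoid.Coprod.inr (FreeGroup.of (Sum.inr (Sum.inl g)))

/-- the relation generators -/
def ez (r : Rl) : Cp Q Gm Rl := Monoid.Coprod.inr (FreeGroup.of (Sum.inr (Sum.inr r)))

variable (D : Dat Q Gm Rl Sl)

/-- the finite set of relators -/
def RS (X : Set Q) : Set (Cp Q Gm Rl) :=
  ((fun p : (Gm × Bool) × Q => (⁅(ec p.1.1 p.1.2 : Cp Q Gm Rl), eq p.2⁆)) '' (Set.univ ×ˢ X)) ∪
  (Set.range (fun s : Sl => (⁅(ec (D.gen s) (!D.sg s) : Cp Q Gm Rl),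
    ec (D.gen (D.nx s)) (D.sg (D.nx s))⁆)) ∪
  (Set.range (fun p : Gm × Bool => (⁅(ey p.1 : Cp Q Gm Rl), ec p.1 p.2⁆)) ∪
  (Set.range (fun p : Sl × Bool => (⁅(ez (D.rel p.1) : Cp Q Gm Rl), ec (D.gen p.1) p.2⁆)) ∪
  Set.range (fun s : Sl => (⁅(ez (D.rel s) : Cp Q Gm Rl),
    eq (D.x s) * ey (D.gen s) * (eq (D.x s))⁻¹⁆)))))

theorem RS_finite [Finite Gm] [Finite Rl] [Finite Sl] {X : Set Q} (hX : X.Finite) :
    (RS D X).Finite := by
  unfold RS
  refine ((Set.finite_univ.prod hX).image _).union ((Set.finite_range _).union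
    ((Set.finite_range _).union ((Set.finite_range _).union (Set.finite_range _))))

/-- the map of the free product to `HH D` -/
def toHH : Cp Q Gm Rl →* HH D :=
  Monoid.Coprod.lift (hq D) (FreeGroup.lift (fun l : Lt Gm Rl => match l with
    | Sum.inl p => hc D p.1 p.2
    | Sum.inr (Sum.inl g) => hy D g
    | Sum.inr (Sum.inr r) => hz D r))

@[simp] theorem toHH_eq (a : Q) : toHH D (eq a) = hq D a := by
  unfold toHH eq
  rw [Monoid.Coprod.lift_apply_inl]

@[simp] theorem toHH_ec (g : Gm) (j : Bool) : toHH D (ec g j) = hc D g j := by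
  unfold toHH ec
  rw [Monoid.Coprod.lift_apply_inr, FreeGroup.lift_apply_of]

@[simp] theorem toHH_ey (g : Gm) : toHH D (ey g) = hy D g := by
  unfold toHH ey
  rw [Monoid.Coprod.lift_apply_inr, FreeGroup.lift_apply_of]

@[simp] theorem toHH_ez (r : Rl) : toHH D (ez r) = hz D r := by
  unfold toHH ez
  rw [Monoid.Coprod.lift_apply_inr, FreeGroup.lift_apply_of]

theorem RS_ker (X : Set Q) : Subgroup.normalClosure (RS D X) ≤ (toHH D).ker := by
  refine Subgroup.normalClosure_le_normal ?_
  rintro r hr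
  change toHH D r = 1
  rcases hr with ⟨p, -, rfl⟩ | ⟨s, rfl⟩ | ⟨p, rfl⟩ | ⟨p, rfl⟩ | ⟨s, rfl⟩
  · simp only [map_commutatorElement, toHH_ec, toHH_eq, commutatorElement_eq_one_iff_commute]
    exact hcq D _ _ _
  · simp only [map_commutatorElement, toHH_ec, commutatorElement_eq_one_iff_commute]
    exact hcc D s
  · simp only [map_commutatorElement, toHH_ec, toHH_ey, commutatorElement_eq_one_iff_commute]
    exact hyc D _ _
  · simp only [map_commutatorElement, toHH_ec, toHH_ez, commutatorElement_eq_one_iff_commute]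
    exact hzc D _ _
  · simp only [map_commutatorElement, map_mul, map_inv, toHH_ey, toHH_eq, toHH_ez,
      commutatorElement_eq_one_iff_commute]
    exact hzw D s

/-- the finitely presented group -/
abbrev De (X : Set Q) : Type := Cp Q Gm Rl ⧸ Subgroup.normalClosure (RS D X)

/-- the projection -/
def pr (X : Set Q) : Cp Q Gm Rl →* De D X := QuotientGroup.mk' _

theorem pr_comm {X : Set Q} {a b : Cp Q Gm Rl} (h : ⁅a, b⁆ ∈ RS D X) :
    Commute (pr D X a) (pr D X b) := by
  have h1 : pr D X ⁅a, b⁆ = 1 := (QuotientGroup.eq_one_iff _).2 (Subgroup.subset_normalClosure h)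
  rw [map_commutatorElement] at h1
  exact commutatorElement_eq_one_iff_commute.1 h1

/-- the data of the inverse -/
def LD {X : Set Q} (hX : Subgroup.closure X = ⊤) : Lift D (De D X) where
  q := (pr D X).comp Monoid.Coprod.inl
  c := fun g j => pr D X (ec g j)
  y := fun g => pr D X (ey g)
  z := fun r => pr D X (ez r)
  cq := by
    intro g j a
    have h1 : Subgroup.closure X ≤
        (Subgroup.centralizer {pr D X (ec g j)}).comap ((pr D X).comp Monoid.Coprod.inl) := by
      rw [Subgroup.closure_le]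
      intro x hx
      change (pr D X).comp Monoid.Coprod.inl x ∈ Subgroup.centralizer {pr D X (ec g j)}
      rw [Subgroup.mem_centralizer_iff]
      rintro _ rfl
      exact (pr_comm D (a := ec g j) (b := eq x) (Or.inl ⟨((g, j), x), ⟨Set.mem_univ _, hx⟩, rfl⟩))
    have h2 : a ∈ Subgroup.closure X := by rw [hX]; exact Subgroup.mem_top a
    have h3 := h1 h2
    change (pr D X).comp Monoid.Coprod.inl a ∈ Subgroup.centralizer {pr D X (ec g j)} at h3
    rw [Subgroup.mem_centralizer_iff] at h3
    exact h3 _ rfl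
  cc := fun s => pr_comm D (Or.inr (Or.inl ⟨s, rfl⟩))
  yc := fun g j => pr_comm D (Or.inr (Or.inr (Or.inl ⟨(g, j), rfl⟩)))
  zc := fun s j => pr_comm D (Or.inr (Or.inr (Or.inr (Or.inl ⟨(s, j), rfl⟩))))
  zy := by
    intro s
    have h := pr_comm D (X := X) (a := ez (D.rel s)) (b := eq (D.x s) * ey (D.gen s) * (eq (D.x s))⁻¹)
      (Or.inr (Or.inr (Or.inr (Or.inr ⟨s, rfl⟩))))
    rw [map_mul, map_mul, map_inv] at h
    exact h

/-- the map of the finitely presented group to `HH D` -/
def fw (X : Set Q) : De D X →* HH D :=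
  QuotientGroup.lift _ (toHH D) (fun _ hx => RS_ker D X hx)

theorem fw_pr (X : Set Q) (a : Cp Q Gm Rl) : fw D X (pr D X a) = toHH D a := rfl

theorem fw_lift {X : Set Q} (hX : Subgroup.closure X = ⊤) :
    (fw D X).comp (lift D (LD D hX)) = MonoidHom.id _ := by
  refine hh_ext D _ _ ?_ ?_ ?_ ?_
  · intro a
    change fw D X (lift D (LD D hX) (hq D a)) = hq D a
    rw [lift_hq]
    exact toHH_eq D a
  · intro g j
    change fw D X (lift D (LD D hX) (hc D g j)) = hc D g j
    rw [lift_hc]
    exact toHH_ec D g j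
  · intro g
    change fw D X (lift D (LD D hX) (hy D g)) = hy D g
    rw [lift_hy]
    exact toHH_ey D g
  · intro r
    change fw D X (lift D (LD D hX) (hz D r)) = hz D r
    rw [lift_hz]
    exact toHH_ez D r

theorem lift_fw {X : Set Q} (hX : Subgroup.closure X = ⊤) :
    (lift D (LD D hX)).comp (fw D X) = MonoidHom.id _ := by
  have h : ((lift D (LD D hX)).comp (toHH D)) = pr D X := by
    refine Monoid.Coprod.hom_ext ?_ ?_
    · ext a
      change lift D (LD D hX) (toHH D (eq a)) = pr D X (eq a)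
      rw [toHH_eq, lift_hq]
      rfl
    · ext l
      rcases l with ⟨g, j⟩ | g | r
      · change lift D (LD D hX) (toHH D (ec g j)) = pr D X (ec g j)
        rw [toHH_ec, lift_hc]
        rfl
      · change lift D (LD D hX) (toHH D (ey g)) = pr D X (ey g)
        rw [toHH_ey, lift_hy]
        rfl
      · change lift D (LD D hX) (toHH D (ez r)) = pr D X (ez r)
        rw [toHH_ez, lift_hz]
        rfl
  refine QuotientGroup.monoidHom_ext _ ?_
  exact h

end FP2

theorem hh_fpres {Q Gm Rl Sl : Type} [Group Q] [Finite Gm] [Finite Rl] [Finite Sl]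
    (D : Dat Q Gm Rl Sl) [Group.IsFinitelyPresented Q] : Group.IsFinitelyPresented (HH D) := by
  obtain ⟨n, φ, hφ, -⟩ := Group.IsFinitelyPresented.out (G := Q)
  have hX : Subgroup.closure (Set.range (fun i => φ (FreeGroup.of i))) = ⊤ := by
    have h1 : Set.range (fun i => φ (FreeGroup.of i)) = φ '' Set.range FreeGroup.of := by
      rw [← Set.range_comp]
      rfl
    rw [h1, ← MonoidHom.map_closure, FreeGroup.closure_range_of, ← MonoidHom.range_eq_map]
    exact MonoidHom.range_eq_top.2 hφ
  have hfin := FP2.RS_finite D (Set.finite_range (fun i => φ (FreeGroup.of i)))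
  have h2 : Group.IsFinitelyPresented
      (FP2.De D (Set.range (fun i => φ (FreeGroup.of i)))) :=
    Group.IsFinitelyPresented.quotient _ ⟨_, hfin, rfl⟩
  exact Group.IsFinitelyPresented.equiv
    (MonoidHom.toMulEquiv (FP2.fw D _) (lift D (FP2.LD D hX)) (FP2.lift_fw D hX) (FP2.fw_lift D hX))

end Pool.Agent.SFP
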