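import Pool.Agent.SFP.Fib

/-!
# Module FPres3: the fibre product is finitely presented

`F2` has generators `x_0`, `x_1`; `f : Monoid.Coprod H H →* Fib χ`, `inl h ↦ (h, x_0^(χ h))`, `inr h ↦ (h, x_1^(χ h))`.  Let `R = χ.ker`, `Y` a finite
generating set of `R`, `N` the normal closure in `Coprod H H` of the finite set of the `inl y * (inr y)⁻¹`, `y ∈ Y`.
(1) `N ≤ f.ker` (`χ y = 1`).
(2) In `Δ = Coprod H H ⧸ N`: `[inl r] = [inr r]` for all `r ∈ R` (the set of such `r` is a subgroup containing `Y`).  Let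
`θ : F2 →* Δ`, `x_0 ↦ [inl t]`, `x_1 ↦ [inr t]`.  Claim: for every `w ∈ Coprod H H` there is `r ∈ R` with
`[w] = [inl r] * θ (second component of f w)`.  For `w = inl h`: `h = r t^k`, `k = χ h`; for `w = inr h` the same with
`[inr r] = [inl r]`.  The set of the `w` with this property is closed under products, because `θ x [inl r] (θ x)⁻¹ ∈ [inl R]` for all
`x ∈ F2`, `r ∈ R` (for `x = x_0`, `x_1` and their inverses: `t r t⁻¹ ∈ R`; then for all `x` by `FreeGroup.induction_on`); use
`Monoid.Coprod.induction_on`.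
(3) `f.ker ≤ N`: if `f w = 1` then `[w] = [inl r] = ` with `f w = (r, 1)`, so `r = 1` and `[w] = 1`.
(4) `f` is surjective: let `(h, x) ∈ Fib χ`.  The projection of the range of `f` to `F2` is everything (`inl t ↦ x_0`, `inr t ↦ x_1`), so there
is `w` with `f w = (h', x)`, `χ h' = χ h`, and `(h, x) = (h h'⁻¹, 1) f w`, `(h h'⁻¹, 1) = f (inl (h h'⁻¹))`.
So `Group.IsFinitelyPresented.of_surjective` applies (the coproduct is finitely presented by a Mathlib instance).
-/

set_option linter.unusedSectionVars false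

namespace Pool.Agent.SFP

section
variable {H : Type} [Group H] (χ : H →* Multiplicative ℤ)

/-- the homomorphism `h ↦ (h, x_i ^ χ h)` -/
def gFib (i : Fin 2) : H →* Fib χ :=
  ((MonoidHom.id H).prod ((zpowersHom F2 (FreeGroup.of i)).comp χ)).codRestrict (Fib χ) (by
    intro h
    rw [mem_fib]
    change χ h = chi2 (FreeGroup.of i ^ Multiplicative.toAdd (χ h))
    rw [chi2_zpow]
    rfl)

theorem gFib_fst (i : Fin 2) (h : H) : (gFib χ i h).1.1 = h := rfl

theorem gFib_snd (i : Fin 2) (h : H) :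
    (gFib χ i h).1.2 = FreeGroup.of i ^ Multiplicative.toAdd (χ h) := rfl

theorem gFib_ker (i : Fin 2) (h : H) (hh : χ h = 1) : (gFib χ i h).1 = (h, 1) := by
  apply Prod.ext
  · rfl
  · rw [gFib_snd, hh, toAdd_one, zpow_zero]

/-- the homomorphism of the header -/
def fFib : Monoid.Coprod H H →* Fib χ := Monoid.Coprod.lift (gFib χ 0) (gFib χ 1)

theorem fFib_inl (h : H) : fFib χ (Monoid.Coprod.inl h) = gFib χ 0 h := by simp [fFib]

theorem fFib_inr (h : H) : fFib χ (Monoid.Coprod.inr h) = gFib χ 1 h := by simp [fFib]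

/-- the second component of `fFib` -/
def sFib : Monoid.Coprod H H →* F2 :=
  ((MonoidHom.snd H F2).comp (Fib χ).subtype).comp (fFib χ)

theorem sFib_apply (w : Monoid.Coprod H H) : sFib χ w = (fFib χ w).1.2 := rfl

theorem fFib_surj (t : H) (ht : χ t = Multiplicative.ofAdd 1) :
    Function.Surjective (fFib χ) := by
  intro z
  let σ : F2 →* Monoid.Coprod H H :=
    FreeGroup.lift ![Monoid.Coprod.inl t, Monoid.Coprod.inr t]
  have h0 : (sFib χ).comp σ = MonoidHom.id F2 := by
    apply FreeGroup.ext_hom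
    intro i
    rw [MonoidHom.comp_apply, MonoidHom.id_apply]
    fin_cases i
    · change sFib χ (σ (FreeGroup.of 0)) = FreeGroup.of 0
      have : σ (FreeGroup.of 0) = Monoid.Coprod.inl t := by simp [σ]
      rw [this, sFib_apply, fFib_inl, gFib_snd, ht, toAdd_ofAdd, zpow_one]
    · change sFib χ (σ (FreeGroup.of 1)) = FreeGroup.of 1
      have : σ (FreeGroup.of 1) = Monoid.Coprod.inr t := by simp [σ]
      rw [this, sFib_apply, fFib_inr, gFib_snd, ht, toAdd_ofAdd, zpow_one]
  have h1 : sFib χ (σ z.1.2) = z.1.2 := DFunLike.congr_fun h0 z.1.2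
  set w := σ z.1.2 with hw
  have h2 : χ (fFib χ w).1.1 = χ z.1.1 := by
    rw [(mem_fib χ _).1 (fFib χ w).2, (mem_fib χ _).1 z.2, ← sFib_apply, h1]
  refine ⟨Monoid.Coprod.inl (z.1.1 * ((fFib χ w).1.1)⁻¹) * w, ?_⟩
  apply Subtype.ext
  rw [map_mul, fFib_inl]
  change (gFib χ 0 (z.1.1 * ((fFib χ w).1.1)⁻¹)).1 * (fFib χ w).1 = z.1
  rw [gFib_ker χ 0 _ (by rw [map_mul, map_inv, h2, mul_inv_cancel])]
  apply Prod.ext
  · change z.1.1 * ((fFib χ w).1.1)⁻¹ * (fFib χ w).1.1 = z.1.1
    rw [inv_mul_cancel_right]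
  · change 1 * (fFib χ w).1.2 = z.1.2
    rw [one_mul, ← sFib_apply, h1]

theorem fFib_ker (t : H) (ht : χ t = Multiplicative.ofAdd 1) (S : Set H)
    (hS : Subgroup.closure S = χ.ker) :
    Subgroup.normalClosure ((fun y : H => (Monoid.Coprod.inl y * (Monoid.Coprod.inr y)⁻¹ :
      Monoid.Coprod H H)) '' S) = (fFib χ).ker := by
  set N := Subgroup.normalClosure ((fun y : H => (Monoid.Coprod.inl y * (Monoid.Coprod.inr y)⁻¹ :
      Monoid.Coprod H H)) '' S) with hN
  have hSker : ∀ y ∈ S, χ y = 1 := by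
    intro y hy
    have : y ∈ χ.ker := by
      rw [← hS]
      exact Subgroup.subset_closure hy
    exact this
  have hle : N ≤ (fFib χ).ker := by
    apply Subgroup.normalClosure_le_normal
    rintro _ ⟨y, hy, rfl⟩
    change _ ∈ (fFib χ).ker
    rw [MonoidHom.mem_ker, map_mul, map_inv, fFib_inl, fFib_inr]
    have : gFib χ 0 y = gFib χ 1 y := by
      apply Subtype.ext
      rw [gFib_ker χ 0 y (hSker y hy), gFib_ker χ 1 y (hSker y hy)]
    rw [this, mul_inv_cancel]
  apply le_antisymm hle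
  haveI : N.Normal := Subgroup.normalClosure_normal
  let mk : Monoid.Coprod H H →* Monoid.Coprod H H ⧸ N := QuotientGroup.mk' N
  let A : H →* Monoid.Coprod H H ⧸ N := mk.comp Monoid.Coprod.inl
  let B : H →* Monoid.Coprod H H ⧸ N := mk.comp Monoid.Coprod.inr
  have hmk : ∀ w, mk w = 1 ↔ w ∈ N := fun w => QuotientGroup.eq_one_iff w
  have hAB : ∀ r ∈ χ.ker, A r = B r := by
    have h1 : χ.ker ≤ A.eqLocus B := by
      rw [← hS, Subgroup.closure_le]
      intro y hy
      change mk (Monoid.Coprod.inl y) = mk (Monoid.Coprod.inr y)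
      rw [← mul_inv_eq_one, ← map_inv, ← map_mul, hmk]
      exact Subgroup.subset_normalClosure ⟨y, hy, rfl⟩
    exact fun r hr => h1 hr
  let K : Subgroup (Monoid.Coprod H H ⧸ N) := χ.ker.map A
  have hKn : ∀ w : Monoid.Coprod H H, ∀ n ∈ K, mk w * n * (mk w)⁻¹ ∈ K := by
    intro w
    induction w using Monoid.Coprod.induction_on with
    | inl h =>
      rintro _ ⟨r, hr, rfl⟩
      refine ⟨h * r * h⁻¹, χ.normal_ker.conj_mem r hr h, ?_⟩
      rw [map_mul, map_mul, map_inv]
      rfl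
    | inr h =>
      rintro _ ⟨r, hr, rfl⟩
      refine ⟨h * r * h⁻¹, χ.normal_ker.conj_mem r hr h, ?_⟩
      rw [hAB _ (χ.normal_ker.conj_mem r hr h), hAB r hr, map_mul, map_mul, map_inv]
      rfl
    | mul x y hx hy =>
      intro n hn
      have := hx _ (hy n hn)
      rw [map_mul, mul_inv_rev]
      simpa only [mul_assoc] using this
  haveI hK : K.Normal := by
    constructor
    intro n hn g
    obtain ⟨w, rfl⟩ := QuotientGroup.mk'_surjective N g
    exact hKn w n hn
  let θ : F2 →* Monoid.Coprod H H ⧸ N := FreeGroup.lift ![A t, B t]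
  have hθ0 : θ (FreeGroup.of 0) = A t := by simp [θ]
  have hθ1 : θ (FreeGroup.of 1) = B t := by simp [θ]
  have hkt : ∀ h : H, (t ^ Multiplicative.toAdd (χ h))⁻¹ * h ∈ χ.ker := by
    intro h
    rw [MonoidHom.mem_ker, map_mul, map_inv, map_zpow, ht, ← ofAdd_zsmul, smul_eq_mul, mul_one,
      ofAdd_toAdd, inv_mul_cancel]
  have hhom : (QuotientGroup.mk' K).comp mk = ((QuotientGroup.mk' K).comp θ).comp (sFib χ) := by
    apply Monoid.Coprod.hom_ext
    · ext h
      change (QuotientGroup.mk' K) (A h) = (QuotientGroup.mk' K) (θ (sFib χ (Monoid.Coprod.inl h)))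
      rw [sFib_apply, fFib_inl, gFib_snd, map_zpow, hθ0, ← map_zpow A]
      refine ((QuotientGroup.eq).2 ?_).symm
      rw [← map_inv, ← map_mul]
      exact ⟨_, hkt h, rfl⟩
    · ext h
      change (QuotientGroup.mk' K) (B h) = (QuotientGroup.mk' K) (θ (sFib χ (Monoid.Coprod.inr h)))
      rw [sFib_apply, fFib_inr, gFib_snd, map_zpow, hθ1, ← map_zpow B]
      refine ((QuotientGroup.eq).2 ?_).symm
      rw [← map_inv, ← map_mul]
      exact ⟨_, hkt h, hAB _ (hkt h)⟩
  intro w hw
  rw [MonoidHom.mem_ker] at hw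
  have h1 : (QuotientGroup.mk' K) (mk w) = 1 := by
    have := DFunLike.congr_fun hhom w
    rw [MonoidHom.comp_apply, MonoidHom.comp_apply, MonoidHom.comp_apply, sFib_apply, hw] at this
    rw [this]
    change (QuotientGroup.mk' K) (θ 1) = 1
    rw [map_one, map_one]
  have h2 : mk w ∈ K := (QuotientGroup.eq_one_iff _).1 h1
  obtain ⟨r, hr, hrw⟩ := h2
  have h3 : (Monoid.Coprod.inl r)⁻¹ * w ∈ N := by
    rw [← hmk, map_mul, map_inv, ← hrw]
    exact inv_mul_cancel _
  have h4 := hle h3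
  rw [MonoidHom.mem_ker, map_mul, map_inv, hw, mul_one, fFib_inl] at h4
  have h5 : gFib χ 0 r = 1 := inv_eq_one.1 h4
  have h6 : r = 1 := congrArg (fun z : Fib χ => z.1.1) h5
  rw [← hmk, ← hrw, h6, map_one]

end

theorem fib_fpres {H : Type} [Group H] [Group.IsFinitelyPresented H] (χ : H →* Multiplicative ℤ)
    (t : H) (ht : χ t = Multiplicative.ofAdd 1) (hR : Group.FG χ.ker) :
    Group.IsFinitelyPresented (Fib χ) := by
  obtain ⟨S, hS⟩ := (Group.fg_iff_subgroup_fg _).1 hR
  refine Group.IsFinitelyPresented.of_surjective (fFib χ) (fFib_surj χ t ht)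
    ⟨_, S.finite_toSet.image _, fFib_ker χ t ht S hS⟩

end Pool.Agent.SFP
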