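import Pool.Agent.SFP.Fin1
import Pool.Agent.Hhelper49.Srf.Prod

/-!
# Fib: the fibre product of a character with the free group of rank 2, and a Mackey lemma

`Fib χ = {(h, f) ∈ H × F₂ | χ h = χ₂ f}`, `χ₂ : F₂ → ℤ` takes both generators to `1`; `prH : Fib χ →* H` is the (surjective)
projection.
-/

set_option linter.unusedSectionVars false

namespace Pool.Agent.SFP

open Pool.Agent.Hhelper49.Srr Pool.Agent.Hhelper49.Srf

/-- the free group of rank 2 -/
abbrev F2 : Type := FreeGroup (Fin 2)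

/-- the character of `F₂` -/
def chi2 : F2 →* Multiplicative ℤ := FreeGroup.lift (fun _ => Multiplicative.ofAdd 1)

theorem chi2_of (i : Fin 2) : chi2 (FreeGroup.of i) = Multiplicative.ofAdd 1 := FreeGroup.lift_apply_of

theorem chi2_zpow (i : Fin 2) (k : ℤ) : chi2 (FreeGroup.of i ^ k) = Multiplicative.ofAdd k := by
  rw [map_zpow, chi2_of, ← ofAdd_zsmul, smul_eq_mul, mul_one]

section
variable {H : Type} [Group H] (χ : H →* Multiplicative ℤ)

/-- the fibre product -/
def Fib : Subgroup (H × F2) :=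
  (χ.comp (MonoidHom.fst H F2)).eqLocus (chi2.comp (MonoidHom.snd H F2))

theorem mem_fib (x : H × F2) : x ∈ Fib χ ↔ χ x.1 = chi2 x.2 := Iff.rfl

/-- the projection to `H` -/
def prH : Fib χ →* H := (MonoidHom.fst H F2).comp (Fib χ).subtype

theorem prH_apply (x : Fib χ) : prH χ x = x.1.1 := rfl

theorem prH_surj : Function.Surjective (prH χ) := by
  intro h
  refine ⟨⟨(h, FreeGroup.of 0 ^ (Multiplicative.toAdd (χ h))), ?_⟩, rfl⟩
  rw [mem_fib, chi2_zpow]
  rfl

end

/-- restriction of an induced module (one double coset) -/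
theorem ind_mackey {Q H Γ Q' M N : Type} [Group Q] [Group H] [Group Γ] [Group Q'] [AddCommGroup M]
    [Module (MonoidAlgebra ℤ Q) M] [AddCommGroup N] [Module (MonoidAlgebra ℤ H) N]
    (q : Q →* H) (pr : Γ →* H) (κ : Q' →* Γ) (p : Q' →* Q) (hc : ∀ x, pr (κ x) = q (p x))
    (hs : ∀ h : H, ∃ (g : Γ) (a : Q), h = pr g * q a) (hp : ∀ g, pr g ∈ q.range → g ∈ κ.range)
    (h : Induced q M N) : Induced κ (Pull p M) (Pull pr N) := by
  obtain ⟨i, π, h1, h2, h3, h4⟩ := h
  let i' : Pull p M →+ Pull pr N := i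
  let π' : Pull pr N →+ Pull p M := π
  have hi : ∀ (g : Γ) (m : Pull p M), act g (i' m) = Pull.mk pr (act (pr g) (i m.un)) := fun g m =>
    Pull.act_apply (κ := pr) g (i' m)
  have hm : ∀ (x : Q') (m : Pull p M), act x m = Pull.mk p (act (p x) m.un) := fun x m =>
    Pull.act_apply (κ := p) x m
  refine ⟨i', π', ?_, ?_, ?_, ?_⟩
  · intro x m
    rw [hi, hm, hc]
    exact h1 (p x) m.un
  · intro n
    have h5 := h2 n.un
    have h6 : AddSubgroup.closure {x : N | ∃ (g : H) (m : M), x = act g (i m)} ≤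
        (AddSubgroup.closure {x : Pull pr N | ∃ (g : Γ) (m : Pull p M), x = act g (i' m)} :
          AddSubgroup N) := by
      rw [AddSubgroup.closure_le]
      rintro _ ⟨g, m, rfl⟩
      obtain ⟨g', a, rfl⟩ := hs g
      apply AddSubgroup.subset_closure
      refine ⟨g', Pull.mk p (act a m), ?_⟩
      rw [hi]
      change act (pr g' * q a) (i m) = act (pr g') (i (act a m))
      rw [act_mul, h1]
    exact h6 h5
  · intro x m
    rw [hi, hm, hc]
    exact h3 (p x) m.un
  · intro g m hg
    rw [hi]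
    exact h4 (pr g) m.un (fun hcon => hg (hp g hcon))

end Pool.Agent.SFP
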