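import Pool.Agent.SFP.Fib

/-!
# Module PermInd: permutation modules are induced

(1) `perm_ind`: `N = ℤ[H] ⧸ J`, `J` the left ideal generated by the `1 - q a`, `a ∈ Q`.  `i : Triv Q →+ N`, `n ↦ n • [1]`; `π : N →+ Triv Q`
is induced by the additive map `ℤ[H] →+ ℤ`, `h ↦ 1` if `h ∈ q.range`, `0` otherwise (invariant under `h ↦ h q a`, hence it vanishes
on `J`, whose elements are sums of `b (1 - q a)`).  `equi`: `act (q a) [1] = [q a] = [1]`.  `span`: `N` is additively generated by
the `[h] = act h [1]`.  `proj`, `projz`: clear.  (Compare `base_ind` in SFP/BaseQ.lean.)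
(2) `cyc_ind`: `q = zpowersHom H u : Multiplicative ℤ →* H`: the left ideal generated by the `1 - u ^ k`, `k ∈ ℤ` is generated by
`1 - u` (`1 - u^(k+1) = (1 - u) + (1 - u^k) u = u^k (1 - u) + (1 - u^k)`, `1 - u⁻¹ = - u⁻¹ (1 - u)`, `Int.induction_on`).
-/

set_option linter.unusedSectionVars false

namespace Pool.Agent.SFP

open Pool.Agent.Hhelper49.Srr Pool.Agent.Hhelper49.Srf

namespace PermIndAux

theorem pi_single (b : ℤ) {H : Type} [Group H] (h : H) :
    (MonoidAlgebra.single h b : ZG H) = b • of' h := by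
  simp

/-- the indicator function of a subgroup, extended linearly -/
noncomputable def piE {H : Type} [Group H] (K : Subgroup H) : ZG H →+ ℤ := by
  classical
  exact MonoidAlgebra.liftNC (AddMonoidHom.id ℤ) (fun h => if h ∈ K then (1 : ℤ) else 0)

theorem piE_of {H : Type} [Group H] (K : Subgroup H) [DecidablePred (· ∈ K)] (h : H) :
    piE K (of' h) = if h ∈ K then 1 else 0 := by
  classical
  unfold piE
  rw [of', MonoidAlgebra.of_apply, MonoidAlgebra.liftNC_single]
  simp

theorem piE_mul {H : Type} [Group H] (K : Subgroup H) {k : H} (hk : k ∈ K) (b : ZG H) :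
    piE K (b * of' k) = piE K b := by
  classical
  induction b using MonoidAlgebra.induction_linear with
  | zero => rw [zero_mul]
  | add x y hx hy => rw [add_mul, map_add, hx, hy, map_add]
  | single h n =>
    rw [pi_single, smul_mul_assoc, map_zsmul, map_zsmul, ← map_mul]
    congr 1
    rw [piE_of, piE_of]
    congr 1
    rw [Subgroup.mul_mem_cancel_right K hk]

end PermIndAux

open PermIndAux

theorem perm_ind {Q H : Type} [Group Q] [Group H] (q : Q →* H) (J : Submodule (ZG H) (ZG H))
    (hJ : J = Submodule.span (ZG H) {b | ∃ a, b = 1 - of' (q a)}) :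
    Induced q (Triv Q) (ZG H ⧸ J) := by
  classical
  have hmem : ∀ (b : ZG H) a, b * (1 - of' (q a)) ∈ J := by
    intro b a
    rw [hJ]
    exact Submodule.smul_mem _ b (Submodule.subset_span ⟨a, rfl⟩)
  have hker : ∀ x ∈ J, piE q.range x = 0 := by
    intro x hx
    have key : ∀ b : ZG H, piE q.range (b * x) = 0 := by
      rw [hJ] at hx
      induction hx using Submodule.span_induction with
      | mem x hx =>
        obtain ⟨a, rfl⟩ := hx
        intro b
        rw [mul_sub, mul_one, map_sub, piE_mul q.range ⟨a, rfl⟩ b, sub_self]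
      | zero =>
        intro b
        rw [mul_zero, map_zero]
      | add x y _ _ hx hy =>
        intro b
        rw [mul_add, map_add, hx, hy, add_zero]
      | smul c x _ hx =>
        intro b
        rw [smul_eq_mul, ← mul_assoc]
        exact hx (b * c)
    have h1 := key 1
    rwa [one_mul] at h1
  -- the projection
  obtain ⟨π0, hπ0⟩ : ∃ π0 : (ZG H ⧸ J) →+ ℤ, ∀ b, π0 (J.mkQ b) = piE q.range b := by
    refine ⟨QuotientAddGroup.lift J.toAddSubgroup (piE q.range) (fun x hx => hker x hx), ?_⟩
    intro b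
    rfl
  let i : Triv Q →+ (ZG H ⧸ J) :=
    (zmultiplesHom (ZG H ⧸ J) (J.mkQ 1) : ℤ →+ ZG H ⧸ J)
  let π : (ZG H ⧸ J) →+ Triv Q := π0
  have hi : ∀ m : Triv Q, i m = (show ℤ from m) • J.mkQ 1 := fun m => rfl
  have hact : ∀ (r : H) (m : Triv Q), act r (i m) = (show ℤ from m) • J.mkQ (of' r) := by
    intro r m
    rw [hi, act, smul_comm]
    congr 1
    change J.mkQ (of' (r : H) * 1) = _
    rw [mul_one]
  have hq : ∀ (u : H) a, J.mkQ (of' (u * q a)) = J.mkQ (of' u) := by
    intro u a
    have h1 := hmem (of' u) a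
    rw [mul_sub, mul_one, ← map_mul] at h1
    have h2 : J.mkQ (of' u - of' (u * q a)) = 0 := (Submodule.Quotient.mk_eq_zero J).2 h1
    rw [map_sub, sub_eq_zero] at h2
    exact h2.symm
  have hone : J.mkQ (of' (1 : H)) = J.mkQ 1 := by rw [of', map_one]
  have hequi : ∀ (g : Q) (m : Triv Q), i (act g m) = act (q g) (i m) := by
    intro g m
    rw [act_triv]
    have h1 := hact (q g) m
    have h2 := hq 1 g
    rw [one_mul, hone] at h2
    rw [h2] at h1
    exact h1.symm
  have hπi : ∀ m : Triv Q, π (i m) = m := by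
    intro m
    have h1 : π0 ((show ℤ from m) • J.mkQ 1) = (show ℤ from m) := by
      rw [map_zsmul, ← hone, hπ0, piE_of, if_pos (Subgroup.one_mem _), smul_eq_mul, mul_one]
    exact h1
  refine ⟨i, π, ⟨hequi, ?_, ?_, ?_⟩⟩
  · intro n
    obtain ⟨b, hb⟩ := Submodule.mkQ_surjective J n
    rw [← hb]
    clear hb
    induction b using MonoidAlgebra.induction_linear with
    | zero =>
      rw [map_zero]
      exact AddSubgroup.zero_mem _
    | add x y hx hy =>
      rw [map_add]
      exact AddSubgroup.add_mem _ hx hy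
    | single h k =>
      apply AddSubgroup.subset_closure
      refine ⟨h, (show Triv Q from k), ?_⟩
      rw [hact, pi_single, map_zsmul]
  · intro g m
    rw [← hequi, hπi]
  · intro g m hg
    have h1 : π0 ((show ℤ from m) • J.mkQ (of' (g : H))) = 0 := by
      rw [map_zsmul, hπ0, piE_of, if_neg hg, smul_zero]
    rw [← hact] at h1
    exact h1

theorem cyc_ind {H : Type} [Group H] (u : H) :
    Induced (zpowersHom H u) (Triv (Multiplicative ℤ)) (ZG H ⧸ Submodule.span (ZG H) {1 - of' u}) := by
  apply perm_ind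
  have h0 : (1 : ZG H) - of' u ∈ Submodule.span (ZG H) {1 - of' u} :=
    Submodule.subset_span rfl
  have hstep : ∀ k : ℤ, of' (u ^ k) * (1 - of' u) = of' (u ^ k) - of' (u ^ (k + 1)) := by
    intro k
    have h1 : of' (u ^ k * u) = of' (u ^ k) * of' u := map_mul (MonoidAlgebra.of ℤ H) _ _
    rw [zpow_add_one, h1, mul_sub, mul_one]
  apply le_antisymm
  · rw [Submodule.span_le]
    intro b hb
    rw [Set.mem_singleton_iff] at hb
    apply Submodule.subset_span
    refine ⟨Multiplicative.ofAdd 1, ?_⟩
    rw [zpowersHom_apply, toAdd_ofAdd, zpow_one]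
    exact hb
  · rw [Submodule.span_le]
    rintro b ⟨a, rfl⟩
    rw [zpowersHom_apply, SetLike.mem_coe]
    generalize Multiplicative.toAdd a = k
    induction k using Int.induction_on with
    | zero =>
      have h1 : of' (1 : H) = 1 := map_one (MonoidAlgebra.of ℤ H)
      rw [zpow_zero, h1, sub_self]
      exact Submodule.zero_mem _
    | succ n ih =>
      have h1 : (1 : ZG H) - of' (u ^ ((n : ℤ) + 1)) =
          (1 - of' (u ^ (n : ℤ))) + of' (u ^ (n : ℤ)) • (1 - of' u) := by
        rw [smul_eq_mul, hstep]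
        abel
      rw [h1]
      exact Submodule.add_mem _ ih (Submodule.smul_mem _ _ h0)
    | pred n ih =>
      have h1 : (1 : ZG H) - of' (u ^ (-(n : ℤ) - 1)) =
          (1 - of' (u ^ (-(n : ℤ)))) - of' (u ^ (-(n : ℤ) - 1)) • (1 - of' u) := by
        rw [smul_eq_mul, hstep, sub_add_cancel]
        abel
      rw [h1]
      exact Submodule.sub_mem _ ih (Submodule.smul_mem _ _ h0)

end Pool.Agent.SFP
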