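import Pool.Agent.SFP.Fib

/-!
# Module UInd0: the module `U = ℤ[H]^n / ℤ[H]^n (t - e)` is induced from the `ℤ[G × ℤ]`-module `P`

The same as `u_ind` (SFP/UInd.lean, proved), but before the restriction to the kernel of `χ`: `Pull (MonoidHom.fst G _) P` is `P` with
the action `(g, k) p = g p`.  `φ = MonoidAlgebra.mapDomainRingHom ℤ q : ℤ[G × ℤ] →+* ℤ[H]`, `A = matA f s`, `f ∘ s = id`,
`U = (Fin n → ℤ[H]) ⧸ range (mulA φ A)`; write `[e_l]` for the class of `Pi.single l 1`, `ι = φ ∘ inG : ℤ[G] → ℤ[H]`,
`t = q (1, ofAdd 1)`.  In `U`: `t [e_j] = ∑_l ι (s (f e_j) l) [e_l]`.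
(1) `i : P →+ U`, `i p = ∑_l ι (s p l) [e_l]`; `i (g p) = q (g, 1) • i p`, `t i p = i p`, so `q (g, k) i p = i (g p)` (`equi`), and
`[e_j] = t⁻¹ i (f e_j) = i (f e_j)`.
(2) `π : U →+ P`: `θ : ℤ[H] →+ ℤ[G]`, `h ↦ g` if `h = q (g, k)`, `h ↦ 0` if `h ∉ q.range`; `π [b] = ∑_l θ (b l) • f e_l`; see
SFP/UInd.lean for the proof that it is well defined and `π (i p) = p`; `π (q (g, k) i p) = g p` (`proj`).
(3) `span`: `U` is additively generated by the `h [e_l] = h i (f e_l)`.
(4) `projz`: if `h ∉ q.range` then `h q a ∉ q.range` for all `a`, so `θ (h b) = 0` for `b` in the range of `φ`, so `π (h i p) = 0`.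
Much of the proof of `u_ind` can be reused (its auxiliary lemmas are in SFP/UInd.lean).
-/

set_option linter.unusedSectionVars false

namespace Pool.Agent.SFP

open Pool.Agent.Hhelper49.Srr Pool.Agent.Hhelper49.Srf

theorem u_ind0 {G H : Type} [Group G] [Group H] (q : G × Multiplicative ℤ →* H)
    (hq : Function.Injective q) {n : ℕ} {P : Type} [AddCommGroup P] [Module (ZG G) P]
    (f : (Fin n → ZG G) →ₗ[ZG G] P) (s : P →ₗ[ZG G] (Fin n → ZG G)) (hfs : ∀ p, f (s p) = p) :
    Induced q (Pull (MonoidHom.fst G (Multiplicative ℤ)) P) ((Fin n → ZG H) ⧸ LinearMap.range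
      (mulA (MonoidAlgebra.mapDomainRingHom ℤ q : ZG (G × Multiplicative ℤ) →+* ZG H) (matA f s))) := by
  classical
  set A := matA f s with hA
  set φ := ui_phi q with hφ
  change Induced q (Pull (MonoidHom.fst G (Multiplicative ℤ)) P)
    ((Fin n → ZG H) ⧸ LinearMap.range (mulA φ A))
  obtain ⟨θ, hθ1, hθ2⟩ := ui_theta q hq
  set ι : ZG G →+* ZG H := φ.comp (inG G) with hι
  have hιof : ∀ g, ι (of' g) = of' (q (g, 1)) := fun g => by
    change φ (inG G (of' g)) = _
    rw [inG_of, ui_phi_of]
  set mk := (LinearMap.range (mulA φ A)).mkQ with hmk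
  let E : (Fin n → ZG G) →+ (Fin n → ZG H) :=
    { toFun := fun v l => ι (v l)
      map_zero' := by funext l; exact map_zero ι
      map_add' := by intro v w; funext l; exact map_add ι _ _ }
  have hE : ∀ v l, E v l = ι (v l) := fun _ _ => rfl
  -- the element t
  set t : H := q (1, Multiplicative.ofAdd 1) with ht
  have htι : ∀ x : ZG G, of' t * ι x = ι x * of' t := by
    intro x
    refine eb_hom_ext ((AddMonoidHom.mulLeft (of' t)).comp ι.toAddMonoidHom)
      ((AddMonoidHom.mulRight (of' t)).comp ι.toAddMonoidHom) (fun g => ?_) x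
    change of' t * ι (of' g) = ι (of' g) * of' t
    rw [hιof, ← map_mul, ← map_mul, ht, ← map_mul, ← map_mul]
    congr 2
    ext <;> simp
  have hmul : ∀ v, mulA φ A (E v) = act t (E v) - E (s (f v)) := by
    intro v
    funext l
    change ∑ j, ι (v j) * φ (A j l) = of' t * ι (v l) - ι (s (f v) l)
    have h1 : ∀ j, φ (A j l) = (if j = l then of' t else 0) - ι (s (f (Pi.single j 1)) l) := by
      intro j
      rw [hA, matA, map_sub]
      congr 1
      split_ifs
      · exact ui_phi_of q _
      · exact map_zero _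
    have h2 : s (f v) l = ∑ j, v j * s (f (Pi.single j 1)) l := by
      rw [← ui_sum f v, map_sum, Finset.sum_apply]
      exact Finset.sum_congr rfl (fun j _ => by rw [map_smul]; rfl)
    rw [h2, map_sum, htι]
    simp only [h1, mul_sub, Finset.sum_sub_distrib, mul_ite, mul_zero, Finset.sum_ite_eq',
      Finset.mem_univ, if_true, map_mul]
  have hmk0 : ∀ a, mk (mulA φ A a) = 0 := fun a => by
    rw [hmk, Submodule.mkQ_apply, Submodule.Quotient.mk_eq_zero]
    exact ⟨a, rfl⟩
  have htE : ∀ v, act t (mk (E v)) = mk (E (s (f v))) := by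
    intro v
    have h1 := hmk0 (E v)
    rw [hmul, map_sub, sub_eq_zero] at h1
    rw [← h1]
    exact (map_smul mk _ _).symm
  have htfix : ∀ p, act t (mk (E (s p))) = mk (E (s p)) := fun p => by rw [htE, hfs]
  have hEs : ∀ v, mk (E v) = mk (E (s (f v))) := by
    intro v
    have h1 : act t (mk (E v)) = act t (mk (E (s (f v)))) := by rw [htE, htfix]
    have h2 := congrArg (act t⁻¹) h1
    rwa [act_inv_act, act_inv_act] at h2
  have hqfix : ∀ (k : Multiplicative ℤ) (p : P), act (q (1, k)) (mk (E (s p))) = mk (E (s p)) := by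
    intro k p
    let S : Subgroup H :=
      { carrier := {h | act h (mk (E (s p))) = mk (E (s p))}
        one_mem' := act_one _
        mul_mem' := by
          intro a b ha hb
          change act (a * b) _ = _
          rw [act_mul, hb, ha]
        inv_mem' := by
          intro a ha
          change act a⁻¹ _ = _
          have h1 := congrArg (act a⁻¹) ha
          rw [act_inv_act] at h1
          exact h1.symm }
    have h1 : t ∈ S := htfix p
    have h2 : q (1, k) = t ^ (Multiplicative.toAdd k) := by
      rw [ht, ← map_zpow]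
      congr 1
      ext
      · simp
      · simp
    rw [h2]
    exact S.zpow_mem h1 _
  have hqgk : ∀ (a : G × Multiplicative ℤ) (p : P),
      act (q a) (mk (E (s p))) = act (q (a.1, 1)) (mk (E (s p))) := by
    intro a p
    have h1 : q a = q (a.1, 1) * q (1, a.2) := by
      rw [← map_mul]
      congr 1
      ext <;> simp
    rw [h1, act_mul, hqfix]
  have hqs : ∀ (g : G) (p : P), act (q (g, 1)) (mk (E (s p))) = mk (E (s (act g p))) := by
    intro g p
    have h1 : E (s (act g p)) = act (q (g, 1)) (E (s p)) := by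
      funext l
      rw [hE, act, map_smul]
      change ι (of' g * s p l) = of' (q (g, 1)) * ι (s p l)
      rw [map_mul, hιof]
    rw [h1]
    exact (map_smul mk _ _).symm
  -- the inclusion
  let i : Pull (MonoidHom.fst G (Multiplicative ℤ)) P →+ ((Fin n → ZG H) ⧸ LinearMap.range (mulA φ A)) :=
    { toFun := fun p => mk (E (s p.un))
      map_zero' := by
        change mk (E (s 0)) = 0
        rw [map_zero, map_zero, map_zero]
      map_add' := by
        intro a b
        change mk (E (s (a.un + b.un))) = mk (E (s a.un)) + mk (E (s b.un))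
        rw [map_add, map_add, map_add] }
  have hi : ∀ p, i p = mk (E (s p.un)) := fun _ => rfl
  -- the projection
  let π₀ : (Fin n → ZG H) →+ P :=
    { toFun := fun b => ∑ l, θ (b l) • f (Pi.single l 1)
      map_zero' := by simp
      map_add' := by
        intro a b
        simp only [Pi.add_apply, map_add, add_smul, Finset.sum_add_distrib] }
  have hπ₀ : ∀ b, π₀ b = ∑ l, θ (b l) • f (Pi.single l 1) := fun _ => rfl
  have hprA : ∀ j l, ui_pr G (A j l) = (if j = l then 1 else 0) - s (f (Pi.single j 1)) l := by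
    intro j l
    rw [hA, matA, map_sub, ui_pr_inG]
    congr 1
    split_ifs
    · rw [ui_pr_of]; exact map_one _
    · exact map_zero _
  have hπz : ∀ a, π₀ (mulA φ A a) = 0 := by
    intro a
    rw [hπ₀]
    have h1 : ∀ l, θ (mulA φ A a l) = ∑ j, θ (a j) * ui_pr G (A j l) := by
      intro l
      change θ (∑ j, a j * φ (A j l)) = _
      rw [map_sum]
      exact Finset.sum_congr rfl (fun j _ => ui_theta_mul q hθ1 hθ2 _ _)
    simp only [h1, Finset.sum_smul, mul_smul]
    rw [Finset.sum_comm]
    refine Finset.sum_eq_zero (fun j _ => ?_)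
    rw [← Finset.smul_sum]
    have h2 : ∑ l, ui_pr G (A j l) • f (Pi.single l 1) = 0 := by
      simp only [hprA, sub_smul, Finset.sum_sub_distrib, ite_smul, one_smul, zero_smul,
        Finset.sum_ite_eq, Finset.mem_univ, if_true]
      rw [ui_sum f, hfs, sub_self]
    rw [h2, smul_zero]
  have hker : ∀ x ∈ (LinearMap.range (mulA φ A)).toAddSubgroup, π₀ x = 0 := by
    rintro x ⟨a, rfl⟩
    exact hπz a
  let π₁ : ((Fin n → ZG H) ⧸ LinearMap.range (mulA φ A)) →+ P :=
    QuotientAddGroup.lift (LinearMap.range (mulA φ A)).toAddSubgroup π₀ hker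
  have hπ₁ : ∀ b, π₁ (mk b) = π₀ b := fun _ => rfl
  let π : ((Fin n → ZG H) ⧸ LinearMap.range (mulA φ A)) →+ Pull (MonoidHom.fst G (Multiplicative ℤ)) P :=
    { toFun := fun u => Pull.mk _ (π₁ u)
      map_zero' := map_zero π₁
      map_add' := fun a b => map_add π₁ a b }
  have hπ : ∀ u, (π u).un = π₁ u := fun _ => rfl
  have hπi : ∀ (h : H) (p : P), π₁ (act h (mk (E (s p)))) =
      ∑ l, θ (of' h * ι (s p l)) • f (Pi.single l 1) := by
    intro h p
    have h1 : act h (mk (E (s p))) = mk (act h (E (s p))) := (map_smul mk _ _).symm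
    rw [h1, hπ₁, hπ₀]
    rfl
  refine ⟨i, π, ?_, ?_, ?_, ?_⟩
  · intro a p
    rw [hi, hi, Pull.act_apply, hqgk, hqs]
    rfl
  · intro u
    set C := AddSubgroup.closure {x : ((Fin n → ZG H) ⧸ LinearMap.range (mulA φ A)) |
      ∃ (g : H) (m : Pull (MonoidHom.fst G (Multiplicative ℤ)) P), x = act g (i m)} with hC
    obtain ⟨b, hb⟩ : ∃ b, mk b = u := Submodule.mkQ_surjective _ _
    have key : ∀ (l : Fin n) (x : ZG H), mk (Pi.single l x) ∈ C := by
      intro l x
      induction x using MonoidAlgebra.induction_linear with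
      | zero =>
        rw [Pi.single_zero, map_zero]
        exact C.zero_mem
      | add x y hx hy =>
        rw [Pi.single_add, map_add]
        exact C.add_mem hx hy
      | single h z =>
        have h1 : mk (Pi.single l (MonoidAlgebra.single h z)) =
            z • act h (i (Pull.mk _ (f (Pi.single l 1)))) := by
          rw [hi]
          change mk (Pi.single l (MonoidAlgebra.single h z)) =
            z • act h (mk (E (s (f (Pi.single l 1)))))
          have h3 : E (Pi.single l 1) = Pi.single l 1 := by
            funext k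
            rw [hE]
            by_cases hk : k = l
            · subst hk; simp
            · simp [Pi.single_eq_of_ne hk]
          rw [← hEs, h3]
          rw [act, ← map_smul, ← map_zsmul]
          congr 1
          funext k
          by_cases hk : k = l
          · subst hk
            simp
          · simp [Pi.single_eq_of_ne hk]
        rw [h1]
        exact C.zsmul_mem (AddSubgroup.subset_closure ⟨h, _, rfl⟩) z
    have hsum : u = ∑ l, mk (Pi.single l (b l)) := by
      have h1 : b = ∑ l, Pi.single l (b l) := (Finset.univ_sum_single b).symm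
      rw [← hb, ← map_sum, ← h1]
    rw [hsum]
    exact C.sum_mem (fun l _ => key l (b l))
  · intro a p
    change π₁ (act (q a) (mk (E (s p.un)))) = (act a p).un
    rw [Pull.act_apply, hqgk, hπi]
    change _ = act a.1 p.un
    have h1 : ∀ l, θ (of' (q (a.1, 1)) * ι (s p.un l)) = of' a.1 * s p.un l := by
      intro l
      rw [ui_theta_left q hθ1 hθ2]
      have h2 : θ (ι (s p.un l)) = s p.un l := by
        have h3 := ui_theta_mul q hθ1 hθ2 1 (inG G (s p.un l))
        rw [one_mul, ui_pr_inG] at h3
        have h4 : θ 1 = 1 := by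
          have h5 := hθ1 1
          have h6 : (of' (q 1) : ZG H) = 1 := by rw [map_one]; exact map_one _
          have h7 : (of' (1 : G × Multiplicative ℤ).1 : ZG G) = 1 := map_one _
          rw [h6, h7] at h5
          exact h5
        rw [h4, one_mul] at h3
        exact h3
      rw [h2]
    simp only [h1, mul_smul]
    rw [← Finset.smul_sum, ui_sum f, hfs]
  · intro g p hg
    change π₁ (act g (mk (E (s p.un)))) = 0
    rw [hπi]
    refine Finset.sum_eq_zero (fun l _ => ?_)
    have h1 := ui_theta_mul q hθ1 hθ2 (of' g) (inG G (s p.un l))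
    rw [hθ2 _ hg, zero_mul] at h1
    change θ (of' g * ui_phi q (inG G (s p.un l))) • _ = _
    rw [h1, zero_smul]

end Pool.Agent.SFP
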