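import Pool.Agent.SFP.Fin2
import Pool.Agent.SFP.PermInd
import Pool.Agent.SFP.UInd0
import Pool.Agent.SFP.CoefProd
import Pool.Agent.SFP.FPres1
import Pool.Agent.SFP.FPres2
import Pool.Agent.SFP.FPres3
import Pool.Agent.Hhelper49.Srd.FGen

/-!
# Fin3: the finitely presented version
-/

set_option linter.unusedSectionVars false

namespace Pool.Agent.SFP

open Pool.Agent.Hhelper49.Srr Pool.Agent.Hhelper49.Srf

/-! ### homomorphisms to the fibre product -/

section
variable {H Q Q' : Type} [Group H] [Group Q] [Group Q'] (χ : H →* Multiplicative ℤ) (q : Q →* H)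
  (p : Q' →* Q) (s : Q' →* F2) (h : ∀ x, χ (q (p x)) = chi2 (s x))

/-- a homomorphism to the fibre product -/
def kf : Q' →* Fib χ := ((q.comp p).prod s).codRestrict (Fib χ) h

theorem kf_fst (x : Q') : (kf χ q p s h x).1.1 = q (p x) := rfl

theorem kf_snd (x : Q') : (kf χ q p s h x).1.2 = s x := rfl

theorem kf_ind {M N : Type} [AddCommGroup M] [Module (MonoidAlgebra ℤ Q) M] [AddCommGroup N]
    [Module (MonoidAlgebra ℤ H) N] (hp : ∀ (a : Q) (y : F2), χ (q a) = chi2 y →
      ∃ x, q (p x) = q a ∧ s x = y) (hMN : Induced q M N) :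
    Induced (kf χ q p s h) (Pull p M) (Pull (prH χ) N) := by
  refine ind_mackey q (prH χ) (kf χ q p s h) p (fun _ => rfl) ?_ ?_ hMN
  · intro g
    obtain ⟨g', hg'⟩ := prH_surj χ g
    exact ⟨g', 1, by rw [map_one, mul_one, hg']⟩
  · rintro ⟨⟨g, y⟩, hgy⟩ ⟨a, ha⟩
    rw [mem_fib] at hgy
    change q a = g at ha
    subst ha
    obtain ⟨x, hx1, hx2⟩ := hp a y hgy
    refine ⟨x, Subtype.ext (Prod.ext ?_ ?_)⟩
    · exact hx1
    · exact hx2

end

theorem ff_trivF2 : FF (MonoidAlgebra ℤ F2) (Triv F2) := by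
  obtain ⟨f, g, h1, h2, h3⟩ := free_exact 2
  exact ff_coker f g h1 h2 h3 (ff_pow 2) ⟨0, inferInstance, inferInstance⟩

theorem ff_trivProd (G : Type) [Group G] (hG : TypeFF G) :
    FF (MonoidAlgebra ℤ (G × F2)) (Triv (G × F2)) := by
  have h1 : FreeRes (1 * 1) G := by
    rw [mul_one]
    exact freeRes_of_typeFF G hG
  have hGP : TypeFP G := typeFP_of_fp G (fp_of_ff (ff_of_typeFF G hG))
  have h2 := (prod_freeRes G hGP 1 1).2 h1
  rw [freeRes_iff] at h2
  exact ff_iso (LinearEquiv.funUnique (Fin 1) (MonoidAlgebra ℤ _) (Triv _)) h2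

/-- restriction in two steps -/
noncomputable def pullPull {A B C : Type} [Group A] [Group B] [Group C] (f : A →* B) (g : B →* C)
    (k : A →* C) (hk : ∀ a, g (f a) = k a) (P : Type) [AddCommGroup P]
    [Module (MonoidAlgebra ℤ C) P] : Pull f (Pull g P) ≃ₗ[MonoidAlgebra ℤ A] Pull k P :=
  mkEquiv (A := Pull f (Pull g P)) (B := Pull k P) (AddEquiv.refl P) (by
    intro a x
    have h1 := Pull.act_apply (κ := f) a x
    have h2 := Pull.act_apply (κ := g) (f a) x.un
    have h3 := Pull.act_apply (κ := k) a (Pull.mk k x.un.un)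
    change (act a x : Pull f (Pull g P)).un.un = (act a (Pull.mk k x.un.un)).un
    rw [h1, h2, h3, hk]
    rfl)

section
variable {G : Type} [Group G] {Gm Rl Sl : Type} [Fintype Gm] [DecidableEq Gm] [Fintype Rl]
  [DecidableEq Rl] [Fintype Sl] [DecidableEq Sl] (D : Dat (G × Multiplicative ℤ) Gm Rl Sl)

/-- the character of `HH D` -/
abbrev ch : HH D →* Multiplicative ℤ := chi D (sndG G)

theorem main3 {C : ∀ (M : Type) [AddCommGroup M] [Module (ZG (Fib (ch D))) M], Prop}
    (hC : Cls23 (ZG (Fib (ch D))) C)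
    (hu : ∀ u, ch D u = Multiplicative.ofAdd 1 →
      C (Pull (prH (ch D)) (ZG (HH D) ⧸ Submodule.span (ZG (HH D)) {1 - of' u})))
    (h0 : C (Pull (prH (ch D)) (ZG (HH D) ⧸ JL D ∅)))
    (hinj : Function.Injective (relM (phi D) D)) :
    C (Triv (Fib (ch D))) ↔
      C (Pull (prH (ch D)) ((Gm → ZG (HH D)) ⧸ LinearMap.range (relM (phi D) D))) := by
  have h1 := main1 D (Good := fun M _ _ => C (Pull (prH (ch D)) M)) (sndG G)
    (cls23_pull _ hC) hu h0 hinj
  rw [← h1]
  exact ⟨fun h => hC.iso (trivPull (prH (ch D))).symm h,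
    fun h => hC.iso (trivPull (prH (ch D))) h⟩

/-- `F₂ → Fib`, `y ↦ (u^(χ₂ y), y)` -/
def kU (u : HH D) (hu : ch D u = Multiplicative.ofAdd 1) : F2 →* Fib (ch D) :=
  kf (ch D) (zpowersHom (HH D) u) chi2 (MonoidHom.id F2) (by
    intro x
    rw [zpowersHom_apply, map_zpow, hu, ← ofAdd_zsmul, smul_eq_mul, mul_one]
    rfl)

theorem kU_inj (u : HH D) (hu : ch D u = Multiplicative.ofAdd 1) : Function.Injective (kU D u hu) := by
  intro a b h
  exact congrArg (fun x : Fib (ch D) => x.1.2) h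

theorem kU_ind (u : HH D) (hu : ch D u = Multiplicative.ofAdd 1) :
    Induced (kU D u hu) (Triv F2)
      (Pull (prH (ch D)) (ZG (HH D) ⧸ Submodule.span (ZG (HH D)) {1 - of' u})) := by
  have h1 := kf_ind (ch D) (zpowersHom (HH D) u) chi2 (MonoidHom.id F2) (by
    intro x
    rw [zpowersHom_apply, map_zpow, hu, ← ofAdd_zsmul, smul_eq_mul, mul_one]
    rfl) (by
    intro a y hay
    rw [zpowersHom_apply, map_zpow, hu, ← ofAdd_zsmul, smul_eq_mul, mul_one, ofAdd_toAdd] at hay
    exact ⟨y, by rw [← hay], rfl⟩) (cyc_ind u)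
  exact ind_iso _ _ _ _ h1 (trivPull chi2) (LinearEquiv.refl _ _)

/-- `G × F₂ → Fib`, `(g, y) ↦ (q (g, χ₂ y), y)` -/
def kG2 : G × F2 →* Fib (ch D) :=
  kf (ch D) (hq D) ((MonoidHom.id G).prodMap chi2) (MonoidHom.snd G F2) (fun x => chi_hq D _)

theorem kG2_inj : Function.Injective (kG2 D) := by
  rintro ⟨a, y⟩ ⟨b, z⟩ h
  have h1 : y = z := congrArg (fun x : Fib (ch D) => x.1.2) h
  have h2 : hq D (a, chi2 y) = hq D (b, chi2 z) := congrArg (fun x : Fib (ch D) => x.1.1) h
  have h3 := hq_inj D h2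
  exact Prod.ext (congrArg (fun w : G × Multiplicative ℤ => w.1) h3) h1

/-- the retraction `Fib → G × F₂` -/
def rG2 : Fib (ch D) →* G × F2 :=
  (((MonoidHom.fst G (Multiplicative ℤ)).comp ((retQ D).comp (prH (ch D)))).prod
    ((MonoidHom.snd (HH D) F2).comp (Fib (ch D)).subtype))

theorem rG2_kG2 (x : G × F2) : rG2 D (kG2 D x) = x := by
  apply Prod.ext
  · change (retQ D (hq D (x.1, chi2 x.2))).1 = x.1
    rw [retQ_hq]
  · rfl

theorem kG2_hp (a : G × Multiplicative ℤ) (y : F2) (h : ch D (hq D a) = chi2 y) :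
    ∃ x : G × F2, hq D ((MonoidHom.id G).prodMap chi2 x) = hq D a ∧ MonoidHom.snd G F2 x = y := by
  rw [chi_hq] at h
  refine ⟨(a.1, y), ?_, rfl⟩
  congr 1
  exact Prod.ext rfl h.symm

theorem kG2_base : Induced (kG2 D) (Triv (G × F2)) (Pull (prH (ch D)) (ZG (HH D) ⧸ JL D ∅)) := by
  have h0 : Induced (hq D) (Triv (G × Multiplicative ℤ)) (ZG (HH D) ⧸ JL D ∅) := by
    refine perm_ind (hq D) (JL D ∅) ?_
    rw [JL]
    congr 1
    ext b
    simp
  have h1 := kf_ind (ch D) (hq D) ((MonoidHom.id G).prodMap chi2) (MonoidHom.snd G F2)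
    (fun x => chi_hq D _) (kG2_hp D) h0
  exact ind_iso _ _ _ _ h1 (trivPull _) (LinearEquiv.refl _ _)

end

/-- the pointwise theorem for groups of type (FF), with finite presentations -/
theorem point_ff2 (G : Type) [Group G] (hG : TypeFF G) (P : Type) [AddCommGroup P]
    [Module (MonoidAlgebra ℤ G) P] (hP1 : Module.Finite (MonoidAlgebra ℤ G) P)
    (hP2 : Module.Projective (MonoidAlgebra ℤ G) P) :
    ∃ (R : Type) (_ : Group R) (i : G →* R) (r : R →* G), (∀ g, r (i g) = g) ∧ TypeFP R ∧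
      (∀ m, FreeRes m R ↔ FF (MonoidAlgebra ℤ G) (Fin m → P)) ∧
      (Group.IsFinitelyPresented G → Group.IsFinitelyPresented R) := by
  obtain ⟨n, f, hf⟩ := Module.Finite.exists_fin' (MonoidAlgebra ℤ G) P
  obtain ⟨s, hs⟩ := Module.projective_lifting_property f LinearMap.id hf
  have hfs : ∀ p, f (s p) = p := fun p => LinearMap.congr_fun hs p
  obtain ⟨Gm, Rl, Sl, _, _, _, _, _, _, D, hD⟩ := enc n (matA f s)
  obtain ⟨hD1, ⟨e⟩⟩ := hD (ZG (HH D)) (phi D)
  have hinj : Function.Injective (relM (phi D) D) :=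
    hD1 (mulA_inj (hq D) (chi D (sndG G)) (chi_hq D) f s hfs)
  have hPF : FP (MonoidAlgebra ℤ G) P := ⟨0, hP1, hP2⟩
  have hGF := ff_of_typeFF G hG
  -- the kernel is of type (FP), hence finitely generated
  have hfg : Group.FG (ch D).ker := by
    have hbase : Induced (inc D) (Triv G)
        (Pull (chi D (sndG G)).ker.subtype (ZG (HH D) ⧸ JL D ∅)) := by
      refine base_ind (hq D) (chi D (sndG G)) (chi_hq D) (JL D ∅) ?_
      rw [JL]
      congr 1
      ext b
      simp
    have hU : Induced (inc D) P (Pull (chi D (sndG G)).ker.subtype ((Fin n → ZG (HH D)) ⧸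
        LinearMap.range (mulA (phi D) (matA f s)))) :=
      u_ind (hq D) (hq_inj D) (chi D (sndG G)) (chi_hq D) f s hfs
    have hFP := main2 D (cls23_fp _) (fp_of_ff ⟨0, inferInstance, inferInstance⟩)
      (ind_fp (inc_inj D) _ _ hbase (fp_of_ff hGF)) hinj
    have eP := (cls23_pull (chi D (sndG G)).ker.subtype (cls23_fp (ZG (RR D))))
    apply fg_of_typeFP
    apply typeFP_of_fp
    rw [hFP]
    exact eP.iso e.symm (ind_fp (inc_inj D) _ _ hU hPF)
  -- the module of the relations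
  have hU2 : Induced (kG2 D) (Pull (MonoidHom.fst G F2) P) (Pull (prH (ch D))
      ((Fin n → ZG (HH D)) ⧸ LinearMap.range (mulA (phi D) (matA f s)))) := by
    have h1 := kf_ind (ch D) (hq D) ((MonoidHom.id G).prodMap chi2) (MonoidHom.snd G F2)
      (fun x => chi_hq D _) (kG2_hp D) (u_ind0 (hq D) (hq_inj D) f s hfs)
    exact ind_iso _ _ _ _ h1 (pullPull _ _ _ (fun _ => rfl) P) (LinearEquiv.refl _ _)
  have hFP2 := main3 D (cls23_fp _)
    (fun u hu => ind_fp (kU_inj D u hu) _ _ (kU_ind D u hu) (fp_of_ff ff_trivF2))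
    (ind_fp (kG2_inj D) _ _ (kG2_base D) (fp_of_ff (ff_trivProd G hG))) hinj
  have eP2 := (cls23_pull (prH (ch D)) (cls23_fp (ZG (Fib (ch D)))))
  refine ⟨Fib (ch D), inferInstance, (kG2 D).comp (MonoidHom.inl G F2),
    (MonoidHom.fst G F2).comp (rG2 D), ?_, ?_, ?_, ?_⟩
  · intro g
    change (rG2 D (kG2 D (g, 1))).1 = g
    rw [rG2_kG2]
  · apply typeFP_of_fp
    rw [hFP2]
    exact eP2.iso e.symm (ind_fp (kG2_inj D) _ _ hU2 (coef_fp G P hPF))
  · intro m
    have hFF := main3 D (cls23_pow (cls23_ff _) m)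
      (fun u hu => ff_pi (fun _ : Fin m => _) fun _ =>
        ind_ff (kU_inj D u hu) _ _ (kU_ind D u hu) ff_trivF2)
      (ff_pi (fun _ : Fin m => _) fun _ =>
        ind_ff (kG2_inj D) _ _ (kG2_base D) (ff_trivProd G hG)) hinj
    have eF := (cls23_pull (prH (ch D)) (cls23_pow (cls23_ff (ZG (Fib (ch D)))) m))
    rw [freeRes_iff, hFF, ← coef_ff G P hPF m]
    constructor
    · intro h
      have h2 := eF.iso e h
      exact ind_reduce (kG2_inj D) _ _ (desc_ret (kG2 D) (rG2 D) (rG2_kG2 D))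
        (fp_pi (fun _ : Fin m => Pull (MonoidHom.fst G F2) P) fun _ => coef_fp G P hPF)
        (ind_pi _ _ m hU2) h2
    · intro h
      exact eF.iso e.symm (ind_ff (kG2_inj D) _ _ (ind_pi _ _ m hU2) h)
  · intro hGp
    have : Group.IsFinitelyPresented (G × Multiplicative ℤ) := prod_fpres _ _
    have : Group.IsFinitelyPresented (HH D) := hh_fpres D
    exact fib_fpres (ch D) (hq D (1, Multiplicative.ofAdd 1)) (by rw [chi_hq]) hfg

/-- every finitely generated projective module over a group of type (FP) is a finiteness obstruction -/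
theorem point_fp2 (G : Type) [Group G] (hG : TypeFP G) (P : Type) [AddCommGroup P]
    [Module (MonoidAlgebra ℤ G) P] (hP1 : Module.Finite (MonoidAlgebra ℤ G) P)
    (hP2 : Module.Projective (MonoidAlgebra ℤ G) P) :
    ∃ (R : Type) (_ : Group R) (i : G →* R) (r : R →* G), (∀ g, r (i g) = g) ∧ TypeFP R ∧
      (∀ m, FreeRes m R ↔ StFree G (Fin m → P)) ∧
      (Group.IsFinitelyPresented G → Group.IsFinitelyPresented R) := by
  set κ : G →* G × FreeGroup (Fin 1) := MonoidHom.inl G _ with hκd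
  have hκ : Function.Injective κ := fun a b h => congrArg Prod.fst h
  obtain ⟨N, _, _, hN⟩ := exists_ind κ hκ P hP1 hP2
  obtain ⟨hN1, hN2⟩ := ind_proj hκ P N hN hP1 hP2
  obtain ⟨R, _, i, r, h1, h2, h3, h4⟩ := point_ff2 _ (typeFF_prod G hG) N hN1 hN2
  refine ⟨R, inferInstance, i.comp κ, (MonoidHom.fst G (FreeGroup (Fin 1))).comp r, ?_, h2, ?_, ?_⟩
  · intro g
    change (r (i (κ g))).1 = g
    rw [h1]
    rfl
  · intro m
    have hPm : FP (MonoidAlgebra ℤ G) (Fin m → P) :=
      fp_pi (fun _ : Fin m => P) fun _ => ⟨0, hP1, hP2⟩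
    rw [h3 m]
    have h4 : FF (MonoidAlgebra ℤ (G × FreeGroup (Fin 1))) (Fin m → N) ↔
        FF (MonoidAlgebra ℤ G) (Fin m → P) := by
      constructor
      · intro h
        exact ind_reduce hκ (Fin m → P) _ (desc_ret κ (MonoidHom.fst G (FreeGroup (Fin 1)))
          (fun g => rfl)) hPm (ind_pi _ _ m hN) h
      · intro h
        exact ind_ff hκ _ _ (ind_pi _ _ m hN) h
    rw [h4]
    have hproj : Module.Projective (MonoidAlgebra ℤ G) (Fin m → P) := by
      obtain ⟨n, f, hf⟩ := Module.Finite.exists_fin' (MonoidAlgebra ℤ G) P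
      obtain ⟨s, hs⟩ := Module.projective_lifting_property f LinearMap.id hf
      have hfs : ∀ p, f (s p) = p := fun p => LinearMap.congr_fun hs p
      refine Module.Projective.of_split (P := Fin m → P) (M := Fin m → Fin n → MonoidAlgebra ℤ G)
        (s.compLeft (Fin m)) (f.compLeft (Fin m)) ?_
      apply LinearMap.ext
      intro v
      funext j
      exact hfs (v j)
    exact ff_iff_stFree G _ hproj
  · intro hGp
    have : Group.IsFinitelyPresented (G × FreeGroup (Fin 1)) := prod_fpres _ _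
    exact h4 this

/-- the equivalence for finitely presented groups -/
theorem serre_iff_fpres :
    (∀ (G : Type) [Group G], Group.IsFinitelyPresented G → TypeFP G → TypeFF G) ↔
      ∀ (G : Type) [Group G], Group.IsFinitelyPresented G → TypeFP G → ∀ (P : Type)
        [AddCommGroup P] [Module (MonoidAlgebra ℤ G) P], Module.Finite (MonoidAlgebra ℤ G) P →
          Module.Projective (MonoidAlgebra ℤ G) P → StFree G P := by
  constructor
  · intro h G _ hGp hG P _ _ h1 h2
    obtain ⟨R, _, i, r, -, h3, h4, h5⟩ := point_fp2 G hG P h1 h2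
    rw [← stFree_one, ← h4 1, ← typeFF_iff]
    exact h R (h5 hGp) h3
  · intro h G _ hGp hG
    obtain ⟨n, hn⟩ := fp_of_typeFP G hG
    exact typeFF_of_ff G (ff_of_fp_of_k0 G (h G hGp hG) n _ hn)

end Pool.Agent.SFP
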