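import Pool.Agent.SFP.Cx

/-!
# Module Homs: homomorphisms from `HH D` to graph groups

All four are obtained from `lift D`.  Every relation is a commutation relation, and it holds trivially when one of the
two elements goes to `1` (`Commute.one_left`, `Commute.one_right`); `q a ↦ 1` and `z r ↦ 1` in all cases, so only the relations
`cc` and `yc` have to be considered (the `zy` relation is trivial since `z ↦ 1`).

(1) `hom_yc` (`g ≠ g'`): `y g ↦ of true`, `c g' j ↦ of false`, all other generators `↦ 1`.  `cc`: the two labels belong to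
different generators (`D.gen s ≠ D.gen (D.nx s)` by `D.inj`, `D.rel_nx`, `D.nx_ne`), so at least one of them goes to `1`.
`yc`: `y g'' ` and `c g'' j''` cannot both be nontrivial, as `g ≠ g'`.
(2) `hom_cc`: `c g true ↦ of true`, `c g false ↦ of false`, all others `↦ 1`.  `cc`: as in (1) the two labels belong to
different generators.  `yc`: `y ↦ 1`.
(3) `hom_link`: for the relation `r`; `c g j ↦` `of (s, 0)` if `g = D.gen s` for an `s` with `D.rel s = r` and `j = D.sg s`,
`of (s, 2)` if `g = D.gen s`, `D.rel s = r` and `j = !D.sg s`; `y g ↦ of (s, 1)` if `g = D.gen s`, `D.rel s = r`; all others `↦ 1`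
(`s` is unique by `D.inj`; one can use `if h : ∃ s, D.rel s = r ∧ D.gen s = g then .. h.choose .. else 1`).
`yc`: `(s, 1)` is adjacent to `(s, 0)` and `(s, 2)`.  `cc` for `s`: if `D.rel s = r`, the images are `(s, 2)` and `(D.nx s, 0)`,
which are adjacent.  If `D.rel s ≠ r`: if both images are nontrivial there are `s₁`, `s₂` with `D.rel s₁ = D.rel s₂ = r`,
`D.gen s₁ = D.gen s`, `D.gen s₂ = D.gen (D.nx s)`, which contradicts `D.lin` (`D.gen s ≠ D.gen (D.nx s)` by `D.inj`).
(4) `hom_lab`: `c g j ↦ of (g, j)` if `(g, j) ∈ T`, all others `↦ 1`.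
-/

set_option linter.unusedSectionVars false

namespace Pool.Agent.SFP

open Pool.Agent.Hhelper49.Srr

variable {Q Gm Rl Sl : Type} [Group Q] (D : Dat Q Gm Rl Sl)

theorem hm_gen_ne (s : Sl) : D.gen s ≠ D.gen (D.nx s) := fun h =>
  D.nx_ne s (D.inj s (D.nx s) (D.rel_nx s).symm h).symm

theorem hom_yc (g g' : Gm) (j : Bool) (h : g ≠ g') : ∃ f : HH D →* FreeGroup Bool,
    (∀ a, f (hq D a) = 1) ∧ f (hy D g) = FreeGroup.of true ∧ f (hc D g' j) = FreeGroup.of false := by
  classical
  let L : Lift D (FreeGroup Bool) :=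
    { q := 1
      c := fun a k => if a = g' ∧ k = j then FreeGroup.of false else 1
      y := fun a => if a = g then FreeGroup.of true else 1
      z := fun _ => 1
      cq := fun _ _ _ => Commute.one_right _
      cc := fun s => by
        by_cases h1 : D.gen s = g'
        · have h2 : ¬ (D.gen (D.nx s) = g' ∧ D.sg (D.nx s) = j) := fun h3 =>
            hm_gen_ne D s (h1.trans h3.1.symm)
          rw [if_neg h2]
          exact Commute.one_right _
        · rw [if_neg (fun h3 => h1 h3.1)]
          exact Commute.one_left _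
      yc := fun a k => by
        by_cases h1 : a = g
        · have h2 : ¬ (a = g' ∧ k = j) := fun h3 => h (h1.symm.trans h3.1)
          rw [if_neg h2]
          exact Commute.one_right _
        · rw [if_neg h1]
          exact Commute.one_left _
      zc := fun _ _ => Commute.one_left _
      zy := fun _ => Commute.one_left _ }
  refine ⟨lift D L, fun a => lift_hq D L a, ?_, ?_⟩
  · rw [lift_hy]
    exact if_pos rfl
  · rw [lift_hc]
    exact if_pos ⟨rfl, rfl⟩

theorem hom_cc (g : Gm) : ∃ f : HH D →* FreeGroup Bool,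
    f (hc D g true) = FreeGroup.of true ∧ f (hc D g false) = FreeGroup.of false := by
  classical
  let L : Lift D (FreeGroup Bool) :=
    { q := 1
      c := fun a k => if a = g then FreeGroup.of k else 1
      y := fun _ => 1
      z := fun _ => 1
      cq := fun _ _ _ => Commute.one_right _
      cc := fun s => by
        by_cases h1 : D.gen s = g
        · have h2 : ¬ (D.gen (D.nx s) = g) := fun h3 =>
            hm_gen_ne D s (h1.trans h3.symm)
          rw [if_neg h2]
          exact Commute.one_right _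
        · rw [if_neg h1]
          exact Commute.one_left _
      yc := fun _ _ => Commute.one_left _
      zc := fun _ _ => Commute.one_left _
      zy := fun _ => Commute.one_left _ }
  refine ⟨lift D L, ?_, ?_⟩
  · rw [lift_hc]
    exact if_pos rfl
  · rw [lift_hc]
    exact if_pos rfl

section link
variable (r : Rl)

/-- the graph group of the link of `r` -/
abbrev HmK : Type := RG {v : Sl × Fin 3 // D.rel v.1 = r} (fun v w => w.1 = lnx D v.1)

/-- a generator of the graph group of the link -/
def hmOf (s : Sl) (h : D.rel s = r) (k : Fin 3) : HmK D r :=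
  RG.of (fun v w : {v : Sl × Fin 3 // D.rel v.1 = r} => w.1 = lnx D v.1) ⟨(s, k), h⟩

open Classical in
/-- images of the labels -/
noncomputable def hmC (g : Gm) (j : Bool) : HmK D r :=
  if h : ∃ s, D.rel s = r ∧ D.gen s = g then
    (if D.sg h.choose = j then hmOf D r h.choose h.choose_spec.1 0
      else hmOf D r h.choose h.choose_spec.1 2) else 1

open Classical in
/-- images of the generators -/
noncomputable def hmY (g : Gm) : HmK D r :=
  if h : ∃ s, D.rel s = r ∧ D.gen s = g then hmOf D r h.choose h.choose_spec.1 1 else 1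

theorem hmOf_congr {s s' : Sl} (hs : s = s') (h : D.rel s = r) (h' : D.rel s' = r) (k : Fin 3) :
    hmOf D r s h k = hmOf D r s' h' k := by
  subst hs
  rfl

theorem hmC_start (s : Sl) (h : D.rel s = r) : hmC D r (D.gen s) (D.sg s) = hmOf D r s h 0 := by
  have h1 : ∃ s', D.rel s' = r ∧ D.gen s' = D.gen s := ⟨s, h, rfl⟩
  have h2 : h1.choose = s := D.inj _ _ (h1.choose_spec.1.trans h.symm) h1.choose_spec.2
  rw [hmC, dif_pos h1, if_pos (by rw [h2])]
  exact hmOf_congr D r h2 _ _ _

theorem hmC_end (s : Sl) (h : D.rel s = r) : hmC D r (D.gen s) (!D.sg s) = hmOf D r s h 2 := by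
  have h1 : ∃ s', D.rel s' = r ∧ D.gen s' = D.gen s := ⟨s, h, rfl⟩
  have h2 : h1.choose = s := D.inj _ _ (h1.choose_spec.1.trans h.symm) h1.choose_spec.2
  have h3 : ¬ (D.sg h1.choose = !D.sg s) := by
    rw [h2]
    cases D.sg s <;> decide
  rw [hmC, dif_pos h1, if_neg h3]
  exact hmOf_congr D r h2 _ _ _

theorem hmY_eq (s : Sl) (h : D.rel s = r) : hmY D r (D.gen s) = hmOf D r s h 1 := by
  have h1 : ∃ s', D.rel s' = r ∧ D.gen s' = D.gen s := ⟨s, h, rfl⟩
  have h2 : h1.choose = s := D.inj _ _ (h1.choose_spec.1.trans h.symm) h1.choose_spec.2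
  rw [hmY, dif_pos h1]
  exact hmOf_congr D r h2 _ _ _

theorem hmC_none (g : Gm) (j : Bool) (h : ¬ ∃ s, D.rel s = r ∧ D.gen s = g) : hmC D r g j = 1 := by
  rw [hmC, dif_neg h]

theorem hmY_none (g : Gm) (h : ¬ ∃ s, D.rel s = r ∧ D.gen s = g) : hmY D r g = 1 := by
  rw [hmY, dif_neg h]

theorem hm_comm01 (s : Sl) (h : D.rel s = r) : Commute (hmOf D r s h 0) (hmOf D r s h 1) :=
  RG.comm (fun v w : {v : Sl × Fin 3 // D.rel v.1 = r} => w.1 = lnx D v.1) (lnx_zero D s).symm

theorem hm_comm12 (s : Sl) (h : D.rel s = r) : Commute (hmOf D r s h 1) (hmOf D r s h 2) :=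
  RG.comm (fun v w : {v : Sl × Fin 3 // D.rel v.1 = r} => w.1 = lnx D v.1) (lnx_one D s).symm

theorem hm_comm20 (s : Sl) (h : D.rel s = r) (h' : D.rel (D.nx s) = r) :
    Commute (hmOf D r s h 2) (hmOf D r (D.nx s) h' 0) :=
  RG.comm (fun v w : {v : Sl × Fin 3 // D.rel v.1 = r} => w.1 = lnx D v.1) (lnx_two D s).symm

theorem hm_cc (s : Sl) : Commute (hmC D r (D.gen s) (!D.sg s))
    (hmC D r (D.gen (D.nx s)) (D.sg (D.nx s))) := by
  by_cases h : D.rel s = r
  · have h' : D.rel (D.nx s) = r := (D.rel_nx s).trans h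
    rw [hmC_end D r s h, hmC_start D r (D.nx s) h']
    exact hm_comm20 D r s h h'
  · by_cases h1 : ∃ s', D.rel s' = r ∧ D.gen s' = D.gen s
    · by_cases h2 : ∃ s', D.rel s' = r ∧ D.gen s' = D.gen (D.nx s)
      · obtain ⟨s1, a1, b1⟩ := h1
        obtain ⟨s2, a2, b2⟩ := h2
        exfalso
        have h3 := D.lin s1 s2 s (D.nx s) (a1.trans a2.symm) (D.rel_nx s).symm b1 b2 (by
          rw [b1, b2]
          exact hm_gen_ne D s)
        exact h (h3.symm.trans a1)
      · rw [hmC_none D r _ _ h2]
        exact Commute.one_right _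
    · rw [hmC_none D r _ _ h1]
      exact Commute.one_left _

theorem hm_yc (g : Gm) (j : Bool) : Commute (hmY D r g) (hmC D r g j) := by
  by_cases h : ∃ s, D.rel s = r ∧ D.gen s = g
  · obtain ⟨s, h1, rfl⟩ := h
    rw [hmY_eq D r s h1]
    by_cases h2 : j = D.sg s
    · subst h2
      rw [hmC_start D r s h1]
      exact (hm_comm01 D r s h1).symm
    · have h3 : j = !D.sg s := by
        revert h2
        cases D.sg s <;> cases j <;> decide
      subst h3
      rw [hmC_end D r s h1]
      exact hm_comm12 D r s h1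
  · rw [hmY_none D r _ h]
    exact Commute.one_left _

end link

theorem hom_link (r : Rl) : ∃ f : HH D →* RG {v : Sl × Fin 3 // D.rel v.1 = r}
    (fun v w => w.1 = lnx D v.1), ∀ v : {v : Sl × Fin 3 // D.rel v.1 = r}, f (lv D v.1) = RG.of _ v := by
  let L : Lift D (HmK D r) :=
    { q := 1
      c := hmC D r
      y := hmY D r
      z := fun _ => 1
      cq := fun _ _ _ => Commute.one_right _
      cc := hm_cc D r
      yc := hm_yc D r
      zc := fun _ _ => Commute.one_left _
      zy := fun _ => Commute.one_left _ }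
  refine ⟨lift D L, ?_⟩
  rintro ⟨⟨s, k⟩, h⟩
  change D.rel s = r at h
  fin_cases k
  · change lift D L (hc D (D.gen s) (D.sg s)) = _
    rw [lift_hc]
    exact hmC_start D r s h
  · change lift D L (hq D (D.x s) * hy D (D.gen s) * (hq D (D.x s))⁻¹) = _
    rw [map_mul, map_mul, map_inv, lift_hq, lift_hy]
    change 1 * hmY D r (D.gen s) * 1⁻¹ = _
    rw [one_mul, inv_one, mul_one]
    exact hmY_eq D r s h
  · change lift D L (hc D (D.gen s) (!D.sg s)) = _
    rw [lift_hc]
    exact hmC_end D r s h

theorem hom_lab (T : Set (Gm × Bool)) : ∃ f : HH D →* RG {l : Gm × Bool // l ∈ T}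
    (fun v w => cadj D v.1 w.1), (∀ a, f (hq D a) = 1) ∧
      ∀ v : {l : Gm × Bool // l ∈ T}, f (hc D v.1.1 v.1.2) = RG.of _ v := by
  classical
  let L : Lift D (RG {l : Gm × Bool // l ∈ T} (fun v w => cadj D v.1 w.1)) :=
    { q := 1
      c := fun g j => if h : (g, j) ∈ T then RG.of _ ⟨(g, j), h⟩ else 1
      y := fun _ => 1
      z := fun _ => 1
      cq := fun _ _ _ => Commute.one_right _
      cc := fun s => by
        by_cases h1 : (D.gen s, !D.sg s) ∈ T
        · by_cases h2 : (D.gen (D.nx s), D.sg (D.nx s)) ∈ T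
          · rw [dif_pos h1, dif_pos h2]
            exact RG.comm (fun v w : {l : Gm × Bool // l ∈ T} => cadj D v.1 w.1) ⟨s, rfl, rfl⟩
          · rw [dif_neg h2]
            exact Commute.one_right _
        · rw [dif_neg h1]
          exact Commute.one_left _
      yc := fun _ _ => Commute.one_left _
      zc := fun _ _ => Commute.one_left _
      zy := fun _ => Commute.one_left _ }
  refine ⟨lift D L, fun a => lift_hq D L a, ?_⟩
  rintro ⟨⟨g, j⟩, h⟩
  change lift D L (hc D g j) = _
  rw [lift_hc]
  exact dif_pos h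

end Pool.Agent.SFP
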