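import Pool.Agent.SFP.Cx
import Pool.Agent.SFP.ExtC

/-!
# Ind: the inclusion of `G` in the kernel (definitions)

`H` is a group with `q : G × Multiplicative ℤ →* H` injective and a character `χ` with `χ (q a) = a.2`; `R = χ.ker`,
`kap : G →* R`, `g ↦ q (g, 1)`.
-/

set_option linter.unusedSectionVars false

namespace Pool.Agent.SFP

open Pool.Agent.Hhelper49.Srr Pool.Agent.Hhelper49.Srf

section
variable {G H : Type} [Group G] [Group H] (q : G × Multiplicative ℤ →* H) (χ : H →* Multiplicative ℤ)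
  (hχ : ∀ a, χ (q a) = a.2)

/-- the inclusion of `G` in the kernel of `χ` -/
def kap : G →* χ.ker where
  toFun g := ⟨q (g, 1), by rw [MonoidHom.mem_ker, hχ]⟩
  map_one' := Subtype.ext (map_one q)
  map_mul' a b := by
    apply Subtype.ext
    change q (a * b, 1) = q (a, 1) * q (b, 1)
    rw [← map_mul]
    rfl

theorem kap_coe (g : G) : ((kap q χ hχ g : χ.ker) : H) = q (g, 1) := rfl

/-- `ℤ[G] → ℤ[G × ℤ]` -/
noncomputable def inG (G : Type) [Group G] : ZG G →+* ZG (G × Multiplicative ℤ) :=
  MonoidAlgebra.mapDomainRingHom ℤ (MonoidHom.inl G (Multiplicative ℤ))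

theorem inG_of (g : G) : inG G (of' g) = of' (g, 1) := by
  change MonoidAlgebra.mapDomain (MonoidHom.inl G (Multiplicative ℤ)) (MonoidAlgebra.single g 1) =
    MonoidAlgebra.single (g, 1) 1
  exact MonoidAlgebra.mapDomain_single

/-- the matrix `t - e`, `e` the matrix of the idempotent `s ∘ f` -/
noncomputable def matA {n : ℕ} {P : Type} [AddCommGroup P] [Module (ZG G) P]
    (f : (Fin n → ZG G) →ₗ[ZG G] P) (s : P →ₗ[ZG G] (Fin n → ZG G)) :
    Fin n → Fin n → ZG (G × Multiplicative ℤ) :=
  fun j l => (if j = l then of' ((1, Multiplicative.ofAdd 1) : G × Multiplicative ℤ) else 0) -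
    inG G (s (f (Pi.single j 1)) l)

end

end Pool.Agent.SFP
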