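import Pool.Agent.SFP.LabStep
import Pool.Agent.SFP.Alg

/-!
# Module LabInd: the permutation modules of the label subgroups are good

Strong induction on the number of elements of `T` (`Gm × Bool` is finite, so `T` is): `T = ∅` is the hypothesis.  Otherwise
`T = insert l T₀`, `l ∉ T₀`; `lab_step` for `T₀`, `l`: the modules for `T₀` and for `{l' ∈ T₀ | ..}` are good by induction, so the
module for `T` is good by `coker`.
-/

set_option linter.unusedSectionVars false

namespace Pool.Agent.SFP

open Pool.Agent.Hhelper49.Srr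

variable {Q Gm Rl Sl : Type} [Group Q] (D : Dat Q Gm Rl Sl)
variable {Good : ∀ (M : Type) [AddCommGroup M] [Module (ZG (HH D)) M], Prop}

theorem good_lab [Fintype Gm] (hG : Cls23 (ZG (HH D)) Good) (h0 : Good (ZG (HH D) ⧸ JL D ∅))
    (T : Set (Gm × Bool)) : Good (ZG (HH D) ⧸ JL D T) := by
  induction hn : T.ncard using Nat.strong_induction_on generalizing T with
  | _ n ih =>
    subst hn
    rcases T.eq_empty_or_nonempty with rfl | ⟨l, hl⟩
    · exact h0
    · have hfin : T.Finite := Set.toFinite T
      have h1 : (T \ {l}).ncard < T.ncard := Set.ncard_diff_singleton_lt_of_mem hl hfin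
      have hfin1 : (T \ {l}).Finite := Set.toFinite _
      obtain ⟨f, g, hf, hg, hfg⟩ := lab_step D (T \ {l}) l (fun h => h.2 rfl)
      have h2 : {l' | l' ∈ T \ {l} ∧ (cadj D l l' ∨ cadj D l' l)}.ncard < T.ncard :=
        lt_of_le_of_lt (Set.ncard_le_ncard (fun x hx => hx.1) hfin1) h1
      have key : Good (ZG (HH D) ⧸ JL D (insert l (T \ {l}))) :=
        hG.coker f g hf hg hfg (ih _ h2 _ rfl) (ih _ h1 _ rfl)
      have e : insert l (T \ {l}) = T := Set.insert_diff_self_of_mem hl
      rw [e] at key
      exact key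

end Pool.Agent.SFP
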