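import Pool.Agent.SFP.Homs
import Pool.Agent.SFP.ExtB

/-!
# Module LabStep: adding one label

`JL D T` is the left ideal generated by the `1 - q a` and the `1 - c l`, `l ∈ T` (`T` a set of labels).  Let `l ∉ T`,
`T' = {l' ∈ T | cadj D l l' ∨ cadj D l' l}`.  The sequence `0 → B / JL T' → B / JL T → B / JL (insert l T) → 0`, `B = ZG (HH D)`,
with `f [b] = [b (1 - c l)]` and `g` the projection, is exact.
(1) `f` is well defined: for `b = 1 - q a`: `(1 - q a)(1 - c l) = (1 - c l)(1 - q a)` (`hcq`); for `b = 1 - c l'`, `l' ∈ T'`: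
`(1 - c l')(1 - c l) = (1 - c l)(1 - c l') ∈ JL T` (`c l` and `c l'` commute by `hcc`, since `cadj` is given by a slot).
(2) `g` is surjective, and `ker g = JL (insert l T) / JL T` is generated by `[1 - c l]`, i.e. the range of `f`
(`Submodule.span_union`, `Submodule.mem_sup`, `Submodule.mem_span_singleton`).
(3) `f` is injective: apply `ext_lemma` with `V = {l' // l' ∈ insert l T}`, `adj v w = cadj D v.1 w.1`,
`u v = hc D v.1.1 v.1.2` (commutation: `hcc`), `ρ` from `hom_lab D (insert l T)`, `M = B ⧸ JL D T'`,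
`m v = if v.1 = l then [1] else 0`, `X = range (hq D)`.
`hm`: for `adj v w`, `v.1 = l`, `w.1 ≠ l`: `w.1 ∈ T'`, so `(1 - c w) [1] = 0 = m w - act _ (m w)`; similarly for `w.1 = l`, `v.1 ≠ l`;
the cases `v = w` and `v.1, w.1 ≠ l` are trivial.  `hX2`: `hcq`; `hX3`: `act (q a) [1] = [1]` since `1 - q a ∈ JL D T'`.
The resulting `Ψ : B →+ M` satisfies `Ψ (b q a) = Ψ b`, `Ψ (b c l') = Ψ b` for `l' ∈ T` (`m = 0`, as `l ∉ T`), so it vanishes on
`JL D T` (all elements are sums of `b (1 - q a)`, `b (1 - c l')`), and `Ψ (b (1 - c l)) = - b • [1] = - [b]`.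
So if `b (1 - c l) ∈ JL D T`, then `[b] = 0` in `B ⧸ JL D T'`.
-/

set_option linter.unusedSectionVars false

namespace Pool.Agent.SFP

open Pool.Agent.Hhelper49.Srr

variable {Q Gm Rl Sl : Type} [Group Q] (D : Dat Q Gm Rl Sl)

namespace LabStep

theorem mem_q (T : Set (Gm × Bool)) (a : Q) : (1 - of' (hq D a) : ZG (HH D)) ∈ JL D T :=
  Submodule.subset_span (Or.inl ⟨a, rfl⟩)

theorem mem_c (T : Set (Gm × Bool)) {l : Gm × Bool} (hl : l ∈ T) :
    (1 - of' (hc D l.1 l.2) : ZG (HH D)) ∈ JL D T :=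
  Submodule.subset_span (Or.inr ⟨l, hl, rfl⟩)

theorem mono {T T' : Set (Gm × Bool)} (h : T ⊆ T') : JL D T ≤ JL D T' := by
  unfold JL
  apply Submodule.span_mono
  rintro b (⟨a, rfl⟩ | ⟨l, hl, rfl⟩)
  · exact Or.inl ⟨a, rfl⟩
  · exact Or.inr ⟨l, h hl, rfl⟩

theorem comm_c {l l' : Gm × Bool} (h : cadj D l l') :
    Commute (hc D l.1 l.2) (hc D l'.1 l'.2) := by
  obtain ⟨s, rfl, rfl⟩ := h
  exact hcc D s

theorem swap {H : Type} [Group H] {u v : H} (h : Commute u v) :
    (1 - of' u : ZG H) * (1 - of' v) = (1 - of' v) * (1 - of' u) := by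
  have h1 : (of' u : ZG H) * of' v = of' v * of' u := by
    rw [← map_mul, ← map_mul, h.eq]
  rw [sub_mul, mul_sub, mul_sub, sub_mul, mul_sub, mul_sub, h1]
  simp only [one_mul, mul_one]
  abel

theorem mem_insert {T : Set (Gm × Bool)} {l : Gm × Bool} {b : ZG (HH D)}
    (hb : b ∈ JL D (insert l T)) :
    ∃ x : ZG (HH D), b - x * (1 - of' (hc D l.1 l.2)) ∈ JL D T := by
  unfold JL at hb
  induction hb using Submodule.span_induction with
  | mem x hx =>
    rcases hx with ⟨a, rfl⟩ | ⟨l', hl', rfl⟩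
    · exact ⟨0, by rw [zero_mul, sub_zero]; exact mem_q D T a⟩
    · rcases hl' with rfl | hl'
      · exact ⟨1, by rw [one_mul, sub_self]; exact Submodule.zero_mem _⟩
      · exact ⟨0, by rw [zero_mul, sub_zero]; exact mem_c D T hl'⟩
  | zero => exact ⟨0, by rw [zero_mul, sub_zero]; exact Submodule.zero_mem _⟩
  | add x y _ _ hx hy =>
    obtain ⟨u, hu⟩ := hx
    obtain ⟨v, hv⟩ := hy
    refine ⟨u + v, ?_⟩
    have h1 : x + y - (u + v) * (1 - of' (hc D l.1 l.2)) =
        (x - u * (1 - of' (hc D l.1 l.2))) + (y - v * (1 - of' (hc D l.1 l.2))) := by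
      rw [add_mul]
      abel
    rw [h1]
    exact Submodule.add_mem _ hu hv
  | smul r x _ hx =>
    obtain ⟨u, hu⟩ := hx
    refine ⟨r * u, ?_⟩
    have h1 : r • x - r * u * (1 - of' (hc D l.1 l.2)) = r • (x - u * (1 - of' (hc D l.1 l.2))) := by
      rw [smul_sub, smul_eq_mul, smul_eq_mul, mul_assoc]
    rw [h1]
    exact Submodule.smul_mem _ _ hu

end LabStep

theorem lab_step (T : Set (Gm × Bool)) (l : Gm × Bool) (hl : l ∉ T) :
    ∃ (f : (ZG (HH D) ⧸ JL D {l' | l' ∈ T ∧ (cadj D l l' ∨ cadj D l' l)}) →ₗ[ZG (HH D)] (ZG (HH D) ⧸ JL D T))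
      (g : (ZG (HH D) ⧸ JL D T) →ₗ[ZG (HH D)] (ZG (HH D) ⧸ JL D (insert l T))),
      Function.Injective f ∧ Function.Surjective g ∧ LinearMap.range f = LinearMap.ker g := by
  classical
  set T' : Set (Gm × Bool) := {l' | l' ∈ T ∧ (cadj D l l' ∨ cadj D l' l)} with hT'
  have hker : JL D T' ≤ LinearMap.ker (LinearMap.toSpanSingleton (ZG (HH D)) (ZG (HH D) ⧸ JL D T)
      ((JL D T).mkQ (1 - of' (hc D l.1 l.2)))) := by
    conv_lhs => unfold JL
    rw [Submodule.span_le]
    rintro b (⟨a, rfl⟩ | ⟨l', hl', rfl⟩)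
    · rw [SetLike.mem_coe, LinearMap.mem_ker, LinearMap.toSpanSingleton_apply, ← map_smul,
        smul_eq_mul, LabStep.swap (hcq D l.1 l.2 a).symm, Submodule.mkQ_apply,
        Submodule.Quotient.mk_eq_zero]
      exact Submodule.smul_mem _ _ (LabStep.mem_q D T a)
    · have hcomm : Commute (hc D l'.1 l'.2) (hc D l.1 l.2) := by
        rcases hl'.2 with h | h
        · exact (LabStep.comm_c D h).symm
        · exact LabStep.comm_c D h
      rw [SetLike.mem_coe, LinearMap.mem_ker, LinearMap.toSpanSingleton_apply, ← map_smul,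
        smul_eq_mul, LabStep.swap hcomm, Submodule.mkQ_apply, Submodule.Quotient.mk_eq_zero]
      exact Submodule.smul_mem _ _ (LabStep.mem_c D T hl'.1)
  have hf : ∀ b : ZG (HH D), (JL D T').liftQ _ hker ((JL D T').mkQ b) =
      (JL D T).mkQ (b * (1 - of' (hc D l.1 l.2))) := by
    intro b
    calc (JL D T').liftQ _ hker ((JL D T').mkQ b) =
        b • (JL D T).mkQ (1 - of' (hc D l.1 l.2)) := rfl
      _ = _ := by rw [← map_smul, smul_eq_mul]
  have hle : JL D T ≤ JL D (insert l T) := LabStep.mono D (Set.subset_insert l T)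
  refine ⟨(JL D T').liftQ _ hker, Submodule.factor hle, ?_, Submodule.factor_surjective hle, ?_⟩
  · rw [← LinearMap.ker_eq_bot, LinearMap.ker_eq_bot']
    intro z hz
    obtain ⟨b, rfl⟩ := Submodule.mkQ_surjective (JL D T') z
    rw [hf, Submodule.mkQ_apply, Submodule.Quotient.mk_eq_zero] at hz
    obtain ⟨ρ, hρ1, hρ2⟩ := hom_lab D (insert l T)
    let m : {l' : Gm × Bool // l' ∈ insert l T} → ZG (HH D) ⧸ JL D T' :=
      fun v => if v.1 = l then (JL D T').mkQ 1 else 0
    have hact : ∀ x : HH D, (1 - of' x : ZG (HH D)) ∈ JL D T' →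
        act x ((JL D T').mkQ 1) = (JL D T').mkQ 1 := by
      intro x hx
      have h1 : (JL D T').mkQ (1 - of' x) = 0 := by
        rw [Submodule.mkQ_apply, Submodule.Quotient.mk_eq_zero]
        exact hx
      rw [map_sub, sub_eq_zero] at h1
      rw [act, ← map_smul, smul_eq_mul, mul_one]
      exact h1.symm
    have hm1 : ∀ v w : {l' : Gm × Bool // l' ∈ insert l T},
        (cadj D v.1 w.1 ∨ cadj D w.1 v.1) → v.1 = l → w.1 ≠ l →
        m v - act (hc D w.1.1 w.1.2) (m v) = 0 := by
      intro v w h hv hw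
      have h1 : w.1 ∈ T' := by
        refine ⟨?_, ?_⟩
        · rcases w.2 with h2 | h2
          · exact absurd h2 hw
          · exact h2
        · rw [hv] at h
          exact h
      have h2 : m v = (JL D T').mkQ 1 := if_pos hv
      rw [h2, hact _ (LabStep.mem_c D T' h1), sub_self]
    have hm0 : ∀ v : {l' : Gm × Bool // l' ∈ insert l T}, v.1 ≠ l → m v = 0 :=
      fun v hv => if_neg hv
    have hact0 : ∀ x : HH D, act x (0 : ZG (HH D) ⧸ JL D T') = 0 := by
      intro x
      rw [act, smul_zero]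
    obtain ⟨Ψ, hΨ1, hΨ2⟩ := ext_lemma (fun v w : {l' : Gm × Bool // l' ∈ insert l T} =>
        cadj D v.1 w.1) (fun v => hc D v.1.1 v.1.2) (fun v w h => LabStep.comm_c D h) ρ hρ2
        (ZG (HH D) ⧸ JL D T') m (by
          intro v w h
          show m v - act (hc D w.1.1 w.1.2) (m v) = m w - act (hc D v.1.1 v.1.2) (m w)
          by_cases hv : v.1 = l
          · by_cases hw : w.1 = l
            · have hvw : v = w := Subtype.ext (hv.trans hw.symm)
              rw [hvw]
            · rw [hm1 v w (Or.inl h) hv hw, hm0 w hw, hact0, sub_zero]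
          · by_cases hw : w.1 = l
            · rw [hm1 w v (Or.inr h) hw hv, hm0 v hv, hact0, sub_zero]
            · rw [hm0 v hv, hm0 w hw, hact0, hact0])
        (Set.range (hq D)) (by
          rintro x ⟨a, rfl⟩
          exact hρ1 a) (by
          rintro x ⟨a, rfl⟩ v
          exact (hcq D v.1.1 v.1.2 a).symm) (by
          rintro x ⟨a, rfl⟩ v
          by_cases hv : v.1 = l
          · have h2 : m v = (JL D T').mkQ 1 := if_pos hv
            rw [h2]
            exact hact _ (LabStep.mem_q D T' a)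
          · rw [hm0 v hv, hact0])
    have hvan : ∀ x ∈ JL D T, ∀ b : ZG (HH D), Ψ (b * x) = 0 := by
      intro x hx
      unfold JL at hx
      induction hx using Submodule.span_induction with
      | mem x hx =>
        intro b
        rcases hx with ⟨a, rfl⟩ | ⟨l', hl', rfl⟩
        · rw [mul_sub, mul_one, map_sub, hΨ2 b _ ⟨a, rfl⟩, sub_self]
        · have h1 := hΨ1 b ⟨l', Set.mem_insert_of_mem l hl'⟩
          have h2 : m ⟨l', Set.mem_insert_of_mem l hl'⟩ = 0 :=
            hm0 _ (fun h => hl (h ▸ hl'))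
          rw [h2, smul_zero, add_zero] at h1
          rw [mul_sub, mul_one, map_sub, h1, sub_self]
      | zero => intro b; rw [mul_zero, map_zero]
      | add x y _ _ hx hy => intro b; rw [mul_add, map_add, hx, hy, add_zero]
      | smul r x _ hx => intro b; rw [smul_eq_mul, ← mul_assoc]; exact hx _
    have h1 := hvan _ hz 1
    have h2 := hΨ1 b ⟨l, Set.mem_insert l T⟩
    have h3 : m ⟨l, Set.mem_insert l T⟩ = (JL D T').mkQ 1 := if_pos rfl
    rw [h3, ← map_smul, smul_eq_mul, mul_one] at h2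
    rw [one_mul, mul_sub, mul_one, map_sub] at h1
    have h4 : Ψ (b * of' (hc D l.1 l.2)) = Ψ b := (sub_eq_zero.mp h1).symm
    rw [h4] at h2
    exact left_eq_add.mp h2
  · ext z
    obtain ⟨b, rfl⟩ := Submodule.mkQ_surjective (JL D T) z
    rw [LinearMap.mem_range, LinearMap.mem_ker]
    have hg : Submodule.factor hle ((JL D T).mkQ b) = (JL D (insert l T)).mkQ b := rfl
    rw [hg]
    constructor
    · rintro ⟨w, hw⟩
      obtain ⟨x, rfl⟩ := Submodule.mkQ_surjective (JL D T') w
      rw [hf] at hw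
      have h1 : x * (1 - of' (hc D l.1 l.2)) - b ∈ JL D T := by
        rw [← Submodule.Quotient.mk_eq_zero, Submodule.Quotient.mk_sub, sub_eq_zero]
        exact hw
      have h2 : x * (1 - of' (hc D l.1 l.2)) ∈ JL D (insert l T) :=
        Submodule.smul_mem _ x (LabStep.mem_c D _ (Set.mem_insert l T))
      rw [Submodule.mkQ_apply, Submodule.Quotient.mk_eq_zero]
      have h3 := Submodule.sub_mem _ h2 (hle h1)
      rwa [sub_sub_cancel] at h3
    · intro h
      rw [Submodule.mkQ_apply, Submodule.Quotient.mk_eq_zero] at h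
      obtain ⟨x, hx⟩ := LabStep.mem_insert D h
      refine ⟨(JL D T').mkQ x, ?_⟩
      rw [hf]
      have h1 : (JL D T).mkQ (b - x * (1 - of' (hc D l.1 l.2))) = 0 := by
        rw [Submodule.mkQ_apply, Submodule.Quotient.mk_eq_zero]
        exact hx
      rw [map_sub, sub_eq_zero] at h1
      exact h1.symm

end Pool.Agent.SFP
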