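import Pool.Agent.SFP.Homs
import Pool.Agent.SFP.ExtC

/-!
# Module Link: exactness of the link complexes

`link_exact`: fix `r : Rl` and apply `raag_ker` with `V = {v : Sl × Fin 3 // D.rel v.1 = r}` (a `Fintype`),
`adj v w = (w.1 = lnx D v.1)`, `u v = lv D v.1` (commutation: `lv_comm`), `ρ` from `hom_link`, `a v = b v.1`.  The hypothesis is
`∑ v : V, b v.1 * (1 - of' (lv D v.1)) = 0`, from `h r` (`Finset.sum_subtype` or `Finset.sum_filter`).  So `a` is in the span of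
the `e_(lnx v) (1 - u v) - e_v (1 - u (lnx v))`, `v ∈ V` (`lnx` preserves `V` by `rel_lnx`): by span induction there is
`ζ_r : V → ZG (HH D)` with `a = ∑_(v ∈ V) ζ_r v • (e_(lnx v) (1 - u v) - e_v (1 - u (lnx v)))`, i.e.
`b v = ζ_r (lnx⁻¹ v) (1 - u (lnx⁻¹ v)) - ζ_r v (1 - u (lnx v))` for `v ∈ V`.
Put `ζ v = ζ_(D.rel v.1) v`.
(Instead of the span induction for each `r` one can first extend all functions by `0` to `Sl × Fin 3`.)
-/

set_option linter.unusedSectionVars false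

namespace Pool.Agent.SFP

open Pool.Agent.Hhelper49.Srr

variable {Q Gm Rl Sl : Type} [Group Q] (D : Dat Q Gm Rl Sl)
variable [Fintype Gm] [DecidableEq Gm] [Fintype Rl] [DecidableEq Rl] [Fintype Sl] [DecidableEq Sl]

theorem bd_add (ζ ζ' : Sl × Fin 3 → ZG (HH D)) (v : Sl × Fin 3) :
    bd D (wE D) (ζ + ζ') v = bd D (wE D) ζ v + bd D (wE D) ζ' v :=
  congrFun (map_add (d2 D (wE D)) ζ ζ') (Sum.inr v)

theorem bd_smul (c : ZG (HH D)) (ζ : Sl × Fin 3 → ZG (HH D)) (v : Sl × Fin 3) :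
    bd D (wE D) (c • ζ) v = c * bd D (wE D) ζ v :=
  congrFun (map_smul (d2 D (wE D)) c ζ) (Sum.inr v)

theorem bd_single (v x : Sl × Fin 3) :
    bd D (wE D) (Pi.single v 1) x =
      (if x = lnx D v then wE D (lv D v) else 0) - (if x = v then wE D (lv D (lnx D v)) else 0) := by
  unfold bd
  congr 1
  · by_cases h : x = lnx D v
    · rw [if_pos h, h, (lnx D).symm_apply_apply, Pi.single_eq_same, one_mul]
    · have h1 : (lnx D).symm x ≠ v := fun h2 => h (by rw [← h2, (lnx D).apply_symm_apply])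
      rw [if_neg h, Pi.single_eq_of_ne h1, zero_mul]
  · by_cases h : x = v
    · rw [if_pos h, h, Pi.single_eq_same, one_mul]
    · rw [if_neg h, Pi.single_eq_of_ne h, zero_mul]

theorem link_one (b : Sl × Fin 3 → ZG (HH D)) (r : Rl)
    (h : (∑ v : Sl × Fin 3, if D.rel v.1 = r then b v * wE D (lv D v) else 0) = 0) :
    ∃ ζ : Sl × Fin 3 → ZG (HH D), ∀ v : Sl × Fin 3, D.rel v.1 = r → bd D (wE D) ζ v = b v := by
  obtain ⟨ρ, hρ⟩ := hom_link D r
  have hu : ∀ v w : {v : Sl × Fin 3 // D.rel v.1 = r}, w.1 = lnx D v.1 →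
      Commute (lv D v.1) (lv D w.1) := by
    intro v w hw
    rw [hw]
    exact lv_comm D v.1
  have ha : ∑ v : {v : Sl × Fin 3 // D.rel v.1 = r}, b v.1 * (1 - of' (lv D v.1)) = 0 := by
    rw [← Finset.sum_filter] at h
    rw [← h]
    exact (Finset.sum_subtype (p := fun v : Sl × Fin 3 => D.rel v.1 = r) _ (fun x => by
      rw [Finset.mem_filter]
      exact ⟨fun h => h.2, fun h => ⟨Finset.mem_univ _, h⟩⟩)
      (fun v => b v * wE D (lv D v))).symm
  have key := raag_ker (fun v w : {v : Sl × Fin 3 // D.rel v.1 = r} => w.1 = lnx D v.1)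
    (fun v => lv D v.1) hu ρ hρ (fun v => b v.1) ha
  have hP : ∀ a : {v : Sl × Fin 3 // D.rel v.1 = r} → ZG (HH D),
      a ∈ Submodule.span (ZG (HH D)) {b : {v : Sl × Fin 3 // D.rel v.1 = r} → ZG (HH D) | ∃ v w,
        w.1 = lnx D v.1 ∧ b = Pi.single w (1 - of' (lv D v.1)) - Pi.single v (1 - of' (lv D w.1))} →
      ∃ ζ : Sl × Fin 3 → ZG (HH D), ∀ v : {v : Sl × Fin 3 // D.rel v.1 = r},
        bd D (wE D) ζ v.1 = a v := by
    intro a ha
    induction ha using Submodule.span_induction with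
    | mem a ha =>
      obtain ⟨v, w, hvw, rfl⟩ := ha
      refine ⟨Pi.single v.1 1, fun x => ?_⟩
      rw [bd_single, Pi.sub_apply, Pi.single_apply, Pi.single_apply]
      congr 1
      · by_cases hx : x = w
        · rw [if_pos hx, if_pos (by rw [hx, hvw])]
          rfl
        · rw [if_neg hx, if_neg (fun h1 => hx (Subtype.ext (by rw [h1, hvw])))]
      · by_cases hx : x = v
        · rw [if_pos hx, if_pos (by rw [hx]), hvw]
          rfl
        · rw [if_neg hx, if_neg (fun h1 => hx (Subtype.ext h1))]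
    | zero =>
      refine ⟨0, fun x => ?_⟩
      exact congrFun (map_zero (d2 D (wE D))) (Sum.inr x.1)
    | add a a' _ _ ih ih' =>
      obtain ⟨ζ, hζ⟩ := ih
      obtain ⟨ζ', hζ'⟩ := ih'
      refine ⟨ζ + ζ', fun x => ?_⟩
      rw [bd_add, hζ, hζ', Pi.add_apply]
    | smul c a _ ih =>
      obtain ⟨ζ, hζ⟩ := ih
      refine ⟨c • ζ, fun x => ?_⟩
      rw [bd_smul, hζ, Pi.smul_apply, smul_eq_mul]
  obtain ⟨ζ, hζ⟩ := hP _ key
  exact ⟨ζ, fun v hv => hζ ⟨v, hv⟩⟩

theorem link_exact (b : Sl × Fin 3 → ZG (HH D))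
    (h : ∀ r, (∑ v : Sl × Fin 3, if D.rel v.1 = r then b v * wE D (lv D v) else 0) = 0) :
    ∃ ζ : Sl × Fin 3 → ZG (HH D), bd D (wE D) ζ = b := by
  choose ζ hζ using fun r => link_one D b r (h r)
  refine ⟨fun v => ζ (D.rel v.1) v, ?_⟩
  funext v
  rw [← hζ (D.rel v.1) v rfl]
  unfold bd
  beta_reduce
  rw [rel_lnx_symm D v]

end Pool.Agent.SFP
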