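import Pool.Agent.SFP.Defs

/-!
# MG: the group of pairs `(m, h)`
-/

set_option linter.unusedSectionVars false

namespace Pool.Agent.SFP

open Pool.Agent.Hhelper49.Srr

/-- pairs `(m, h)` with `(m, h) (m', h') = (m + h m', h h')` -/
@[ext] structure MG (H M : Type) where
  /-- module part -/
  m : M
  /-- group part -/
  h : H

section
variable {H M : Type} [Group H] [AddCommGroup M] [Module (ZG H) M]

noncomputable instance : Group (MG H M) where
  mul a b := ⟨a.m + act a.h b.m, a.h * b.h⟩
  one := ⟨0, 1⟩
  inv a := ⟨-act a.h⁻¹ a.m, a.h⁻¹⟩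
  mul_assoc a b c := by
    apply MG.ext
    · change a.m + act a.h b.m + act (a.h * b.h) c.m = a.m + act a.h (b.m + act b.h c.m)
      rw [act_mul, act, act, act, act, smul_add, add_assoc]
    · exact mul_assoc _ _ _
  one_mul a := by
    apply MG.ext
    · change (0 : M) + act 1 a.m = a.m
      rw [act_one, zero_add]
    · exact one_mul _
  mul_one a := by
    apply MG.ext
    · change a.m + act a.h 0 = a.m
      rw [act, smul_zero, add_zero]
    · exact mul_one _
  inv_mul_cancel a := by
    apply MG.ext
    · change -act a.h⁻¹ a.m + act a.h⁻¹ a.m = 0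
      rw [neg_add_cancel]
    · exact inv_mul_cancel _

theorem MG.mul_m (a b : MG H M) : (a * b).m = a.m + act a.h b.m := rfl

theorem MG.mul_h (a b : MG H M) : (a * b).h = a.h * b.h := rfl

theorem MG.one_m : (1 : MG H M).m = 0 := rfl

theorem MG.one_h : (1 : MG H M).h = 1 := rfl

theorem MG.inv_m (a : MG H M) : (a⁻¹).m = -act a.h⁻¹ a.m := rfl

theorem MG.inv_h (a : MG H M) : (a⁻¹).h = a.h⁻¹ := rfl

theorem MG.commute (a b : MG H M) (h1 : Commute a.h b.h) (h2 : a.m - act b.h a.m = b.m - act a.h b.m) :
    Commute a b := by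
  apply MG.ext
  · rw [MG.mul_m, MG.mul_m]
    have h3 : a.m + act a.h b.m = (a.m - act b.h a.m) + (act b.h a.m + act a.h b.m) := by abel
    have h4 : b.m + act b.h a.m = (b.m - act a.h b.m) + (act b.h a.m + act a.h b.m) := by abel
    rw [h3, h4, h2]
  · exact h1

/-- projection to the group -/
def MG.pr (H M : Type) [Group H] [AddCommGroup M] [Module (ZG H) M] : MG H M →* H where
  toFun := MG.h
  map_one' := rfl
  map_mul' _ _ := rfl

end

end Pool.Agent.SFP
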