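import Pool.Agent.SFP.ExE
import Pool.Agent.SFP.ExE0
import Pool.Agent.SFP.ExE1
import Pool.Agent.SFP.ExF
import Pool.Agent.SFP.ExF2
import Pool.Agent.SFP.CokE
import Pool.Agent.SFP.LabInd

/-!
# Main1: the trivial module is good iff the module of the data is good
-/

set_option linter.unusedSectionVars false

namespace Pool.Agent.SFP

open Pool.Agent.Hhelper49.Srr

variable {Q Gm Rl Sl : Type} [Group Q] (D : Dat Q Gm Rl Sl)
variable [Fintype Gm] [DecidableEq Gm] [Fintype Rl] [DecidableEq Rl] [Fintype Sl] [DecidableEq Sl]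
variable {Good : ∀ (M : Type) [AddCommGroup M] [Module (ZG (HH D)) M], Prop}

theorem main1 (χ : Q →* Multiplicative ℤ) (hG : Cls23 (ZG (HH D)) Good)
    (hu : ∀ u, chi D χ u = Multiplicative.ofAdd 1 →
      Good (ZG (HH D) ⧸ Submodule.span (ZG (HH D)) {1 - of' u}))
    (h0 : Good (ZG (HH D) ⧸ JL D ∅)) (hinj : Function.Injective (relM (phi D) D)) :
    Good (Triv (HH D)) ↔ Good ((Gm → ZG (HH D)) ⧸ LinearMap.range (relM (phi D) D)) := by
  have h1 := alg_main hG (d1 D (wE D)) (d2 D (wE D)) (eps0 D) (eps0_surj D) (exact_E0 D) (exact_E1 D)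
    (d2E_inj D) (d1 D (wF D)) (d2 D (wF D)) (d1F_surj D) (d2F_inj D hinj) (dd_zero_F D)
    (mulW (w0 D)) (mulW (w1 D)) (mulW (w2 D)) (mulW_inj0 D) (mulW_inj1 D) (mulW_inj2 D) (chain1 D)
    (chain2 D) (cok0 D χ hG hu) (cok1 D χ hG hu) (cok2 D χ hG hu) (psi D) (psiF1 D) (psiF2 D)
    (LinearMap.range (relM (phi D) D)) (psiF3 D)
  rw [← h1]
  have h2 := good_lab D hG h0 Set.univ
  constructor
  · intro h
    exact hG.ker (LinearMap.ker (augS D)).subtype (augS D) (Submodule.injective_subtype _)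
      (augS_surj D) (Submodule.range_subtype _) h2 h
  · intro h
    exact hG.coker (LinearMap.ker (augS D)).subtype (augS D) (Submodule.injective_subtype _)
      (augS_surj D) (Submodule.range_subtype _) h h2

end Pool.Agent.SFP
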